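import Pool.Agent.Helper78.AST.SlopeB

/-!
# AST-27 ActHom: the permutation action on a block with distinct elements (short)

`hinj`: the `β ((j, c), i)` are distinct. For `ν ∈ NN`, `gal` with `a = 1` (`ν ζ = ζ = ζ ^ 1`, `(1 : ZMod p).val = 1` since `p > 1`; `1 * c = c`) gives a permutation `π` with
`ν β ((j, c), i) = β ((j, c), π i)`; by `hinj` it is unique: `ρ ν`. It is a homomorphism by uniqueness: `ν ν' β_i = ν β_{ρ ν' i} = β_{ρ ν (ρ ν' i)}`.
`φ ((j, c), i) (ν ν') = mu (ν (ν' β_i)) = mu (ν β_{ρ ν' i}) = φ ((j, c), ρ ν' i) ν`.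
-/

set_option autoImplicit false

open Polynomial

namespace Pool.Agent.Helper78.AST

variable {p : ℕ} [Fact p.Prime] {F : Type} [Field F] [Fintype F] [Algebra (ZMod p) F] {J : Type}
  {n : ℕ} {f : J → F[X]} {L : IntermediateField ℚ ℂ} [FiniteDimensional ℚ L] [IsGalois ℚ L]

theorem Data.exists_rho (D : Data p F n f L) (j : J) (c : (ZMod p)ˣ)
    (hinj : Function.Injective fun i => D.β ((j, c), i)) :
    ∃ ρ : D.NN →* Equiv.Perm (Fin n),
      (∀ (ν : D.NN) i, (ν : L ≃ₐ[ℚ] L) (D.β ((j, c), i)) = D.β ((j, c), ρ ν i)) ∧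
      ∀ i (ν ν' : D.NN), D.φ ((j, c), i) (ν * ν') = D.φ ((j, c), ρ ν' i) ν := by
  have hex : ∀ ν : D.NN, ∃ π : Equiv.Perm (Fin n), ∀ i,
      (ν : L ≃ₐ[ℚ] L) (D.β ((j, c), i)) = D.β ((j, c), π i) := by
    intro ν
    have hp1 : 1 < p := (Fact.out : p.Prime).one_lt
    haveI : Fact (1 < p) := ⟨hp1⟩
    have h1 : (ν : L ≃ₐ[ℚ] L) D.ζ = D.ζ ^ ((1 : (ZMod p)ˣ) : ZMod p).val := by
      rw [Units.val_one, ZMod.val_one, pow_one]
      exact ν.2
    obtain ⟨π, hπ⟩ := D.gal (ν : L ≃ₐ[ℚ] L) 1 h1 j c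
    refine ⟨π, fun i => ?_⟩
    rw [hπ i, one_mul]
  choose r hr using hex
  have huniq : ∀ (ν : D.NN) (i k : Fin n),
      (ν : L ≃ₐ[ℚ] L) (D.β ((j, c), i)) = D.β ((j, c), k) → r ν i = k := by
    intro ν i k h
    exact hinj ((hr ν i).symm.trans h)
  let ρ : D.NN →* Equiv.Perm (Fin n) :=
    { toFun := r
      map_one' := by
        ext i
        rw [huniq 1 i i (by simp)]
        rfl
      map_mul' := by
        intro ν ν'
        ext i
        rw [huniq (ν * ν') i (r ν (r ν' i)) (by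
          rw [Subgroup.coe_mul, AlgEquiv.mul_apply, hr ν' i, hr ν])]
        rfl }
  refine ⟨ρ, hr, fun i ν ν' => ?_⟩
  show D.mu (((ν * ν' : D.NN) : L ≃ₐ[ℚ] L) (D.β ((j, c), i))) =
    D.mu ((ν : L ≃ₐ[ℚ] L) (D.β ((j, c), r ν' i)))
  rw [Subgroup.coe_mul, AlgEquiv.mul_apply, hr ν' i]

end Pool.Agent.Helper78.AST
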