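import Pool.Agent.Helper78.AST.Defs

/-!
# AST: definitions for the combinatorial part

`N` is a finite group, `φ x : N → ℤ` functions with values `mu (ν β_x)`.
-/

set_option autoImplicit false

namespace Pool.Agent.Helper78.AST

/-- The relations between the functions `φ x` of length at most two, and the blocks. -/
def phiGen {N B I : Type} [DecidableEq B] [Fintype B] [Fintype I] (φ : B × I → N → ℤ) :
    Set (B × I → ℤ) :=
  {m | ((∀ ν, ∑ x, m x * φ x ν = 0) ∧ ∑ x, |m x| ≤ 2) ∨ ∃ a, m = block a}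

/-- The relations between the functions `φ i` of length at most two, and the constant relation. -/
def oneGen {N I : Type} [Fintype I] (φ : I → N → ℤ) : Set (I → ℤ) :=
  {t | ((∀ ν, ∑ i, t i * φ i ν = 0) ∧ ∑ i, |t i| ≤ 2) ∨ t = fun _ => 1}

/-- `φ'` is up to the sign and the order `φ`. -/
def Equi {N I : Type} (φ φ' : I → N → ℤ) : Prop :=
  ∃ (s : ℤ) (π : Equiv.Perm I), (s = 1 ∨ s = -1) ∧ ∀ i ν, φ' i ν = s * φ (π i) ν

/-- All scalar products on `N` vanish. -/
def Orth {N I : Type} [Fintype N] (φ φ' : I → N → ℤ) : Prop :=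
  ∀ i i', ∑ ν, φ i ν * φ' i' ν = 0

/-- `-1, 0, 1`. -/
def lab : Fin 3 → ℤ := ![-1, 0, 1]

/-- `-1, 1`. -/
def lab2 : Fin 2 → ℤ := ![-1, 1]

end Pool.Agent.Helper78.AST
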