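import Pool.Agent.Helper78.AST.OrthT

/-!
# AST-34 Dich3: two blocks of length three are equivalent or orthogonal

`φ i 1 = Y lab (l i)`, `φ' i 1 = Y lab (l' i)`; `φ i (ν ν') = φ (ρ ν' i) ν` and the same for `φ'`; `φ i (τ ν) = - φ i ν`, `φ' i (τ ν) = - φ' i ν`.
If `Y = 0` both vanish: `Equi` with `s = 1`, `π = 1`. Let `Y ≠ 0`.

`r ν = l * ρ ν * l⁻¹`, `r' ν = l' * ρ' ν * l'⁻¹`: homomorphisms `N → S = Perm (Fin 3)` with `φ (l⁻¹ k) ν = Y lab (r ν k)`, `φ' (l'⁻¹ k) ν = Y lab (r' ν k)`.
`w = swap 0 2`. The hypothesis on `τ` at `ν = 1` gives `r τ = w = r' τ`. (For a permutation `g`: `lab (w k) = - lab k`.)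

(E1) If `r' = r`: `φ' (l'⁻¹ k) = φ (l⁻¹ k)`: `Equi` with `s = 1`. (E2) If `r' ν = w r ν w` for all `ν`: `lab (w (r ν (w k))) = - lab (r ν (w k))`: `Equi` with `s = - 1`.
(O1) If some `g` has `r' g = 1` and `r g` a 3-cycle: `orth_of_trans` (powers of `g` are transitive through `ρ`; `φ' i' (ν g) = φ' i' ν` as `ρ' g = 1`).
(O2) Symmetrically if `r g = 1`, `r' g` a 3-cycle (`Orth` is symmetric up to exchanging).
(O3) If all `r ν`, `r' ν` are in `{1, w}` and `r g ≠ r' g` for some `g`: say `r g = w`, `r' g = 1` (or the other way round): `φ (l⁻¹ k) (ν g) = Y lab (r ν (w k))`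
  `= Y lab (w (r ν k)) = - φ (l⁻¹ k) ν` (elements of `{1, w}` commute), `φ' (ν g) = φ' ν`, so the scalar products are equal to their negatives: `Orth`.

One of these always holds. Let `G` be the set of the pairs `(r ν, r' ν)`, a subgroup of `S × S` containing `(w, w)`. Suppose not O1, O2.
Step A: all pairs have the same sign. Suppose `(x, y) ∈ G`, `sign x = 1`, `sign y = - 1` (the other case is symmetric). Then `y ^ 2 = 1`, `(x ^ 2, 1) ∈ G`, so
`x = 1` (otherwise `x ^ 2` is a 3-cycle: O1). So `(1, y) ∈ G`, `y` a transposition. If `y ≠ w`, `(w, w)(1, y)(w, w)(1, y) = (1, w y w y)`, a 3-cycle: O2. So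
`(1, w) ∈ G`, and `(w, 1) ∈ G`. If all pairs are in `{1, w} ^ 2` we are in O3. Otherwise there is `(u, v) ∈ G` with, say, `v ∉ {1, w}`:
`(u, v)(1, w)(u, v)⁻¹ (1, w) = (1, v w v⁻¹ w)` is a 3-cycle as `v w v⁻¹ ≠ w`: O2; if `u ∉ {1, w}`: the same with `(w, 1)`: O1.
Step B: all pairs have the same sign. The even ones are pairs of powers of the 3-cycle `c`. By not O1, O2: `x = 1 ↔ y = 1` for the even pairs. If `1` is the only
even one, `G = {1, (w, w)}` (an odd pair times `(w, w)` is even) and E1 holds. Otherwise there is an even pair `(c, c)` or `(c, c ^ 2)` (up to inverse), and every even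
pair `(x, y)` is in the group generated by it (multiply by a power to make the first entry `1`). So the even pairs satisfy `y = x` (all), or `y = x⁻¹ = w x w` (all); an
odd pair is an even pair times `(w, w)`, so `y = x`, or `y w = w x w w`, `y = w x w`. So E1 or E2.
(All statements on `Perm (Fin 3)` by `decide`.)
-/

set_option autoImplicit false

namespace Pool.Agent.Helper78.AST

private def w3 : Equiv.Perm (Fin 3) := Equiv.swap 0 2

private theorem inv_self (g : Equiv.Perm (Fin 3)) (x : Fin 3) : g⁻¹ (g x) = x :=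
  g.symm_apply_apply x

private theorem self_inv (g : Equiv.Perm (Fin 3)) (x : Fin 3) : g (g⁻¹ x) = x :=
  g.apply_symm_apply x

private theorem w_of_lab : ∀ g : Equiv.Perm (Fin 3), (∀ k, lab (g k) = -lab k) → g = w3 := by
  decide

private theorem lab_w : ∀ k : Fin 3, lab (w3 k) = -lab k := by decide

private theorem w_sq : w3 * w3 = 1 := by decide

set_option maxRecDepth 20000 in
private theorem cyc_trans : ∀ c : Equiv.Perm (Fin 3), c * c * c = 1 → c ≠ 1 → ∀ a b : Fin 3,
    a = b ∨ c a = b ∨ c (c a) = b := by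
  decide

private theorem odd_sq : ∀ x : Equiv.Perm (Fin 3), ¬ x * x * x = 1 → x * x = 1 := by decide

private theorem even_sq : ∀ x : Equiv.Perm (Fin 3), x * x * x = 1 →
    (x * x) * (x * x) * (x * x) = 1 ∧ (x * x = 1 → x = 1) := by
  decide

set_option maxRecDepth 20000 in
private theorem comm_w : ∀ y : Equiv.Perm (Fin 3), y ≠ 1 → y ≠ w3 →
    (y * w3 * y⁻¹ * w3) * (y * w3 * y⁻¹ * w3) * (y * w3 * y⁻¹ * w3) = 1 ∧
      y * w3 * y⁻¹ * w3 ≠ 1 := by
  decide

private theorem odd_ne_one : ∀ y : Equiv.Perm (Fin 3), ¬ y * y * y = 1 → y ≠ 1 := by decide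

private theorem even_ne_w : ∀ y : Equiv.Perm (Fin 3), y * y * y = 1 → y ≠ w3 := by decide

set_option maxRecDepth 20000 in
private theorem inv_of_ne : ∀ x y : Equiv.Perm (Fin 3), x * x * x = 1 → y * y * y = 1 → x ≠ 1 →
    y ≠ 1 → y ≠ x → y = x⁻¹ := by
  decide

private theorem conj_w : ∀ x : Equiv.Perm (Fin 3), x * x * x = 1 → w3 * x * w3 = x⁻¹ := by decide

private theorem odd_mul_w : ∀ x : Equiv.Perm (Fin 3), ¬ x * x * x = 1 →
    (w3 * x) * (w3 * x) * (w3 * x) = 1 := by
  decide

private theorem sum_lab : ∀ g : Equiv.Perm (Fin 3), lab (g 0) + lab (g 1) + lab (g 2) = 0 := by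
  decide

private theorem val_eq {N : Type} [Group N] (φ : Fin 3 → N → ℤ) (ρ : N →* Equiv.Perm (Fin 3))
    (hρ : ∀ i ν ν', φ i (ν * ν') = φ (ρ ν' i) ν) (Y : ℤ) (l : Equiv.Perm (Fin 3))
    (hl : ∀ i, φ i 1 = Y * lab (l i)) :
    ∃ r : N →* Equiv.Perm (Fin 3), (∀ i ν, φ i ν = Y * lab (r ν (l i))) ∧
      ∀ ν i, ρ ν i = l⁻¹ (r ν (l i)) := by
  refine ⟨(MulAut.conj l).toMonoidHom.comp ρ, ?_, ?_⟩
  · intro i ν
    have h1 := hρ i 1 ν
    rw [one_mul] at h1
    rw [h1, hl]
    simp [MulAut.conj_apply]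
  · intro ν i
    simp [MulAut.conj_apply]

private theorem orth_of_cycle {N : Type} [Group N] [Fintype N] (φ φ' : Fin 3 → N → ℤ)
    (ρ r r' : N →* Equiv.Perm (Fin 3)) (hρ : ∀ i ν ν', φ i (ν * ν') = φ (ρ ν' i) ν) (Y Y' : ℤ)
    (l l' : Equiv.Perm (Fin 3)) (h1 : ∀ i ν, φ i ν = Y * lab (r ν (l i)))
    (h1' : ∀ i ν, φ' i ν = Y' * lab (r' ν (l' i)))
    (h2 : ∀ ν i, ρ ν i = l⁻¹ (r ν (l i))) (g : N) (hg : r g * r g * r g = 1) (hg1 : r g ≠ 1)
    (hg' : r' g = 1) : Orth φ φ' := by
  refine orth_of_trans φ φ' ρ hρ ?_ ?_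
  · intro ν
    rw [Fin.sum_univ_three, h1, h1, h1]
    have h3 := sum_lab (r ν * l)
    simp only [Equiv.Perm.mul_apply] at h3
    linear_combination Y * h3
  · intro i k
    have h4 : ∀ i' ν, φ' i' (ν * g) = φ' i' ν := by
      intro i' ν
      rw [h1', h1', map_mul, hg', mul_one]
    rcases cyc_trans (r g) hg hg1 (l i) (l k) with h | h | h
    · refine ⟨1, ?_, fun i' ν => by rw [mul_one]⟩
      rw [map_one, Equiv.Perm.one_apply]
      exact l.injective h
    · refine ⟨g, ?_, h4⟩
      rw [h2, h, inv_self]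
    · refine ⟨g * g, ?_, fun i' ν => by rw [← mul_assoc, h4, h4]⟩
      rw [h2, map_mul, Equiv.Perm.mul_apply, h, inv_self]

theorem dich_three {N : Type} [Group N] [Fintype N] (φ φ' : Fin 3 → N → ℤ) (ρ ρ' : N →* Equiv.Perm (Fin 3))
    (hρ : ∀ i ν ν', φ i (ν * ν') = φ (ρ ν' i) ν) (hρ' : ∀ i ν ν', φ' i (ν * ν') = φ' (ρ' ν' i) ν)
    (Y : ℤ) (l l' : Equiv.Perm (Fin 3)) (hl : ∀ i, φ i 1 = Y * lab (l i)) (hl' : ∀ i, φ' i 1 = Y * lab (l' i))
    (τ : N) (hτ : ∀ i ν, φ i (τ * ν) = -φ i ν) (hτ' : ∀ i ν, φ' i (τ * ν) = -φ' i ν) :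
    Equi φ φ' ∨ Orth φ φ' := by
  obtain ⟨r, hr, hr2⟩ := val_eq φ ρ hρ Y l hl
  obtain ⟨r', hr', hr2'⟩ := val_eq φ' ρ' hρ' Y l' hl'
  by_cases hY : Y = 0
  · refine Or.inl ⟨1, 1, Or.inl rfl, fun i ν => ?_⟩
    rw [hr', hr, hY]
    ring
  have hw : r τ = w3 := by
    refine w_of_lab _ fun k => ?_
    have h1 := hτ (l⁻¹ k) 1
    rw [hr, hr, mul_one, map_one, Equiv.Perm.one_apply, self_inv,
      ← mul_neg] at h1
    exact mul_left_cancel₀ hY h1
  have hw' : r' τ = w3 := by
    refine w_of_lab _ fun k => ?_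
    have h1 := hτ' (l'⁻¹ k) 1
    rw [hr', hr', mul_one, map_one, Equiv.Perm.one_apply, self_inv,
      ← mul_neg] at h1
    exact mul_left_cancel₀ hY h1
  by_cases hO1 : ∃ g, r g * r g * r g = 1 ∧ r g ≠ 1 ∧ r' g = 1
  · obtain ⟨g, hg, hg1, hg'⟩ := hO1
    exact Or.inr (orth_of_cycle φ φ' ρ r r' hρ Y Y l l' hr hr' hr2 g hg hg1 hg')
  by_cases hO2 : ∃ g, r' g * r' g * r' g = 1 ∧ r' g ≠ 1 ∧ r g = 1
  · obtain ⟨g, hg, hg1, hg'⟩ := hO2
    have h1 := orth_of_cycle φ' φ ρ' r' r hρ' Y Y l' l hr' hr hr2' g hg hg1 hg'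
    refine Or.inr fun i i' => ?_
    rw [← h1 i' i]
    exact Finset.sum_congr rfl fun ν _ => mul_comm _ _
  have hP1 : ∀ g, r' g = 1 → r g * r g * r g = 1 → r g = 1 := by
    intro g h1 h2
    by_contra h3
    exact hO1 ⟨g, h2, h3, h1⟩
  have hP2 : ∀ g, r g = 1 → r' g * r' g * r' g = 1 → r' g = 1 := by
    intro g h1 h2
    by_contra h3
    exact hO2 ⟨g, h2, h3, h1⟩
  by_cases hsame : ∀ g, r g * r g * r g = 1 ↔ r' g * r' g * r' g = 1
  · -- all pairs of the same sign
    left
    have hone : ∀ g, r g * r g * r g = 1 → (r g = 1 ↔ r' g = 1) := fun g hg =>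
      ⟨fun h => hP2 g h ((hsame g).1 hg), fun h => hP1 g h hg⟩
    by_cases hE1 : ∀ g, r' g = r g
    · refine ⟨1, l⁻¹ * l', Or.inl rfl, fun i ν => ?_⟩
      rw [hr', hr, hE1, Equiv.Perm.mul_apply, self_inv, one_mul]
    · have hE2 : ∀ g, r' g = w3 * r g * w3 := by
        by_contra hcon
        push Not at hE1 hcon
        -- even witnesses
        have h0 : ∃ g, r g * r g * r g = 1 ∧ r' g ≠ r g := by
          obtain ⟨g, hg⟩ := hE1
          by_cases he : r g * r g * r g = 1
          · exact ⟨g, he, hg⟩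
          · refine ⟨τ * g, ?_, ?_⟩
            · rw [map_mul, hw]
              exact odd_mul_w _ he
            · rw [map_mul, map_mul, hw, hw']
              intro h
              exact hg (mul_left_cancel h)
        have h1 : ∃ g, r g * r g * r g = 1 ∧ r' g ≠ w3 * r g * w3 := by
          obtain ⟨g, hg⟩ := hcon
          by_cases he : r g * r g * r g = 1
          · exact ⟨g, he, hg⟩
          · refine ⟨τ * g, ?_, ?_⟩
            · rw [map_mul, hw]
              exact odd_mul_w _ he
            · rw [map_mul, map_mul, hw, hw']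
              intro h
              apply hg
              have h2 : w3 * (w3 * r g) * w3 = w3 * (w3 * r g * w3) := by group
              rw [h2] at h
              exact mul_left_cancel h
        obtain ⟨g, hg, hgne⟩ := h0
        obtain ⟨k, hk, hkne⟩ := h1
        have hg' := (hsame g).1 hg
        have hk' := (hsame k).1 hk
        have hg1 : r g ≠ 1 := by
          intro h
          exact hgne (by rw [(hone g hg).1 h, h])
        have hg1' : r' g ≠ 1 := fun h => hg1 ((hone g hg).2 h)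
        have hk1 : r k ≠ 1 := by
          intro h
          apply hkne
          rw [(hone k hk).1 h, h, mul_one, w_sq]
        have hk1' : r' k ≠ 1 := fun h => hk1 ((hone k hk).2 h)
        have e1 : r' g = (r g)⁻¹ := inv_of_ne _ _ hg hg' hg1 hg1' hgne
        rw [conj_w _ hk] at hkne
        have e2 : r' k = r k := by
          by_contra h
          exact hkne (inv_of_ne _ _ hk hk' hk1 hk1' h)
        have hsq : ∀ x : Equiv.Perm (Fin 3), x * x * x = 1 → x * x = 1 → x = 1 := fun x hx =>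
          (even_sq x hx).2
        by_cases hkg : r k = r g
        · -- g * k⁻¹
          have f1 : r (g * k⁻¹) = 1 := by rw [map_mul, map_inv, hkg, mul_inv_cancel]
          have f2 : r' (g * k⁻¹) = 1 := by
            refine hP2 _ f1 ?_
            exact (hsame _).1 (by rw [f1]; rfl)
          rw [map_mul, map_inv, e1, e2, hkg, ← mul_inv_rev, inv_eq_one] at f2
          exact hg1 (hsq _ hg f2)
        · have e3 : r k = (r g)⁻¹ := inv_of_ne _ _ hg hk hg1 hk1 hkg
          have f1 : r (g * k) = 1 := by rw [map_mul, e3, mul_inv_cancel]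
          have f2 : r' (g * k) = 1 := by
            refine hP2 _ f1 ?_
            exact (hsame _).1 (by rw [f1]; rfl)
          rw [map_mul, e1, e2, e3, ← mul_inv_rev, inv_eq_one] at f2
          exact hg1 (hsq _ hg f2)
      refine ⟨-1, l⁻¹ * w3 * l', Or.inr rfl, fun i ν => ?_⟩
      rw [hr', hr, hE2]
      simp only [Equiv.Perm.mul_apply, self_inv]
      rw [lab_w]
      ring
  · -- different signs: the pair (1, w) occurs
    right
    have hww : ∃ g, r g = 1 ∧ r' g = w3 := by
      push Not at hsame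
      obtain ⟨g, hg⟩ := hsame
      rcases hg with ⟨hx, hy⟩ | ⟨hx, hy⟩
      · -- r g even, r' g odd
        have hy2 : r' (g * g) = 1 := by rw [map_mul]; exact odd_sq _ hy
        have hx2 : r (g * g) = 1 := by
          refine hP1 _ hy2 ?_
          rw [map_mul]
          exact (even_sq _ hx).1
        have hx1 : r g = 1 := by
          rw [map_mul] at hx2
          exact (even_sq _ hx).2 hx2
        refine ⟨g, hx1, ?_⟩
        by_contra hne
        have h1 : r (g * τ * g⁻¹ * τ) = 1 := by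
          rw [map_mul, map_mul, map_mul, map_inv, hx1, hw]
          simp [w_sq]
        have h2 : r' (g * τ * g⁻¹ * τ) = r' g * w3 * (r' g)⁻¹ * w3 := by
          rw [map_mul, map_mul, map_mul, map_inv, hw']
        have h3 := comm_w (r' g) (odd_ne_one _ hy) hne
        have h4 := hP2 _ h1 (by rw [h2]; exact h3.1)
        rw [h2] at h4
        exact h3.2 h4
      · -- r g odd, r' g even
        have hy2 : r (g * g) = 1 := by rw [map_mul]; exact odd_sq _ hx
        have hx2 : r' (g * g) = 1 := by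
          refine hP2 _ hy2 ?_
          rw [map_mul]
          exact (even_sq _ hy).1
        have hx1 : r' g = 1 := by
          rw [map_mul] at hx2
          exact (even_sq _ hy).2 hx2
        have hgw : r g = w3 := by
          by_contra hne
          have h1 : r' (g * τ * g⁻¹ * τ) = 1 := by
            rw [map_mul, map_mul, map_mul, map_inv, hx1, hw']
            simp [w_sq]
          have h2 : r (g * τ * g⁻¹ * τ) = r g * w3 * (r g)⁻¹ * w3 := by
            rw [map_mul, map_mul, map_mul, map_inv, hw]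
          have h3 := comm_w (r g) (odd_ne_one _ hx) hne
          have h4 := hP1 _ h1 (by rw [h2]; exact h3.1)
          rw [h2] at h4
          exact h3.2 h4
        refine ⟨g * τ, ?_, ?_⟩
        · rw [map_mul, hgw, hw, w_sq]
        · rw [map_mul, hx1, hw', one_mul]
    obtain ⟨g, hg, hg'⟩ := hww
    have hall' : ∀ k, r' k = 1 ∨ r' k = w3 := by
      intro k
      by_contra hcon
      push Not at hcon
      have h1 : r (k * g * k⁻¹ * g) = 1 := by
        rw [map_mul, map_mul, map_mul, map_inv, hg]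
        simp
      have h2 : r' (k * g * k⁻¹ * g) = r' k * w3 * (r' k)⁻¹ * w3 := by
        rw [map_mul, map_mul, map_mul, map_inv, hg']
      have h3 := comm_w (r' k) hcon.1 hcon.2
      have h4 := hP2 _ h1 (by rw [h2]; exact h3.1)
      rw [h2] at h4
      exact h3.2 h4
    intro i i'
    have h1 : ∑ ν, φ i ν * φ' i' ν = -∑ ν, φ i ν * φ' i' ν := by
      rw [← Finset.sum_neg_distrib,
        ← Equiv.sum_comp (Equiv.mulRight g) (fun ν => φ i ν * φ' i' ν)]
      refine Finset.sum_congr rfl fun ν _ => ?_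
      rw [Equiv.coe_mulRight]
      have h2 : φ i (ν * g) = φ i ν := by rw [hr, hr, map_mul, hg, mul_one]
      have h3 : φ' i' (ν * g) = -φ' i' ν := by
        rw [hr', hr', map_mul, hg']
        have h4 : r' ν * w3 = w3 * r' ν := by
          rcases hall' ν with h | h
          · rw [h, one_mul, mul_one]
          · rw [h]
        rw [h4, Equiv.Perm.mul_apply, lab_w]
        ring
      rw [h2, h3]
      ring
    linarith

end Pool.Agent.Helper78.AST
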