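import Pool.Agent.Helper78.AST.CDefs

/-!
# AST-35 Labels: symmetric families of two or three integers (short)

* `sym_three`: `m (π i) = - m i` with a permutation `π` of `Fin 3`. Let `a ≤ b ≤ c` be the values in increasing order (`Tuple.sort`, or the maximum at some `i₂`, the minimum at some
  `i₀ ≠ i₂` unless all are equal). The family `- m` has the same values with multiplicities, so `- c = a`, `- b = b`: `b = 0`, `a = - c`, `y = c ≥ 0`. Equivalent: `∑ m = 0`,
  and `∑ m ^ 3 = 0` (both sums change sign), so `m 0 m 1 m 2 = 0` (`a ^ 3 + b ^ 3 + c ^ 3 = 3 a b c` if `a + b + c = 0`): one of them is `0` and the other two are opposite; choose `l`.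
* `sym_two`: `∑ m = 0`, so `m 1 = - m 0`, `y = |m 0|`.
* `same_three`, `same_two`: `y` is the maximum of the family.
-/

set_option autoImplicit false

namespace Pool.Agent.Helper78.AST

private theorem lb_sum_odd {n : ℕ} (m : Fin n → ℤ) (π : Equiv.Perm (Fin n)) (h : ∀ i, m (π i) = -m i)
    (f : ℤ → ℤ) (hf : ∀ t, f (-t) = -f t) : ∑ i, f (m i) = 0 := by
  have h1 : ∑ i, f (m (π i)) = ∑ i, f (m i) := Equiv.sum_comp π (fun i => f (m i))
  have h2 : ∑ i, f (m (π i)) = -∑ i, f (m i) := by
    rw [← Finset.sum_neg_distrib]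
    exact Finset.sum_congr rfl fun i _ => by rw [h, hf]
  linarith

private theorem lb_sum_abs {n : ℕ} (g : Fin n → ℤ) (c : ℤ) (hg : ∑ i, |g i| = c) (m m' : Fin n → ℤ)
    (π l l' : Equiv.Perm (Fin n)) (y y' : ℤ) (hy : 0 ≤ y) (hy' : 0 ≤ y')
    (h : ∀ i, m i = y * g (l i)) (h' : ∀ i, m' i = y' * g (l' i)) (hπ : ∀ i, m i = m' (π i)) :
    y * c = y' * c := by
  have key : ∀ (m : Fin n → ℤ) (l : Equiv.Perm (Fin n)) (y : ℤ), 0 ≤ y →
      (∀ i, m i = y * g (l i)) → ∑ i, |m i| = y * c := by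
    intro m l y hy h
    have h1 : ∑ i, |g (l i)| = c := by
      rw [← hg]
      exact Equiv.sum_comp l (fun i => |g i|)
    rw [← h1, Finset.mul_sum]
    exact Finset.sum_congr rfl fun i _ => by rw [h, abs_mul, abs_of_nonneg hy]
  have h1 : ∑ i, |m i| = ∑ i, |m' i| := by
    have h2 : ∑ i, |m' (π i)| = ∑ i, |m' i| := Equiv.sum_comp π (fun i => |m' i|)
    rw [← h2]
    exact Finset.sum_congr rfl fun i _ => by rw [hπ]
  rw [← key m l y hy h, ← key m' l' y' hy' h', h1]

theorem sym_three (m : Fin 3 → ℤ) (π : Equiv.Perm (Fin 3)) (h : ∀ i, m (π i) = -m i) :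
    ∃ (y : ℤ) (l : Equiv.Perm (Fin 3)), 0 ≤ y ∧ ∀ i, m i = y * lab (l i) := by
  have h1 := lb_sum_odd m π h (fun t => t) (fun t => rfl)
  have h3 := lb_sum_odd m π h (fun t => t ^ 3) (fun t => by ring)
  simp only [Fin.sum_univ_three] at h1 h3
  have h4 : m 0 * m 1 * m 2 = 0 := by
    have h5 : m 2 = -(m 0 + m 1) := by linarith
    rw [h5] at h3 ⊢
    linarith [h3]
  rcases mul_eq_zero.1 h4 with h5 | h5
  · rcases mul_eq_zero.1 h5 with h6 | h6
    · rcases le_total 0 (m 2) with h7 | h7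
      · refine ⟨m 2, Equiv.swap 0 1, h7, fun i => ?_⟩
        fin_cases i
        · have e : lab (Equiv.swap (0 : Fin 3) 1 0) = 0 := by decide
          show m 0 = m 2 * lab (Equiv.swap (0 : Fin 3) 1 0)
          rw [e, h6, mul_zero]
        · have e : lab (Equiv.swap (0 : Fin 3) 1 1) = -1 := by decide
          show m 1 = m 2 * lab (Equiv.swap (0 : Fin 3) 1 1)
          rw [e]
          linarith
        · have e : lab (Equiv.swap (0 : Fin 3) 1 2) = 1 := by decide
          show m 2 = m 2 * lab (Equiv.swap (0 : Fin 3) 1 2)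
          rw [e, mul_one]
      · refine ⟨-m 2, (Equiv.swap 1 2).trans (Equiv.swap 0 1), by linarith, fun i => ?_⟩
        fin_cases i
        · have e : lab (((Equiv.swap (1 : Fin 3) 2).trans (Equiv.swap 0 1)) 0) = 0 := by decide
          show m 0 = -m 2 * lab (((Equiv.swap (1 : Fin 3) 2).trans (Equiv.swap 0 1)) 0)
          rw [e, h6, mul_zero]
        · have e : lab (((Equiv.swap (1 : Fin 3) 2).trans (Equiv.swap 0 1)) 1) = 1 := by decide
          show m 1 = -m 2 * lab (((Equiv.swap (1 : Fin 3) 2).trans (Equiv.swap 0 1)) 1)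
          rw [e]
          linarith
        · have e : lab (((Equiv.swap (1 : Fin 3) 2).trans (Equiv.swap 0 1)) 2) = -1 := by decide
          show m 2 = -m 2 * lab (((Equiv.swap (1 : Fin 3) 2).trans (Equiv.swap 0 1)) 2)
          rw [e]
          ring
    · rcases le_total 0 (m 2) with h7 | h7
      · refine ⟨m 2, 1, h7, fun i => ?_⟩
        fin_cases i
        · show m 0 = m 2 * -1
          linarith
        · show m 1 = m 2 * 0
          linarith
        · show m 2 = m 2 * 1
          linarith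
      · refine ⟨-m 2, Equiv.swap 0 2, by linarith, fun i => ?_⟩
        fin_cases i
        · have e : lab (Equiv.swap (0 : Fin 3) 2 0) = 1 := by decide
          show m 0 = -m 2 * lab (Equiv.swap (0 : Fin 3) 2 0)
          rw [e]
          linarith
        · have e : lab (Equiv.swap (0 : Fin 3) 2 1) = 0 := by decide
          show m 1 = -m 2 * lab (Equiv.swap (0 : Fin 3) 2 1)
          rw [e, h6, mul_zero]
        · have e : lab (Equiv.swap (0 : Fin 3) 2 2) = -1 := by decide
          show m 2 = -m 2 * lab (Equiv.swap (0 : Fin 3) 2 2)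
          rw [e]
          ring
  · rcases le_total 0 (m 1) with h7 | h7
    · refine ⟨m 1, Equiv.swap 1 2, h7, fun i => ?_⟩
      fin_cases i
      · have e : lab (Equiv.swap (1 : Fin 3) 2 0) = -1 := by decide
        show m 0 = m 1 * lab (Equiv.swap (1 : Fin 3) 2 0)
        rw [e]
        linarith
      · have e : lab (Equiv.swap (1 : Fin 3) 2 1) = 1 := by decide
        show m 1 = m 1 * lab (Equiv.swap (1 : Fin 3) 2 1)
        rw [e, mul_one]
      · have e : lab (Equiv.swap (1 : Fin 3) 2 2) = 0 := by decide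
        show m 2 = m 1 * lab (Equiv.swap (1 : Fin 3) 2 2)
        rw [e, h5, mul_zero]
    · refine ⟨-m 1, (Equiv.swap 0 1).trans (Equiv.swap 1 2), by linarith, fun i => ?_⟩
      fin_cases i
      · have e : lab (((Equiv.swap (0 : Fin 3) 1).trans (Equiv.swap 1 2)) 0) = 1 := by decide
        show m 0 = -m 1 * lab (((Equiv.swap (0 : Fin 3) 1).trans (Equiv.swap 1 2)) 0)
        rw [e]
        linarith
      · have e : lab (((Equiv.swap (0 : Fin 3) 1).trans (Equiv.swap 1 2)) 1) = -1 := by decide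
        show m 1 = -m 1 * lab (((Equiv.swap (0 : Fin 3) 1).trans (Equiv.swap 1 2)) 1)
        rw [e]
        ring
      · have e : lab (((Equiv.swap (0 : Fin 3) 1).trans (Equiv.swap 1 2)) 2) = 0 := by decide
        show m 2 = -m 1 * lab (((Equiv.swap (0 : Fin 3) 1).trans (Equiv.swap 1 2)) 2)
        rw [e, h5, mul_zero]

theorem sym_two (m : Fin 2 → ℤ) (π : Equiv.Perm (Fin 2)) (h : ∀ i, m (π i) = -m i) :
    ∃ (y : ℤ) (l : Equiv.Perm (Fin 2)), 0 ≤ y ∧ ∀ i, m i = y * lab2 (l i) := by
  have h1 := lb_sum_odd m π h (fun t => t) (fun t => rfl)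
  simp only [Fin.sum_univ_two] at h1
  rcases le_total 0 (m 1) with h7 | h7
  · refine ⟨m 1, 1, h7, fun i => ?_⟩
    fin_cases i
    · show m 0 = m 1 * -1
      linarith
    · show m 1 = m 1 * 1
      linarith
  · refine ⟨-m 1, Equiv.swap 0 1, by linarith, fun i => ?_⟩
    fin_cases i
    · have e : lab2 (Equiv.swap (0 : Fin 2) 1 0) = 1 := by decide
      show m 0 = -m 1 * lab2 (Equiv.swap (0 : Fin 2) 1 0)
      rw [e]
      linarith
    · have e : lab2 (Equiv.swap (0 : Fin 2) 1 1) = -1 := by decide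
      show m 1 = -m 1 * lab2 (Equiv.swap (0 : Fin 2) 1 1)
      rw [e]
      ring

theorem same_three (m m' : Fin 3 → ℤ) (π l l' : Equiv.Perm (Fin 3)) (y y' : ℤ) (hy : 0 ≤ y) (hy' : 0 ≤ y')
    (h : ∀ i, m i = y * lab (l i)) (h' : ∀ i, m' i = y' * lab (l' i)) (hπ : ∀ i, m i = m' (π i)) : y = y' := by
  have h1 := lb_sum_abs lab 2 (by decide) m m' π l l' y y' hy hy' h h' hπ
  linarith

theorem same_two (m m' : Fin 2 → ℤ) (π l l' : Equiv.Perm (Fin 2)) (y y' : ℤ) (hy : 0 ≤ y) (hy' : 0 ≤ y')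
    (h : ∀ i, m i = y * lab2 (l i)) (h' : ∀ i, m' i = y' * lab2 (l' i)) (hπ : ∀ i, m i = m' (π i)) : y = y' := by
  have h1 := lb_sum_abs lab2 2 (by decide) m m' π l l' y y' hy hy' h h' hπ
  linarith

end Pool.Agent.Helper78.AST
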