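import Pool.Agent.Helper78.AST.CDefs

/-!
# AST-33 One3: relations inside a block of length three (short)

`φ i 1 = Y lab (l i)`, `l` a permutation of `Fin 3`, `φ i (ν ν') = φ (ρ ν' i) ν`, so `φ i ν = φ (ρ ν i) 1 = Y lab (l (ρ ν i))`; there is `τ` with
`φ i (τ ν) = - φ i ν`. If `Y = 0`, `φ = 0` and every `Pi.single i 1` is in `oneGen`. Let `Y ≠ 0`.

Replace `t`, `φ`, `ρ` by `t ∘ l⁻¹`, `φ ∘ l⁻¹`, `l ρ l⁻¹` (or argue with `r ν = l * ρ ν * l⁻¹`, a homomorphism to `Perm (Fin 3)`):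
`φ (l⁻¹ k) ν = Y lab (r ν k)`. `ν = 1` in the hypothesis on `τ`: `lab (r τ k) = - lab k`, so `r τ = swap 0 2`.
* If some `r g` is a 3-cycle `k ↦ k + 1` (or `k + 2`): the relation at `1`, `g`, `g ^ 2` gives (`u k = t (l⁻¹ k)`)
  `u 2 = u 0` up to: `∑ u k lab k = 0`, `∑ u k lab (k + 1) = 0`, `∑ u k lab (k + 2) = 0`: `u 2 - u 0 = 0`, `u 1 - u 2 = 0`, `u 0 - u 1 = 0`.
  So `t` is constant.
* If no `r g` is a 3-cycle, every `r g` is `1` or `swap 0 2` (a transposition different from `swap 0 2` times `r τ` is a 3-cycle; `decide` on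
  `Perm (Fin 3)`). So `lab (r ν 1) = 0` for all `ν`: `Pi.single (l⁻¹ 1) 1 ∈ oneGen`; `lab (r ν 0) + lab (r ν 2) = 0`:
  `Pi.single (l⁻¹ 0) 1 + Pi.single (l⁻¹ 2) 1 ∈ oneGen`. The relation at `ν = 1` gives `u 2 = u 0`. So
  `t = u 1 • single (l⁻¹ 1) 1 + u 0 • (single (l⁻¹ 0) 1 + single (l⁻¹ 2) 1)`.
-/

set_option autoImplicit false

namespace Pool.Agent.Helper78.AST

private theorem perm_three (σ : Equiv.Perm (Fin 3)) :
    (∀ k, σ k = k) ∨ (σ 0 = 2 ∧ σ 1 = 1 ∧ σ 2 = 0) ∨ (σ 0 = 1 ∧ σ 1 = 2 ∧ σ 2 = 0) ∨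
      (σ 0 = 2 ∧ σ 1 = 0 ∧ σ 2 = 1) ∨ (σ 0 = 1 ∧ σ 1 = 0 ∧ σ 2 = 2) ∨
      (σ 0 = 0 ∧ σ 1 = 2 ∧ σ 2 = 1) := by
  revert σ
  decide

theorem one_three {N : Type} [Group N] (φ : Fin 3 → N → ℤ) (ρ : N →* Equiv.Perm (Fin 3))
    (hρ : ∀ i ν ν', φ i (ν * ν') = φ (ρ ν' i) ν) (Y : ℤ) (l : Equiv.Perm (Fin 3))
    (hl : ∀ i, φ i 1 = Y * lab (l i)) (τ : N) (hτ : ∀ i ν, φ i (τ * ν) = -φ i ν)
    (t : Fin 3 → ℤ) (ht : ∀ ν, ∑ i, t i * φ i ν = 0) : t ∈ AddSubgroup.closure (oneGen φ) := by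
  have hφ : ∀ i ν, φ i ν = Y * lab (l (ρ ν i)) := by
    intro i ν
    have h := hρ i 1 ν
    rw [one_mul, hl] at h
    exact h
  -- functions of the form `c ∘ l`
  have hsum : ∀ (c : Fin 3 → ℤ) (ν : N), ∑ i, c (l i) * φ i ν =
      Y * ∑ k, c k * lab ((l * ρ ν * l⁻¹) k) := by
    intro c ν
    rw [Finset.mul_sum, ← Equiv.sum_comp l.symm]
    refine Finset.sum_congr rfl fun k _ => ?_
    rw [Equiv.apply_symm_apply, hφ]
    have : (l * ρ ν * l⁻¹) k = l (ρ ν (l.symm k)) := rfl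
    rw [this]
    ring
  have habs : ∀ c : Fin 3 → ℤ, ∑ i, |c (l i)| = ∑ k, |c k| := fun c =>
    Equiv.sum_comp l fun k => |c k|
  have hmem : ∀ c : Fin 3 → ℤ, (∀ ν, Y * ∑ k, c k * lab ((l * ρ ν * l⁻¹) k) = 0) →
      ∑ k, |c k| ≤ 2 → (fun i => c (l i)) ∈ AddSubgroup.closure (oneGen φ) := by
    intro c h1 h2
    refine AddSubgroup.subset_closure (Or.inl ⟨fun ν => ?_, ?_⟩)
    · rw [hsum c ν, h1 ν]
    · rw [habs c]
      exact h2
  obtain ⟨u, hu⟩ : ∃ u : Fin 3 → ℤ, t = fun i => u (l i) :=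
    ⟨fun k => t (l.symm k), by funext i; simp⟩
  have hcomb : ∀ x y z : Fin 3 → ℤ, ∀ a b c : ℤ, (fun i => x (l i)) ∈ AddSubgroup.closure (oneGen φ) →
      (fun i => y (l i)) ∈ AddSubgroup.closure (oneGen φ) →
      (fun i => z (l i)) ∈ AddSubgroup.closure (oneGen φ) →
      (∀ k, u k = a * x k + b * y k + c * z k) → t ∈ AddSubgroup.closure (oneGen φ) := by
    intro x y z a b c hx hy hz h
    have h1 := AddSubgroup.add_mem _ (AddSubgroup.add_mem _ (AddSubgroup.zsmul_mem _ hx a)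
      (AddSubgroup.zsmul_mem _ hy b)) (AddSubgroup.zsmul_mem _ hz c)
    have h2 : t = a • (fun i => x (l i)) + b • (fun i => y (l i)) + c • (fun i => z (l i)) := by
      rw [hu]
      funext i
      simp only [Pi.add_apply, Pi.smul_apply, smul_eq_mul]
      exact h _
    rw [h2]
    exact h1
  have h0 : (fun i => (0 : Fin 3 → ℤ) (l i)) ∈ AddSubgroup.closure (oneGen φ) := by
    have : (fun i => (0 : Fin 3 → ℤ) (l i)) = 0 := rfl
    rw [this]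
    exact AddSubgroup.zero_mem _
  by_cases hY : Y = 0
  · have h1 : ∀ c : Fin 3 → ℤ, ∑ k, |c k| ≤ 2 → (fun i => c (l i)) ∈ AddSubgroup.closure (oneGen φ) :=
      fun c h => hmem c (fun ν => by rw [hY, zero_mul]) h
    refine hcomb ![1, 0, 0] ![0, 1, 0] ![0, 0, 1] (u 0) (u 1) (u 2) (h1 _ ?_) (h1 _ ?_) (h1 _ ?_)
      fun k => ?_
    · simp [Fin.sum_univ_three]
    · simp [Fin.sum_univ_three]
    · simp [Fin.sum_univ_three]
    · fin_cases k <;> simp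
  have hrel : ∀ ν, ∑ k, u k * lab ((l * ρ ν * l⁻¹) k) = 0 := by
    intro ν
    have h := ht ν
    rw [hu] at h
    rw [hsum u ν] at h
    exact (mul_eq_zero.1 h).resolve_left hY
  have hl0 : lab 0 = -1 := rfl
  have hl1 : lab 1 = 0 := rfl
  have hl2 : lab 2 = 1 := rfl
  have hr1 : u 2 = u 0 := by
    have h := hrel 1
    rw [map_one, mul_one, mul_inv_cancel] at h
    simp only [Equiv.Perm.coe_one, id_eq, Fin.sum_univ_three, hl0, hl1, hl2] at h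
    linarith
  have hconst : u 1 = u 0 → t ∈ AddSubgroup.closure (oneGen φ) := by
    intro h
    refine hcomb (fun _ => 1) 0 0 (u 0) 0 0 (AddSubgroup.subset_closure (Or.inr rfl)) h0 h0 fun k => ?_
    fin_cases k
    · simp
    · simp [h]
    · simp [hr1]
  by_cases hA : ∃ g, ¬ ((∀ k, (l * ρ g * l⁻¹) k = k) ∨
      ((l * ρ g * l⁻¹) 0 = 2 ∧ (l * ρ g * l⁻¹) 1 = 1 ∧ (l * ρ g * l⁻¹) 2 = 0))
  · obtain ⟨g, hg⟩ := hA
    apply hconst
    have h := hrel g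
    rw [Fin.sum_univ_three] at h
    rcases perm_three (l * ρ g * l⁻¹) with h1 | h1 | ⟨e0, e1, e2⟩ | ⟨e0, e1, e2⟩ | ⟨e0, e1, e2⟩ |
      ⟨e0, e1, e2⟩
    · exact absurd (Or.inl h1) hg
    · exact absurd (Or.inr h1) hg
    all_goals
      rw [e0, e1, e2, hl0, hl1, hl2] at h
      linarith
  · have hB : ∀ g, (∀ k, (l * ρ g * l⁻¹) k = k) ∨
        ((l * ρ g * l⁻¹) 0 = 2 ∧ (l * ρ g * l⁻¹) 1 = 1 ∧ (l * ρ g * l⁻¹) 2 = 0) := by
      intro g
      by_contra h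
      exact hA ⟨g, h⟩
    have hm1 : (fun i => (![0, 1, 0] : Fin 3 → ℤ) (l i)) ∈ AddSubgroup.closure (oneGen φ) := by
      refine hmem _ (fun ν => ?_) (by simp [Fin.sum_univ_three])
      rw [Fin.sum_univ_three]
      rcases hB ν with h | ⟨e0, e1, e2⟩
      · rw [h 0, h 1, h 2, hl0, hl1, hl2]; simp
      · rw [e0, e1, e2, hl0, hl1, hl2]; simp
    have hm2 : (fun i => (![1, 0, 1] : Fin 3 → ℤ) (l i)) ∈ AddSubgroup.closure (oneGen φ) := by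
      refine hmem _ (fun ν => ?_) (by simp [Fin.sum_univ_three])
      rw [Fin.sum_univ_three]
      rcases hB ν with h | ⟨e0, e1, e2⟩
      · rw [h 0, h 1, h 2, hl0, hl1, hl2]; simp
      · rw [e0, e1, e2, hl0, hl1, hl2]; simp
    refine hcomb ![0, 1, 0] ![1, 0, 1] 0 (u 1) (u 0) 0 hm1 hm2 h0 fun k => ?_
    fin_cases k
    · simp
    · simp
    · simp [hr1]

end Pool.Agent.Helper78.AST
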