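import Pool.Agent.Helper78.AST.CDefs

/-!
# AST-32 Two: blocks of length two (short)

`φ : Fin 2 → N → ℤ`, `φ 0 ν + φ 1 ν = 0`, `φ i (ν ν') = φ (ρ ν' i) ν`.

* `one_two`: `∑ t i φ i ν = (t 1 - t 0) φ 1 ν`. If `φ 1 ν ≠ 0` for some `ν`, `t` is constant, `t = t 0 • 1`. Otherwise `φ = 0` and
  all `Pi.single i 1` are in `oneGen`.
* `dich_two`: `φ 1 1 = ± Y`, `φ' 1 1 = ± Y`. A permutation of `Fin 2` is `1` or the swap, so `φ 1 (ν ν') = ε ν' φ 1 ν` with `ε ν' = ± 1`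
  (`1` iff `ρ ν' 1 = 1`), in particular `φ 1 ν = ε ν φ 1 1`, and the same for `φ'`, `ε'`. If `ε = ε'` as functions, `φ' 1 = ± φ 1` and
  `φ' 0 = - φ' 1`, `φ 0 = - φ 1`: `Equi`. If `ε g ≠ ε' g` for some `g`, i.e. `ε g = - ε' g`: the substitution `ν ↦ ν g` gives
  `∑ φ 1 ν φ' 1 ν = - ∑ φ 1 ν φ' 1 ν`, so it vanishes, and `Orth` (the other products are `±` this one).
-/

set_option autoImplicit false

namespace Pool.Agent.Helper78.AST

theorem one_two {N : Type} (φ : Fin 2 → N → ℤ) (hsum : ∀ ν, ∑ i, φ i ν = 0) (t : Fin 2 → ℤ)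
    (ht : ∀ ν, ∑ i, t i * φ i ν = 0) : t ∈ AddSubgroup.closure (oneGen φ) := by
  simp only [Fin.sum_univ_two] at hsum ht
  by_cases h : ∃ ν, φ 1 ν ≠ 0
  · obtain ⟨ν, hν⟩ := h
    have h1 : (t 1 - t 0) * φ 1 ν = 0 := by
      linear_combination ht ν - t 0 * hsum ν
    have h2 : t 1 = t 0 := by
      rcases mul_eq_zero.mp h1 with h3 | h3
      · linarith
      · exact absurd h3 hν
    have h3 : t = t 0 • (fun _ : Fin 2 => (1 : ℤ)) := by
      funext i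
      fin_cases i
      · simp
      · simp [h2]
    rw [h3]
    have h4 : (fun _ : Fin 2 => (1 : ℤ)) ∈ oneGen φ := Or.inr rfl
    exact AddSubgroup.zsmul_mem _ (AddSubgroup.subset_closure h4) _
  · push Not at h
    have h0 : ∀ ν, φ 0 ν = 0 := by
      intro ν
      have := hsum ν
      rw [h ν] at this
      linarith
    have hs0 : (Pi.single 0 1 : Fin 2 → ℤ) ∈ oneGen φ := by
      refine Or.inl ⟨fun ν => ?_, ?_⟩
      · simp [Fin.sum_univ_two, h ν, h0 ν]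
      · simp [Fin.sum_univ_two]
    have hs1 : (Pi.single 1 1 : Fin 2 → ℤ) ∈ oneGen φ := by
      refine Or.inl ⟨fun ν => ?_, ?_⟩
      · simp [Fin.sum_univ_two, h ν, h0 ν]
      · simp [Fin.sum_univ_two]
    have ht' : t = t 0 • (Pi.single 0 1 : Fin 2 → ℤ) + t 1 • (Pi.single 1 1 : Fin 2 → ℤ) := by
      funext i
      fin_cases i
      · simp
      · simp
    rw [ht']
    exact AddSubgroup.add_mem _ (AddSubgroup.zsmul_mem _ (AddSubgroup.subset_closure hs0) _)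
      (AddSubgroup.zsmul_mem _ (AddSubgroup.subset_closure hs1) _)

private theorem two_facts {N : Type} [Group N] (φ : Fin 2 → N → ℤ) (ρ : N →* Equiv.Perm (Fin 2))
    (hρ : ∀ i ν ν', φ i (ν * ν') = φ (ρ ν' i) ν) (Y : ℤ) (l : Equiv.Perm (Fin 2))
    (hl : ∀ i, φ i 1 = Y * lab2 (l i)) :
    (φ 1 1 = Y ∨ φ 1 1 = -Y) ∧ (∀ ν, φ 0 ν = -φ 1 ν) ∧
      ∃ e : N → ℤ, (∀ ν, e ν = 1 ∨ e ν = -1) ∧ ∀ ν ν', φ 1 (ν * ν') = e ν' * φ 1 ν := by
  have key : ∀ k : Fin 2, k = 0 ∨ k = 1 := by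
    intro k
    fin_cases k
    · exact Or.inl rfl
    · exact Or.inr rfl
  have hperm : ∀ σ : Equiv.Perm (Fin 2), (σ 0 = 0 ∧ σ 1 = 1) ∨ (σ 0 = 1 ∧ σ 1 = 0) := by
    intro σ
    rcases key (σ 0) with h | h <;> rcases key (σ 1) with h' | h'
    · exact absurd (σ.injective (h.trans h'.symm)) (by decide)
    · exact Or.inl ⟨h, h'⟩
    · exact Or.inr ⟨h, h'⟩
    · exact absurd (σ.injective (h.trans h'.symm)) (by decide)
  have l0 : lab2 0 = -1 := rfl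
  have l1 : lab2 1 = 1 := rfl
  have h1 : φ 0 1 = -φ 1 1 ∧ (φ 1 1 = Y ∨ φ 1 1 = -Y) := by
    rcases hperm l with ⟨ha, hb⟩ | ⟨ha, hb⟩
    · rw [hl 0, hl 1, ha, hb, l0, l1]
      exact ⟨by ring, Or.inl (by ring)⟩
    · rw [hl 0, hl 1, ha, hb, l0, l1]
      exact ⟨by ring, Or.inr (by ring)⟩
  have h2 : ∀ ν, φ 0 ν = -φ 1 ν := by
    intro ν
    have a0 := hρ 0 1 ν
    have a1 := hρ 1 1 ν
    rw [one_mul] at a0 a1
    rw [a0, a1]
    rcases hperm (ρ ν) with ⟨ha, hb⟩ | ⟨ha, hb⟩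
    · rw [ha, hb, h1.1]
    · rw [ha, hb, h1.1, neg_neg]
  refine ⟨h1.2, h2, fun ν => if ρ ν 1 = 1 then 1 else -1, fun ν => ?_, fun ν ν' => ?_⟩
  · by_cases h : ρ ν 1 = 1
    · exact Or.inl (if_pos h)
    · exact Or.inr (if_neg h)
  · rw [hρ 1 ν ν']
    by_cases h : ρ ν' 1 = 1
    · simp only [h, if_true, one_mul]
    · have h' : ρ ν' 1 = 0 := (key _).resolve_right h
      rw [h', h2]
      change -φ 1 ν = (if (ρ ν') 1 = 1 then 1 else -1) * φ 1 ν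
      rw [if_neg h]
      ring

theorem dich_two {N : Type} [Group N] [Fintype N] (φ φ' : Fin 2 → N → ℤ) (ρ ρ' : N →* Equiv.Perm (Fin 2))
    (hρ : ∀ i ν ν', φ i (ν * ν') = φ (ρ ν' i) ν) (hρ' : ∀ i ν ν', φ' i (ν * ν') = φ' (ρ' ν' i) ν)
    (Y : ℤ) (l l' : Equiv.Perm (Fin 2)) (hl : ∀ i, φ i 1 = Y * lab2 (l i)) (hl' : ∀ i, φ' i 1 = Y * lab2 (l' i)) :
    Equi φ φ' ∨ Orth φ φ' := by
  obtain ⟨hY, h0, e, he, hm⟩ := two_facts φ ρ hρ Y l hl
  obtain ⟨hY', h0', e', he', hm'⟩ := two_facts φ' ρ' hρ' Y l' hl'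
  by_cases hee : ∀ ν, e ν = e' ν
  · left
    have hs : ∃ s : ℤ, (s = 1 ∨ s = -1) ∧ φ' 1 1 = s * φ 1 1 := by
      rcases hY with h | h <;> rcases hY' with h' | h'
      · exact ⟨1, Or.inl rfl, by rw [h, h']; ring⟩
      · exact ⟨-1, Or.inr rfl, by rw [h, h']; ring⟩
      · exact ⟨-1, Or.inr rfl, by rw [h, h']; ring⟩
      · exact ⟨1, Or.inl rfl, by rw [h, h']; ring⟩
    obtain ⟨s, hs1, hs2⟩ := hs
    have h1 : ∀ ν, φ' 1 ν = s * φ 1 ν := by
      intro ν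
      have a := hm 1 ν
      have a' := hm' 1 ν
      rw [one_mul] at a a'
      rw [a, a', hee ν, hs2]
      ring
    refine ⟨s, 1, hs1, ?_⟩
    intro i ν
    fin_cases i
    · change φ' 0 ν = s * φ 0 ν
      rw [h0', h0, h1]
      ring
    · exact h1 ν
  · right
    push Not at hee
    obtain ⟨g, hg⟩ := hee
    have hgg : e g * e' g = -1 := by
      rcases he g with h | h <;> rcases he' g with h' | h'
      · exact absurd (h.trans h'.symm) hg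
      · rw [h, h']; ring
      · rw [h, h']; ring
      · exact absurd (h.trans h'.symm) hg
    have hS : ∑ ν, φ 1 ν * φ' 1 ν = 0 := by
      have h1 : ∑ ν, φ 1 ν * φ' 1 ν = ∑ ν, φ 1 (ν * g) * φ' 1 (ν * g) :=
        (Equiv.sum_comp (Equiv.mulRight g) (fun ν => φ 1 ν * φ' 1 ν)).symm
      have h2 : ∑ ν, φ 1 (ν * g) * φ' 1 (ν * g) = -∑ ν, φ 1 ν * φ' 1 ν := by
        rw [← Finset.sum_neg_distrib]
        refine Finset.sum_congr rfl fun ν _ => ?_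
        rw [hm, hm']
        linear_combination (φ 1 ν * φ' 1 ν) * hgg
      rw [h2] at h1
      linarith
    intro i i'
    fin_cases i <;> fin_cases i'
    · change ∑ ν, φ 0 ν * φ' 0 ν = 0
      rw [← hS]
      refine Finset.sum_congr rfl fun ν _ => ?_
      rw [h0, h0']; ring
    · change ∑ ν, φ 0 ν * φ' 1 ν = 0
      rw [← neg_eq_zero, ← hS, ← Finset.sum_neg_distrib]
      refine Finset.sum_congr rfl fun ν _ => ?_
      rw [h0]; ring
    · change ∑ ν, φ 1 ν * φ' 0 ν = 0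
      rw [← neg_eq_zero, ← hS, ← Finset.sum_neg_distrib]
      refine Finset.sum_congr rfl fun ν _ => ?_
      rw [h0']; ring
    · exact hS

end Pool.Agent.Helper78.AST
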