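import Pool.Agent.Helper78.AST.ActHom
import Pool.Agent.Helper78.AST.NormSum
import Pool.Agent.Helper78.AST.Labels
import Pool.Agent.Helper78.AST.Two
import Pool.Agent.Helper78.AST.One3
import Pool.Agent.Helper78.AST.Dich3

/-!
# AST-36 CaseA: the blocks for `n ≤ 3` (assembly)
-/

set_option autoImplicit false

open Polynomial

namespace Pool.Agent.Helper78.AST

variable {p : ℕ} [Fact p.Prime] {F : Type} [Field F] [Fintype F] [Algebra (ZMod p) F] {J : Type}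
  {n : ℕ} {f : J → F[X]} {L : IntermediateField ℚ ℂ} [FiniteDimensional ℚ L] [IsGalois ℚ L]

omit [FiniteDimensional ℚ L] [IsGalois ℚ L] in
theorem Data.φ_one (D : Data p F n f L) (x : (J × (ZMod p)ˣ) × Fin n) :
    D.φ x 1 = D.mu (D.β x) := rfl

/-- The blocks of length `n` when the values `mu` of a block are multiples of a fixed family `lb`. -/
theorem Data.caseAux (D : Data p F n f L) [Fintype D.NN] (hs : SameSlope p F f)
    (lb : Fin n → ℤ) (hlb : Function.Injective lb) (i0 : Fin n) (h0 : lb i0 = -1)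
    (h1 : ∀ k, k ≠ i0 → -1 < lb k)
    (hsym : ∀ (m : Fin n → ℤ) (π : Equiv.Perm (Fin n)), (∀ i, m (π i) = -m i) →
      ∃ (y : ℤ) (l : Equiv.Perm (Fin n)), 0 ≤ y ∧ ∀ i, m i = y * lb (l i))
    (hsame : ∀ (m m' : Fin n → ℤ) (π l l' : Equiv.Perm (Fin n)) (y y' : ℤ), 0 ≤ y → 0 ≤ y' →
      (∀ i, m i = y * lb (l i)) → (∀ i, m' i = y' * lb (l' i)) → (∀ i, m i = m' (π i)) → y = y')
    (hone : ∀ (φ : Fin n → D.NN → ℤ) (ρ : D.NN →* Equiv.Perm (Fin n)),
      (∀ i ν ν', φ i (ν * ν') = φ (ρ ν' i) ν) → ∀ (Y : ℤ) (l : Equiv.Perm (Fin n)),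
      (∀ i, φ i 1 = Y * lb (l i)) → ∀ τ : D.NN, (∀ i ν, φ i (τ * ν) = -φ i ν) →
      (∀ ν, ∑ i, φ i ν = 0) → ∀ t : Fin n → ℤ, (∀ ν, ∑ i, t i * φ i ν = 0) →
      t ∈ AddSubgroup.closure (oneGen φ))
    (hdich : ∀ (φ φ' : Fin n → D.NN → ℤ) (ρ ρ' : D.NN →* Equiv.Perm (Fin n)),
      (∀ i ν ν', φ i (ν * ν') = φ (ρ ν' i) ν) → (∀ i ν ν', φ' i (ν * ν') = φ' (ρ' ν' i) ν) →
      ∀ (Y : ℤ) (l l' : Equiv.Perm (Fin n)), (∀ i, φ i 1 = Y * lb (l i)) →
      (∀ i, φ' i 1 = Y * lb (l' i)) → ∀ τ : D.NN, (∀ i ν, φ i (τ * ν) = -φ i ν) →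
      (∀ i ν, φ' i (τ * ν) = -φ' i ν) → Equi φ φ' ∨ Orth φ φ') :
    (∀ b b' : J × (ZMod p)ˣ, Equi (fun i => D.φ (b, i)) (fun i => D.φ (b', i)) ∨
      Orth (fun i => D.φ (b, i)) (fun i => D.φ (b', i))) ∧
    ∀ (b : J × (ZMod p)ˣ) (t : Fin n → ℤ), (∀ ν, ∑ i, t i * D.φ (b, i) ν = 0) →
      t ∈ AddSubgroup.closure (oneGen (fun i => D.φ (b, i))) := by
  have hex : ∀ (j : J) (c : (ZMod p)ˣ), ∃ (y : ℤ) (l : Equiv.Perm (Fin n)), 0 ≤ y ∧
      ∀ i, D.mu (D.β ((j, c), i)) = y * lb (l i) := by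
    intro j c
    obtain ⟨π, hπ⟩ := D.sym j c
    exact hsym (fun i => D.mu (D.β ((j, c), i))) π hπ
  choose y0 l hy0 hl0 using hex
  have hyc : ∀ j c c', y0 j c = y0 j c' := by
    intro j c c'
    obtain ⟨π, hπ⟩ := D.same j c c'
    exact hsame _ _ π (l j c) (l j c') _ _ (hy0 j c) (hy0 j c') (hl0 j c) (hl0 j c') hπ
  obtain ⟨y, hy⟩ : ∃ y : J → ℤ, ∀ j c, y0 j c = y j := ⟨fun j => y0 j 1, fun j c => hyc j c 1⟩
  have hynn : ∀ j, 0 ≤ y j := fun j => by rw [← hy j 1]; exact hy0 j 1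
  have hl : ∀ j c i, D.mu (D.β ((j, c), i)) = y j * lb (l j c i) := by
    intro j c i
    rw [hl0 j c i, hy j c]
  have hl1 : ∀ j c i, D.φ ((j, c), i) 1 = y j * lb (l j c i) := fun j c i => hl j c i
  have hzero : ∀ j c, y j = 0 → ∀ i ν, D.φ ((j, c), i) ν = 0 := by
    intro j c h i ν
    obtain ⟨π, hπ⟩ := D.val j c ν
    rw [hπ i, hl1, h, zero_mul]
  have hinj : ∀ j c, 0 < y j → Function.Injective fun i => D.β ((j, c), i) := by
    intro j c h i i' hii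
    have h2 : D.mu (D.β ((j, c), i)) = D.mu (D.β ((j, c), i')) := congrArg D.mu hii
    rw [hl, hl] at h2
    have h3 := mul_left_cancel₀ h.ne' h2
    exact (l j c).injective (hlb h3)
  have hyeq : ∀ j j', 0 < y j → 0 < y j' → y j = y j' := by
    refine fun j j' hj hj' => D.y_eq hs y ?_ j j' hj hj'
    intro j hj c
    refine ⟨(l j c).symm i0, ?_, ?_⟩
    · rw [hl, Equiv.apply_symm_apply, h0]
      ring
    · intro i hi
      rw [hl]
      have h2 : l j c i ≠ i0 := by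
        intro h3
        apply hi
        rw [← h3, Equiv.symm_apply_apply]
      have h3 := h1 _ h2
      nlinarith
  obtain ⟨τ, hτ⟩ := D.tau
  refine ⟨?_, ?_⟩
  · rintro ⟨j, c⟩ ⟨j', c'⟩
    by_cases hj : y j = 0
    · right
      intro i i'
      apply Finset.sum_eq_zero
      intro ν _
      show D.φ ((j, c), i) ν * D.φ ((j', c'), i') ν = 0
      rw [hzero j c hj, zero_mul]
    by_cases hj' : y j' = 0
    · right
      intro i i'
      apply Finset.sum_eq_zero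
      intro ν _
      show D.φ ((j, c), i) ν * D.φ ((j', c'), i') ν = 0
      rw [hzero j' c' hj', mul_zero]
    have hp : 0 < y j := lt_of_le_of_ne (hynn j) (Ne.symm hj)
    have hp' : 0 < y j' := lt_of_le_of_ne (hynn j') (Ne.symm hj')
    obtain ⟨ρ, -, hρ⟩ := D.exists_rho j c (hinj j c hp)
    obtain ⟨ρ', -, hρ'⟩ := D.exists_rho j' c' (hinj j' c' hp')
    refine hdich (fun i => D.φ ((j, c), i)) (fun i => D.φ ((j', c'), i)) ρ ρ' hρ hρ' (y j)
      (l j c) (l j' c') (hl1 j c) ?_ τ (fun i ν => hτ _ ν) (fun i ν => hτ _ ν)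
    intro i
    rw [hyeq j j' hp hp']
    exact hl1 j' c' i
  · rintro ⟨j, c⟩ t ht
    by_cases hj : y j = 0
    · exact one_of_zero (fun i => D.φ ((j, c), i)) (hzero j c hj) t
    have hp : 0 < y j := lt_of_le_of_ne (hynn j) (Ne.symm hj)
    obtain ⟨ρ, -, hρ⟩ := D.exists_rho j c (hinj j c hp)
    exact hone (fun i => D.φ ((j, c), i)) ρ hρ (y j) (l j c) (hl1 j c) τ (fun i ν => hτ _ ν)
      (fun ν => D.sum_zero j c ν) t ht

omit [FiniteDimensional ℚ L] [IsGalois ℚ L] in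
theorem Data.caseZero (D : Data p F n f L) [Fintype D.NN]
    (hz : ∀ x ν, D.φ x ν = 0) :
    (∀ b b' : J × (ZMod p)ˣ, Equi (fun i => D.φ (b, i)) (fun i => D.φ (b', i)) ∨
      Orth (fun i => D.φ (b, i)) (fun i => D.φ (b', i))) ∧
    ∀ (b : J × (ZMod p)ˣ) (t : Fin n → ℤ), (∀ ν, ∑ i, t i * D.φ (b, i) ν = 0) →
      t ∈ AddSubgroup.closure (oneGen (fun i => D.φ (b, i))) := by
  refine ⟨?_, ?_⟩
  · intro b b'
    right
    intro i i'
    apply Finset.sum_eq_zero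
    intro ν _
    show D.φ (b, i) ν * D.φ (b', i') ν = 0
    rw [hz, zero_mul]
  · intro b t _
    exact one_of_zero (fun i => D.φ (b, i)) (fun i ν => hz _ ν) t

theorem Data.caseA (D : Data p F n f L) [Fintype D.NN] (hn : n ≤ 3) (hs : SameSlope p F f) :
    (∀ b b' : J × (ZMod p)ˣ, Equi (fun i => D.φ (b, i)) (fun i => D.φ (b', i)) ∨
      Orth (fun i => D.φ (b, i)) (fun i => D.φ (b', i))) ∧
    ∀ (b : J × (ZMod p)ˣ) (t : Fin n → ℤ), (∀ ν, ∑ i, t i * D.φ (b, i) ν = 0) →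
      t ∈ AddSubgroup.closure (oneGen (fun i => D.φ (b, i))) := by
  interval_cases n
  · exact D.caseZero fun x => x.2.elim0
  · apply D.caseZero
    rintro ⟨⟨j, c⟩, i⟩ ν
    have h := D.sum_zero j c ν
    rw [Fin.sum_univ_one] at h
    rw [Subsingleton.elim i 0]
    exact h
  · refine D.caseAux hs lab2 ?_ 0 rfl ?_ sym_two same_two ?_ ?_
    · intro a b hab
      fin_cases a <;> fin_cases b <;> simp [lab2] at hab ⊢
    · intro k hk
      fin_cases k
      · exact absurd rfl hk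
      · simp [lab2]
    · intro φ ρ _ Y l _ τ _ hsum t ht
      exact one_two φ hsum t ht
    · intro φ φ' ρ ρ' hρ hρ' Y l l' hl hl' τ _ _
      exact dich_two φ φ' ρ ρ' hρ hρ' Y l l' hl hl'
  · refine D.caseAux hs lab ?_ 0 rfl ?_ sym_three same_three ?_ ?_
    · intro a b hab
      fin_cases a <;> fin_cases b <;> simp [lab] at hab ⊢
    · intro k hk
      fin_cases k
      · exact absurd rfl hk
      · simp [lab]
      · simp [lab]
    · intro φ ρ hρ Y l hl τ hτ _ t ht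
      exact one_three φ ρ hρ Y l hl τ hτ t ht
    · intro φ φ' ρ ρ' hρ hρ' Y l l' hl hl' τ hτ hτ'
      exact dich_three φ φ' ρ ρ' hρ hρ' Y l l' hl hl' τ hτ hτ'

end Pool.Agent.Helper78.AST
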