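import Pool.Agent.Helper78.AST.CDefs

/-!
# AST-31 OrthT: orthogonality and relations for transitive actions (short)

`N` a finite group, `ρ : N →* Perm I`, `φ i (ν ν') = φ (ρ ν' i) ν`, `∑_i φ i ν = 0`.

* `orth_of_trans`: suppose for all `i`, `k` there is `h : N` with `ρ h i = k` and `φ' i' (ν h) = φ' i' ν` for all `i'`, `ν`. Then
  `Orth φ φ'`: `T i = ∑_ν φ i ν φ' i' ν = ∑_ν φ i (ν h) φ' i' (ν h) = ∑_ν φ k ν φ' i' ν = T k` (`Equiv.mulRight h`), so `T` does not depend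
  on `i` and `card I * T i = ∑_k T k = ∑_ν (∑_k φ k ν) φ' i' ν = 0`.
* `one_of_twoTrans`: `ρ` doubly transitive and a relation `∑_i t i φ i ν = 0` for all `ν`; then `t` is in the closure of `oneGen φ`.
  If `φ = 0` every `Pi.single i 1` is in `oneGen` (`∑ |.| = 1`), done. If `card I ≤ 1`: `φ i = 0` by `∑ φ = 0`; done.
  Otherwise all `t i` are equal: then `t = t i • 1`. Suppose `t i ≠ t j`. Fix `i`; let `S = {h | ρ h i = i}`. For `h ∈ S`:
  `0 = ∑_k t k φ k (ν h) = ∑_k t k φ (ρ h k) ν`. Sum over `h ∈ S`: the coefficient of `φ i ν` is `|S| t i`, and that of `φ l ν`, `l ≠ i`,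
  is `∑_{k ≠ i} t k #{h ∈ S | ρ h k = l}`; by double transitivity `#{h ∈ S | ρ h k = l} =: s` does not depend on `k, l ≠ i` (multiply by a fixed
  element of `S` mapping `k` to `k'`, `l` to `l'`: choose `u, w ∈ S` with `ρ u k' = k`, `ρ w l = l'`, `h ↦ w h u`), and `|S| = (card I - 1) s`. So
  `(|S| t i - s ∑_{k ≠ i} t k) φ i ν = 0` (use `∑_{l ≠ i} φ l ν = - φ i ν`). If `φ i ν ≠ 0` for some `ν` (then by transitivity the same for every
  index), `(card I - 1) t i = ∑_{k ≠ i} t k`, i.e. `card I * t i = ∑ t`, for every `i`. So all `t i` are equal.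
-/

set_option autoImplicit false

namespace Pool.Agent.Helper78.AST

theorem orth_of_trans {N I : Type} [Group N] [Fintype N] [Fintype I] (φ φ' : I → N → ℤ)
    (ρ : N →* Equiv.Perm I) (hρ : ∀ i ν ν', φ i (ν * ν') = φ (ρ ν' i) ν) (hsum : ∀ ν, ∑ i, φ i ν = 0)
    (h : ∀ i k, ∃ g : N, ρ g i = k ∧ ∀ i' ν, φ' i' (ν * g) = φ' i' ν) : Orth φ φ' := by
  intro i i'
  have h1 : ∀ k, ∑ ν, φ k ν * φ' i' ν = ∑ ν, φ i ν * φ' i' ν := by
    intro k
    obtain ⟨g, hg, hg'⟩ := h i k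
    rw [← Equiv.sum_comp (Equiv.mulRight g) (fun ν => φ i ν * φ' i' ν)]
    refine Finset.sum_congr rfl fun ν _ => ?_
    rw [Equiv.coe_mulRight, hρ, hg, hg']
  have h2 : ∑ k, ∑ ν, φ k ν * φ' i' ν = 0 := by
    rw [Finset.sum_comm]
    refine Finset.sum_eq_zero fun ν _ => ?_
    rw [← Finset.sum_mul, hsum, zero_mul]
  simp only [h1, Finset.sum_const, Finset.card_univ, nsmul_eq_mul] at h2
  rcases mul_eq_zero.1 h2 with h3 | h3
  · have h4 : 0 < Fintype.card I := Fintype.card_pos_iff.2 ⟨i⟩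
    have h5 : Fintype.card I = 0 := by exact_mod_cast h3
    omega
  · exact h3

private theorem zero_aux {N I : Type} [Fintype I] (φ : I → N → ℤ) (h : ∀ i ν, φ i ν = 0)
    (t : I → ℤ) : t ∈ AddSubgroup.closure (oneGen φ) := by
  classical
  have h1 : t = ∑ i, t i • (Pi.single i (1 : ℤ) : I → ℤ) := by
    funext k
    rw [Finset.sum_apply, Finset.sum_eq_single k]
    · simp
    · intro j _ hj
      simp [Pi.single_apply, Ne.symm hj]
    · intro hk
      exact absurd (Finset.mem_univ k) hk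
  rw [h1]
  refine AddSubgroup.sum_mem _ fun i _ => AddSubgroup.zsmul_mem _ (AddSubgroup.subset_closure ?_) _
  refine Or.inl ⟨fun ν => ?_, ?_⟩
  · refine Finset.sum_eq_zero fun x _ => ?_
    rw [h, mul_zero]
  · rw [Finset.sum_eq_single i]
    · simp
    · intro j _ hj
      simp [Pi.single_apply, hj]
    · intro hk
      exact absurd (Finset.mem_univ i) hk

private theorem card_mul_eq {N I : Type} [Group N] [Fintype N] [Fintype I] (φ : I → N → ℤ)
    (ρ : N →* Equiv.Perm I) (hρ : ∀ i ν ν', φ i (ν * ν') = φ (ρ ν' i) ν) (hsum : ∀ ν, ∑ i, φ i ν = 0)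
    (h : ∀ i i' k k', i ≠ i' → k ≠ k' → ∃ g : N, ρ g i = k ∧ ρ g i' = k') (t : I → ℤ)
    (ht : ∀ ν, ∑ i, t i * φ i ν = 0) {i k₀ : I} (hk₀ : k₀ ≠ i) {ν : N} (hν : φ i ν ≠ 0) :
    (Fintype.card I : ℤ) * t i = ∑ k, t k := by
  classical
  obtain ⟨S, hS⟩ : ∃ S : Finset N, S = Finset.univ.filter fun g => ρ g i = i := ⟨_, rfl⟩
  have hmS : ∀ g, g ∈ S ↔ ρ g i = i := by
    intro g
    rw [hS, Finset.mem_filter]
    simp
  obtain ⟨A, hA⟩ : ∃ A : I → ℤ, A = fun k => ∑ g ∈ S, φ (ρ g k) ν := ⟨_, rfl⟩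
  have hAi : A i = (S.card : ℤ) * φ i ν := by
    rw [hA]
    beta_reduce
    rw [Finset.sum_congr rfl fun g hg => by rw [(hmS g).1 hg], Finset.sum_const, nsmul_eq_mul]
  have hconst : ∀ k, k ≠ i → A k = A k₀ := by
    intro k hk
    obtain ⟨u, hu1, hu2⟩ := h i k₀ i k (Ne.symm hk₀) (Ne.symm hk)
    rw [hA]
    beta_reduce
    -- replace g by g * u
    refine Finset.sum_bij (fun g _ => g * u) ?_ ?_ ?_ ?_
    · intro g hg
      rw [hmS, map_mul, Equiv.Perm.mul_apply, hu1, (hmS g).1 hg]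
    · intro g _ g' _ e
      exact mul_right_cancel e
    · intro g hg
      refine ⟨g * u⁻¹, ?_, by rw [inv_mul_cancel_right]⟩
      have e1 : (ρ u⁻¹) i = i := by
        have e2 : ρ u⁻¹ (ρ u i) = i := by
          rw [← Equiv.Perm.mul_apply, ← map_mul, inv_mul_cancel, map_one, Equiv.Perm.one_apply]
        rwa [hu1] at e2
      rw [hmS, map_mul, Equiv.Perm.mul_apply, e1, (hmS g).1 hg]
    · intro g _
      rw [map_mul, Equiv.Perm.mul_apply, hu2]
  have hsumA : ∑ k, A k = 0 := by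
    rw [hA]
    rw [Finset.sum_comm]
    refine Finset.sum_eq_zero fun g _ => ?_
    rw [Equiv.sum_comp (ρ g) (fun k => φ k ν)]
    exact hsum ν
  have htA : ∑ k, t k * A k = 0 := by
    rw [hA]
    simp only [Finset.mul_sum]
    rw [Finset.sum_comm]
    refine Finset.sum_eq_zero fun g _ => ?_
    have e1 := ht (ν * g)
    simp only [hρ] at e1
    exact e1
  have e1 : ∑ k, A k = A i + ((Fintype.card I : ℤ) - 1) * A k₀ := by
    rw [← Finset.add_sum_erase _ _ (Finset.mem_univ i)]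
    congr 1
    rw [Finset.sum_congr rfl fun k hk => hconst k (Finset.ne_of_mem_erase hk), Finset.sum_const,
      Finset.card_erase_of_mem (Finset.mem_univ i), Finset.card_univ, nsmul_eq_mul]
    have : 1 ≤ Fintype.card I := Fintype.card_pos_iff.2 ⟨i⟩
    push_cast [Nat.cast_sub this]
    ring
  have e2 : ∑ k, t k * A k = t i * A i + (∑ k, t k - t i) * A k₀ := by
    rw [← Finset.add_sum_erase _ _ (Finset.mem_univ i)]
    congr 1
    rw [Finset.sum_congr rfl fun k hk => by rw [hconst k (Finset.ne_of_mem_erase hk)],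
      ← Finset.sum_mul, ← Finset.add_sum_erase _ t (Finset.mem_univ i), add_sub_cancel_left]
  have hS1 : (S.card : ℤ) ≠ 0 := by
    have h1 : (1 : N) ∈ S := by
      rw [hmS, map_one, Equiv.Perm.one_apply]
    have h2 := Finset.card_pos.2 ⟨_, h1⟩
    exact_mod_cast h2.ne'
  have hAne : A i ≠ 0 := by
    rw [hAi]
    exact mul_ne_zero hS1 hν
  rw [e1] at hsumA
  rw [e2] at htA
  have hk0 : A k₀ ≠ 0 := by
    intro h0
    rw [h0, mul_zero, add_zero] at hsumA
    exact hAne hsumA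
  have e3 : A k₀ * ((Fintype.card I : ℤ) * t i - ∑ k, t k) = 0 := by
    have e4 : A i = -(((Fintype.card I : ℤ) - 1) * A k₀) := by linarith
    rw [e4] at htA
    linear_combination -htA
  have e5 := (mul_eq_zero.1 e3).resolve_left hk0
  linarith

theorem one_of_twoTrans {N I : Type} [Group N] [Fintype N] [Fintype I] (φ : I → N → ℤ)
    (ρ : N →* Equiv.Perm I) (hρ : ∀ i ν ν', φ i (ν * ν') = φ (ρ ν' i) ν) (hsum : ∀ ν, ∑ i, φ i ν = 0)
    (h : ∀ i i' k k', i ≠ i' → k ≠ k' → ∃ g : N, ρ g i = k ∧ ρ g i' = k') (t : I → ℤ)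
    (ht : ∀ ν, ∑ i, t i * φ i ν = 0) : t ∈ AddSubgroup.closure (oneGen φ) := by
  by_cases hz : ∀ i ν, φ i ν = 0
  · exact zero_aux φ hz t
  push Not at hz
  obtain ⟨i₀, ν₀, hi₀⟩ := hz
  have hk : ∃ k₀, k₀ ≠ i₀ := by
    by_contra hcon
    push Not at hcon
    apply hi₀
    have h1 := hsum ν₀
    rwa [Finset.sum_eq_single i₀ (fun j _ hj => absurd (hcon j) hj)
      (fun h2 => absurd (Finset.mem_univ i₀) h2)] at h1
  obtain ⟨k₀, hk₀⟩ := hk
  have hall : ∀ i, (Fintype.card I : ℤ) * t i = ∑ k, t k := by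
    intro i
    have hex : ∃ j, j ≠ i := by
      by_cases hi : i = i₀
      · exact ⟨k₀, by rw [hi]; exact hk₀⟩
      · exact ⟨i₀, Ne.symm hi⟩
    obtain ⟨j, hj⟩ := hex
    obtain ⟨g, hg, -⟩ := h i j i₀ k₀ (Ne.symm hj) (Ne.symm hk₀)
    refine card_mul_eq φ ρ hρ hsum h t ht hj (ν := ν₀ * g) ?_
    rw [hρ, hg]
    exact hi₀
  have hcard : (Fintype.card I : ℤ) ≠ 0 := by
    have h4 : 0 < Fintype.card I := Fintype.card_pos_iff.2 ⟨i₀⟩
    exact_mod_cast h4.ne'
  have heq : ∀ i, t i = t i₀ := by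
    intro i
    have h1 := (hall i).trans (hall i₀).symm
    exact mul_left_cancel₀ hcard h1
  have h2 : t = t i₀ • (fun _ : I => (1 : ℤ)) := by
    funext i
    rw [Pi.smul_apply, smul_eq_mul, mul_one, heq i]
  have h3 : (fun _ : I => (1 : ℤ)) ∈ oneGen φ := Or.inr rfl
  rw [h2]
  exact AddSubgroup.zsmul_mem _ (AddSubgroup.subset_closure h3) _

theorem one_of_zero {N I : Type} [Fintype I] (φ : I → N → ℤ) (h : ∀ i ν, φ i ν = 0) (t : I → ℤ) :
    t ∈ AddSubgroup.closure (oneGen φ) :=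
  zero_aux φ h t

end Pool.Agent.Helper78.AST
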