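import Pool.Agent.Helper78.AST.ActHom
import Pool.Agent.Helper78.AST.OrthT

/-!
# AST-37 CaseB: doubly transitive independent blocks (assembly)

Every `s : ℂ ≃+* ℂ` with `Fixes p s` restricts to an element `γ` of `NN` with `(γ x : ℂ) = s x` (`restrictL`, `D.hζ`).

Let `b = (j, c)`. If the `β (b, i)` are not distinct, `β (b, i) = β (b, i')`, `i ≠ i'`: for all `k ≠ k'` (`TwoTransitive`) `β (b, k) = β (b, k')`, so the `φ (b, i)` are all equal, and
`φ (b, i) = 0` by `sum_zero` (`n ≠ 0`): the block is orthogonal to all, `one_of_zero`. Otherwise let `ρ` be from `exists_rho`; for `i ≠ i'`, `k ≠ k'` there is `g ∈ NN` with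
`ρ g i = k`, `ρ g i' = k'` (injectivity). `hone`: `one_of_twoTrans`.
`hdich` for `b`, `b' = (j', c')`: if `b' = b`: `Equi` with `s = 1`, `π = 1`. If `b' = (j, -c)`: `conjBlock`, `s = -1`. Otherwise (`b` with distinct elements) `Independent` gives `h ∈ NN` with
`h β (b, i₀) = β (b, k₀)`, `k₀ ≠ i₀`, and `h β (b', i) = β (b', i)` for all `i`. `orth_of_trans`: for `i = k` take `g = 1`; for `i ≠ k` choose `ν ∈ NN` with `ρ ν i₀ = i`, `ρ ν k₀ = k` and
`g = ν h ν⁻¹`: `ρ g i = k`; `g` fixes every `β (b', i')`, because `ν⁻¹ β (b', i')` is again one of the `β (b', i'')` (`Data.gal` with `a = 1`), which `h` fixes. So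
`φ (b', i') (μ g) = mu (μ (g β (b', i'))) = φ (b', i') μ`.
-/

set_option autoImplicit false

open Polynomial

namespace Pool.Agent.Helper78.AST

variable {p : ℕ} [Fact p.Prime] {F : Type} [Field F] [Fintype F] [Algebra (ZMod p) F] {J : Type}
  {n : ℕ} {f : J → F[X]} {L : IntermediateField ℚ ℂ} [FiniteDimensional ℚ L] [IsGalois ℚ L]

private theorem cb_exists (D : Data p F n f L) (s : ℂ ≃+* ℂ) (hs : Fixes p s) :
    ∃ γ : D.NN, ∀ x : L, (((γ : L ≃ₐ[ℚ] L) x : L) : ℂ) = s (x : ℂ) := by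
  obtain ⟨γ, hγ⟩ := restrictL L s
  refine ⟨⟨γ, ?_⟩, hγ⟩
  have h : γ D.ζ = D.ζ := by
    apply Subtype.ext
    rw [hγ, D.hζ]
    exact hs
  exact h

omit [FiniteDimensional ℚ L] [IsGalois ℚ L] in
private theorem cb_gal (D : Data p F n f L) (γ : D.NN) (j : J) (c : (ZMod p)ˣ) (i : Fin n) :
    ∃ i', (γ : L ≃ₐ[ℚ] L) (D.β ((j, c), i)) = D.β ((j, c), i') := by
  have : Fact (1 < p) := ⟨(Fact.out : p.Prime).one_lt⟩
  obtain ⟨π, hπ⟩ := D.gal (γ : L ≃ₐ[ℚ] L) 1 (by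
    rw [Units.val_one, ZMod.val_one, pow_one]
    exact γ.2) j c
  refine ⟨π i, ?_⟩
  rw [hπ i, one_mul]

private theorem cb_zero (D : Data p F n f L) (h2 : TwoTransitive p (fun x => (D.β x : ℂ)))
    (j : J) (c : (ZMod p)ˣ) (hinj : ¬ Function.Injective fun i => D.β ((j, c), i)) (i : Fin n)
    (ν : D.NN) : D.φ ((j, c), i) ν = 0 := by
  unfold Function.Injective at hinj
  push Not at hinj
  obtain ⟨i₀, i₁, h01, hne⟩ := hinj
  have hall : ∀ k k', D.β ((j, c), k) = D.β ((j, c), k') := by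
    intro k k'
    by_cases hk : k = k'
    · rw [hk]
    · obtain ⟨s, _, hs1, hs2⟩ := h2 (j, c) i₀ i₁ k k' hne hk
      apply Subtype.ext
      simp only at hs1 hs2
      rw [← hs1, ← hs2, h01]
  have hphi : ∀ k, D.φ ((j, c), k) ν = D.φ ((j, c), i) ν := by
    intro k
    unfold Data.φ
    rw [hall k i]
  have hsum := D.sum_zero j c ν
  rw [Finset.sum_congr rfl fun k _ => hphi k, Finset.sum_const, Finset.card_univ,
    Fintype.card_fin, nsmul_eq_mul, mul_eq_zero] at hsum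
  rcases hsum with h | h
  · exact absurd h (by
      have := Fin.pos i
      exact_mod_cast this.ne')
  · exact h

private theorem cb_two (D : Data p F n f L) (h2 : TwoTransitive p (fun x => (D.β x : ℂ)))
    (j : J) (c : (ZMod p)ˣ) (hinj : Function.Injective fun i => D.β ((j, c), i))
    (ρ : D.NN →* Equiv.Perm (Fin n))
    (hρ : ∀ (ν : D.NN) i, (ν : L ≃ₐ[ℚ] L) (D.β ((j, c), i)) = D.β ((j, c), ρ ν i))
    (i i' k k' : Fin n) (hi : i ≠ i') (hk : k ≠ k') : ∃ g : D.NN, ρ g i = k ∧ ρ g i' = k' := by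
  obtain ⟨s, hs, hs1, hs2⟩ := h2 (j, c) i i' k k' hi hk
  obtain ⟨γ, hγ⟩ := cb_exists D s hs
  simp only at hs1 hs2
  refine ⟨γ, hinj ?_, hinj ?_⟩
  · change D.β ((j, c), ρ γ i) = D.β ((j, c), k)
    rw [← hρ]
    apply Subtype.ext
    rw [hγ, hs1]
  · change D.β ((j, c), ρ γ i') = D.β ((j, c), k')
    rw [← hρ]
    apply Subtype.ext
    rw [hγ, hs2]

theorem Data.caseB (D : Data p F n f L) [Fintype D.NN]
    (h2 : TwoTransitive p (fun x => (D.β x : ℂ))) (hi : Independent p (fun x => (D.β x : ℂ))) :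
    (∀ b b' : J × (ZMod p)ˣ, Equi (fun i => D.φ (b, i)) (fun i => D.φ (b', i)) ∨
      Orth (fun i => D.φ (b, i)) (fun i => D.φ (b', i))) ∧
    ∀ (b : J × (ZMod p)ˣ) (t : Fin n → ℤ), (∀ ν, ∑ i, t i * D.φ (b, i) ν = 0) →
      t ∈ AddSubgroup.closure (oneGen (fun i => D.φ (b, i))) := by
  refine ⟨?_, ?_⟩
  · rintro ⟨j, c⟩ ⟨j', c'⟩
    by_cases h : j' = j ∧ (c' = c ∨ c' = -c)
    · left
      obtain ⟨rfl, h | h⟩ := h
      · subst h
        refine ⟨1, 1, Or.inl rfl, fun i ν => ?_⟩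
        rw [one_mul]
        rfl
      · subst h
        obtain ⟨π, hπ⟩ := D.conjBlock j' c
        refine ⟨-1, π, Or.inr rfl, fun i ν => ?_⟩
        rw [neg_one_mul]
        exact hπ i ν
    · right
      by_cases hinj : Function.Injective fun i => D.β ((j, c), i)
      · obtain ⟨ρ, hρ1, hρ2⟩ := D.exists_rho j c hinj
        obtain ⟨s, hs, ⟨i₀, hi₀⟩, hs'⟩ := hi j j' c c' h
        obtain ⟨γ, hγ⟩ := cb_exists D s hs
        simp only at hi₀ hs'
        have hγ' : ∀ i, (γ : L ≃ₐ[ℚ] L) (D.β ((j', c'), i)) = D.β ((j', c'), i) := by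
          intro i
          apply Subtype.ext
          rw [hγ, hs']
        have hk₀ : i₀ ≠ ρ γ i₀ := by
          intro hc
          apply hi₀
          rw [← hγ, hρ1, ← hc]
        refine orth_of_trans _ _ ρ hρ2 (fun ν => D.sum_zero j c ν) fun i k => ?_
        by_cases hik : i = k
        · refine ⟨1, ?_, fun i' ν => ?_⟩
          · rw [map_one]
            exact hik
          · rw [mul_one]
        · obtain ⟨ν₀, h1, h3⟩ := cb_two D h2 j c hinj ρ hρ1 i₀ (ρ γ i₀) i k hk₀ hik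
          refine ⟨ν₀ * γ * ν₀⁻¹, ?_, fun i' ν => ?_⟩
          · have h9 : (ρ ν₀)⁻¹ (ρ ν₀ i₀) = i₀ := (ρ ν₀).symm_apply_apply i₀
            rw [map_mul, map_mul, map_inv, Equiv.Perm.mul_apply, Equiv.Perm.mul_apply, ← h1,
              h9, h3]
          · obtain ⟨i'', hi''⟩ := cb_gal D ν₀⁻¹ j' c' i'
            have h4 : ((ν₀ * γ * ν₀⁻¹ : D.NN) : L ≃ₐ[ℚ] L) (D.β ((j', c'), i')) =
                D.β ((j', c'), i') := by
              have h5 : ((ν₀ * γ * ν₀⁻¹ : D.NN) : L ≃ₐ[ℚ] L) (D.β ((j', c'), i')) =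
                  (ν₀ : L ≃ₐ[ℚ] L) ((γ : L ≃ₐ[ℚ] L)
                    (((ν₀⁻¹ : D.NN) : L ≃ₐ[ℚ] L) (D.β ((j', c'), i')))) := rfl
              have h6 : (ν₀ : L ≃ₐ[ℚ] L) (((ν₀⁻¹ : D.NN) : L ≃ₐ[ℚ] L) (D.β ((j', c'), i'))) =
                  D.β ((j', c'), i') := by
                have h7 : (ν₀ : L ≃ₐ[ℚ] L) (((ν₀⁻¹ : D.NN) : L ≃ₐ[ℚ] L) (D.β ((j', c'), i'))) =
                  ((ν₀ * ν₀⁻¹ : D.NN) : L ≃ₐ[ℚ] L) (D.β ((j', c'), i')) := rfl
                rw [h7, mul_inv_cancel]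
                rfl
              rw [h5, hi'', hγ' i'', ← hi'', h6]
            have h8 : D.φ ((j', c'), i') (ν * (ν₀ * γ * ν₀⁻¹)) =
                D.mu ((ν : L ≃ₐ[ℚ] L) (((ν₀ * γ * ν₀⁻¹ : D.NN) : L ≃ₐ[ℚ] L)
                  (D.β ((j', c'), i')))) := rfl
            change D.φ ((j', c'), i') (ν * (ν₀ * γ * ν₀⁻¹)) = D.φ ((j', c'), i') ν
            rw [h8, h4]
            rfl
      · intro i i'
        refine Finset.sum_eq_zero fun ν _ => ?_
        change D.φ ((j, c), i) ν * _ = 0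
        rw [cb_zero D h2 j c hinj i ν, zero_mul]
  · rintro ⟨j, c⟩ t ht
    by_cases hinj : Function.Injective fun i => D.β ((j, c), i)
    · obtain ⟨ρ, hρ1, hρ2⟩ := D.exists_rho j c hinj
      exact one_of_twoTrans _ ρ hρ2 (fun ν => D.sum_zero j c ν)
        (cb_two D h2 j c hinj ρ hρ1) t ht
    · exact one_of_zero _ (fun i ν => cb_zero D h2 j c hinj i ν) t

end Pool.Agent.Helper78.AST
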