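import Pool.Agent.Helper78.AST.CDefs

/-!
# AST-30 ClosureRel: the relations are generated by the short ones (pure linear algebra)

`φ : B × I → N → ℤ`; `hdich`: two blocks are equivalent (`Equi`: the functions of the second are those of the first up to one sign and the
order) or orthogonal. `hone`: inside one block the relations are generated by the short ones and the constant one.
Claim: every `m` with `∑ m x φ x ν = 0` for all `ν` is in the closure `S` of `phiGen φ`.

`Equi` is an equivalence relation on the blocks (compose signs and permutations). Choose in every class a representative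
`r b` (`Quotient.out`, the setoid), with `s_b = ± 1`, `π_b` such that `φ (b, i) = s_b φ (r b, π_b i)`.
For `x = (b, i)` put `y(x) = (r b, π_b i)`. `Pi.single x 1 - s_b Pi.single y(x) 1` is in `S`: it is a relation with `∑ |.| ≤ 2`.
So `m' = m - ∑_x m_x (single x 1 - s_b single y(x) 1) = ∑_x m_x s_b single y(x) 1` is a relation, congruent to `m` modulo `S`, and supported on the blocks
`r` with `r b = r` for some `b` (representatives). For a representative `r` let `F_r ν = ∑_i m' (r, i) φ (r, i) ν`. `∑_r F_r = 0`. Two different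
representatives are not equivalent, so orthogonal: `∑_ν F_r F_r' = 0`. Hence `∑_ν F_r ν ^ 2 = ∑_ν F_r ν (∑_r' F_r' ν) = 0`, so `F_r = 0`: by
`hone`, `t = fun i => m' (r, i)` is in the closure of `oneGen`. The homomorphism `t ↦ fun x => if x.1 = r then t x.2 else 0`
maps `oneGen (fun i => φ (r, i))` into `phiGen φ` (the constant to `block r`; `Finset.sum` over `B × I` of a function supported on one
block: `Fintype.sum_prod_type`), so (`AddSubgroup.closure_induction`/`AddSubgroup.map` of a closure) these are in `S`, and `m'` is their sum.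
-/

set_option autoImplicit false

namespace Pool.Agent.Helper78.AST

theorem equi_refl {N I : Type} (φ : I → N → ℤ) : Equi φ φ :=
  ⟨1, 1, Or.inl rfl, fun i ν => by simp⟩

theorem equi_symm {N I : Type} {φ φ' : I → N → ℤ} (h : Equi φ φ') : Equi φ' φ := by
  obtain ⟨s, π, hs, h⟩ := h
  refine ⟨s, π⁻¹, hs, fun i ν => ?_⟩
  rw [h (π⁻¹ i) ν, show π (π⁻¹ i) = i from π.apply_symm_apply i]
  rcases hs with rfl | rfl <;> ring

theorem equi_trans {N I : Type} {φ φ' φ'' : I → N → ℤ} (h : Equi φ φ') (h' : Equi φ' φ'') :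
    Equi φ φ'' := by
  obtain ⟨s, π, hs, h⟩ := h
  obtain ⟨s', π', hs', h'⟩ := h'
  refine ⟨s' * s, π * π', ?_, fun i ν => ?_⟩
  · rcases hs with rfl | rfl <;> rcases hs' with rfl | rfl <;> simp
  · rw [h' i ν, h (π' i) ν, Equiv.Perm.mul_apply, mul_assoc]

/-- Extension by zero from one block. -/
def embB {B I : Type} [DecidableEq B] (b : B) : (I → ℤ) →+ (B × I → ℤ) where
  toFun t := fun x => if x.1 = b then t x.2 else 0
  map_zero' := by
    funext x
    simp
  map_add' t t' := by
    funext x
    by_cases h : x.1 = b <;> simp [h]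

theorem embB_sum {B I : Type} [DecidableEq B] [Fintype B] [Fintype I] (b : B) (t : I → ℤ)
    (g : B × I → ℤ) : ∑ x, embB b t x * g x = ∑ i, t i * g (b, i) := by
  rw [Fintype.sum_prod_type, Finset.sum_eq_single b]
  · refine Finset.sum_congr rfl fun i _ => ?_
    simp [embB]
  · intro b' _ hb'
    refine Finset.sum_eq_zero fun i _ => ?_
    simp [embB, hb']
  · intro h
    exact absurd (Finset.mem_univ b) h

theorem embB_abs {B I : Type} [DecidableEq B] [Fintype B] [Fintype I] (b : B) (t : I → ℤ) :
    ∑ x : B × I, |embB b t x| = ∑ i, |t i| := by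
  rw [Fintype.sum_prod_type, Finset.sum_eq_single b]
  · refine Finset.sum_congr rfl fun i _ => ?_
    simp [embB]
  · intro b' _ hb'
    refine Finset.sum_eq_zero fun i _ => ?_
    simp [embB, hb']
  · intro h
    exact absurd (Finset.mem_univ b) h

theorem embB_mem {N B I : Type} [DecidableEq B] [Fintype B] [Fintype I] (φ : B × I → N → ℤ) (b : B)
    (t : I → ℤ) (ht : t ∈ AddSubgroup.closure (oneGen (fun i => φ (b, i)))) :
    embB b t ∈ AddSubgroup.closure (phiGen φ) := by
  have h : AddSubgroup.closure (oneGen (fun i => φ (b, i))) ≤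
      (AddSubgroup.closure (phiGen φ)).comap (embB b) := by
    rw [AddSubgroup.closure_le]
    intro t ht
    refine AddSubgroup.subset_closure ?_
    rcases ht with ⟨h1, h2⟩ | rfl
    · refine Or.inl ⟨fun ν => ?_, ?_⟩
      · rw [embB_sum b t (fun x => φ x ν)]
        exact h1 ν
      · rw [embB_abs]
        exact h2
    · refine Or.inr ⟨b, ?_⟩
      rfl
  exact h ht

theorem closure_rel {N B I : Type} [Fintype N] [DecidableEq B] [Fintype B] [Fintype I]
    (φ : B × I → N → ℤ)
    (hdich : ∀ b b' : B, Equi (fun i => φ (b, i)) (fun i => φ (b', i)) ∨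
      Orth (fun i => φ (b, i)) (fun i => φ (b', i)))
    (hone : ∀ (b : B) (t : I → ℤ), (∀ ν, ∑ i, t i * φ (b, i) ν = 0) →
      t ∈ AddSubgroup.closure (oneGen (fun i => φ (b, i))))
    (m : B × I → ℤ) (hm : ∀ ν, ∑ x, m x * φ x ν = 0) :
    m ∈ AddSubgroup.closure (phiGen φ) := by
  classical
  -- representatives
  let st : Setoid B :=
    { r := fun b b' => Equi (fun i => φ (b, i)) (fun i => φ (b', i))
      iseqv :=
        { refl := fun b => equi_refl _
          symm := fun h => equi_symm h
          trans := fun h h' => equi_trans h h' } }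
  let rep : B → B := fun b => (Quotient.mk st b).out
  have hrep : ∀ b, Equi (fun i => φ (rep b, i)) (fun i => φ (b, i)) := by
    intro b
    exact Quotient.mk_out (s := st) b
  have hrep_eq : ∀ b b', Equi (fun i => φ (b, i)) (fun i => φ (b', i)) → rep b = rep b' := by
    intro b b' h
    have : Quotient.mk st b = Quotient.mk st b' := Quotient.sound (s := st) h
    simp only [rep, this]
  have hrep_rep : ∀ b b', rep b ≠ rep b' →
      Orth (fun i => φ (rep b, i)) (fun i => φ (rep b', i)) := by
    intro b b' hne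
    rcases hdich (rep b) (rep b') with h | h
    · exact absurd (hrep_eq b b' (equi_trans (equi_trans (equi_symm (hrep b)) h) (hrep b'))) hne
    · exact h
  choose s π hs hφ using hrep
  let y : B × I → B × I := fun x => (rep x.1, π x.1 x.2)
  have hy : ∀ x ν, φ x ν = s x.1 * φ (y x) ν := fun x ν => hφ x.1 x.2 ν
  let gen : B × I → (B × I → ℤ) := fun x => Pi.single x 1 - s x.1 • Pi.single (y x) 1
  have hgen : ∀ x, gen x ∈ AddSubgroup.closure (phiGen φ) := by
    intro x
    refine AddSubgroup.subset_closure (Or.inl ⟨fun ν => ?_, ?_⟩)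
    · have h1 : ∑ z, (Pi.single x (1 : ℤ) : B × I → ℤ) z * φ z ν = φ x ν := by
        simp [Pi.single_apply]
      have h2 : ∑ z, (Pi.single (y x) (1 : ℤ) : B × I → ℤ) z * φ z ν = φ (y x) ν := by
        simp [Pi.single_apply]
      have h3 : ∑ z, gen x z * φ z ν =
          ∑ z, (Pi.single x (1 : ℤ) : B × I → ℤ) z * φ z ν -
            s x.1 * ∑ z, (Pi.single (y x) (1 : ℤ) : B × I → ℤ) z * φ z ν := by
        rw [Finset.mul_sum, ← Finset.sum_sub_distrib]
        refine Finset.sum_congr rfl fun z _ => ?_
        simp only [gen, Pi.sub_apply, Pi.smul_apply, smul_eq_mul]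
        ring
      rw [h3, h1, h2, hy x ν, sub_self]
    · have h1 : ∑ z, |(Pi.single x (1 : ℤ) : B × I → ℤ) z| = 1 := by
        simp [Pi.single_apply, apply_ite]
      have h2 : ∑ z, |(Pi.single (y x) (1 : ℤ) : B × I → ℤ) z| = 1 := by
        simp [Pi.single_apply, apply_ite]
      have h3 : |s x.1| = 1 := by
        rcases hs x.1 with h | h <;> simp [h]
      calc ∑ z, |gen x z| ≤ ∑ z, (|(Pi.single x (1 : ℤ) : B × I → ℤ) z| +
            |(Pi.single (y x) (1 : ℤ) : B × I → ℤ) z|) := by
            refine Finset.sum_le_sum fun z _ => ?_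
            simp only [gen, Pi.sub_apply, Pi.smul_apply, smul_eq_mul]
            refine (abs_sub _ _).trans ?_
            rw [abs_mul, h3, one_mul]
        _ = 2 := by
            rw [Finset.sum_add_distrib, h1, h2]
            norm_num
  let m' : B × I → ℤ := m - ∑ x, m x • gen x
  have hmm : m = m' + ∑ x, m x • gen x := by
    simp only [m']
    abel
  have hm'z : ∀ z, m' z = ∑ x, m x * s x.1 * (if y x = z then 1 else 0) := by
    intro z
    have h1 : m z = ∑ x, m x * (if x = z then 1 else 0) := by
      simp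
    have h2 : (∑ x, m x • gen x) z = ∑ x, (m x * (if x = z then 1 else 0) -
        m x * s x.1 * (if y x = z then 1 else 0)) := by
      rw [Finset.sum_apply]
      refine Finset.sum_congr rfl fun x _ => ?_
      simp only [gen, Pi.smul_apply, Pi.sub_apply, smul_eq_mul, Pi.single_apply, eq_comm (a := z)]
      ring
    simp only [m', Pi.sub_apply]
    rw [h2, Finset.sum_sub_distrib, ← h1]
    ring
  have hm'rel : ∀ ν, ∑ z, m' z * φ z ν = 0 := by
    intro ν
    have h1 : ∑ z, m' z * φ z ν = ∑ x, m x * s x.1 * φ (y x) ν := by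
      calc ∑ z, m' z * φ z ν = ∑ z, ∑ x, m x * s x.1 * (if y x = z then 1 else 0) * φ z ν := by
            refine Finset.sum_congr rfl fun z _ => ?_
            rw [hm'z z, Finset.sum_mul]
        _ = ∑ x, ∑ z, m x * s x.1 * (if y x = z then 1 else 0) * φ z ν := Finset.sum_comm
        _ = ∑ x, m x * s x.1 * φ (y x) ν := by
            refine Finset.sum_congr rfl fun x _ => ?_
            simp
    rw [h1, ← hm ν]
    refine Finset.sum_congr rfl fun x _ => ?_
    rw [hy x ν, mul_assoc]
  have hm'supp : ∀ b, (∀ b₀, rep b₀ ≠ b) → ∀ i, m' (b, i) = 0 := by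
    intro b hb i
    rw [hm'z]
    refine Finset.sum_eq_zero fun x _ => ?_
    have : y x ≠ (b, i) := fun h => hb x.1 (congrArg Prod.fst h)
    simp [this]
  let F : B → N → ℤ := fun b ν => ∑ i, m' (b, i) * φ (b, i) ν
  have hFsum : ∀ ν, ∑ b, F b ν = 0 := by
    intro ν
    rw [← hm'rel ν, Fintype.sum_prod_type]
  have hForth : ∀ b b', b ≠ b' → ∑ ν, F b ν * F b' ν = 0 := by
    intro b b' hne
    by_cases hb : ∀ b₀, rep b₀ ≠ b
    · refine Finset.sum_eq_zero fun ν _ => ?_
      have : F b ν = 0 := Finset.sum_eq_zero fun i _ => by rw [hm'supp b hb i, zero_mul]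
      rw [this, zero_mul]
    by_cases hb' : ∀ b₀, rep b₀ ≠ b'
    · refine Finset.sum_eq_zero fun ν _ => ?_
      have : F b' ν = 0 := Finset.sum_eq_zero fun i _ => by rw [hm'supp b' hb' i, zero_mul]
      rw [this, mul_zero]
    push Not at hb hb'
    obtain ⟨b₀, rfl⟩ := hb
    obtain ⟨b₁, rfl⟩ := hb'
    have hO := hrep_rep b₀ b₁ hne
    have h1 : ∀ ν, F (rep b₀) ν * F (rep b₁) ν = ∑ i, ∑ i',
        m' (rep b₀, i) * m' (rep b₁, i') * (φ (rep b₀, i) ν * φ (rep b₁, i') ν) := by
      intro ν
      simp only [F, Finset.sum_mul_sum]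
      refine Finset.sum_congr rfl fun i _ => Finset.sum_congr rfl fun i' _ => ?_
      ring
    simp only [h1]
    rw [Finset.sum_comm]
    refine Finset.sum_eq_zero fun i _ => ?_
    rw [Finset.sum_comm]
    refine Finset.sum_eq_zero fun i' _ => ?_
    rw [← Finset.mul_sum, hO i i', mul_zero]
  have hF0 : ∀ b ν, F b ν = 0 := by
    intro b
    have h1 : ∑ ν, F b ν * F b ν = 0 := by
      have h2 : ∑ ν, F b ν * ∑ b', F b' ν = 0 := by
        simp [hFsum]
      have h3 : ∑ ν, F b ν * ∑ b', F b' ν = ∑ b', ∑ ν, F b ν * F b' ν := by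
        rw [Finset.sum_comm]
        refine Finset.sum_congr rfl fun ν _ => ?_
        rw [Finset.mul_sum]
      rw [h3, Finset.sum_eq_single b (fun b' _ hb' => hForth b b' hb'.symm)
        (fun h => absurd (Finset.mem_univ b) h)] at h2
      exact h2
    intro ν
    have h4 := (Finset.sum_eq_zero_iff_of_nonneg (fun ν _ => mul_self_nonneg (F b ν))).1 h1 ν
      (Finset.mem_univ ν)
    exact mul_self_eq_zero.1 h4
  have hm'emb : m' = ∑ b, embB b (fun i => m' (b, i)) := by
    funext z
    rw [Finset.sum_apply, Finset.sum_eq_single z.1]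
    · simp [embB]
    · intro b _ hb
      simp [embB, hb.symm]
    · intro h
      exact absurd (Finset.mem_univ _) h
  rw [hmm]
  refine AddSubgroup.add_mem _ ?_ (AddSubgroup.sum_mem _ fun x _ => AddSubgroup.zsmul_mem _ (hgen x) _)
  rw [hm'emb]
  exact AddSubgroup.sum_mem _ fun b _ => embB_mem φ b _ (hone b _ (hF0 b))

end Pool.Agent.Helper78.AST
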