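import Pool.Agent.Helper78.AST.Vanish

/-!
# AST-03 Fibre: `phi` on the fibre of the critical polynomial, and off the fibre

`d = f.natDegree = n + 1`, `(d : F) ≠ 0`, `L = d * lead f ≠ 0`.

`rs_crit`: `rs (crit f n) = C L⁻¹ * wp f`: compare coefficients: at `0`: `constantCoeff_wp`; at `i + 1 ≤ n`: definition of `crit`;
at `k > n`, i.e. `k ≥ d`: `coeff k (wp f) = 0` (for `k = d` only the term `k' = 0` of `wp` contributes, it has the factor
`(0 : F)`; for `k > d` nothing).

`phi_fibre`: `n = 2 m` or `n = 2 m + 1`, and `e i = crit f n i` for all `i` with `i < m`. Put `h = rs e - rs (crit f n)`, divisible by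
`X ^ (m + 1)` (its coefficients at `k ≤ m` vanish: `PowerSeries.X_pow_dvd_iff`). `phi_add` with `R = rs (crit f n)`
(`d = n + 1 ≤ 2 m + 2`): `wp f * (h * R⁻¹) = C L * h` since `wp f = C L * R`, and `coeff d h = 0` because `d = n + 1 > n`
(`rs` has no coefficients beyond `n`). So only the quadratic term is left, and `d = 2 m + 2` iff `n = 2 m + 1`.

`phi_shift`: let `i₀ < m` be an index with `e i = crit f n i` for `i < i₀`; let `i₁ = n - 1 - i₀`, so
`i₁ + 1 = d - (i₀ + 1)` and `i₁ ≥ n - m ≥ m`; if `n = 2 m + 1`, `i₁ ≥ m + 1`. `phi_add` with `R = rs e`, `h = C t * X ^ (i₁ + 1)`: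
divisible by `X ^ (m + 1)`; the quadratic term is `0`: if `d = 2 m + 2` then `i₁ + 1 > m + 1` so `coeff (m + 1) h = 0`.
`coeff d (wp f * (C t * X ^ (i₁ + 1) * (rs e)⁻¹)) = t * coeff (i₀ + 1) (wp f * (rs e)⁻¹)`. Now `wp f = C L * rs (crit f n)` and
`rs (crit f n) = rs e + X ^ (i₀ + 1) * u` with `constantCoeff u = crit f n i₀ - e i₀`, so
`wp f * (rs e)⁻¹ = C L * (1 + X ^ (i₀ + 1) * u * (rs e)⁻¹)` and the coefficient at `i₀ + 1 ≥ 1` is `L * (crit f n i₀ - e i₀)`.
-/

set_option autoImplicit false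

open Polynomial PowerSeries

namespace Pool.Agent.Helper78.AST

variable {F : Type} [Field F]

theorem coeff_rs {n : ℕ} (e : Fin n → F) (i : Fin n) : PowerSeries.coeff ((i : ℕ) + 1) (rs e) = e i := by
  unfold rs
  rw [map_add, PowerSeries.coeff_one, if_neg (Nat.succ_ne_zero _), zero_add, map_sum,
    Finset.sum_eq_single i]
  · rw [PowerSeries.coeff_C_mul, PowerSeries.coeff_X_pow, if_pos rfl, mul_one]
  · intro j _ hj
    rw [PowerSeries.coeff_C_mul, PowerSeries.coeff_X_pow, if_neg, mul_zero]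
    intro h
    exact hj (Fin.ext (by omega))
  · intro h
    exact absurd (Finset.mem_univ i) h

theorem coeff_rs_of_lt {n : ℕ} (e : Fin n → F) (k : ℕ) (hk : n < k) : PowerSeries.coeff k (rs e) = 0 := by
  unfold rs
  rw [map_add, PowerSeries.coeff_one, if_neg (by omega), zero_add, map_sum]
  apply Finset.sum_eq_zero
  intro j _
  have hj := j.isLt
  rw [PowerSeries.coeff_C_mul, PowerSeries.coeff_X_pow, if_neg (by omega), mul_zero]

private theorem coeff_zero_rs {n : ℕ} (e : Fin n → F) : PowerSeries.coeff 0 (rs e) = 1 := by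
  rw [PowerSeries.coeff_zero_eq_constantCoeff_apply, constantCoeff_rs]

private theorem lead_ne_zero (f : F[X]) (n : ℕ) (hn : f.natDegree = n + 1)
    (hdF : (f.natDegree : F) ≠ 0) : (f.natDegree : F) * f.leadingCoeff ≠ 0 := by
  have hf0 : f ≠ 0 := by
    intro h0
    rw [h0, Polynomial.natDegree_zero] at hn
    omega
  exact mul_ne_zero hdF (Polynomial.leadingCoeff_ne_zero.2 hf0)

private theorem coeff_wp_of_le (f : F[X]) (k : ℕ) (hk : f.natDegree ≤ k) :
    PowerSeries.coeff k (wp f) = 0 ∨ k = 0 := by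
  by_cases hk0 : k = 0
  · exact Or.inr hk0
  · left
    unfold wp
    rw [map_sum]
    apply Finset.sum_eq_zero
    intro j hj
    have h1 := Finset.mem_range.1 hj
    rw [PowerSeries.coeff_C_mul, PowerSeries.coeff_X_pow]
    split_ifs with h2
    · have h3 : j = 0 := by omega
      rw [h3, Nat.cast_zero, zero_mul, zero_mul]
    · rw [mul_zero]

theorem rs_crit (f : F[X]) (n : ℕ) (hn : f.natDegree = n + 1) (hdF : (f.natDegree : F) ≠ 0) :
    rs (crit f n) = PowerSeries.C ((f.natDegree : F) * f.leadingCoeff)⁻¹ * wp f := by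
  have hL := lead_ne_zero f n hn hdF
  ext k
  rw [PowerSeries.coeff_C_mul]
  cases k with
  | zero =>
    rw [coeff_zero_rs, PowerSeries.coeff_zero_eq_constantCoeff_apply, constantCoeff_wp,
      inv_mul_cancel₀ hL]
  | succ j =>
    by_cases hj : j < n
    · have h1 := coeff_rs (crit f n) ⟨j, hj⟩
      simp only at h1
      rw [h1]
      simp only [crit]
      rw [div_eq_mul_inv, mul_comm]
    · rw [coeff_rs_of_lt _ _ (by omega)]
      rcases coeff_wp_of_le f (j + 1) (by omega) with h1 | h1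
      · rw [h1, mul_zero]
      · omega

private theorem wp_eq (f : F[X]) (n : ℕ) (hn : f.natDegree = n + 1) (hdF : (f.natDegree : F) ≠ 0) :
    wp f = PowerSeries.C ((f.natDegree : F) * f.leadingCoeff) * rs (crit f n) := by
  rw [rs_crit f n hn hdF, ← mul_assoc, ← map_mul, mul_inv_cancel₀ (lead_ne_zero f n hn hdF),
    map_one, one_mul]

theorem phi_fibre (f : F[X]) (m n : ℕ) (hn : f.natDegree = n + 1) (hm : n = 2 * m ∨ n = 2 * m + 1)
    (h2 : (2 : F) ≠ 0) (hdF : (f.natDegree : F) ≠ 0) (e : Fin n → F)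
    (he : ∀ i : Fin n, (i : ℕ) < m → e i = crit f n i) :
    phi f n (rs e) = phi f n (rs (crit f n)) +
      (if n = 2 * m + 1 then (f.natDegree : F) * f.leadingCoeff / 2 *
        (PowerSeries.coeff (m + 1) (rs e) - PowerSeries.coeff (m + 1) (rs (crit f n))) ^ 2 else 0) := by
  have hR := constantCoeff_rs (crit f n)
  have hR0 : PowerSeries.constantCoeff (rs (crit f n)) ≠ 0 := by rw [hR]; exact one_ne_zero
  have hRR : rs (crit f n) * (rs (crit f n))⁻¹ = 1 := PowerSeries.mul_inv_cancel _ hR0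
  have hdvd : (PowerSeries.X : F⟦X⟧) ^ (m + 1) ∣ rs e - rs (crit f n) := by
    rw [PowerSeries.X_pow_dvd_iff]
    intro k hk
    rw [map_sub]
    cases k with
    | zero => rw [coeff_zero_rs, coeff_zero_rs, sub_self]
    | succ j =>
      have hj : j < n := by omega
      have h1 := coeff_rs e ⟨j, hj⟩
      have h2 := coeff_rs (crit f n) ⟨j, hj⟩
      simp only at h1 h2
      rw [h1, h2, he ⟨j, hj⟩ (by simp only; omega), sub_self]
  have h1 := phi_add f m n (by omega) h2 (rs (crit f n)) (rs e - rs (crit f n)) hR hdvd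
  rw [add_sub_cancel] at h1
  have h3 : wp f * ((rs e - rs (crit f n)) * (rs (crit f n))⁻¹) =
      PowerSeries.C ((f.natDegree : F) * f.leadingCoeff) * (rs e - rs (crit f n)) := by
    rw [wp_eq f n hn hdF]
    linear_combination (PowerSeries.C ((f.natDegree : F) * f.leadingCoeff) *
      (rs e - rs (crit f n))) * hRR
  have h4 : PowerSeries.coeff f.natDegree
      (wp f * ((rs e - rs (crit f n)) * (rs (crit f n))⁻¹)) = 0 := by
    rw [h3, PowerSeries.coeff_C_mul, map_sub, coeff_rs_of_lt e _ (by omega),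
      coeff_rs_of_lt (crit f n) _ (by omega), sub_zero, mul_zero]
  rw [h1, h4, sub_zero, map_sub]
  congr 1
  by_cases h5 : n = 2 * m + 1
  · rw [if_pos h5, if_pos (by omega)]
  · rw [if_neg h5, if_neg (by omega)]

theorem phi_shift (f : F[X]) (m n : ℕ) (hn : f.natDegree = n + 1) (hm : n = 2 * m ∨ n = 2 * m + 1)
    (h2 : (2 : F) ≠ 0) (hdF : (f.natDegree : F) ≠ 0) (e : Fin n → F) (i₀ i₁ : Fin n)
    (hi₀ : (i₀ : ℕ) < m) (hi₁ : (i₁ : ℕ) = n - 1 - i₀)
    (he : ∀ i : Fin n, i < i₀ → e i = crit f n i) (t : F) :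
    phi f n (rs (e + Pi.single i₁ t)) = phi f n (rs e) -
      t * ((f.natDegree : F) * f.leadingCoeff * (crit f n i₀ - e i₀)) := by
  have hi₀n := i₀.isLt
  have hR := constantCoeff_rs e
  have hR0 : PowerSeries.constantCoeff (rs e) ≠ 0 := by rw [hR]; exact one_ne_zero
  have hRR : rs e * (rs e)⁻¹ = 1 := PowerSeries.mul_inv_cancel _ hR0
  rw [rs_add_single]
  have h1 := phi_add f m n (by omega) h2 (rs e)
    (PowerSeries.C t * (PowerSeries.X : F⟦X⟧) ^ ((i₁ : ℕ) + 1)) hR
    (Dvd.dvd.mul_left (pow_dvd_pow _ (by omega)) _)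
  have hlast : (if f.natDegree = 2 * m + 2 then
        (f.natDegree : F) * f.leadingCoeff / 2 * (PowerSeries.coeff (m + 1)
          (PowerSeries.C t * (PowerSeries.X : F⟦X⟧) ^ ((i₁ : ℕ) + 1))) ^ 2 else 0) = 0 := by
    split_ifs with h3
    · rw [PowerSeries.coeff_C_mul, PowerSeries.coeff_X_pow, if_neg (by omega), mul_zero]
      ring
    · rfl
  rw [h1, hlast, add_zero]
  congr 1
  have hdvd : (PowerSeries.X : F⟦X⟧) ^ ((i₀ : ℕ) + 1) ∣ rs (crit f n) - rs e := by
    rw [PowerSeries.X_pow_dvd_iff]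
    intro k hk
    rw [map_sub]
    cases k with
    | zero => rw [coeff_zero_rs, coeff_zero_rs, sub_self]
    | succ j =>
      have hj : j < n := by omega
      have h4 := coeff_rs e ⟨j, hj⟩
      have h5 := coeff_rs (crit f n) ⟨j, hj⟩
      simp only at h4 h5
      rw [h4, h5, he ⟨j, hj⟩ (Fin.mk_lt_of_lt_val (by omega)), sub_self]
  obtain ⟨u, hu⟩ := hdvd
  have hu0 : PowerSeries.constantCoeff u = crit f n i₀ - e i₀ := by
    have h4 := PowerSeries.coeff_X_pow_mul u ((i₀ : ℕ) + 1) 0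
    rw [zero_add, ← hu, map_sub, coeff_rs, coeff_rs,
      PowerSeries.coeff_zero_eq_constantCoeff_apply] at h4
    exact h4.symm
  have hcrit : rs (crit f n) = rs e + (PowerSeries.X : F⟦X⟧) ^ ((i₀ : ℕ) + 1) * u := by
    rw [← hu]; ring
  have h6 : wp f * (PowerSeries.C t * (PowerSeries.X : F⟦X⟧) ^ ((i₁ : ℕ) + 1) * (rs e)⁻¹) =
      (PowerSeries.X : F⟦X⟧) ^ ((i₁ : ℕ) + 1) * (PowerSeries.C (t * ((f.natDegree : F) *
        f.leadingCoeff)) * (1 + (PowerSeries.X : F⟦X⟧) ^ ((i₀ : ℕ) + 1) * (u * (rs e)⁻¹))) := by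
    rw [wp_eq f n hn hdF, hcrit]
    simp only [map_mul]
    linear_combination (PowerSeries.C (f.natDegree : F) * PowerSeries.C f.leadingCoeff *
      PowerSeries.C t * (PowerSeries.X : F⟦X⟧) ^ ((i₁ : ℕ) + 1)) * hRR
  have h7 : f.natDegree = ((i₀ : ℕ) + 1) + ((i₁ : ℕ) + 1) := by omega
  rw [h6, h7, PowerSeries.coeff_X_pow_mul, PowerSeries.coeff_C_mul, map_add,
    PowerSeries.coeff_one, if_neg (Nat.succ_ne_zero _), zero_add]
  have h8 := PowerSeries.coeff_X_pow_mul (u * (rs e)⁻¹) ((i₀ : ℕ) + 1) 0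
  rw [zero_add] at h8
  rw [h8, PowerSeries.coeff_zero_eq_constantCoeff_apply, map_mul, hu0,
    PowerSeries.constantCoeff_inv, hR, inv_one, mul_one]
  ring

end Pool.Agent.Helper78.AST
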