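import Pool.Agent.Helper78.AST.PhiP
import Pool.Agent.Helper78.AST.Fibre

/-!
# AST-19 CritSum: the critical values, and the cycle

`Ω` an algebraically closed extension of `F`, `d = f.natDegree = n + 1`, `(d : F) ≠ 0`, `(2 : F) ≠ 0`.

* `crit_sum`: the derivative `f'` has degree `n` and leading coefficient `d lead f` (`(d : F) ≠ 0`), and `f' = C (d lead f) * mon (crit f n)`: compare coefficients
  (`coeff_derivative`, `coeff (i + 1) (wp f) = (d - i - 1) f_{d - i - 1}` for `i + 1 ≤ n`). Over `Ω` the monic polynomial `(mon (crit f n)).map` is `∏ (X - θ)` over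
  `(derivative f).aroots Ω` (`IsAlgClosed.splits`). So `algebraMap (phi f n (rs (crit f n))) = algebraMap (phiP f (mon (crit f n))) = phiP (f.map) ((mon (crit f n)).map) = ∑ f θ`
  (`phiP_mon`, `phiP_map`, `phiP_prod`).
* `cycle`: `s` a multiset of `n` elements of `Ω` with the same first `m` elementary symmetric functions as the multiset `T = (derivative f).aroots Ω`. Let `e, e₀ : Fin n → Ω` with
  `∏_{x ∈ s} (X - x) = mon e`, `∏_{θ ∈ T} (X - θ) = mon e₀` (`mon_surjective`), `e i = (-1) ^ (i + 1) s.esymm (i + 1)` (`Multiset.prod_X_sub_C_coeff`), and the same for `e₀`, `T`.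
  Over `Ω`: `e₀ = crit (f.map) n` (as above). `phiP_prod`, `phiP_mon`: `∑_{x ∈ s} f x = phi (f.map) n (rs e)`. `phi_fibre` over `Ω` with `f.map (algebraMap F Ω)` gives the claim; for
  `n = 2 m + 1`: `coeff (m + 1) (rs e) = e m = (-1) ^ (m + 1) s.esymm (m + 1)` (`coeff_rs`), and the square does not see the sign.
-/

set_option autoImplicit false

open Polynomial PowerSeries

namespace Pool.Agent.Helper78.AST

variable {F : Type} [Field F] (Ω : Type) [Field Ω] [Algebra F Ω] [IsAlgClosed Ω]

theorem critSum_coeff_mon {K : Type} [Field K] {n : ℕ} (e : Fin n → K) (j : ℕ) :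
    (mon e).coeff j = (if j = n then 1 else 0) +
      ∑ i : Fin n, (if j = n - 1 - (i : ℕ) then e i else 0) := by
  unfold mon
  rw [Polynomial.coeff_add, Polynomial.coeff_X_pow, Polynomial.finsetSum_coeff]
  congr 1
  refine Finset.sum_congr rfl fun i _ => ?_
  rw [Polynomial.coeff_C_mul, Polynomial.coeff_X_pow, mul_ite, mul_one, mul_zero]

theorem critSum_coeff_mon_lt {K : Type} [Field K] {n : ℕ} (e : Fin n → K) (i : Fin n) :
    (mon e).coeff (n - 1 - (i : ℕ)) = e i := by
  rw [critSum_coeff_mon]
  have h1 : ¬ (n - 1 - (i : ℕ) = n) := by have := i.2; omega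
  rw [if_neg h1, zero_add, Finset.sum_eq_single i]
  · rw [if_pos rfl]
  · intro j _ hj
    rw [if_neg]
    intro h
    apply hj
    have := i.2
    have := j.2
    apply Fin.ext
    omega
  · intro h
    exact absurd (Finset.mem_univ i) h

theorem critSum_coeff_mon_top {K : Type} [Field K] {n : ℕ} (e : Fin n → K) :
    (mon e).coeff n = 1 := by
  rw [critSum_coeff_mon, if_pos rfl, Finset.sum_eq_zero, add_zero]
  intro i _
  rw [if_neg]
  have := i.2
  omega

theorem critSum_coeff_mon_gt {K : Type} [Field K] {n : ℕ} (e : Fin n → K) (j : ℕ) (hj : n < j) :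
    (mon e).coeff j = 0 := by
  rw [critSum_coeff_mon, if_neg (by omega), Finset.sum_eq_zero, add_zero]
  intro i _
  rw [if_neg]
  have := i.2
  omega

theorem critSum_coeff_wp {K : Type} [Field K] (f : K[X]) (k : ℕ) (hk : k ≤ f.natDegree) :
    PowerSeries.coeff k (wp f) = ((f.natDegree - k : ℕ) : K) * f.coeff (f.natDegree - k) := by
  unfold wp
  rw [map_sum, Finset.sum_eq_single (f.natDegree - k)]
  · rw [PowerSeries.coeff_C_mul, PowerSeries.coeff_X_pow, if_pos (by omega), mul_one]
  · intro j hj hne
    rw [PowerSeries.coeff_C_mul, PowerSeries.coeff_X_pow, if_neg, mul_zero]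
    have := Finset.mem_range.mp hj
    omega
  · intro h
    exact absurd (Finset.mem_range.mpr (by omega)) h

theorem critSum_derivative {K : Type} [Field K] (f : K[X]) (n : ℕ) (hn : f.natDegree = n + 1)
    (hdF : (f.natDegree : K) ≠ 0) :
    Polynomial.derivative f = Polynomial.C ((f.natDegree : K) * f.leadingCoeff) * mon (crit f n) := by
  have hlead : f.leadingCoeff ≠ 0 := by
    rw [Ne, Polynomial.leadingCoeff_eq_zero]
    rintro rfl
    simp at hn
  have hL : (f.natDegree : K) * f.leadingCoeff ≠ 0 := mul_ne_zero hdF hlead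
  ext j
  rw [Polynomial.coeff_derivative, Polynomial.coeff_C_mul]
  rcases lt_trichotomy j n with hj | hj | hj
  · have h1 : j = n - 1 - ((⟨n - 1 - j, by omega⟩ : Fin n) : ℕ) := by
      simp only
      omega
    have h2 : (mon (crit f n)).coeff j = crit f n ⟨n - 1 - j, by omega⟩ := by
      conv_lhs => rw [h1]
      exact critSum_coeff_mon_lt _ _
    rw [h2]
    unfold crit
    rw [mul_div_cancel₀ _ hL]
    rw [critSum_coeff_wp f _ (by simp only; omega)]
    have h3 : f.natDegree - ((((⟨n - 1 - j, by omega⟩ : Fin n) : ℕ)) + 1) = j + 1 := by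
      simp only
      omega
    rw [h3]
    push_cast
    ring
  · subst hj
    rw [critSum_coeff_mon_top, mul_one]
    have h1 : f.leadingCoeff = f.coeff (j + 1) := by
      rw [Polynomial.leadingCoeff, hn]
    rw [h1, hn]
    push_cast
    ring
  · rw [critSum_coeff_mon_gt _ _ hj, mul_zero, Polynomial.coeff_eq_zero_of_natDegree_lt (by omega),
      zero_mul]

/-- Over an algebraically closed field, the critical polynomial is the product over the roots of
the derivative. -/
theorem critSum_prod {K : Type} [Field K] [IsAlgClosed K] (f : K[X]) (n : ℕ)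
    (hn : f.natDegree = n + 1) (hdF : (f.natDegree : K) ≠ 0) :
    mon (crit f n) = ((Polynomial.derivative f).roots.map
      fun a => Polynomial.X - Polynomial.C a).prod := by
  have hlead : f.leadingCoeff ≠ 0 := by
    rw [Ne, Polynomial.leadingCoeff_eq_zero]
    rintro rfl
    simp at hn
  have hL : (f.natDegree : K) * f.leadingCoeff ≠ 0 := mul_ne_zero hdF hlead
  have h1 := critSum_derivative f n hn hdF
  have h2 : (Polynomial.derivative f).roots = (mon (crit f n)).roots := by
    rw [h1, Polynomial.roots_C_mul _ hL]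
  rw [h2]
  have h3 := (IsAlgClosed.splits (mon (crit f n))).eq_prod_roots
  rw [(mon_monic (crit f n)).leadingCoeff, Polynomial.C_1, one_mul] at h3
  exact h3

theorem critSum_card {K : Type} [Field K] [IsAlgClosed K] (f : K[X]) (n : ℕ)
    (hn : f.natDegree = n + 1) (hdF : (f.natDegree : K) ≠ 0) :
    (Polynomial.derivative f).roots.card = n := by
  have h1 := congrArg Polynomial.natDegree (critSum_prod f n hn hdF)
  rw [mon_natDegree, Polynomial.natDegree_multiset_prod_X_sub_C_eq_card] at h1
  exact h1.symm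

theorem critSum_map_crit (f : F[X]) (n : ℕ) (hn : f.natDegree = n + 1)
    (hdF : (f.natDegree : F) ≠ 0) :
    (mon (crit f n)).map (algebraMap F Ω) = (((Polynomial.derivative f).aroots Ω).map
      fun a => Polynomial.X - Polynomial.C a).prod := by
  have hlead : f.leadingCoeff ≠ 0 := by
    rw [Ne, Polynomial.leadingCoeff_eq_zero]
    rintro rfl
    simp at hn
  have hL : (f.natDegree : F) * f.leadingCoeff ≠ 0 := mul_ne_zero hdF hlead
  have hL' : (algebraMap F Ω) ((f.natDegree : F) * f.leadingCoeff) ≠ 0 := by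
    rw [Ne, _root_.map_eq_zero]
    exact hL
  have h1 := critSum_derivative f n hn hdF
  have h2 : (Polynomial.derivative f).aroots Ω =
      ((mon (crit f n)).map (algebraMap F Ω)).roots := by
    rw [Polynomial.aroots, h1, Polynomial.map_mul, Polynomial.map_C, Polynomial.roots_C_mul _ hL']
  rw [h2]
  have h3 := (IsAlgClosed.splits ((mon (crit f n)).map (algebraMap F Ω))).eq_prod_roots
  rw [((mon_monic (crit f n)).map (algebraMap F Ω)).leadingCoeff, Polynomial.C_1, one_mul] at h3
  exact h3

theorem crit_sum (f : F[X]) (n : ℕ) (hn : f.natDegree = n + 1) (hdF : (f.natDegree : F) ≠ 0) :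
    algebraMap F Ω (phi f n (rs (crit f n))) =
      (((Polynomial.derivative f).aroots Ω).map fun θ => Polynomial.aeval θ f).sum := by
  rw [← phiP_mon, ← phiP_map (algebraMap F Ω) f _ (mon_monic _), critSum_map_crit Ω f n hn hdF,
    phiP_prod]
  refine congrArg Multiset.sum (Multiset.map_congr rfl fun θ _ => ?_)
  rw [Polynomial.eval_map, Polynomial.aeval_def]

theorem critSum_surj {K : Type} [Field K] (E : K[X]) (hE : E.Monic) (n : ℕ)
    (hn : E.natDegree = n) : ∃ e : Fin n → K, mon e = E := by
  subst hn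
  exact mon_surjective E hE

theorem critSum_esymm {K : Type} [Field K] {n : ℕ} (e : Fin n → K) (s : Multiset K)
    (hs : s.card = n) (he : mon e = (s.map fun a => Polynomial.X - Polynomial.C a).prod)
    (i : Fin n) : e i = (-1) ^ ((i : ℕ) + 1) * s.esymm ((i : ℕ) + 1) := by
  have h1 := critSum_coeff_mon_lt e i
  rw [he, Multiset.prod_X_sub_C_coeff s (by rw [hs]; omega)] at h1
  have h2 : s.card - (n - 1 - (i : ℕ)) = (i : ℕ) + 1 := by
    rw [hs]
    have := i.2
    omega
  rw [h2] at h1
  exact h1.symm

theorem cycle (f : F[X]) (m n : ℕ) (hn : f.natDegree = n + 1) (hm : n = 2 * m ∨ n = 2 * m + 1)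
    (h2 : (2 : F) ≠ 0) (hdF : (f.natDegree : F) ≠ 0) (s : Multiset Ω) (hs : s.card = n)
    (hes : ∀ i, i ≤ m → s.esymm i = ((Polynomial.derivative f).aroots Ω).esymm i) :
    (s.map fun x => Polynomial.aeval x f).sum = (((Polynomial.derivative f).aroots Ω).map fun θ => Polynomial.aeval θ f).sum +
      (if n = 2 * m + 1 then algebraMap F Ω ((f.natDegree : F) * f.leadingCoeff / 2) *
        (s.esymm (m + 1) - ((Polynomial.derivative f).aroots Ω).esymm (m + 1)) ^ 2 else 0) := by
  set g : Polynomial Ω := f.map (algebraMap F Ω) with hg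
  have hgdeg : g.natDegree = f.natDegree := Polynomial.natDegree_map _
  have hglead : g.leadingCoeff = algebraMap F Ω f.leadingCoeff := Polynomial.leadingCoeff_map _
  have hgn : g.natDegree = n + 1 := by rw [hgdeg, hn]
  have hgd : (g.natDegree : Ω) ≠ 0 := by
    rw [hgdeg, ← map_natCast (algebraMap F Ω), Ne, _root_.map_eq_zero]
    exact hdF
  have hg2 : (2 : Ω) ≠ 0 := by
    have h : (2 : Ω) = algebraMap F Ω 2 := (map_ofNat (algebraMap F Ω) 2).symm
    rw [h, Ne, _root_.map_eq_zero]
    exact h2
  have hT : (Polynomial.derivative f).aroots Ω = (Polynomial.derivative g).roots := by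
    rw [Polynomial.aroots, hg, Polynomial.derivative_map]
  rw [hT] at hes ⊢
  set T : Multiset Ω := (Polynomial.derivative g).roots with hTdef
  have hTcard : T.card = n := critSum_card g n hgn hgd
  have hcrit : mon (crit g n) = (T.map fun a => Polynomial.X - Polynomial.C a).prod :=
    critSum_prod g n hgn hgd
  obtain ⟨e, he⟩ := critSum_surj (s.map fun a => Polynomial.X - Polynomial.C a).prod
    (Polynomial.monic_multiset_prod_of_monic _ _ fun a _ => Polynomial.monic_X_sub_C a) n
    (by rw [Polynomial.natDegree_multiset_prod_X_sub_C_eq_card, hs])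
  have hei : ∀ i : Fin n, e i = (-1) ^ ((i : ℕ) + 1) * s.esymm ((i : ℕ) + 1) :=
    critSum_esymm e s hs he
  have hci : ∀ i : Fin n, crit g n i = (-1) ^ ((i : ℕ) + 1) * T.esymm ((i : ℕ) + 1) :=
    critSum_esymm (crit g n) T hTcard hcrit
  have hfib := phi_fibre g m n hgn hm hg2 hgd e (fun i hi => by
    rw [hei, hci, hes _ (by omega)])
  have hS : (s.map fun x => Polynomial.aeval x f).sum = phi g n (rs e) := by
    rw [← phiP_mon, he, phiP_prod]
    refine congrArg Multiset.sum (Multiset.map_congr rfl fun θ _ => ?_)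
    rw [hg, Polynomial.eval_map, Polynomial.aeval_def]
  have hS' : (T.map fun x => Polynomial.aeval x f).sum = phi g n (rs (crit g n)) := by
    rw [← phiP_mon, hcrit, phiP_prod]
    refine congrArg Multiset.sum (Multiset.map_congr rfl fun θ _ => ?_)
    rw [hg, Polynomial.eval_map, Polynomial.aeval_def]
  rw [hS, hS', hfib]
  congr 1
  by_cases hcase : n = 2 * m + 1
  · rw [if_pos hcase, if_pos hcase]
    have hmn : m < n := by omega
    have h3 : PowerSeries.coeff (m + 1) (rs e) = e ⟨m, hmn⟩ := coeff_rs e ⟨m, hmn⟩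
    have h4 : PowerSeries.coeff (m + 1) (rs (crit g n)) = crit g n ⟨m, hmn⟩ :=
      coeff_rs (crit g n) ⟨m, hmn⟩
    rw [h3, h4, hei, hci, hglead, hgdeg]
    simp only [map_mul, map_div₀, map_natCast, map_ofNat]
    have h5 : (((-1 : Ω) ^ (m + 1)) ^ 2) = 1 := by
      rw [← pow_mul, mul_comm, pow_mul]
      norm_num
    rw [← mul_sub, mul_pow, h5, one_mul]
  · rw [if_neg hcase, if_neg hcase]

end Pool.Agent.Helper78.AST
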