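import Mathlib

/-!
# AST: definitions (Artin-Schreier curves `w ^ p - w = f x`)

* `expSum p F E f c`: the sum of `e(c Tr f(x) / p)` over the elements `x` of the finite extension
  `E` of `F`.
* `IsEigen p F f c b`: the `b i` are the Frobenius eigenvalues on the part of the first cohomology of
  `w ^ p - w = f x` on which the group `ℤ / p` acts through the character `c`.
* `IsRel q b m`: a power of the monomial `∏ b x ^ m x` is a power of `q`.
-/

set_option autoImplicit false

open Polynomial

namespace Pool.Agent.Helper78.AST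

/-- The exponential sum of `c f` over the finite extension `E` of `F`. -/
noncomputable def expSum (p : ℕ) [NeZero p] (F E : Type) [Field F] [Field E] [Fintype E] [Algebra F E]
    [Algebra (ZMod p) E] (f : F[X]) (c : ZMod p) : ℂ :=
  ∑ x : E, ZMod.stdAddChar (c * Algebra.trace (ZMod p) E (aeval x f))

/-- The Frobenius eigenvalues of the `c`-part of the first cohomology of `w ^ p - w = f x`. -/
def IsEigen (p : ℕ) [NeZero p] (F : Type) [Field F] (f : F[X]) (c : ZMod p) {n : ℕ}
    (b : Fin n → ℂ) : Prop :=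
  ∀ (E : Type) [Field E] [Fintype E] [Algebra F E] [Algebra (ZMod p) E],
    expSum p F E f c = -∑ i, b i ^ Module.finrank F E

/-- A power of the monomial with exponents `m` in the numbers `b x` is a power of `q`. -/
def IsRel (q : ℕ) {X : Type} [Fintype X] (b : X → ℂ) (m : X → ℤ) : Prop :=
  ∃ (k : ℕ) (j : ℤ), 0 < k ∧ (∏ x, b x ^ m x) ^ k = (q : ℂ) ^ j

/-- The exponents which are `1` on the block `a` (the determinant of the block) and `0` on the others. -/
def block {B I : Type} [DecidableEq B] (a : B) : B × I → ℤ := fun x => if x.1 = a then 1 else 0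

/-- The relations of length at most two, and the determinants. -/
def shortRels (q : ℕ) {B I : Type} [DecidableEq B] [Fintype B] [Fintype I] (b : B × I → ℂ) :
    Set (B × I → ℤ) :=
  {m | (IsRel q b m ∧ ∑ x, |m x| ≤ 2) ∨ ∃ a, m = block a}

/-- The norms of the sums `expSum p F F (f j) 1` which are not divisible by `q ^ ((p - 1) / 2)` have
the same `p`-adic valuation. -/
def SameSlope (p : ℕ) [NeZero p] (F : Type) [Field F] [Fintype F] [Algebra (ZMod p) F] {J : Type}
    (f : J → F[X]) : Prop :=
  ∀ (j j' : J) (N N' : ℤ), (N : ℂ) = ∏ c : (ZMod p)ˣ, expSum p F F (f j) c →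
    (N' : ℂ) = ∏ c : (ZMod p)ˣ, expSum p F F (f j') c →
    ¬ ((Fintype.card F : ℤ) ^ (p - 1) ∣ N ^ 2) → ¬ ((Fintype.card F : ℤ) ^ (p - 1) ∣ N' ^ 2) →
    padicValInt p N = padicValInt p N'

/-- The automorphisms of `ℂ` which fix the `p`-th roots of unity. -/
def Fixes (p : ℕ) [NeZero p] (s : ℂ ≃+* ℂ) : Prop :=
  s (ZMod.stdAddChar (1 : ZMod p)) = ZMod.stdAddChar (1 : ZMod p)

/-- The automorphisms of `ℂ` over the `p`-th cyclotomic field act doubly transitively on each block. -/
def TwoTransitive (p : ℕ) [NeZero p] {B I : Type} (b : B × I → ℂ) : Prop :=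
  ∀ (a : B) (i i' k k' : I), i ≠ i' → k ≠ k' →
    ∃ s : ℂ ≃+* ℂ, Fixes p s ∧ s (b (a, i)) = b (a, k) ∧ s (b (a, i')) = b (a, k')

/-- Of two blocks `(j, c)`, `(j', c')` which are not equal or complex conjugate, some automorphism of `ℂ`
over the `p`-th cyclotomic field moves the first and fixes the second elementwise. -/
def Independent (p : ℕ) [NeZero p] {J I : Type} (b : (J × (ZMod p)ˣ) × I → ℂ) : Prop :=
  ∀ (j j' : J) (c c' : (ZMod p)ˣ), ¬ (j' = j ∧ (c' = c ∨ c' = -c)) →
    ∃ s : ℂ ≃+* ℂ, Fixes p s ∧ (∃ i, s (b ((j, c), i)) ≠ b ((j, c), i)) ∧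
      ∀ i, s (b ((j', c'), i)) = b ((j', c'), i)

end Pool.Agent.Helper78.AST
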