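import Pool.Agent.Helper78.AST.Mon

/-!
# AST-07 Euler: `n a_n = ∑ s_k a_{n - k}` for a completely multiplicative function of monic polynomials

`χ 1 = 1`, `χ (E E') = χ E χ E'` for monic `E`, `E'`. `M n` = the finset of the monic polynomials of degree `n`, the image of
`mon : (Fin n → F) → F[X]` (`mon_injective`, `mon_surjective`), so `asum χ n = ∑_{E ∈ M n} χ E`.

1. For a monic `E` of degree `n`: `n = ∑_{π} deg π * v_π(E)` over its monic irreducible factors, `v_π(E)` the multiplicity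
   (`UniqueFactorizationMonoid.normalizedFactors E`: their product is `E` (`Polynomial.Monic.normalizedFactors...`,
   `prod_normalizedFactors_eq`), so `n = natDegree E = ∑ natDegree` over this multiset (`Polynomial.natDegree_multiset_prod_of_monic`)
   `= ∑_{π ∈ toFinset} count π * natDegree π` (`Finset.sum_multiset_count`)). And `v_π(E)` is the number of `j` with
   `1 ≤ j ≤ n` and `π ^ j ∣ E`. So `n = ∑_{(π, j) : 1 ≤ j, π ^ j ∣ E} deg π`, where `π` runs over the monic irreducible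
   polynomials of degree `d ≤ n` and `j` over `1 .. n` (`j d ≤ n`).
   Variant avoiding counts: for each monic irreducible `π` of degree `d ≥ 1` and `E ≠ 0`, the set `{j ∈ Icc 1 n | π ^ j ∣ E}` is
   `Icc 1 (emultiplicity)`.
2. Multiply by `χ E` and sum over `E ∈ M n`, exchange the sums:
   `n a_n = ∑_{d, j ≥ 1, j d ≤ n} ∑_{π ∈ M d irreducible} d ∑_{E ∈ M n, π ^ j ∣ E} χ E`, and `E = π ^ j E'`, `E' ∈ M (n - j d)` (bijection;
   `π ^ j` is monic), `χ E = χ(π) ^ j χ E'` (`χ (π ^ j) = χ π ^ j` by induction). So it is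
   `∑_{d, j} d ∑_π χ(π) ^ j a_{n - j d}`; sort by `k = j d`: `d ∣ k`, `j = k / d`.
   (`∑_{k ∈ Icc 1 n} ∑_{d ∈ divisors k}`; `Nat.sum_divisors...`/`Finset.sum_sigma'` and a bijection `(d, j) ↔ (k, d)`.)
-/

set_option autoImplicit false

open Polynomial PowerSeries

namespace Pool.Agent.Helper78.AST

variable {F : Type} [Field F] [Fintype F]

open Classical in
/-- The monic irreducible polynomials of degree at most `n`. -/
private noncomputable def eIrr (F : Type) [Field F] [Fintype F] (n : ℕ) : Finset F[X] :=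
  ((Finset.Icc 1 n).sigma fun d => (Finset.univ : Finset (Fin d → F)).filter
    (fun e => Irreducible (mon e))).image (fun p => mon p.2)

open Classical in
/-- The monic polynomials of degree `n`. -/
private noncomputable def eMon (F : Type) [Field F] [Fintype F] (n : ℕ) : Finset F[X] :=
  (Finset.univ : Finset (Fin n → F)).image mon

private theorem mem_eMon {n : ℕ} {E : F[X]} : E ∈ eMon F n ↔ E.Monic ∧ E.natDegree = n := by
  classical
  rw [eMon, Finset.mem_image]
  constructor
  · rintro ⟨e, -, rfl⟩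
    exact ⟨mon_monic e, mon_natDegree e⟩
  · rintro ⟨h1, rfl⟩
    obtain ⟨e, he⟩ := mon_surjective E h1
    exact ⟨e, Finset.mem_univ _, he⟩

private theorem mem_eIrr {n : ℕ} {E : F[X]} :
    E ∈ eIrr F n ↔ E.Monic ∧ Irreducible E ∧ E.natDegree ≤ n := by
  classical
  rw [eIrr, Finset.mem_image]
  constructor
  · rintro ⟨⟨d, e⟩, h, rfl⟩
    rw [Finset.mem_sigma, Finset.mem_filter] at h
    refine ⟨mon_monic e, h.2.2, ?_⟩
    rw [mon_natDegree]
    exact (Finset.mem_Icc.1 h.1).2
  · rintro ⟨h1, h2, h3⟩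
    obtain ⟨e, he⟩ := mon_surjective E h1
    refine ⟨⟨E.natDegree, e⟩, ?_, he⟩
    rw [Finset.mem_sigma, Finset.mem_filter]
    refine ⟨Finset.mem_Icc.2 ⟨?_, h3⟩, Finset.mem_univ _, ?_⟩
    · exact h2.natDegree_pos
    · rw [he]
      exact h2

private theorem asum_eq (χ : F[X] → ℂ) (n : ℕ) : asum χ n = ∑ E ∈ eMon F n, χ E := by
  classical
  rw [eMon, Finset.sum_image mon_injective.injOn, asum]

open Classical in
private theorem eIrr_sum (n : ℕ) (f : F[X] → ℂ) :
    ∑ d ∈ Finset.Icc 1 n, ∑ e ∈ (Finset.univ : Finset (Fin d → F)).filter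
      (fun e => Irreducible (mon e)), f (mon e) = ∑ E ∈ eIrr F n, f E := by
  rw [eIrr, Finset.sum_image, Finset.sum_sigma]
  rintro ⟨d, e⟩ - ⟨d', e'⟩ - h
  have h' : mon e = mon e' := h
  have h1 : d = d' := by rw [← mon_natDegree e, h', mon_natDegree]
  subst h1
  rw [mon_injective h']

omit [Fintype F] in
private theorem eu_pow {χ : F[X] → ℂ} (h1 : χ 1 = 1)
    (hmul : ∀ E E' : F[X], E.Monic → E'.Monic → χ (E * E') = χ E * χ E') {E : F[X]} (hE : E.Monic)
    (j : ℕ) : χ (E ^ j) = χ E ^ j := by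
  induction j with
  | zero => rw [pow_zero, pow_zero, h1]
  | succ j ih => rw [pow_succ, pow_succ, hmul _ _ (hE.pow j) hE, ih]

/-- The degree is the sum of the degrees of the prime powers which divide the polynomial. -/
private theorem eu_deg {n : ℕ} {E : F[X]} (hE : E ∈ eMon F n) :
    (n : ℂ) = ∑ Q ∈ eIrr F n, (Q.natDegree : ℂ) *
      ∑ j ∈ Finset.Icc 1 n, Set.indicator {j : ℕ | Q ^ j ∣ E} (fun _ => (1 : ℂ)) j := by
  classical
  obtain ⟨hm, hd⟩ := mem_eMon.1 hE
  have hE0 : E ≠ 0 := hm.ne_zero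
  have hprod : (UniqueFactorizationMonoid.normalizedFactors E).prod = E := by
    rw [UniqueFactorizationMonoid.prod_normalizedFactors_eq hE0]
    exact hm.normalize_eq_self
  have h0 : (0 : F[X]) ∉ UniqueFactorizationMonoid.normalizedFactors E :=
    UniqueFactorizationMonoid.zero_notMem_normalizedFactors E
  have h1 : n = ∑ Q ∈ (UniqueFactorizationMonoid.normalizedFactors E).toFinset,
      (UniqueFactorizationMonoid.normalizedFactors E).count Q * Q.natDegree := by
    have h2 := Polynomial.natDegree_multiset_prod _ h0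
    rw [hprod, hd, Finset.sum_multiset_map_count] at h2
    simpa using h2
  have hsub : (UniqueFactorizationMonoid.normalizedFactors E).toFinset ⊆ eIrr F n := by
    intro Q hQ
    rw [Multiset.mem_toFinset] at hQ
    have h3 := UniqueFactorizationMonoid.irreducible_of_normalized_factor Q hQ
    have h4 := UniqueFactorizationMonoid.normalize_normalized_factor Q hQ
    refine mem_eIrr.2 ⟨?_, h3, ?_⟩
    · rw [← h4]
      exact Polynomial.monic_normalize h3.ne_zero
    · rw [← hd]
      exact Polynomial.natDegree_le_of_dvd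
        (UniqueFactorizationMonoid.dvd_of_mem_normalizedFactors hQ) hE0
  have hcount : ∀ Q ∈ eIrr F n, ∑ j ∈ Finset.Icc 1 n,
      Set.indicator {j : ℕ | Q ^ j ∣ E} (fun _ => (1 : ℂ)) j =
        ((UniqueFactorizationMonoid.normalizedFactors E).count Q : ℂ) := by
    intro Q hQ
    obtain ⟨hQm, hQi, -⟩ := mem_eIrr.1 hQ
    have h5 : ∀ j : ℕ, Q ^ j ∣ E ↔ j ≤ (UniqueFactorizationMonoid.normalizedFactors E).count Q := by
      intro j
      rw [pow_dvd_iff_le_emultiplicity,
        UniqueFactorizationMonoid.emultiplicity_eq_count_normalizedFactors hQi hE0,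
        hQm.normalize_eq_self, Nat.cast_le]
    have h6 : (UniqueFactorizationMonoid.normalizedFactors E).count Q ≤ n := by
      have h7 := Polynomial.natDegree_le_of_dvd ((h5 _).2 le_rfl) hE0
      rw [Polynomial.natDegree_pow, hd] at h7
      exact (Nat.le_mul_of_pos_right _ hQi.natDegree_pos).trans h7
    have h8 : ∑ j ∈ Finset.Icc 1 n, Set.indicator {j : ℕ | Q ^ j ∣ E} (fun _ => (1 : ℂ)) j =
        ∑ j ∈ Finset.Icc 1 ((UniqueFactorizationMonoid.normalizedFactors E).count Q), (1 : ℂ) := by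
      symm
      rw [← Finset.sum_subset (Finset.Icc_subset_Icc_right h6)
        (f := fun j => Set.indicator {j : ℕ | Q ^ j ∣ E} (fun _ => (1 : ℂ)) j)]
      · refine Finset.sum_congr rfl fun j hj => ?_
        rw [Set.indicator_of_mem]
        exact (h5 j).2 (Finset.mem_Icc.1 hj).2
      · intro j hj hj'
        rw [Set.indicator_of_notMem]
        intro h9
        apply hj'
        rw [Finset.mem_Icc]
        exact ⟨(Finset.mem_Icc.1 hj).1, (h5 j).1 h9⟩
    rw [h8]
    simp
  rw [Finset.sum_congr rfl fun Q hQ => by rw [hcount Q hQ]]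
  have h10 : (n : ℂ) = ∑ Q ∈ (UniqueFactorizationMonoid.normalizedFactors E).toFinset,
      (Q.natDegree : ℂ) * ((UniqueFactorizationMonoid.normalizedFactors E).count Q : ℂ) := by
    conv_lhs => rw [h1]
    push_cast
    exact Finset.sum_congr rfl fun Q _ => mul_comm _ _
  rw [h10]
  refine Finset.sum_subset hsub fun Q _ hQ => ?_
  rw [Multiset.mem_toFinset] at hQ
  rw [Multiset.count_eq_zero_of_notMem hQ, Nat.cast_zero, mul_zero]

/-- The sum over the multiples of a power. -/
private theorem eu_mult {χ : F[X] → ℂ} (h1 : χ 1 = 1)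
    (hmul : ∀ E E' : F[X], E.Monic → E'.Monic → χ (E * E') = χ E * χ E') {Q : F[X]} (hQ : Q.Monic)
    (n j : ℕ) :
    ∑ E ∈ eMon F n, Set.indicator {j : ℕ | Q ^ j ∣ E} (fun _ => (1 : ℂ)) j * χ E =
      if j * Q.natDegree ≤ n then χ Q ^ j * asum χ (n - j * Q.natDegree) else 0 := by
  classical
  have hQj : (Q ^ j).Monic := hQ.pow j
  have hdj : (Q ^ j).natDegree = j * Q.natDegree := Polynomial.natDegree_pow _ _
  split_ifs with h
  · rw [asum_eq, Finset.mul_sum]
    have h2 : ∑ E ∈ eMon F (n - j * Q.natDegree), χ Q ^ j * χ E =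
        ∑ E ∈ (eMon F (n - j * Q.natDegree)).image (fun E => Q ^ j * E), χ E := by
      rw [Finset.sum_image]
      · refine Finset.sum_congr rfl fun E hE => ?_
        rw [hmul _ _ hQj (mem_eMon.1 hE).1, eu_pow h1 hmul hQ]
      · intro E _ E' _ hh
        exact mul_left_cancel₀ hQj.ne_zero hh
    rw [h2]
    symm
    have h3 : (eMon F (n - j * Q.natDegree)).image (fun E => Q ^ j * E) ⊆ eMon F n := by
      intro E hE
      obtain ⟨E', hE', rfl⟩ := Finset.mem_image.1 hE
      obtain ⟨h4, h5⟩ := mem_eMon.1 hE'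
      refine mem_eMon.2 ⟨hQj.mul h4, ?_⟩
      rw [hQj.natDegree_mul h4, hdj, h5]
      omega
    rw [← Finset.sum_subset h3
      (f := fun E => Set.indicator {j : ℕ | Q ^ j ∣ E} (fun _ => (1 : ℂ)) j * χ E)]
    · refine Finset.sum_congr rfl fun E hE => ?_
      obtain ⟨E', hE', rfl⟩ := Finset.mem_image.1 hE
      rw [Set.indicator_of_mem, one_mul]
      exact Dvd.intro _ rfl
    · intro E hE hE'
      rw [Set.indicator_of_notMem, zero_mul]
      rintro ⟨E₁, hE₁⟩
      apply hE'
      obtain ⟨h4, h5⟩ := mem_eMon.1 hE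
      have h6 : E₁.Monic := by
        rw [hE₁] at h4
        exact hQj.of_mul_monic_left h4
      refine Finset.mem_image.2 ⟨E₁, mem_eMon.2 ⟨h6, ?_⟩, hE₁.symm⟩
      rw [hE₁, hQj.natDegree_mul h6, hdj] at h5
      omega
  · refine Finset.sum_eq_zero fun E hE => ?_
    obtain ⟨h4, h5⟩ := mem_eMon.1 hE
    rw [Set.indicator_of_notMem, zero_mul]
    intro h6
    have h7 := Polynomial.natDegree_le_of_dvd h6 h4.ne_zero
    rw [hdj, h5] at h7
    exact h h7

/-- The sum over the irreducible polynomials. -/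
private theorem eu_ssum (χ : F[X] → ℂ) {n k : ℕ} (hk : k ∈ Finset.Icc 1 n) :
    ssum χ k = ∑ Q ∈ eIrr F n, if Q.natDegree ∣ k then (Q.natDegree : ℂ) *
      χ Q ^ (k / Q.natDegree) else 0 := by
  classical
  obtain ⟨hk1, hk2⟩ := Finset.mem_Icc.1 hk
  rw [← eIrr_sum n (fun Q => if Q.natDegree ∣ k then (Q.natDegree : ℂ) *
      χ Q ^ (k / Q.natDegree) else 0), ssum]
  simp only [mon_natDegree]
  have h1 : ∀ d ∈ Finset.Icc 1 n, (∑ e ∈ (Finset.univ : Finset (Fin d → F)).filter
      (fun e => Irreducible (mon e)), if d ∣ k then (d : ℂ) * χ (mon e) ^ (k / d) else 0) =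
      if d ∣ k then (d : ℂ) * ∑ e ∈ (Finset.univ : Finset (Fin d → F)).filter
        (fun e => Irreducible (mon e)), χ (mon e) ^ (k / d) else 0 := by
    intro d _
    split_ifs with h
    · rw [Finset.mul_sum]
    · exact Finset.sum_const_zero
  rw [Finset.sum_congr rfl h1, ← Finset.sum_filter]
  refine Finset.sum_congr ?_ fun d _ => ?_
  · ext d
    rw [Nat.mem_divisors, Finset.mem_filter, Finset.mem_Icc]
    constructor
    · rintro ⟨h2, h3⟩
      exact ⟨⟨Nat.pos_of_dvd_of_pos h2 (by omega), (Nat.le_of_dvd (by omega) h2).trans hk2⟩, h2⟩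
    · rintro ⟨-, h2⟩
      exact ⟨h2, by omega⟩
  · congr 2

theorem euler (χ : F[X] → ℂ) (h1 : χ 1 = 1) (hmul : ∀ E E' : F[X], E.Monic → E'.Monic → χ (E * E') = χ E * χ E')
    (n : ℕ) (hn : 1 ≤ n) :
    (n : ℂ) * asum χ n = ∑ k ∈ Finset.Icc 1 n, ssum χ k * asum χ (n - k) := by
  have _h := hn
  have hL : (n : ℂ) * asum χ n = ∑ Q ∈ eIrr F n, ∑ j ∈ Finset.Icc 1 n,
      (if j * Q.natDegree ≤ n then
        (Q.natDegree : ℂ) * (χ Q ^ j * asum χ (n - j * Q.natDegree)) else 0) := by
    rw [asum_eq, Finset.mul_sum]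
    have h2 : ∀ E ∈ eMon F n, (n : ℂ) * χ E = ∑ Q ∈ eIrr F n, ∑ j ∈ Finset.Icc 1 n,
        (Q.natDegree : ℂ) *
          (Set.indicator {j : ℕ | Q ^ j ∣ E} (fun _ => (1 : ℂ)) j * χ E) := by
      intro E hE
      rw [eu_deg hE, Finset.sum_mul]
      refine Finset.sum_congr rfl fun Q _ => ?_
      rw [Finset.mul_sum, Finset.sum_mul]
      exact Finset.sum_congr rfl fun j _ => by ring
    rw [Finset.sum_congr rfl h2, Finset.sum_comm]
    refine Finset.sum_congr rfl fun Q hQ => ?_
    rw [Finset.sum_comm]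
    refine Finset.sum_congr rfl fun j _ => ?_
    rw [← Finset.mul_sum, eu_mult h1 hmul (mem_eIrr.1 hQ).1, mul_ite, mul_zero]
  have hR : ∑ k ∈ Finset.Icc 1 n, ssum χ k * asum χ (n - k) = ∑ Q ∈ eIrr F n,
      ∑ k ∈ Finset.Icc 1 n, (if Q.natDegree ∣ k then (Q.natDegree : ℂ) *
        (χ Q ^ (k / Q.natDegree) * asum χ (n - k)) else 0) := by
    rw [Finset.sum_comm]
    refine Finset.sum_congr rfl fun k hk => ?_
    rw [eu_ssum χ hk, Finset.sum_mul]
    refine Finset.sum_congr rfl fun Q _ => ?_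
    rw [ite_mul, zero_mul, mul_assoc]
  rw [hL, hR]
  refine Finset.sum_congr rfl fun Q hQ => ?_
  have hd : 0 < Q.natDegree := (mem_eIrr.1 hQ).2.1.natDegree_pos
  rw [← Finset.sum_filter, ← Finset.sum_filter]
  refine Finset.sum_nbij' (fun j => j * Q.natDegree) (fun k => k / Q.natDegree) ?_ ?_ ?_ ?_ ?_
  · intro j hj
    obtain ⟨h3, h4⟩ := Finset.mem_filter.1 hj
    obtain ⟨h5, -⟩ := Finset.mem_Icc.1 h3
    refine Finset.mem_filter.2 ⟨Finset.mem_Icc.2 ⟨?_, h4⟩, Dvd.intro_left _ rfl⟩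
    exact Nat.mul_pos (by omega) hd
  · intro k hk
    obtain ⟨h3, h4⟩ := Finset.mem_filter.1 hk
    obtain ⟨h5, h6⟩ := Finset.mem_Icc.1 h3
    refine Finset.mem_filter.2 ⟨Finset.mem_Icc.2 ⟨?_, ?_⟩, ?_⟩
    · exact Nat.div_pos (Nat.le_of_dvd (by omega) h4) hd
    · exact (Nat.div_le_self _ _).trans h6
    · rw [Nat.div_mul_cancel h4]
      exact h6
  · intro j _
    exact Nat.mul_div_cancel _ hd
  · intro k hk
    exact Nat.div_mul_cancel (Finset.mem_filter.1 hk).2
  · intro j _
    rw [Nat.mul_div_cancel _ hd]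

end Pool.Agent.Helper78.AST
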