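import Mathlib

/-!
# AST-09 Newton: power sums and coefficients (short, Mathlib only)

`A 0 = 1`, `n A_n = ∑_{k = 1}^n S_k A_{n - k}` for `n ≥ 1`, `A_n = 0` for `n > N`. Let `b : Fin N → ℂ` and
`∏_i (1 - b_i X) = ∑ a_k X ^ k` (`a_0 = 1`, `a_k = 0` for `k > N`), equivalently `∏_i (X - b_i) = ∑_{k ≤ N} a_k X ^ (N - k)`.

Claim 1: `n a_n = - ∑_{k = 1}^n (∑_i b_i ^ k) a_{n - k}` for `n ≥ 1`. By induction on `N` or from the derivative in `ℂ⟦X⟧` of
`P = ∏ (1 - b_i X)`: `X P' = - P ∑_i b_i X / (1 - b_i X) = - P ∑_{k ≥ 1} (∑_i b_i ^ k) X ^ k` (`Finset.prod` derivative,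
`PowerSeries.mk (b_i ^ k)` is the inverse of `1 - b_i X`). (Mathlib's `MvPolynomial.mul_esymm_eq_sum` is the same identity.)
Claim 2: two sequences with `a_0 = A_0 = 1`, the same `S`, and both recursions (all `n ≥ 1`) are equal, by strong induction (`n ≠ 0` in `ℂ`).
Claim 3: two sequences `S`, `T` with the recursion for the same `A` are equal for `n ≥ 1`: the term `k = n` is `S_n A_0 = S_n`.

(→) If `S_n = - ∑ b_i ^ n` then claim 2 gives `a_n = A_n` for all `n`. (←) If the polynomials are equal then `a_k = A_k` for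
`k ≤ N` (coefficients of the two polynomials), and both vanish for `k > N`; claim 3 gives `S_n = - ∑ b_i ^ n`.
-/

set_option autoImplicit false

open Polynomial

namespace Pool.Agent.Helper78.AST

/-- the signed elementary symmetric functions of the family `b` -/
private noncomputable def sg {N : ℕ} (b : Fin N → ℂ) (n : ℕ) : ℂ :=
  (-1) ^ n * ((Finset.univ : Finset (Fin N)).val.map b).esymm n

private theorem sg_zero {N : ℕ} (b : Fin N → ℂ) : sg b 0 = 1 := by
  simp [sg, Multiset.esymm]

private theorem sg_big {N : ℕ} (b : Fin N → ℂ) {n : ℕ} (hn : N < n) : sg b n = 0 := by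
  have h : Multiset.powersetCard n ((Finset.univ : Finset (Fin N)).val.map b) = 0 := by
    apply Multiset.powersetCard_eq_empty
    simpa using hn
  rw [sg, Multiset.esymm, h]
  simp

private theorem sg_rec {N : ℕ} (b : Fin N → ℂ) (n : ℕ) :
    (n : ℂ) * sg b n = ∑ k ∈ Finset.Icc 1 n, (-∑ i, b i ^ k) * sg b (n - k) := by
  have h := congrArg (MvPolynomial.aeval b) (MvPolynomial.mul_esymm_eq_sum (Fin N) ℂ n)
  simp only [map_mul, map_natCast, map_pow, map_neg, map_one, map_sum,
    MvPolynomial.aeval_esymm_eq_multiset_esymm, MvPolynomial.psum, MvPolynomial.aeval_X] at h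
  have h1 : ∑ a ∈ (Finset.HasAntidiagonal.antidiagonal n).filter (fun a => a.1 < n),
      (-1 : ℂ) ^ a.1 * ((Finset.univ : Finset (Fin N)).val.map b).esymm a.1 * ∑ i, b i ^ a.2 =
      ∑ k ∈ Finset.Icc 1 n, (∑ i, b i ^ k) * sg b (n - k) := by
    refine Finset.sum_bij (fun a _ => a.2) ?_ ?_ ?_ ?_
    · intro a ha
      rw [Finset.mem_filter, Finset.HasAntidiagonal.mem_antidiagonal] at ha
      rw [Finset.mem_Icc]
      omega
    · intro a ha a' ha' h
      rw [Finset.mem_filter, Finset.HasAntidiagonal.mem_antidiagonal] at ha ha'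
      exact Prod.ext (by omega) h
    · intro k hk
      rw [Finset.mem_Icc] at hk
      refine ⟨(n - k, k), ?_, rfl⟩
      rw [Finset.mem_filter, Finset.HasAntidiagonal.mem_antidiagonal]
      simp only
      omega
    · intro a ha
      rw [Finset.mem_filter, Finset.HasAntidiagonal.mem_antidiagonal] at ha
      have h2 : n - a.2 = a.1 := by omega
      rw [h2, sg]
      ring
  rw [h1] at h
  have h3 : (n : ℂ) * sg b n = (-1) ^ n * ((n : ℂ) *
      ((Finset.univ : Finset (Fin N)).val.map b).esymm n) := by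
    rw [sg]
    ring
  rw [h3, h, ← mul_assoc, ← pow_add]
  have h4 : (-1 : ℂ) ^ (n + (n + 1)) = -1 := by
    rw [show n + (n + 1) = 2 * n + 1 by ring, pow_add, pow_mul]
    simp
  rw [h4, neg_one_mul, ← Finset.sum_neg_distrib]
  refine Finset.sum_congr rfl fun k _ => ?_
  ring

private theorem sg_prod {N : ℕ} (b : Fin N → ℂ) :
    ∏ i, (X - C (b i)) = ∑ k ∈ Finset.range (N + 1), C (sg b k) * X ^ (N - k) := by
  have h := Multiset.prod_X_sub_X_eq_sum_esymm ((Finset.univ : Finset (Fin N)).val.map b)
  rw [Multiset.map_map, Multiset.card_map, Finset.card_val, Finset.card_univ, Fintype.card_fin] at h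
  have h1 : ∏ i, (X - C (b i)) =
      (Multiset.map ((fun t => X - C t) ∘ b) (Finset.univ : Finset (Fin N)).val).prod := rfl
  rw [h1, h]
  refine Finset.sum_congr rfl fun k _ => ?_
  rw [sg, map_mul, map_pow, map_neg, map_one, mul_assoc]

/-- coefficients of a sum of reversed monomials -/
private theorem coeff_rev (A : ℕ → ℂ) (N k : ℕ) (hk : k ≤ N) :
    (∑ j ∈ Finset.range (N + 1), C (A j) * X ^ (N - j)).coeff (N - k) = A k := by
  rw [finsetSum_coeff, Finset.sum_eq_single k]
  · rw [coeff_C_mul, coeff_X_pow, if_pos rfl, mul_one]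
  · intro j hj hjk
    rw [Finset.mem_range] at hj
    rw [coeff_C_mul, coeff_X_pow, if_neg (by omega), mul_zero]
  · intro h
    exact absurd (Finset.mem_range.mpr (by omega)) h

theorem newton (A S : ℕ → ℂ) (N : ℕ) (h0 : A 0 = 1)
    (hrec : ∀ n : ℕ, 1 ≤ n → (n : ℂ) * A n = ∑ k ∈ Finset.Icc 1 n, S k * A (n - k))
    (hN : ∀ n : ℕ, N < n → A n = 0) (b : Fin N → ℂ) :
    (∀ n : ℕ, 1 ≤ n → S n = -∑ i, b i ^ n) ↔
      ∏ i, (X - C (b i)) = ∑ k ∈ Finset.range (N + 1), C (A k) * X ^ (N - k) := by
  constructor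
  · intro hS
    have key : ∀ n, sg b n = A n := by
      intro n
      induction n using Nat.strong_induction_on with
      | _ n ih =>
        rcases Nat.eq_zero_or_pos n with rfl | hn
        · rw [sg_zero, h0]
        · have h1 : (n : ℂ) * sg b n = (n : ℂ) * A n := by
            rw [sg_rec, hrec n hn]
            refine Finset.sum_congr rfl fun k hk => ?_
            rw [Finset.mem_Icc] at hk
            rw [hS k hk.1, ih (n - k) (by omega)]
          exact mul_left_cancel₀ (Nat.cast_ne_zero.mpr (by omega)) h1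
    rw [sg_prod]
    refine Finset.sum_congr rfl fun k _ => ?_
    rw [key]
  · intro h
    have key : ∀ n, sg b n = A n := by
      intro n
      rcases le_or_gt n N with hn | hn
      · have h1 := congrArg (fun P : ℂ[X] => P.coeff (N - n)) ((sg_prod b).symm.trans h)
        simp only [coeff_rev _ N n hn] at h1
        exact h1
      · rw [sg_big b hn, hN n hn]
    intro n
    induction n using Nat.strong_induction_on with
    | _ n ih =>
      intro hn
      have h1 := sg_rec b n
      rw [key n, hrec n hn] at h1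
      have hmem : n ∈ Finset.Icc 1 n := Finset.mem_Icc.mpr ⟨hn, le_rfl⟩
      rw [← Finset.add_sum_erase _ _ hmem, ← Finset.add_sum_erase _ _ hmem, Nat.sub_self, h0,
        sg_zero, mul_one, mul_one] at h1
      have h2 : ∑ k ∈ (Finset.Icc 1 n).erase n, S k * A (n - k) =
          ∑ k ∈ (Finset.Icc 1 n).erase n, (-∑ i, b i ^ k) * sg b (n - k) := by
        refine Finset.sum_congr rfl fun k hk => ?_
        rw [Finset.mem_erase, Finset.mem_Icc] at hk
        rw [ih k (by omega) hk.2.1, key]
      rw [h2] at h1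
      exact add_right_cancel h1

end Pool.Agent.Helper78.AST
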