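import Pool.Agent.Helper78.AST.Fibre

/-!
# AST-04 Top: the last coefficient of the L-function

`d = f.natDegree = n + 1`, `(d : F) ≠ 0`, `ψ ≠ 1`, `q = card F`, `n = 2 m` or `n = 2 m + 1`.

1. The sum of `ψ (phi f n (rs e))` over the `e` which differ from `crit f n` at some index `< m` is `0`. Sort these `e` by
   the least index `i₀` with `e i₀ ≠ crit f n i₀`, `i₀ < m`. For fixed `i₀` put `i₁ = n - 1 - i₀` (`i₁ ≥ m > i₀`), and let `T` be the
   set of these `e` (a finset, filter). For every `t : F`, `e ↦ e + Pi.single i₁ t` is a bijection of `T` onto itself, so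
   `S = ∑_{e ∈ T} ψ (phi (rs e)) = ∑_{e ∈ T} ψ (phi (rs e)) ψ (- t w(e))`, `w(e) = L (crit i₀ - e i₀) ≠ 0` (`phi_shift`).
   Sum over `t : F`: `q S = ∑_{e ∈ T} ψ (phi (rs e)) ∑_t ψ (- t w(e)) = 0` (`AddChar.sum_eq_zero_of_ne_one`-like, the
   character `t ↦ ψ (- t w(e))` is non trivial; or `AddChar.sum_mulShift` for the primitive `ψ`).
2. The remaining `e` agree with `crit f n` at the indices `< m`; by `phi_fibre` their `phi` is `phi (rs (crit f n))` for `n = 2 m`: there are
   `q ^ (n - m) = q ^ m` of them. For `n = 2 m + 1` it is `phi (rs (crit f n)) + (L / 2) (e m - crit f n m) ^ 2` (`coeff_rs`): the values at the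
   index `m` are free, and the other `n - m - 1 = m` coordinates give the factor `q ^ m`.
   A convenient way: the map `e ↦ (the restriction to indices ≥ m)`; or `Fin n → F ≃ (Fin m → F) × (Fin (n - m) → F)`
   (`Fin.appendEquiv`/`Fin.consEquiv`, after `subst n = 2 m + 1 = m + (1 + m)`).
-/

set_option autoImplicit false

open Polynomial PowerSeries

namespace Pool.Agent.Helper78.AST

variable {F : Type} [Field F] [Fintype F]

open Classical in
/-- the polynomials which agree with the critical one at the indices `< k` -/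
private noncomputable def tpA (f : F[X]) (n k : ℕ) : Finset (Fin n → F) :=
  Finset.univ.filter fun e => ∀ i : Fin n, (i : ℕ) < k → e i = crit f n i

private theorem tp_gen {ι : Type} (T : Finset ι) (V : ι → ℂ) (w : ι → F) (ψ : AddChar F ℂ)
    (hψ : ψ ≠ 1) (hw0 : ∀ e ∈ T, w e ≠ 0)
    (hS : ∀ t : F, ∑ e ∈ T, V e * ψ (t * w e) = ∑ e ∈ T, V e) : ∑ e ∈ T, V e = 0 := by
  classical
  have h3 : ∑ t : F, ∑ e ∈ T, V e * ψ (t * w e) = 0 := by
    rw [Finset.sum_comm]
    refine Finset.sum_eq_zero fun e he => ?_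
    have h5 := AddChar.sum_mulShift (w e) (AddChar.IsPrimitive.of_ne_one hψ)
    rw [if_neg (hw0 e he)] at h5
    rw [← Finset.mul_sum, h5]
    simp
  rw [Finset.sum_congr rfl fun t _ => hS t, Finset.sum_const, Finset.card_univ,
    nsmul_eq_mul] at h3
  rcases mul_eq_zero.1 h3 with h4 | h4
  · exact absurd (Nat.cast_eq_zero.1 h4) Fintype.card_ne_zero
  · exact h4

private theorem tp_term (ψ : AddChar F ℂ) {a b t c c' : F} (h : b = a - t * c) (h' : c' = -c) :
    ψ a * ψ (t * c') = ψ b := by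
  rw [h, h', sub_eq_add_neg, AddChar.map_add_eq_mul, mul_neg]

private theorem tp_step (f : F[X]) (ψ : AddChar F ℂ) (hψ : ψ ≠ 1) (m n : ℕ)
    (hn : f.natDegree = n + 1) (hm : n = 2 * m ∨ n = 2 * m + 1) (h2 : (2 : F) ≠ 0)
    (hdF : (f.natDegree : F) ≠ 0) (k : ℕ) (hk : k < m) :
    ∑ e ∈ tpA f n k, ψ (phi f n (rs e)) = ∑ e ∈ tpA f n (k + 1), ψ (phi f n (rs e)) := by
  classical
  have hf0 : f ≠ 0 := by
    rintro rfl
    rw [natDegree_zero] at hn
    omega
  have hkn : k < n := by omega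
  obtain ⟨i₀, hi₀⟩ : ∃ i₀ : Fin n, (i₀ : ℕ) = k := ⟨⟨k, hkn⟩, rfl⟩
  obtain ⟨i₁, hi₁⟩ : ∃ i₁ : Fin n, (i₁ : ℕ) = n - 1 - i₀ := ⟨⟨n - 1 - i₀, by omega⟩, rfl⟩
  have hgt : ∀ i : Fin n, (i : ℕ) ≤ k → i ≠ i₁ := by
    intro i hi h
    have h1 : (i : ℕ) = i₁ := by rw [h]
    omega
  rw [← Finset.sum_filter_add_sum_filter_not (tpA f n k) (fun e => e i₀ = crit f n i₀)]
  have e1 : (tpA f n k).filter (fun e => e i₀ = crit f n i₀) = tpA f n (k + 1) := by
    ext e
    unfold tpA
    simp only [Finset.mem_filter, Finset.mem_univ, true_and]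
    constructor
    · rintro ⟨h3, h4⟩ i hi
      rcases Nat.lt_succ_iff_lt_or_eq.1 hi with h5 | h5
      · exact h3 i h5
      · have h6 : i = i₀ := Fin.ext (h5.trans hi₀.symm)
        rw [h6, h4]
    · intro h3
      exact ⟨fun i hi => h3 i (by omega), h3 i₀ (by omega)⟩
  rw [e1]
  set T := (tpA f n k).filter (fun e => ¬ e i₀ = crit f n i₀) with hT
  have hTm : ∀ e, e ∈ T ↔ (∀ i : Fin n, (i : ℕ) < k → e i = crit f n i) ∧
      ¬ e i₀ = crit f n i₀ := by
    intro e
    rw [hT]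
    unfold tpA
    simp only [Finset.mem_filter, Finset.mem_univ, true_and]
  obtain ⟨w, hww⟩ : ∃ w : (Fin n → F) → F, ∀ e, w e =
      -((f.natDegree : F) * f.leadingCoeff * (crit f n i₀ - e i₀)) := ⟨_, fun _ => rfl⟩
  have hw0 : ∀ e ∈ T, w e ≠ 0 := by
    intro e he
    have h3 := ((hTm e).1 he).2
    rw [hww e]
    exact neg_ne_zero.2 (mul_ne_zero (mul_ne_zero hdF (leadingCoeff_ne_zero.2 hf0))
      (sub_ne_zero.2 fun h => h3 h.symm))
  have hS : ∀ t : F, ∑ e ∈ T, ψ (phi f n (rs e)) * ψ (t * w e) =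
      ∑ e ∈ T, ψ (phi f n (rs e)) := by
    intro t
    refine Finset.sum_equiv (Equiv.addRight (Pi.single i₁ t)) ?_ ?_
    · intro e
      rw [hTm, hTm]
      have h3 : ∀ i : Fin n, (i : ℕ) ≤ k → (Equiv.addRight (Pi.single i₁ t)) e i = e i := by
        intro i hi
        change e i + (Pi.single i₁ t : Fin n → F) i = e i
        rw [Pi.single_eq_of_ne (hgt i hi), add_zero]
      rw [h3 i₀ hi₀.le]
      refine and_congr_left fun _ => forall_congr' fun i => ?_
      refine imp_congr_right fun hi => ?_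
      rw [h3 i hi.le]
    · intro e he
      have h3 := phi_shift f m n hn hm h2 hdF e i₀ i₁ (by omega) hi₁
        (fun i hi => ((hTm e).1 he).1 i (by rw [← hi₀]; exact hi)) t
      exact tp_term ψ h3 (hww e)
  rw [tp_gen T (fun e => ψ (phi f n (rs e))) w ψ hψ hw0 hS, add_zero]

private theorem tp_all (f : F[X]) (ψ : AddChar F ℂ) (hψ : ψ ≠ 1) (m n : ℕ)
    (hn : f.natDegree = n + 1) (hm : n = 2 * m ∨ n = 2 * m + 1) (h2 : (2 : F) ≠ 0)
    (hdF : (f.natDegree : F) ≠ 0) (k : ℕ) (hk : k ≤ m) :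
    lsum f ψ n = ∑ e ∈ tpA f n k, ψ (phi f n (rs e)) := by
  induction k with
  | zero =>
    unfold lsum tpA
    refine Finset.sum_congr ?_ fun _ _ => rfl
    ext e
    simp
  | succ k ih =>
    rw [ih (by omega), tp_step f ψ hψ m n hn hm h2 hdF k (by omega)]

open Classical in
private theorem tp_pi (f : F[X]) (n k : ℕ) : tpA f n k =
    Fintype.piFinset fun i : Fin n => if (i : ℕ) < k then {crit f n i} else Finset.univ := by
  ext e
  unfold tpA
  simp only [Finset.mem_filter, Finset.mem_univ, true_and, Fintype.mem_piFinset]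
  refine forall_congr' fun i => ?_
  by_cases h : (i : ℕ) < k
  · simp [h]
  · simp [h]

/-- sum of a function of the coordinate `m` -/
private theorem tp_sum (f : F[X]) (m n : ℕ) (g : Fin n → F → ℂ) :
    ∑ e ∈ tpA f n m, ∏ i, g i (e i) =
      ∏ i : Fin n, if (i : ℕ) < m then g i (crit f n i) else ∑ x : F, g i x := by
  classical
  rw [tp_pi, ← Finset.prod_univ_sum]
  refine Finset.prod_congr rfl fun i _ => ?_
  by_cases h : (i : ℕ) < m
  · rw [if_pos h, if_pos h, Finset.sum_singleton]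
  · rw [if_neg h, if_neg h]

theorem lsum_top_odd (f : F[X]) (ψ : AddChar F ℂ) (hψ : ψ ≠ 1) (m : ℕ) (hn : f.natDegree = 2 * m + 1)
    (h2 : (2 : F) ≠ 0) (hdF : (f.natDegree : F) ≠ 0) :
    lsum f ψ (2 * m) = (Fintype.card F : ℂ) ^ m * ψ (phi f (2 * m) (rs (crit f (2 * m)))) := by
  classical
  rw [tp_all f ψ hψ m (2 * m) hn (Or.inl rfl) h2 hdF m le_rfl]
  have h1 : ∀ e ∈ tpA f (2 * m) m, ψ (phi f (2 * m) (rs e)) =
      ψ (phi f (2 * m) (rs (crit f (2 * m)))) := by
    intro e he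
    have h3 := phi_fibre f m (2 * m) hn (Or.inl rfl) h2 hdF e (Finset.mem_filter.1 he).2
    rw [if_neg (by omega), add_zero] at h3
    rw [h3]
  rw [Finset.sum_congr rfl h1, Finset.sum_const, nsmul_eq_mul]
  congr 1
  have h4 := tp_sum f m (2 * m) (fun _ _ => (1 : ℂ))
  simp only [Finset.prod_const_one, Finset.sum_const, nsmul_eq_mul, mul_one,
    Finset.card_univ] at h4
  rw [h4, Fin.prod_univ_eq_prod_range (fun i => if i < m then (1 : ℂ) else (Fintype.card F : ℂ)),
    two_mul, Finset.prod_range_add]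
  have h5 : ∏ x ∈ Finset.range m, (if x < m then (1 : ℂ) else (Fintype.card F : ℂ)) = 1 :=
    Finset.prod_eq_one fun x hx => if_pos (Finset.mem_range.1 hx)
  have h6 : ∏ x ∈ Finset.range m, (if m + x < m then (1 : ℂ) else (Fintype.card F : ℂ)) =
      (Fintype.card F : ℂ) ^ m := by
    rw [Finset.prod_congr rfl fun x _ => if_neg (by omega : ¬ m + x < m), Finset.prod_const,
      Finset.card_range]
  rw [h5, h6, one_mul]

theorem lsum_top_even (f : F[X]) (ψ : AddChar F ℂ) (hψ : ψ ≠ 1) (m : ℕ) (hn : f.natDegree = 2 * m + 2)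
    (h2 : (2 : F) ≠ 0) (hdF : (f.natDegree : F) ≠ 0) :
    lsum f ψ (2 * m + 1) = (Fintype.card F : ℂ) ^ m *
      ∑ y : F, ψ (phi f (2 * m + 1) (rs (crit f (2 * m + 1))) +
        (f.natDegree : F) * f.leadingCoeff / 2 * y ^ 2) := by
  classical
  rw [tp_all f ψ hψ m (2 * m + 1) hn (Or.inr rfl) h2 hdF m le_rfl]
  obtain ⟨j, hj⟩ : ∃ j : Fin (2 * m + 1), (j : ℕ) = m := ⟨⟨m, by omega⟩, rfl⟩
  set Z : F → ℂ := fun x => ψ (phi f (2 * m + 1) (rs (crit f (2 * m + 1))) +
        (f.natDegree : F) * f.leadingCoeff / 2 * (x - crit f (2 * m + 1) j) ^ 2) with hZ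
  have h1 : ∀ e ∈ tpA f (2 * m + 1) m, ψ (phi f (2 * m + 1) (rs e)) =
      ∏ i : Fin (2 * m + 1), if i = j then Z (e i) else 1 := by
    intro e he
    have h3 := phi_fibre f m (2 * m + 1) hn (Or.inr rfl) h2 hdF e (Finset.mem_filter.1 he).2
    have h4 := coeff_rs e j
    have h5 := coeff_rs (crit f (2 * m + 1)) j
    rw [hj] at h4 h5
    rw [if_pos rfl, h4, h5] at h3
    rw [h3, Finset.prod_ite_eq' Finset.univ j (fun i => Z (e i)), if_pos (Finset.mem_univ j)]
  have h6 := tp_sum f m (2 * m + 1) (fun i x => if i = j then Z x else 1)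
  rw [Finset.sum_congr rfl h1, h6]
  have h7 : ∀ i : Fin (2 * m + 1), (if (i : ℕ) < m then
      (if i = j then Z (crit f (2 * m + 1) i) else 1) else
        ∑ x : F, if i = j then Z x else 1) =
      (fun k : ℕ => if k < m then (1 : ℂ) else if k = m then ∑ x : F, Z x else
        (Fintype.card F : ℂ)) (i : ℕ) := by
    intro i
    dsimp only
    by_cases h8 : (i : ℕ) < m
    · rw [if_pos h8, if_pos h8, if_neg]
      intro h9
      rw [h9, hj] at h8
      omega
    · rw [if_neg h8, if_neg h8]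
      by_cases h9 : i = j
      · rw [if_pos (by rw [h9, hj])]
        simp [h9]
      · rw [if_neg (fun h10 => h9 (Fin.ext (h10.trans hj.symm)))]
        simp [h9]
  rw [Finset.prod_congr rfl fun i _ => h7 i, Fin.prod_univ_eq_prod_range
    (fun k : ℕ => if k < m then (1 : ℂ) else if k = m then ∑ x : F, Z x else
        (Fintype.card F : ℂ)) (2 * m + 1)]
  have h8 : 2 * m + 1 = m + (m + 1) := by omega
  rw [show Finset.range (2 * m + 1) = Finset.range (m + (m + 1)) by rw [h8],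
    Finset.prod_range_add, Finset.prod_range_succ']
  have h9 : ∏ x ∈ Finset.range m, (if x < m then (1 : ℂ) else if x = m then ∑ x : F, Z x else
        (Fintype.card F : ℂ)) = 1 :=
    Finset.prod_eq_one fun x hx => if_pos (Finset.mem_range.1 hx)
  have h10 : ∏ x ∈ Finset.range m, (if m + (x + 1) < m then (1 : ℂ) else
      if m + (x + 1) = m then ∑ x : F, Z x else (Fintype.card F : ℂ)) =
      (Fintype.card F : ℂ) ^ m := by
    rw [Finset.prod_congr rfl fun x _ => (if_neg (by omega : ¬ m + (x + 1) < m)).trans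
      (if_neg (by omega : ¬ m + (x + 1) = m)), Finset.prod_const, Finset.card_range]
  rw [h9, h10, one_mul, if_neg (by omega), if_pos (by omega)]
  congr 1
  refine Fintype.sum_equiv (Equiv.subRight (crit f (2 * m + 1) j)) _ _ fun x => ?_
  rfl

end Pool.Agent.Helper78.AST
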