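import Pool.Agent.Helper78.AST.PhiP

/-!
# AST-08 Trace: the exponential sum over an extension in terms of irreducible polynomials

`E / F` an extension of finite fields of degree `k`, `ψ` an additive character of `F`. For `x : E` let `π = minpoly F x`, monic
irreducible of degree `d ∣ k` (`minpoly.natDegree_dvd_finrank`-like / `Irreducible.natDegree_dvd_finrank`).

1. `Algebra.trace F E (aeval x f) = (k / d) • phiP f π`. Let `E₀ = F⟮x⟯`, `[E₀ : F] = d` (`IntermediateField.adjoin.finrank`),
   `[E : E₀] = k / d` (`Module.finrank_mul_finrank`). `aeval x f = algebraMap E₀ E y`, `y = aeval (gen) f`, so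
   `trace F E (algebraMap y) = [E : E₀] • trace F E₀ y` (`Algebra.trace_trace` and `Algebra.trace_algebraMap`;
   there may be `Algebra.trace_trace_of_basis` or `trace_eq_sum_roots : algebraMap (trace F K x) = [K : F(x)] • ((minpoly F x).aroots).sum`,
   applied to `aeval x f` it does not give `π` directly).
   `trace F E₀ y = ∑_σ σ y` over the embeddings `σ : E₀ → Ω = AlgebraicClosure F` (`trace_eq_sum_embeddings`), i.e. over the roots `θ` of `π`
   in `Ω` (`IntermediateField.AdjoinSimple`/`PowerBasis.liftEquiv'`; `PowerBasis.sum...`), `σ y = aeval θ f`. So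
   `algebraMap (trace F E₀ y) = ∑_{θ ∈ π.aroots Ω} aeval θ f` (`π` separable: `Field` finite, perfect), and `π.map = ∏ (X - θ)` over `Ω`
   (`Polynomial.Splits`...), so by `phiP_prod` and `phiP_map` this is `phiP (f.map) (π.map) = algebraMap (phiP f π)`; `algebraMap F Ω` is
   injective.
   ALTERNATIVE without the closure: the trace of `f` on `AdjoinRoot π`.. (the embeddings are easier).
2. For each monic irreducible `π = mon e`, `e : Fin d → F`, `d ∣ k`: exactly `d` elements `x` of `E` have `minpoly F x = π`, i.e. are roots of `π`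
   in `E`: `π ∣ X ^ (q ^ k) - X` (`Irreducible.natDegree_dvd_iff_dvd_X_pow_card_pow_sub_X`), which splits in `E` with distinct roots
   (`FiniteField.X_pow_card_sub_X_natDegree_eq`, `FiniteField.roots_X_pow_card_sub_X`, `card E = q ^ k`). `minpoly F x = π` iff
   `aeval x π = 0` (`minpoly.eq_of_irreducible_of_monic`).
3. Sum: `∑_x ψ (tr) = ∑_{d ∣ k} ∑_{e, mon e irreducible} d * ψ ((k / d) • phiP f (mon e))` and `ψ (r • a) = ψ a ^ r`
   (`AddChar.map_nsmul_eq_pow`).
-/

set_option autoImplicit false

open Polynomial PowerSeries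

namespace Pool.Agent.Helper78.AST

variable {F : Type} [Field F] [Fintype F]

private lemma trace_gen_aeval (L Ω : Type) [Field L] [Algebra F L] [FiniteDimensional F L]
    [Algebra.IsSeparable F L] [Field Ω] [Algebra F Ω] [IsAlgClosed Ω] (pb : PowerBasis F L) (f : F[X]) :
    algebraMap F Ω (Algebra.trace F L (aeval pb.gen f)) =
      (((minpoly F pb.gen).aroots Ω).map fun θ : Ω => Polynomial.aeval θ f).sum := by
  classical
  have hsep : (minpoly F pb.gen).Separable := Algebra.IsSeparable.isSeparable F pb.gen
  rw [trace_eq_sum_embeddings Ω]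
  have h1 : ∑ σ : L →ₐ[F] Ω, σ (aeval pb.gen f) =
      ∑ y : { y : Ω // y ∈ (minpoly F pb.gen).aroots Ω }, aeval (y : Ω) f := by
    refine Fintype.sum_equiv pb.liftEquiv' _ _ (fun σ => ?_)
    rw [PowerBasis.liftEquiv'_apply_coe, Polynomial.aeval_algHom_apply]
  rw [h1, Finset.sum_mem_multiset ((minpoly F pb.gen).aroots Ω)
    (fun y => Polynomial.aeval (y : Ω) f) (fun y => Polynomial.aeval y f) (fun y => rfl), Finset.sum_eq_multiset_sum,
    Multiset.toFinset_val, Multiset.dedup_eq_self.mpr]
  exact nodup_roots ((separable_map _).mpr hsep)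

private lemma trace_gen_phiP (L : Type) [Field L] [Algebra F L] [FiniteDimensional F L]
    [Algebra.IsSeparable F L] (pb : PowerBasis F L) (f : F[X]) :
    Algebra.trace F L (aeval pb.gen f) = phiP f (minpoly F pb.gen) := by
  have hmon : (minpoly F pb.gen).Monic := minpoly.monic (Algebra.IsIntegral.isIntegral pb.gen)
  apply (algebraMap F (AlgebraicClosure F)).injective
  rw [trace_gen_aeval L (AlgebraicClosure F) pb f, ← phiP_map _ _ _ hmon]
  have hs : ((minpoly F pb.gen).map (algebraMap F (AlgebraicClosure F))) =
      (((minpoly F pb.gen).aroots (AlgebraicClosure F)).map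
        (fun θ => Polynomial.X - Polynomial.C θ)).prod :=
    (IsAlgClosed.splits _).eq_prod_roots_of_monic (hmon.map _)
  conv_rhs => rw [hs, phiP_prod]
  congr 1
  refine Multiset.map_congr rfl fun θ _ => ?_
  rw [Polynomial.eval_map_algebraMap]

theorem trace_aeval (E : Type) [Field E] [Fintype E] [Algebra F E] (f : F[X]) (x : E) :
    Algebra.trace F E (aeval x f) =
      (Module.finrank F E / (minpoly F x).natDegree) • phiP f (minpoly F x) := by
  have : FiniteDimensional F E := Module.Finite.of_finite
  have hx : IsIntegral F x := Algebra.IsIntegral.isIntegral x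
  obtain ⟨pb, hpb⟩ : ∃ pb, pb = IntermediateField.adjoin.powerBasis hx := ⟨_, rfl⟩
  have hgen : pb.gen = IntermediateField.AdjoinSimple.gen F x := by rw [hpb]; rfl
  have hmin : minpoly F pb.gen = minpoly F x := by
    rw [hgen, IntermediateField.minpoly_gen]
  have hfin : Module.finrank F (IntermediateField.adjoin F {x}) = (minpoly F x).natDegree :=
    IntermediateField.adjoin.finrank hx
  have htower : Module.finrank F (IntermediateField.adjoin F {x}) *
      Module.finrank (IntermediateField.adjoin F {x}) E = Module.finrank F E :=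
    Module.finrank_mul_finrank _ _ _
  have hpos : 0 < (minpoly F x).natDegree := minpoly.natDegree_pos hx
  have hquot : Module.finrank F E / (minpoly F x).natDegree =
      Module.finrank (IntermediateField.adjoin F {x}) E := by
    rw [← htower, hfin, Nat.mul_div_cancel_left _ hpos]
  have hy : aeval x f = algebraMap (IntermediateField.adjoin F {x}) E (aeval pb.gen f) := by
    rw [← Polynomial.aeval_algebraMap_apply, hgen, IntermediateField.AdjoinSimple.algebraMap_gen]
  rw [hquot, hy, ← Algebra.trace_trace (S := IntermediateField.adjoin F {x}),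
    Algebra.trace_algebraMap, map_nsmul, trace_gen_phiP _ pb f, hmin]

private lemma exists_root_of_dvd (E : Type) [Field E] [Fintype E] [Algebra F E] (π : F[X])
    (hm : π.Monic) (hi : Irreducible π) (hd : π.natDegree ∣ Module.finrank F E) :
    ∃ x : E, minpoly F x = π := by
  have : FiniteDimensional F E := Module.Finite.of_finite
  have hdvd : π ∣ Polynomial.X ^ (Nat.card F) ^ (Module.finrank F E) - Polynomial.X :=
    hi.natDegree_dvd_iff_dvd_X_pow_card_pow_sub_X.mp hd
  have hcard : (Nat.card F) ^ (Module.finrank F E) = Fintype.card E := by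
    rw [← Module.natCard_eq_pow_finrank, Nat.card_eq_fintype_card]
  rw [hcard] at hdvd
  have hne : ((Polynomial.X ^ Fintype.card E - Polynomial.X : F[X]).map (algebraMap F E)) ≠ 0 := by
    rw [Polynomial.map_sub, Polynomial.map_pow, Polynomial.map_X]
    exact FiniteField.X_pow_card_sub_X_ne_zero E Fintype.one_lt_card
  have hs : (π.map (algebraMap F E)).Splits :=
    Splits.of_dvd (FiniteField.isSplittingField_sub E F).splits hne (Polynomial.map_dvd _ hdvd)
  have hdeg : (π.map (algebraMap F E)).degree ≠ 0 := by
    rw [Polynomial.degree_map]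
    exact (Polynomial.degree_pos_of_irreducible hi).ne'
  obtain ⟨x, hx⟩ := hs.exists_eval_eq_zero hdeg
  rw [Polynomial.eval_map_algebraMap] at hx
  exact ⟨x, (minpoly.eq_of_irreducible_of_monic hi hx hm).symm⟩

open Classical in
private lemma card_fiber (E : Type) [Field E] [Fintype E] [Algebra F E] (x : E) :
    ((Finset.univ : Finset E).filter fun y => minpoly F y = minpoly F x).card =
      (minpoly F x).natDegree := by
  have : FiniteDimensional F E := Module.Finite.of_finite
  have hsep : (minpoly F x).Separable := Algebra.IsSeparable.isSeparable F x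
  have hspl : ((minpoly F x).map (algebraMap F E)).Splits := Normal.splits inferInstance x
  rw [← card_rootSet_eq_natDegree hsep hspl, ← Set.toFinset_card]
  congr 1
  ext y
  rw [Finset.mem_filter, Set.mem_toFinset, Polynomial.mem_rootSet]
  have hxi : IsIntegral F x := Algebra.IsIntegral.isIntegral x
  have hyi : IsIntegral F y := Algebra.IsIntegral.isIntegral y
  constructor
  · rintro ⟨_, h⟩
    exact ⟨minpoly.ne_zero hxi, by rw [← h]; exact minpoly.aeval F y⟩
  · rintro ⟨_, h⟩
    exact ⟨Finset.mem_univ _,
      (minpoly.eq_of_irreducible_of_monic (minpoly.irreducible hxi) h (minpoly.monic hxi)).symm⟩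

theorem sum_trace (E : Type) [Field E] [Fintype E] [Algebra F E] (f : F[X]) (ψ : AddChar F ℂ) :
    ∑ x : E, ψ (Algebra.trace F E (aeval x f)) = ssum (fun π => ψ (phiP f π)) (Module.finrank F E) := by
  classical
  have : FiniteDimensional F E := Module.Finite.of_finite
  have hk : Module.finrank F E ≠ 0 := Module.finrank_pos.ne'
  obtain ⟨g, hg⟩ : ∃ g : F[X] → ℂ, g = fun π =>
    ψ (phiP f π) ^ (Module.finrank F E / π.natDegree) := ⟨_, rfl⟩
  have h1 : ∀ x : E, ψ (Algebra.trace F E (aeval x f)) = g (minpoly F x) := by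
    intro x
    rw [trace_aeval, AddChar.map_nsmul_eq_pow, hg]
  rw [Finset.sum_congr rfl fun x _ => h1 x, Finset.sum_comp g (fun x : E => minpoly F x)]
  unfold ssum
  simp only [Finset.mul_sum]
  rw [Finset.sum_sigma']
  symm
  refine Finset.sum_bij (fun a _ => mon a.2) ?_ ?_ ?_ ?_
  · rintro ⟨d, e⟩ ha
    rw [Finset.mem_sigma, Finset.mem_filter, Nat.mem_divisors] at ha
    obtain ⟨x, hx⟩ := exists_root_of_dvd E (mon e) (mon_monic e) ha.2.2
      (by rw [mon_natDegree]; exact ha.1.1)
    rw [Finset.mem_image]
    exact ⟨x, Finset.mem_univ _, hx⟩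
  · rintro ⟨d, e⟩ _ ⟨d', e'⟩ _ h
    have hd : d = d' := by
      have h2 : (mon e).natDegree = (mon e').natDegree := congrArg Polynomial.natDegree h
      rwa [mon_natDegree, mon_natDegree] at h2
    subst hd
    have h2 : e = e' := mon_injective h
    rw [h2]
  · intro π hπ
    rw [Finset.mem_image] at hπ
    obtain ⟨x, _, hx⟩ := hπ
    have hxi : IsIntegral F x := Algebra.IsIntegral.isIntegral x
    obtain ⟨e, he⟩ := mon_surjective (minpoly F x) (minpoly.monic hxi)
    refine ⟨⟨(minpoly F x).natDegree, e⟩, ?_, ?_⟩
    · rw [Finset.mem_sigma, Finset.mem_filter, Nat.mem_divisors]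
      refine ⟨⟨minpoly.degree_dvd hxi, hk⟩, Finset.mem_univ _, ?_⟩
      show Irreducible (mon e)
      rw [he]
      exact minpoly.irreducible hxi
    · show mon e = π
      rw [he, hx]
  · rintro ⟨d, e⟩ ha
    rw [Finset.mem_sigma, Finset.mem_filter, Nat.mem_divisors] at ha
    obtain ⟨x, hx⟩ := exists_root_of_dvd E (mon e) (mon_monic e) ha.2.2
      (by rw [mon_natDegree]; exact ha.1.1)
    show (d : ℂ) * ψ (phiP f (mon e)) ^ (Module.finrank F E / d) =
      ((Finset.univ : Finset E).filter fun y => minpoly F y = mon e).card • g (mon e)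
    rw [← hx, card_fiber E x, hx, mon_natDegree, hg, nsmul_eq_mul]
    show (d : ℂ) * ψ (phiP f (mon e)) ^ (Module.finrank F E / d) =
      (d : ℂ) * ψ (phiP f (mon e)) ^ (Module.finrank F E / (mon e).natDegree)
    rw [mon_natDegree]

end Pool.Agent.Helper78.AST
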