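import Pool.Agent.Helper78.AST.Defs
import Pool.Agent.Helper78.AST.Top
import Pool.Agent.Helper78.AST.Euler
import Pool.Agent.Helper78.AST.Trace
import Pool.Agent.Helper78.AST.Newton

/-!
# AST-10 Eigen: the eigenvalues are the roots of an explicit polynomial (assembly)

`lpoly f ψ n = ∑_{k ≤ n} lsum f ψ k X ^ (n - k)`.

1. `χ π = ψ (phiP f π)` satisfies the hypotheses of `euler` (`phiP_one`, `phiP_mul`, `AddChar.map_add_eq_mul`); `asum χ k = lsum f ψ k`
   (`phiP_mon`). `lsum f ψ 0 = 1` (one function `Fin 0 → F`, `phi f 0 (rs _) = 0`: `rs _ = 1`, `ps 1 = 0`; or `phiP_one`).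
2. `psi p F c ≠ 1` for `c` a unit: the trace `F → ZMod p` is surjective (`Algebra.trace_surjective`), so `psi p F c` takes the value
   `stdAddChar 1 ≠ 1` (`ZMod.injective_stdAddChar`). In `F` the number `2` is not `0` (`p ≠ 2`) and `d ≠ 0`.
3. For a finite extension `E` of `F` of degree `k`: `expSum p F E f c = ∑_x psi p F c (Algebra.trace F E (aeval x f))`
   (`Algebra.trace_trace`, `ZMod p`-algebra structures on `E` agree: `IsScalarTower (ZMod p) F E` holds by `Subsingleton` of ring homs
   from `ZMod p`), which is `ssum χ k` by `sum_trace`.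
4. `newton` with `A = lsum f ψ`, `S = ssum χ`, `N = n` (`lsum_eq_zero` for `k ≥ d = n + 1`): `(∀ k ≥ 1, ssum χ k = - ∑ b_i ^ k)` iff
   `∏ (X - b_i) = lpoly`. And `IsEigen` is equivalent to the left side: (←) by 3 (`k = finrank F E ≥ 1`); (→) for `k ≥ 1` apply
   `IsEigen` to `E = FiniteField.Extension F p k` (`finrank_extension`; `Fintype` from `Finite`).
5. Existence: `ℂ` is algebraically closed and `lpoly` is monic of degree `n`, so `lpoly = ∏_{i : Fin n} (X - b_i)`.
-/

set_option autoImplicit false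

open Polynomial PowerSeries

namespace Pool.Agent.Helper78.AST

/-- The polynomial of the Frobenius eigenvalues. -/
noncomputable def lpoly {F : Type} [Field F] [Fintype F] (f : F[X]) (ψ : AddChar F ℂ) (n : ℕ) : ℂ[X] :=
  ∑ k ∈ Finset.range (n + 1), Polynomial.C (lsum f ψ k) * Polynomial.X ^ (n - k)

private theorem lsum_zero {F : Type} [Field F] [Fintype F] (f : F[X]) (ψ : AddChar F ℂ) : lsum f ψ 0 = 1 := by
  have h : ∀ e : Fin 0 → F, ψ (phi f 0 (rs e)) = 1 := by
    intro e
    rw [← phiP_mon]
    have : mon e = (1 : F[X]) := by simp [mon]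
    rw [this, phiP_one, AddChar.map_zero_eq_one]
  rw [lsum, Finset.sum_congr rfl fun e _ => h e]
  simp

private theorem asum_eq {F : Type} [Field F] [Fintype F] (f : F[X]) (ψ : AddChar F ℂ) (n : ℕ) :
    asum (fun π => ψ (phiP f π)) n = lsum f ψ n := by
  rw [asum, lsum]
  exact Finset.sum_congr rfl fun e _ => by rw [phiP_mon]

variable (p : ℕ) [Fact p.Prime] (F : Type) [Field F] [Fintype F] [Algebra (ZMod p) F]

theorem psi_ne_one (c : (ZMod p)ˣ) : psi p F (c : ZMod p) ≠ 1 := by
  intro h
  obtain ⟨a, ha⟩ := Algebra.trace_surjective (ZMod p) F ((c⁻¹ : (ZMod p)ˣ) : ZMod p)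
  have h1 : psi p F (c : ZMod p) a = 1 := by rw [h]; rfl
  have h2 : psi p F (c : ZMod p) a = ZMod.stdAddChar ((c : ZMod p) * Algebra.trace (ZMod p) F a) := rfl
  rw [h2, ha, ← Units.val_mul, mul_inv_cancel, Units.val_one] at h1
  have h3 : (ZMod.stdAddChar (1 : ZMod p) : ℂ) = ZMod.stdAddChar (0 : ZMod p) := by
    rw [h1, AddChar.map_zero_eq_one]
  exact one_ne_zero (ZMod.injective_stdAddChar h3)

theorem lpoly_monic (f : F[X]) (ψ : AddChar F ℂ) (n : ℕ) : (lpoly f ψ n).Monic ∧ (lpoly f ψ n).natDegree = n := by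
  have hc : (lpoly f ψ n).coeff n = 1 := by
    rw [lpoly, Polynomial.finsetSum_coeff]
    rw [Finset.sum_eq_single 0]
    · rw [Polynomial.coeff_C_mul, lsum_zero]
      simp
    · intro k hk hk0
      rw [Polynomial.coeff_C_mul, Polynomial.coeff_X_pow, if_neg, mul_zero]
      have := Finset.mem_range.1 hk
      omega
    · intro h
      exact absurd (Finset.mem_range.2 (by omega)) h
  have hd : (lpoly f ψ n).natDegree ≤ n := by
    rw [lpoly]
    apply Polynomial.natDegree_sum_le_of_forall_le
    intro k hk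
    refine (Polynomial.natDegree_C_mul_X_pow_le _ _).trans ?_
    omega
  refine ⟨Polynomial.monic_of_natDegree_le_of_coeff_eq_one n hd hc, ?_⟩
  exact le_antisymm hd (Polynomial.le_natDegree_of_ne_zero (by rw [hc]; exact one_ne_zero))

theorem expSum_eq (E : Type) [Field E] [Fintype E] [Algebra F E] [Algebra (ZMod p) E] (f : F[X]) (c : ZMod p) :
    expSum p F E f c = ssum (fun π => psi p F c (phiP f π)) (Module.finrank F E) := by
  haveI : IsScalarTower (ZMod p) F E := .of_algebraMap_eq' (Subsingleton.elim _ _)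
  rw [← sum_trace E f (psi p F c), expSum]
  refine Finset.sum_congr rfl fun x _ => ?_
  show _ = ZMod.stdAddChar (c * Algebra.trace (ZMod p) F (Algebra.trace F E (aeval x f)))
  rw [Algebra.trace_trace]

theorem isEigen_iff (hp : p ≠ 2) (f : F[X]) (n : ℕ) (hn : f.natDegree = n + 1) (hpd : ¬ p ∣ n + 1)
    (c : (ZMod p)ˣ) (b : Fin n → ℂ) :
    IsEigen p F f (c : ZMod p) b ↔ ∏ i, (Polynomial.X - Polynomial.C (b i)) = lpoly f (psi p F c) n := by
  have hnw := newton (lsum f (psi p F c)) (ssum (fun π => psi p F c (phiP f π))) n (lsum_zero f _) ?_ ?_ b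
  · rw [lpoly, ← hnw]
    constructor
    · intro h k hk
      haveI : NeZero k := ⟨by omega⟩
      haveI : CharP F p := charP_of_injective_algebraMap (algebraMap (ZMod p) F).injective p
      letI : Fintype (FiniteField.Extension F p k) := Fintype.ofFinite _
      have h1 := h (FiniteField.Extension F p k)
      rw [expSum_eq, FiniteField.finrank_extension] at h1
      exact h1
    · intro h E _ _ _ _
      rw [expSum_eq]
      exact h _ Module.finrank_pos
  · intro k hk
    have h := euler (fun π => psi p F c (phiP f π)) (by simp [phiP_one]) ?_ k hk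
    · rw [asum_eq] at h
      rw [h]
      refine Finset.sum_congr rfl fun j _ => ?_
      rw [asum_eq]
    · intro E E' hE hE'
      rw [phiP_mul f E E' hE hE', AddChar.map_add_eq_mul]
  · intro k hk
    haveI : CharP F p := charP_of_injective_algebraMap (algebraMap (ZMod p) F).injective p
    refine lsum_eq_zero f _ (psi_ne_one p F c) ?_ (by omega) ?_ k (by omega)
    · intro h2
      have h3 : ((2 : ℕ) : F) = 0 := by exact_mod_cast h2
      rw [CharP.cast_eq_zero_iff F p] at h3
      exact hp ((Nat.prime_dvd_prime_iff_eq Fact.out Nat.prime_two).1 h3)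
    · rw [hn]
      intro h2
      rw [CharP.cast_eq_zero_iff F p] at h2
      exact hpd h2

theorem exists_isEigen (hp : p ≠ 2) (f : F[X]) (n : ℕ) (hn : f.natDegree = n + 1) (hpd : ¬ p ∣ n + 1)
    (c : (ZMod p)ˣ) : ∃ b : Fin n → ℂ, IsEigen p F f (c : ZMod p) b := by
  obtain ⟨hm, hd⟩ := lpoly_monic F f (psi p F c) n
  have hs := IsAlgClosed.splits (lpoly f (psi p F c) n)
  have hcard : (lpoly f (psi p F c) n).roots.card = n := by
    exact hs.natDegree_eq_card_roots.symm.trans hd
  obtain ⟨l, hl⟩ : ∃ l : List ℂ, (lpoly f (psi p F c) n).roots = (l : Multiset ℂ) :=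
    ⟨(lpoly f (psi p F c) n).roots.toList, by simp⟩
  have hlen : l.length = n := by rw [← hcard, hl]; simp
  subst hlen
  refine ⟨l.get, (isEigen_iff p F hp f l.length hn hpd c l.get).2 ?_⟩
  have h1 := hs.eq_prod_roots_of_monic hm
  rw [h1, hl]
  simp only [Multiset.map_coe, Multiset.prod_coe]
  rw [← List.prod_ofFn]
  have h2 : (List.ofFn fun i => Polynomial.X - Polynomial.C (l.get i)) =
      List.map (fun x => Polynomial.X - Polynomial.C x) (List.ofFn l.get) := by
    rw [List.map_ofFn]; rfl
  rw [h2, List.ofFn_get]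

end Pool.Agent.Helper78.AST
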