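import Mathlib

/-!
# AST-17 Gauss: the absolute value of the quadratic Gauss sum (short, Mathlib only)

`F` a finite field with `2 ≠ 0`, `ψ ≠ 1` an additive character, `a ≠ 0`, `c : F`:
`‖∑_y ψ (c + a y ^ 2)‖ ^ 2 = card F`. The factor `ψ c` has norm `1`. `conj ψ(x) = ψ (-x)` (`AddChar.map_neg_eq_conj`-like). So the square is
`∑_{y, z} ψ (a (y ^ 2 - z ^ 2))`; substitute `y = u + v`, `z = u - v`... (`(u, v) ↦ (u + v, u - v)` is a bijection since `2 ≠ 0`):
`y ^ 2 - z ^ 2 = 4 u v`, and `∑_{u, v} ψ (4 a u v) = ∑_u (if 4 a u = 0 then card F else 0) = card F`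
(`AddChar.sum_mulShift`, for the primitive character `ψ`: over a field `ψ ≠ 1` is primitive, `AddChar.IsPrimitive.of_ne_one`).
-/

set_option autoImplicit false

namespace Pool.Agent.Helper78.AST

theorem gauss_norm (F : Type) [Field F] [Fintype F] (h2 : (2 : F) ≠ 0) (ψ : AddChar F ℂ) (hψ : ψ ≠ 1) (a c : F)
    (ha : a ≠ 0) : ‖∑ y : F, ψ (c + a * y ^ 2)‖ ^ 2 = (Fintype.card F : ℝ) := by
  classical
  have hprim : ψ.IsPrimitive := AddChar.IsPrimitive.of_ne_one hψ
  have hc : ((‖∑ y : F, ψ (c + a * y ^ 2)‖ ^ 2 : ℝ) : ℂ) = ((Fintype.card F : ℝ) : ℂ) := by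
    rw [← Complex.normSq_eq_norm_sq, ← Complex.mul_conj, map_sum, Finset.sum_mul_sum,
      Finset.sum_comm]
    have h1 : ∀ z : F, ∑ y : F, ψ (c + a * y ^ 2) * (starRingEnd ℂ) (ψ (c + a * z ^ 2)) =
        ∑ w : F, ψ (a * w ^ 2) * ψ (z * (2 * a * w)) := by
      intro z
      refine Fintype.sum_equiv (Equiv.subRight z) _ _ fun y => ?_
      rw [← AddChar.map_neg_eq_conj, ← AddChar.map_add_eq_mul, ← AddChar.map_add_eq_mul]
      congr 1
      simp only [Equiv.subRight_apply]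
      ring
    rw [Finset.sum_congr rfl fun z _ => h1 z, Finset.sum_comm]
    have h3 : ∀ w : F, ∑ z : F, ψ (a * w ^ 2) * ψ (z * (2 * a * w)) =
        if w = 0 then (Fintype.card F : ℂ) else 0 := by
      intro w
      rw [← Finset.mul_sum, AddChar.sum_mulShift _ hprim]
      by_cases hw : w = 0
      · subst hw
        simp
      · have h4 : 2 * a * w ≠ 0 := mul_ne_zero (mul_ne_zero h2 ha) hw
        simp [hw, h4]
    rw [Finset.sum_congr rfl fun w _ => h3 w, Finset.sum_ite_eq' Finset.univ (0 : F)]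
    simp
  exact_mod_cast hc

theorem char_norm (F : Type) [Field F] [Fintype F] (ψ : AddChar F ℂ) (a : F) : ‖ψ a‖ = 1 :=
  AddChar.norm_apply ψ a

end Pool.Agent.Helper78.AST
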