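import Mathlib

/-!
# AST-16 RootBound: a bound for the power sums bounds the numbers (short, Mathlib only)

If `‖∑_i b_i ^ n‖ ≤ C ρ ^ n` for all `n ≥ 1` then `‖b_i‖ ≤ ρ`.

Suppose `R = max ‖b_i‖ > ρ` (`R > 0`). Replace `b` by `b / R`: so `max ‖b_i‖ = 1` and `‖∑ b_i ^ n‖ ≤ C (ρ / R) ^ n → 0`. Let `T` be the set of
the distinct values `u` of norm `1`, `T ≠ ∅`, with multiplicities `m_u ≥ 1`; the other `b_i` have norm `< 1`, so `b_i ^ n → 0`. So
`s_n = ∑_{u ∈ T} m_u u ^ n → 0`. But for `v ∈ T`: `(1 / n) ∑_{k < n} s_k v⁻¹ ^ k → m_v ≠ 0` (for `u ≠ v`, `u / v ≠ 1` has norm `1` and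
`∑_{k < n} (u / v) ^ k` is bounded: `geom_sum_eq`), while the Cesaro means of a sequence tending to `0` tend to `0`
(`Filter.Tendsto.cesaro_smul`/`Filter.Tendsto.cesaro`), and `‖s_k v⁻¹ ^ k‖ = ‖s_k‖`. Contradiction.
Alternative: the power series `∑_n (∑_i b_i ^ n) z ^ n = ∑_i 1 / (1 - b_i z)` converges for `|z| < 1 / ρ` and has a pole at `1 / b_i`.

Proof used here: the powers of the point of the torus with coordinates `b_i / ‖b_i‖` return near `1`, and then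
`‖∑ b_i ^ n‖ ≥ ∑ ‖b_i‖ ^ n / 2`.
-/

set_option autoImplicit false

namespace Pool.Agent.Helper78.AST

theorem root_bound {N : ℕ} (b : Fin N → ℂ) (C ρ : ℝ) (hρ : 0 < ρ)
    (h : ∀ n : ℕ, 1 ≤ n → ‖∑ i, b i ^ n‖ ≤ C * ρ ^ n) (i : Fin N) : ‖b i‖ ≤ ρ := by
  by_contra hcon
  push Not at hcon
  let x : Fin N → Circle := fun i => Circle.exp (Complex.arg (b i))
  have hb : ∀ (j : Fin N) (n : ℕ), b j ^ n = ((‖b j‖ ^ n : ℝ) : ℂ) * (((x ^ n) j : Circle) : ℂ) := by
    intro j n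
    have h1 : (((x ^ n) j : Circle) : ℂ) = (Complex.exp (Complex.arg (b j) * Complex.I)) ^ n := by
      rw [Pi.pow_apply, Circle.coe_pow, Circle.coe_exp]
    rw [h1, Complex.ofReal_pow, ← mul_pow, Complex.norm_mul_exp_arg_mul_I]
  have hcl : MapClusterPt (1 : Fin N → Circle) Filter.atTop (fun n : ℕ => x ^ n) :=
    mapClusterPt_one_atTop_pow x
  have hev : ∀ᶠ y : Fin N → Circle in nhds 1, ∀ j, 1 / 2 < ((y j : Circle) : ℂ).re := by
    rw [Filter.eventually_all]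
    intro j
    have hc : Continuous fun y : Fin N → Circle => ((y j : Circle) : ℂ).re :=
      Complex.continuous_re.comp (continuous_subtype_val.comp (continuous_apply j))
    have h1 : (1 / 2 : ℝ) < ((((1 : Fin N → Circle) j : Circle) : ℂ)).re := by
      rw [Pi.one_apply, Circle.coe_one, Complex.one_re]
      norm_num
    exact hc.continuousAt.eventually (lt_mem_nhds h1)
  have hfr : ∃ᶠ n : ℕ in Filter.atTop, ∀ j, 1 / 2 < (((x ^ n) j : Circle) : ℂ).re :=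
    hcl.frequently hev
  have hlow : ∀ n : ℕ, (∀ j, 1 / 2 < (((x ^ n) j : Circle) : ℂ).re) → ‖b i‖ ^ n / 2 ≤ ‖∑ j, b j ^ n‖ := by
    intro n hn
    refine le_trans ?_ (Complex.re_le_norm _)
    rw [Complex.re_sum]
    have h1 : ∀ j, ‖b j‖ ^ n / 2 ≤ (b j ^ n).re := by
      intro j
      rw [hb j n, Complex.re_ofReal_mul]
      have := mul_le_mul_of_nonneg_left (hn j).le (pow_nonneg (norm_nonneg (b j)) n)
      linarith
    have h2 : ‖b i‖ ^ n / 2 ≤ ∑ j, ‖b j‖ ^ n / 2 :=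
      Finset.single_le_sum (f := fun j => ‖b j‖ ^ n / 2)
        (fun j _ => by positivity) (Finset.mem_univ i)
    exact h2.trans (Finset.sum_le_sum fun j _ => h1 j)
  have hr : 1 < ‖b i‖ / ρ := by
    rw [lt_div_iff₀ hρ]
    linarith
  have htend := (tendsto_pow_atTop_atTop_of_one_lt hr).eventually_gt_atTop (2 * C)
  have hge : ∀ᶠ n : ℕ in Filter.atTop, 1 ≤ n := Filter.eventually_ge_atTop 1
  obtain ⟨n, hn, hn1, hn2⟩ := (hfr.and_eventually (hge.and htend)).exists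
  have h3 := (hlow n hn).trans (h n hn1)
  have h4 : (‖b i‖ / ρ) ^ n ≤ 2 * C := by
    rw [div_pow, div_le_iff₀ (pow_pos hρ n)]
    linarith
  linarith

end Pool.Agent.Helper78.AST
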