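import Pool.Agent.Helper78.AST.StepCount

/-!
# AST-15 SumBound: the exponential sums are `O(√Q)` (short)

`N_a` = number of `x : L` with `Tr g(x) = a`, `a : ZMod p`. By `hp_eval` (with `finrank (ZMod p) L = s + 1`, `card L = p ^ (s + 1)`) and
injectivity of `algebraMap (ZMod p) L` this is the number in `step_count` for `algebraMap a`. So `N_a ≤ Q / p + B`, `B = 8 d p ^ 2 √Q`, for
each of the `p` values `a`, and `∑_a N_a = Q`; so `N_a ≥ Q - (p - 1) (Q / p + B) = Q / p - (p - 1) B`, hence `|N_a - Q / p| ≤ p B`.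
`∑_x ψ (c Tr g x) = ∑_a N_a ψ (c a) = ∑_a (N_a - Q / p) ψ (c a)`, because `∑_a ψ (c a) = 0` (`c` a unit; `AddChar.sum_mulShift` or
`AddChar.sum_eq_zero_of_ne_one`), and `‖ψ‖ = 1`. So the norm is at most `p * p * B = 8 d p ^ 4 √Q`.
-/

set_option autoImplicit false

open Polynomial

namespace Pool.Agent.Helper78.AST

variable (p : ℕ) [Fact p.Prime]

theorem sum_bound (L : Type) [Field L] [Fintype L] [Algebra (ZMod p) L] (g : L[X]) (hd : ¬ p ∣ g.natDegree)
    (c : (ZMod p)ˣ) :
    ‖∑ x : L, ZMod.stdAddChar ((c : ZMod p) * Algebra.trace (ZMod p) L (g.eval x))‖ ≤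
      8 * g.natDegree * p ^ 4 * Real.sqrt (Fintype.card L) := by
  classical
  have hchar : CharP L p := charP_of_injective_algebraMap (algebraMap (ZMod p) L).injective p
  have hp0 : (0 : ℝ) < p := by exact_mod_cast (Fact.out : p.Prime).pos
  have hp1 : (1 : ℝ) ≤ p := by exact_mod_cast (Fact.out : p.Prime).one_le
  have hfin : Module.Finite (ZMod p) L := Module.Finite.of_finite
  have hrpos : 0 < Module.finrank (ZMod p) L := Module.finrank_pos
  obtain ⟨s, hs⟩ : ∃ s, Module.finrank (ZMod p) L = s + 1 :=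
    ⟨Module.finrank (ZMod p) L - 1, by omega⟩
  have hcard : Fintype.card L = p ^ (s + 1) := by
    rw [← hs, Module.card_eq_pow_finrank (K := ZMod p) (V := L), ZMod.card]
  obtain ⟨T, hT⟩ : ∃ T : L → ZMod p, T = fun x => Algebra.trace (ZMod p) L (g.eval x) := ⟨_, rfl⟩
  obtain ⟨N, hN⟩ : ∃ N : ZMod p → ℕ,
      N = fun a => ((Finset.univ : Finset L).filter fun x => T x = a).card := ⟨_, rfl⟩
  obtain ⟨B, hB⟩ : ∃ B : ℝ, B = 8 * g.natDegree * p ^ 2 * Real.sqrt (Fintype.card L) := ⟨_, rfl⟩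
  obtain ⟨Q, hQ⟩ : ∃ Q : ℝ, Q = (Fintype.card L : ℝ) := ⟨_, rfl⟩
  have hB0 : 0 ≤ B := by
    rw [hB]
    positivity
  have hup : ∀ a, (N a : ℝ) ≤ Q / p + B := by
    intro a
    have h1 := step_count p g hd s hcard (algebraMap (ZMod p) L a)
    have h2 : ((Finset.univ : Finset L).filter
        fun x => (hp p g (s + 1)).eval x = algebraMap (ZMod p) L a) =
        (Finset.univ : Finset L).filter fun x => T x = a := by
      apply Finset.filter_congr
      intro x _
      rw [← hs, hp_eval p g x, hT]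
      exact (algebraMap (ZMod p) L).injective.eq_iff
    rw [h2] at h1
    rw [hN, hQ, hB]
    exact h1
  have hsum : ∑ a, (N a : ℝ) = Q := by
    have h1 : ∑ a : ZMod p, N a = Fintype.card L := by
      rw [hN, ← Finset.card_univ]
      exact (Finset.card_eq_sum_card_fiberwise (f := T) (s := Finset.univ) (t := Finset.univ)
        (fun x _ => Finset.mem_coe.2 (Finset.mem_univ _))).symm
    rw [hQ, ← h1]
    push_cast
    rfl
  have hlow : ∀ a, Q / p - p * B ≤ (N a : ℝ) := by
    intro a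
    have h1 : ∑ b ∈ Finset.univ.erase a, (N b : ℝ) ≤ ((p : ℝ) - 1) * (Q / p + B) := by
      calc ∑ b ∈ Finset.univ.erase a, (N b : ℝ) ≤ ∑ b ∈ Finset.univ.erase a, (Q / p + B) :=
            Finset.sum_le_sum (fun b _ => hup b)
        _ = ((p : ℝ) - 1) * (Q / p + B) := by
            rw [Finset.sum_const, Finset.card_erase_of_mem (Finset.mem_univ a), Finset.card_univ,
              ZMod.card, nsmul_eq_mul, Nat.cast_sub (Fact.out : p.Prime).one_le, Nat.cast_one]
    have h2 := Finset.add_sum_erase Finset.univ (fun b => (N b : ℝ)) (Finset.mem_univ a)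
    rw [hsum] at h2
    have h3 : ((p : ℝ) - 1) * (Q / p + B) = Q - Q / p + (p - 1) * B := by
      field_simp
    rw [h3] at h1
    nlinarith
  have habs : ∀ a, |(N a : ℝ) - Q / p| ≤ p * B := by
    intro a
    rw [abs_le]
    constructor
    · have := hlow a
      linarith
    · have := hup a
      nlinarith
  -- the sum
  have h1 : ∑ x : L, ZMod.stdAddChar ((c : ZMod p) * Algebra.trace (ZMod p) L (g.eval x)) =
      ∑ a : ZMod p, (N a : ℂ) * ZMod.stdAddChar ((c : ZMod p) * a) := by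
    have h2 := Finset.sum_fiberwise' (Finset.univ : Finset L) T
      (fun a => (ZMod.stdAddChar ((c : ZMod p) * a) : ℂ))
    rw [hT] at h2
    rw [← h2, hN, hT]
    refine Finset.sum_congr rfl fun a _ => ?_
    rw [Finset.sum_const, nsmul_eq_mul]
  have h2 : ∑ a : ZMod p, (ZMod.stdAddChar ((c : ZMod p) * a) : ℂ) = 0 := by
    have h3 := AddChar.sum_mulShift (c : ZMod p) (ZMod.isPrimitive_stdAddChar p)
    rw [if_neg c.ne_zero, Nat.cast_zero] at h3
    rw [← h3]
    refine Finset.sum_congr rfl fun a _ => ?_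
    rw [mul_comm]
  have h3 : ∑ a : ZMod p, (N a : ℂ) * ZMod.stdAddChar ((c : ZMod p) * a) =
      ∑ a : ZMod p, (((N a : ℝ) - Q / p : ℝ) : ℂ) * ZMod.stdAddChar ((c : ZMod p) * a) := by
    have h4 : ∑ a : ZMod p, (((N a : ℝ) - Q / p : ℝ) : ℂ) * ZMod.stdAddChar ((c : ZMod p) * a) =
        ∑ a : ZMod p, (N a : ℂ) * ZMod.stdAddChar ((c : ZMod p) * a) -
          ((Q / p : ℝ) : ℂ) * ∑ a : ZMod p, (ZMod.stdAddChar ((c : ZMod p) * a) : ℂ) := by
      rw [Finset.mul_sum, ← Finset.sum_sub_distrib]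
      refine Finset.sum_congr rfl fun a _ => ?_
      push_cast
      ring
    rw [h4, h2, mul_zero, sub_zero]
  rw [h1, h3]
  calc ‖∑ a : ZMod p, (((N a : ℝ) - Q / p : ℝ) : ℂ) * ZMod.stdAddChar ((c : ZMod p) * a)‖ ≤
      ∑ a : ZMod p, ‖(((N a : ℝ) - Q / p : ℝ) : ℂ) * ZMod.stdAddChar ((c : ZMod p) * a)‖ :=
        norm_sum_le _ _
    _ ≤ ∑ a : ZMod p, (p : ℝ) * B := by
        refine Finset.sum_le_sum fun a _ => ?_
        rw [norm_mul, AddChar.norm_apply, mul_one, Complex.norm_real, Real.norm_eq_abs]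
        exact habs a
    _ = 8 * g.natDegree * p ^ 4 * Real.sqrt (Fintype.card L) := by
        rw [Finset.sum_const, Finset.card_univ, ZMod.card, nsmul_eq_mul, hB]
        ring

end Pool.Agent.Helper78.AST
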