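import Pool.Agent.Helper78.AST.Eigen
import Pool.Agent.Helper78.AST.SumBound
import Pool.Agent.Helper78.AST.RootBound
import Pool.Agent.Helper78.AST.Gauss

/-!
# AST-18 Weil: the Riemann hypothesis for `w ^ p - w = f x` (assembly)

`f` of degree `n + 1` prime to `p`, `IsEigen p F f c b`, `q = card F`. Claim: `‖b i‖ ^ 2 = q`.

1. `‖∑ b_i ^ k‖ ≤ C (√q) ^ k` for `k ≥ 1`: apply `IsEigen` to `E = FiniteField.Extension F p k` (`finrank_extension`, `card E = q ^ k`): the sum is
   `- expSum p F E f c`, and `expSum` is the sum of `sum_bound` for `g = f.map (algebraMap F E)` (`aeval x f = (f.map _).eval x`,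
   `natDegree_map`). So `root_bound` gives `‖b i‖ ≤ √q`.
2. `‖∏ b_i‖ = q ^ (n / 2)`: by `isEigen_iff` the product is, up to sign, the constant coefficient of `lpoly`, `lsum f ψ n`
   (`Polynomial.prod...coeff_zero`: evaluate `∏ (X - b_i)` at `0`). If `n = 2 m`: `lsum_top_odd` and `char_norm`: `q ^ m`. If `n = 2 m + 1`:
   `lsum_top_even` and `gauss_norm`: `q ^ m √q`. So `‖∏ b_i‖ ^ 2 = q ^ n`.
3. Each `‖b_i‖ ^ 2 ≤ q` and `∏ ‖b_i‖ ^ 2 = q ^ n`, so all are equal to `q` (if one were smaller the product would be smaller: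
   `Finset.prod_lt_prod`, all positive).
-/

set_option autoImplicit false

open Polynomial PowerSeries

namespace Pool.Agent.Helper78.AST

variable (p : ℕ) [Fact p.Prime] (F : Type) [Field F] [Fintype F] [Algebra (ZMod p) F]

theorem prod_eigen (hp : p ≠ 2) (f : F[X]) (n : ℕ) (hn : f.natDegree = n + 1) (hpd : ¬ p ∣ n + 1)
    (c : (ZMod p)ˣ) (b : Fin n → ℂ) (hb : IsEigen p F f (c : ZMod p) b) :
    ∏ i, b i = (-1) ^ n * lsum f (psi p F c) n := by
  have h := (isEigen_iff p F hp f n hn hpd c b).1 hb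
  have h1 := congrArg (Polynomial.eval (0 : ℂ)) h
  have hL : Polynomial.eval (0 : ℂ) (∏ i, (Polynomial.X - Polynomial.C (b i))) =
      (-1) ^ n * ∏ i, b i := by
    rw [Polynomial.eval_prod]
    simp only [Polynomial.eval_sub, Polynomial.eval_X, Polynomial.eval_C, zero_sub]
    rw [Finset.prod_neg, Finset.card_univ, Fintype.card_fin]
  have hR : Polynomial.eval (0 : ℂ) (lpoly f (psi p F c) n) = lsum f (psi p F c) n := by
    unfold lpoly
    rw [Polynomial.eval_finset_sum, Finset.sum_eq_single n]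
    · simp
    · intro k hk hkn
      have hk' : n - k ≠ 0 := by
        have := Finset.mem_range.1 hk
        omega
      simp [hk']
    · intro hnn
      exact absurd (Finset.mem_range.2 (Nat.lt_succ_self n)) hnn
  rw [hL, hR] at h1
  rw [← h1, ← mul_assoc, ← mul_pow]
  norm_num

private theorem weil_sqrt_pow (x : ℝ) (hx : 0 ≤ x) (k : ℕ) : Real.sqrt (x ^ k) = Real.sqrt x ^ k := by
  rw [← Real.sqrt_sq (pow_nonneg (Real.sqrt_nonneg x) k), ← pow_mul, mul_comm, pow_mul,
    Real.sq_sqrt hx]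

private theorem weil_le (f : F[X]) (n : ℕ) (hn : f.natDegree = n + 1) (hpd : ¬ p ∣ n + 1)
    (c : (ZMod p)ˣ) (b : Fin n → ℂ) (hb : IsEigen p F f (c : ZMod p) b) (i : Fin n) :
    ‖b i‖ ≤ Real.sqrt (Fintype.card F : ℝ) := by
  have hchar : CharP F p := charP_of_injective_algebraMap (algebraMap (ZMod p) F).injective p
  have hq : (0 : ℝ) < (Fintype.card F : ℝ) := by exact_mod_cast Fintype.card_pos
  refine root_bound b (8 * ((n + 1 : ℕ) : ℝ) * (p : ℝ) ^ 4) _ (Real.sqrt_pos.2 hq) (fun k hk => ?_) i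
  haveI : NeZero k := ⟨by omega⟩
  letI : Fintype (FiniteField.Extension F p k) := Fintype.ofFinite _
  have h1 := hb (FiniteField.Extension F p k)
  rw [FiniteField.finrank_extension] at h1
  have h2 : ‖∑ j, b j ^ k‖ = ‖expSum p F (FiniteField.Extension F p k) f (c : ZMod p)‖ := by
    rw [h1, norm_neg]
  rw [h2]
  have hdeg : (f.map (algebraMap F (FiniteField.Extension F p k))).natDegree = n + 1 := by
    rw [Polynomial.natDegree_map, hn]
  have h3 := sum_bound p (FiniteField.Extension F p k)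
    (f.map (algebraMap F (FiniteField.Extension F p k))) (by rw [hdeg]; exact hpd) c
  rw [hdeg] at h3
  have hcard : (Fintype.card (FiniteField.Extension F p k) : ℝ) = (Fintype.card F : ℝ) ^ k := by
    rw [Fintype.card_eq_nat_card, FiniteField.natCard_extension, Fintype.card_eq_nat_card]
    push_cast
    rfl
  rw [hcard, weil_sqrt_pow _ hq.le] at h3
  refine le_trans (le_of_eq ?_) h3
  unfold expSum
  congr 1
  refine Finset.sum_congr rfl fun x _ => ?_
  rw [Polynomial.eval_map_algebraMap]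

theorem weil (hp : p ≠ 2) (f : F[X]) (n : ℕ) (hn : f.natDegree = n + 1) (hpd : ¬ p ∣ n + 1)
    (c : (ZMod p)ˣ) (b : Fin n → ℂ) (hb : IsEigen p F f (c : ZMod p) b) (i : Fin n) :
    ‖b i‖ ^ 2 = (Fintype.card F : ℝ) := by
  have hchar : CharP F p := charP_of_injective_algebraMap (algebraMap (ZMod p) F).injective p
  have hq : (0 : ℝ) < (Fintype.card F : ℝ) := by exact_mod_cast Fintype.card_pos
  have h2 : (2 : F) ≠ 0 := by
    intro h
    have h3 : ((2 : ℕ) : F) = 0 := by exact_mod_cast h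
    rw [CharP.cast_eq_zero_iff F p] at h3
    have h4 := Nat.le_of_dvd (by norm_num) h3
    have h5 := (Fact.out : p.Prime).two_le
    exact hp (le_antisymm h4 h5)
  have hdF : (f.natDegree : F) ≠ 0 := by
    rw [hn]
    intro h
    exact hpd ((CharP.cast_eq_zero_iff F p _).1 h)
  have hlead : f.leadingCoeff ≠ 0 := by
    intro h
    rw [Polynomial.leadingCoeff_eq_zero] at h
    rw [h, Polynomial.natDegree_zero] at hn
    omega
  have hψ := psi_ne_one p F c
  have hnorm : ‖lsum f (psi p F c) n‖ ^ 2 = (Fintype.card F : ℝ) ^ n := by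
    obtain ⟨m, hm⟩ := Nat.even_or_odd' n
    rcases hm with hm | hm
    · subst hm
      rw [lsum_top_odd f _ hψ m hn h2 hdF, norm_mul, char_norm, norm_pow, Complex.norm_natCast,
        mul_one, ← pow_mul, mul_comm]
    · subst hm
      rw [lsum_top_even f _ hψ m hn h2 hdF, norm_mul, mul_pow, gauss_norm F h2 _ hψ _ _
        (div_ne_zero (mul_ne_zero hdF hlead) h2), norm_pow, Complex.norm_natCast, ← pow_mul,
        ← pow_succ, mul_comm]
  have hprod : ∏ j, ‖b j‖ ^ 2 = (Fintype.card F : ℝ) ^ n := by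
    rw [Finset.prod_pow, ← norm_prod, prod_eigen p F hp f n hn hpd c b hb, norm_mul, norm_pow,
      norm_neg, norm_one, one_pow, one_mul, hnorm]
  have hle : ∀ j, ‖b j‖ ^ 2 ≤ (Fintype.card F : ℝ) := fun j => by
    have h := weil_le p F f n hn hpd c b hb j
    calc ‖b j‖ ^ 2 ≤ Real.sqrt (Fintype.card F : ℝ) ^ 2 := pow_le_pow_left₀ (norm_nonneg _) h 2
      _ = (Fintype.card F : ℝ) := Real.sq_sqrt hq.le
  have hpos : ∀ j, 0 < ‖b j‖ ^ 2 := by
    intro j
    by_contra hc
    have h0 : ‖b j‖ ^ 2 = 0 := le_antisymm (not_lt.1 hc) (by positivity)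
    have h1 : ∏ j, ‖b j‖ ^ 2 = 0 := Finset.prod_eq_zero (Finset.mem_univ j) h0
    rw [hprod] at h1
    exact absurd h1 (pow_pos hq n).ne'
  by_contra hne
  have hlt : ‖b i‖ ^ 2 < (Fintype.card F : ℝ) := lt_of_le_of_ne (hle i) hne
  have h := Finset.prod_lt_prod (s := Finset.univ) (f := fun j => ‖b j‖ ^ 2)
    (g := fun _ : Fin n => (Fintype.card F : ℝ)) (fun j _ => hpos j) (fun j _ => hle j)
    ⟨i, Finset.mem_univ i, hlt⟩
  rw [hprod, Finset.prod_const, Finset.card_univ, Fintype.card_fin] at h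
  exact lt_irrefl _ h

end Pool.Agent.Helper78.AST
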