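import Pool.Agent.Helper78.AST.Main
import Pool.Agent.Helper78.AST.Weil
import Pool.Agent.Helper78.AST.CritSum

/-!
# AST-39 Final: the determinants (assembly; helper78)
-/

set_option autoImplicit false

open Polynomial

namespace Pool.Agent.Helper78.AST

variable (p : ℕ) [Fact p.Prime] (F : Type) [Field F] [Fintype F] [Algebra (ZMod p) F]

theorem two_ne_zero_of (hp : p ≠ 2) : (2 : F) ≠ 0 := by
  have : CharP F p := charP_of_injective_algebraMap (algebraMap (ZMod p) F).injective p
  intro h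
  have h2 : ((2 : ℕ) : F) = 0 := by exact_mod_cast h
  rw [CharP.cast_eq_zero_iff F p] at h2
  exact hp ((Nat.prime_dvd_prime_iff_eq (Fact.out : p.Prime) Nat.prime_two).1 h2)

theorem deg_ne_zero_of (f : F[X]) (n : ℕ) (hn : f.natDegree = n + 1) (hpd : ¬ p ∣ n + 1) :
    (f.natDegree : F) ≠ 0 := by
  have : CharP F p := charP_of_injective_algebraMap (algebraMap (ZMod p) F).injective p
  rw [hn, Ne, CharP.cast_eq_zero_iff F p]
  exact hpd

theorem determinants (hp : p ≠ 2) (f : F[X]) (n : ℕ) (hn : f.natDegree = n + 1) (hpd : ¬ p ∣ n + 1) :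
    ∃ S : F, algebraMap F (AlgebraicClosure F) S =
        (((derivative f).aroots (AlgebraicClosure F)).map fun θ => aeval θ f).sum ∧
      ∀ (c : (ZMod p)ˣ) (b : Fin n → ℂ), IsEigen p F f (c : ZMod p) b →
        (∀ m, n = 2 * m → ∏ i, b i =
          (Fintype.card F : ℂ) ^ m * ZMod.stdAddChar ((c : ZMod p) * Algebra.trace (ZMod p) F S)) ∧
        (∀ m, n = 2 * m + 1 → ∏ i, b i =
          -((Fintype.card F : ℂ) ^ m * ∑ y : F, ZMod.stdAddChar ((c : ZMod p) *
            Algebra.trace (ZMod p) F (S + (n + 1 : F) * f.leadingCoeff / 2 * y ^ 2)))) := by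
  have h2 := two_ne_zero_of p F hp
  have hdF := deg_ne_zero_of p F f n hn hpd
  refine ⟨phi f n (rs (crit f n)), crit_sum (AlgebraicClosure F) f n hn hdF, fun c b hb => ⟨?_, ?_⟩⟩
  · rintro m rfl
    rw [prod_eigen p F hp f (2 * m) hn hpd c b hb,
      lsum_top_odd f _ (psi_ne_one p F c) m hn h2 hdF]
    simp [psi, pow_mul]
  · rintro m rfl
    have hcast : (f.natDegree : F) = ((2 * m + 1 : ℕ) : F) + 1 := by
      rw [hn]
      push_cast
      ring
    rw [prod_eigen p F hp f (2 * m + 1) hn hpd c b hb,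
      lsum_top_even f _ (psi_ne_one p F c) m (by rw [hn]) h2 hdF, hcast]
    simp [psi, pow_succ, pow_mul]

end Pool.Agent.Helper78.AST
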