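import Mathlib

/-!
# AST-20 PrimeVal: the valuation of a prime of a number field (short, Mathlib only)

`pval P x = - log (P.valuation L x)` (`WithZero.log`, an integer).
* `pval_mul`: `WithZero.log_mul`, `map_mul`, `Valuation.ne_zero_iff`.
* `pval_add`: `Valuation.map_add` and monotonicity of `WithZero.log` on nonzero elements (`WithZero.log_le_log`).
* `pval_nonneg`: `HeightOneSpectrum.valuation_le_one` for `x` in the ring of integers.
* `integral_of_pval`: `HeightOneSpectrum.mem_integers_of_valuation_le_one`.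
* `pval_natCast_pos`, `pval_natCast_zero`: `HeightOneSpectrum.valuation_lt_one_iff_mem` (`(p : 𝓞 L) ≠ 0`), `valuation_le_one`.
* `pval_gal`: let `γ` be an automorphism with `x ∈ P ↔ γ x ∈ P'` for integral `x`. Then `x ∈ P ^ n ↔ γ x ∈ P' ^ n` (the ring automorphism of `𝓞 L` given by `γ`
  maps the ideal `P` onto `P'`, `Ideal.map_pow`), so by `HeightOneSpectrum.intValuation_le_pow_iff_mem` (or `..._dvd`, `valuation_of_algebraMap`) the
  valuations of integral `x ≠ 0` agree: `pval P' (γ x) = pval P x`; every element is a quotient of two integral ones (`IsFractionRing.div_surjective`).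
-/

set_option autoImplicit false

open NumberField IsDedekindDomain

namespace Pool.Agent.Helper78.AST

variable {L : Type} [Field L] [NumberField L]

/-- The (additive) valuation of the prime `P`. -/
noncomputable def pval (P : HeightOneSpectrum (𝓞 L)) (x : L) : ℤ := -WithZero.log (P.valuation L x)

private theorem pva_ne (P : HeightOneSpectrum (𝓞 L)) {x : L} (hx : x ≠ 0) :
    P.valuation L x ≠ 0 := (Valuation.ne_zero_iff _).2 hx

theorem pval_mul (P : HeightOneSpectrum (𝓞 L)) (x y : L) (hx : x ≠ 0) (hy : y ≠ 0) :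
    pval P (x * y) = pval P x + pval P y := by
  unfold pval
  rw [map_mul, WithZero.log_mul (pva_ne P hx) (pva_ne P hy)]
  ring

theorem pval_add (P : HeightOneSpectrum (𝓞 L)) (x y : L) (hx : x ≠ 0) (hy : y ≠ 0) (hxy : x + y ≠ 0) :
    min (pval P x) (pval P y) ≤ pval P (x + y) := by
  have h := (P.valuation L).map_add x y
  unfold pval
  rcases le_total (P.valuation L x) (P.valuation L y) with h1 | h1
  · rw [max_eq_right h1] at h
    have h2 := (WithZero.log_le_log (pva_ne P hxy) (pva_ne P hy)).2 h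
    exact (min_le_right _ _).trans (neg_le_neg h2)
  · rw [max_eq_left h1] at h
    have h2 := (WithZero.log_le_log (pva_ne P hxy) (pva_ne P hx)).2 h
    exact (min_le_left _ _).trans (neg_le_neg h2)

theorem pval_nonneg (P : HeightOneSpectrum (𝓞 L)) (x : L) (hx : x ≠ 0) (hi : IsIntegral ℤ x) : 0 ≤ pval P x := by
  have h : P.valuation L x ≤ 1 := P.valuation_le_one (⟨x, hi⟩ : 𝓞 L)
  have h2 := (WithZero.log_le_log (pva_ne P hx) one_ne_zero).2 h
  rw [WithZero.log_one] at h2
  unfold pval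
  linarith

theorem integral_of_pval (x : L) (hx : x ≠ 0) (h : ∀ P : HeightOneSpectrum (𝓞 L), 0 ≤ pval P x) :
    IsIntegral ℤ x := by
  have h1 : ∀ P : HeightOneSpectrum (𝓞 L), P.valuation L x ≤ 1 := by
    intro P
    have h2 := h P
    unfold pval at h2
    refine (WithZero.log_le_log (pva_ne P hx) one_ne_zero).1 ?_
    rw [WithZero.log_one]
    linarith
  obtain ⟨y, hy⟩ := HeightOneSpectrum.mem_integers_of_valuation_le_one L x h1
  rw [← hy]
  exact y.isIntegral_coe

theorem pval_natCast_pos (P : HeightOneSpectrum (𝓞 L)) (m : ℕ) (hm : m ≠ 0) (h : (m : 𝓞 L) ∈ P.asIdeal) :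
    0 < pval P (m : L) := by
  have h0 : (m : L) ≠ 0 := Nat.cast_ne_zero.2 hm
  have h1 : P.valuation L (algebraMap (𝓞 L) L (m : 𝓞 L)) < 1 :=
    (P.valuation_lt_one_iff_mem (K := L) (m : 𝓞 L)).2 h
  rw [map_natCast] at h1
  have h2 := (WithZero.log_lt_log (pva_ne P h0) one_ne_zero).2 h1
  rw [WithZero.log_one] at h2
  unfold pval
  linarith

theorem pval_natCast_zero (P : HeightOneSpectrum (𝓞 L)) (m : ℕ) (hm : m ≠ 0) (h : (m : 𝓞 L) ∉ P.asIdeal) :
    pval P (m : L) = 0 := by
  have h1 : P.valuation L (algebraMap (𝓞 L) L (m : 𝓞 L)) = 1 :=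
    (P.valuation_eq_one_iff_notMem).2 h
  rw [map_natCast] at h1
  unfold pval
  rw [h1, WithZero.log_one, neg_zero]

private theorem pva_int (P P' : HeightOneSpectrum (𝓞 L)) (σ : 𝓞 L ≃+* 𝓞 L)
    (h : ∀ x : 𝓞 L, x ∈ P.asIdeal ↔ σ x ∈ P'.asIdeal) (r : 𝓞 L) :
    P'.intValuation (σ r) = P.intValuation r := by
  have hmap : Ideal.map σ P.asIdeal = P'.asIdeal := by
    ext y
    rw [Ideal.mem_map_of_equiv]
    constructor
    · rintro ⟨x, hx, rfl⟩
      exact (h x).1 hx
    · intro hy
      refine ⟨σ.symm y, ?_, σ.apply_symm_apply y⟩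
      rw [h, σ.apply_symm_apply]
      exact hy
  have hpow : ∀ n : ℕ, r ∈ P.asIdeal ^ n ↔ σ r ∈ P'.asIdeal ^ n := by
    intro n
    rw [← hmap, ← Ideal.map_pow, Ideal.mem_map_of_equiv]
    constructor
    · intro hr
      exact ⟨r, hr, rfl⟩
    · rintro ⟨x, hx, hxr⟩
      rw [← σ.injective hxr]
      exact hx
  have key : ∀ n : ℕ, P'.intValuation (σ r) ≤ WithZero.exp (-(n : ℤ)) ↔
      P.intValuation r ≤ WithZero.exp (-(n : ℤ)) := by
    intro n
    rw [HeightOneSpectrum.intValuation_le_pow_iff_mem, HeightOneSpectrum.intValuation_le_pow_iff_mem]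
    exact (hpow n).symm
  by_cases hr : r = 0
  · rw [hr, map_zero, map_zero, map_zero]
  have hr' : σ r ≠ 0 := fun h0 => hr (σ.injective (by rw [h0, map_zero]))
  apply le_antisymm
  · rw [P.intValuation_if_neg hr]
    rw [key, P.intValuation_if_neg hr]
  · rw [P'.intValuation_if_neg hr']
    rw [← key, P'.intValuation_if_neg hr']

theorem pval_gal (P P' : HeightOneSpectrum (𝓞 L)) (γ : L ≃ₐ[ℚ] L)
    (h : ∀ x y : 𝓞 L, (y : L) = γ x → (x ∈ P.asIdeal ↔ y ∈ P'.asIdeal)) (x : L) :
    pval P' (γ x) = pval P x := by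
  let σ : 𝓞 L ≃+* 𝓞 L := RingOfIntegers.mapRingEquiv γ.toRingEquiv
  have hσ : ∀ r : 𝓞 L, ((σ r : 𝓞 L) : L) = γ (r : L) := fun r => rfl
  have hint : ∀ r : 𝓞 L, P'.intValuation (σ r) = P.intValuation r :=
    pva_int P P' σ (fun r => h r (σ r) (hσ r))
  have hv : P'.valuation L (γ x) = P.valuation L x := by
    obtain ⟨a, b, _, rfl⟩ := IsFractionRing.div_surjective (A := 𝓞 L) x
    have ha : γ (algebraMap (𝓞 L) L a) = algebraMap (𝓞 L) L (σ a) := (hσ a).symm
    have hb : γ (algebraMap (𝓞 L) L b) = algebraMap (𝓞 L) L (σ b) := (hσ b).symm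
    rw [map_div₀, map_div₀, map_div₀, ha, hb, HeightOneSpectrum.valuation_of_algebraMap,
      HeightOneSpectrum.valuation_of_algebraMap, HeightOneSpectrum.valuation_of_algebraMap,
      HeightOneSpectrum.valuation_of_algebraMap, hint, hint]
  unfold pval
  rw [hv]

end Pool.Agent.Helper78.AST
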