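import Mathlib

/-!
# AST-21 Transit: the Galois group and the primes over `p` (Mathlib only)

`L / ℚ` finite Galois, `ζ : L` a primitive `p`-th root of unity.

* `exists_gal_prime`: `Gal(L/ℚ)` is transitive on the primes of `𝓞 L` over `p`: `Ideal.exists_smul_eq_of_isGaloisGroup` in
  `Mathlib/NumberTheory/RamificationInertia/Galois.lean` (with `A = ℤ`, `B = 𝓞 L`, `G = L ≃ₐ[ℚ] L`; both primes lie over `span {p}`; the instance
  `IsGaloisGroup G ℤ (𝓞 L)`, see `Mathlib/RingTheory/IsGaloisGroup/Basic.lean` and `Mathlib/NumberTheory/NumberField/ExistsRamified.lean` for a use), or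
  `Algebra.IsInvariant.exists_smul_of_under_eq`.
* `exists_decomp`: `a` prime to `p`. (1) There is `γ₀ ∈ Gal(L/ℚ)` with `γ₀ ζ = ζ ^ a`: `ζ` and `ζ ^ a` have the same minimal polynomial over `ℚ`, the cyclotomic
  polynomial (`Polynomial.cyclotomic_eq_minpoly_rat`, `IsPrimitiveRoot.pow_of_coprime`), and `L / ℚ` is normal
  (`Normal.exists_algEquiv_of_root`-like: `exists_algEquiv_of_root` / `minpoly.exists_algEquiv_of_root`). (2) Let `K = ℚ⟮ζ⟯` (an intermediate field of `L / ℚ`);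
  `P` and `γ₀ P` (the set of the `γ₀ x`) are primes of `𝓞 L` over `p`; their intersections with `𝓞 K` are primes of `𝓞 K` over `p`, hence
  equal (`IsCyclotomicExtension.Rat.eq_span_zeta_sub_one_of_liesOver'` in `Mathlib/NumberTheory/NumberField/Cyclotomic/Ideal.lean`; `K / ℚ` is a cyclotomic extension:
  `IsPrimitiveRoot.intermediateField_adjoin_isCyclotomicExtension`-like). (3) `L / K` is Galois, so some `ν ∈ Gal(L/K)` maps
  `γ₀ P` to `P` (`Ideal.exists_smul_eq_of_isGaloisGroup` with `A = 𝓞 K`). Put `δ = ν γ₀`: `δ ζ = ν (ζ ^ a) = ζ ^ a`, `δ P = P`.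
-/

set_option autoImplicit false

open NumberField IsDedekindDomain

namespace Pool.Agent.Helper78.AST

variable {L : Type} [Field L] [NumberField L] [IsGalois ℚ L] (p : ℕ) [Fact p.Prime]

omit [IsGalois ℚ L] in
private theorem tr_over (P : Ideal (𝓞 L)) (hP : P.IsPrime) (hp : (p : 𝓞 L) ∈ P) :
    P.LiesOver (Ideal.span {(p : ℤ)}) := by
  have hpr : Prime (p : ℤ) := Nat.prime_iff_prime_int.1 Fact.out
  refine (Ideal.liesOver_span_iff Ideal.IsPrime.ne_top' hpr).2 ?_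
  simpa using hp

omit [IsGalois ℚ L] in
private theorem tr_gal {K : Type} [Field K] [NumberField K] [Algebra K L] [IsGalois K L]
    (q : Ideal (𝓞 K)) (P P' : Ideal (𝓞 L)) (hP : P ∈ q.primesOver (𝓞 L))
    (hP' : P' ∈ q.primesOver (𝓞 L)) :
    ∃ γ : L ≃ₐ[K] L, ∀ x y : 𝓞 L, (y : L) = γ x → (x ∈ P ↔ y ∈ P') := by
  obtain ⟨σ, hσ⟩ := Ideal.exists_comap_galRestrict_eq (𝓞 K) K L (𝓞 L) hP' hP
  refine ⟨σ, fun x y hxy => ?_⟩
  have h1 : y = galRestrict (𝓞 K) K L (𝓞 L) σ x := by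
    apply RingOfIntegers.ext
    rw [hxy]
    exact (algebraMap_galRestrict_apply (𝓞 K) σ x).symm
  rw [h1, ← hσ]
  exact Ideal.mem_comap

theorem exists_gal_prime (P P' : HeightOneSpectrum (𝓞 L)) (hP : (p : 𝓞 L) ∈ P.asIdeal)
    (hP' : (p : 𝓞 L) ∈ P'.asIdeal) :
    ∃ γ : L ≃ₐ[ℚ] L, ∀ x y : 𝓞 L, (y : L) = γ x → (x ∈ P.asIdeal ↔ y ∈ P'.asIdeal) := by
  obtain ⟨σ, hσ⟩ := Ideal.exists_comap_galRestrict_eq ℤ ℚ L (𝓞 L) (p := Ideal.span {(p : ℤ)})
    (P₁ := P'.asIdeal) (P₂ := P.asIdeal) ⟨P'.isPrime, tr_over p _ P'.isPrime hP'⟩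
    ⟨P.isPrime, tr_over p _ P.isPrime hP⟩
  refine ⟨σ, fun x y hxy => ?_⟩
  have h1 : y = galRestrict ℤ ℚ L (𝓞 L) σ x := by
    apply RingOfIntegers.ext
    rw [hxy]
    exact (algebraMap_galRestrict_apply ℤ σ x).symm
  rw [h1, ← hσ]
  exact Ideal.mem_comap

theorem exists_decomp (ζ : L) (hζ : IsPrimitiveRoot ζ p) (P : HeightOneSpectrum (𝓞 L))
    (hP : (p : 𝓞 L) ∈ P.asIdeal) (a : ℕ) (ha : a.Coprime p) :
    ∃ δ : L ≃ₐ[ℚ] L, δ ζ = ζ ^ a ∧
      ∀ x y : 𝓞 L, (y : L) = δ x → (x ∈ P.asIdeal ↔ y ∈ P.asIdeal) := by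
  have hp0 : 0 < p := (Fact.out : p.Prime).pos
  have hζa : IsPrimitiveRoot (ζ ^ a) p := hζ.pow_of_coprime a ha
  obtain ⟨γ₀, hγ₀⟩ : ∃ γ : L ≃ₐ[ℚ] L, γ ζ = ζ ^ a := by
    refine minpoly.exists_algEquiv_of_root' (Algebra.IsAlgebraic.isAlgebraic ζ) ?_
    rw [← Polynomial.cyclotomic_eq_minpoly_rat hζ hp0,
      Polynomial.cyclotomic_eq_minpoly_rat hζa hp0, minpoly.aeval]
  let K := IntermediateField.adjoin ℚ {ζ}
  have hK : IsCyclotomicExtension {p} ℚ K := by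
    haveI : NeZero p := ⟨hp0.ne'⟩
    exact hζ.intermediateField_adjoin_isCyclotomicExtension ℚ
  have hζK : ζ ∈ K := IntermediateField.mem_adjoin_simple_self ℚ ζ
  have hζ' : IsPrimitiveRoot (⟨ζ, hζK⟩ : K) p := by
    rw [← IsPrimitiveRoot.coe_submonoidClass_iff]
    exact hζ
  let g := galRestrict ℤ ℚ L (𝓞 L) γ₀
  let P1 : Ideal (𝓞 L) := P.asIdeal.comap g
  haveI := P.isPrime
  have hP1p : P1.IsPrime := Ideal.comap_isPrime _ _
  have hP1m : (p : 𝓞 L) ∈ P1 := by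
    change g (p : 𝓞 L) ∈ P.asIdeal
    rw [map_natCast]
    exact hP
  have key : ∀ Q : Ideal (𝓞 L), Q.IsPrime → (p : 𝓞 L) ∈ Q →
      Q.under (𝓞 K) = Ideal.span {hζ'.toInteger - 1} := by
    intro Q hQ hpQ
    haveI : (Q.under (𝓞 K)).IsPrime := Ideal.IsPrime.under _ Q
    haveI : (Q.under (𝓞 K)).LiesOver (Ideal.span {(p : ℤ)}) := by
      have hpr : Prime (p : ℤ) := Nat.prime_iff_prime_int.1 Fact.out
      refine (Ideal.liesOver_span_iff Ideal.IsPrime.ne_top' hpr).2 ?_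
      rw [Ideal.under_def, Ideal.mem_comap]
      simpa using hpQ
    exact IsCyclotomicExtension.Rat.eq_span_zeta_sub_one_of_liesOver' p K hζ' _
  obtain ⟨ν, hν⟩ := tr_gal (K := K) (P.asIdeal.under (𝓞 K)) P.asIdeal P1
    ⟨P.isPrime, ⟨rfl⟩⟩ ⟨hP1p, ⟨(key _ P.isPrime hP).trans (key _ hP1p hP1m).symm⟩⟩
  refine ⟨(ν.restrictScalars ℚ).trans γ₀, ?_, ?_⟩
  · have h1 : ν ζ = ζ := ν.commutes ⟨ζ, hζK⟩
    rw [AlgEquiv.trans_apply, AlgEquiv.restrictScalars_apply, h1, hγ₀]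
  · intro x y hxy
    rw [AlgEquiv.trans_apply, AlgEquiv.restrictScalars_apply] at hxy
    have hint : IsIntegral ℤ (ν (x : L)) := by
      have := RingOfIntegers.isIntegral_coe x
      exact this.map (ν.restrictScalars ℤ)
    let z : 𝓞 L := ⟨ν (x : L), hint⟩
    rw [hν x z rfl]
    change g z ∈ P.asIdeal ↔ _
    have h2 : y = g z := by
      apply RingOfIntegers.ext
      rw [hxy]
      exact (algebraMap_galRestrict_apply ℤ γ₀ z).symm
    rw [h2]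

end Pool.Agent.Helper78.AST
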