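import Pool.Agent.Helper78.AST.GDefs
import Pool.Agent.Helper78.AST.PrimeVal
import Pool.Agent.Helper78.AST.Transit

/-!
# AST-22 FrameEx: existence of the frame, and of the field (assembly, short)

* `exists_frame`: choose a prime `P` of `𝓞 L` with `p ∈ P` (`span {p}` is a proper ideal: `Ideal.exists_le_maximal`; nonzero). `v = pval P`.
  `v_mul`, `v_add`, `v_int`, `v_p`: `PrimeVal`. `lift`: `exists_decomp` with `a.val` (`ZMod.val_coe_unit_coprime`) and `pval_gal` with `P' = P`.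
  `integral`: by `integral_of_pval` it is enough that `0 ≤ pval Q x` for every prime `Q`. If `p ∉ Q`: `pval Q (p ^ k x) = pval Q x` (`pval_mul`,
  `pval_natCast_zero`) and `0 ≤ pval Q (p ^ k x)` (`pval_nonneg`). If `p ∈ Q`: `exists_gal_prime` gives `γ` with `Q ↦ P`, so
  `pval P (γ x) = pval Q x`, and `0 ≤ v (γ x)` by hypothesis.
* `exists_field`: for finitely many algebraic numbers `S` there is a finite Galois extension `L ⊂ ℂ` of `ℚ` containing them: the splitting field in `ℂ` of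
  `∏_{z ∈ S} minpoly ℚ z`, `IntermediateField.adjoin ℚ (g.rootSet ℂ)` (`IntermediateField.adjoin_rootSet_isSplittingField`,
  `IsGalois.of_separable_splitting_field`, use the squarefree part, or: the normal closure of `adjoin ℚ S`, normal and finite-dimensional,
  `IsGalois` since characteristic `0`).
-/

set_option autoImplicit false

open NumberField IsDedekindDomain

namespace Pool.Agent.Helper78.AST

private theorem fe_prime (p : ℕ) [hp : Fact p.Prime] (L : Type) [Field L] [NumberField L] :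
    ∃ P : HeightOneSpectrum (𝓞 L), (p : 𝓞 L) ∈ P.asIdeal := by
  have hpr : Prime (p : ℤ) := Nat.prime_iff_prime_int.1 hp.out
  haveI : (Ideal.span {(p : ℤ)}).IsMaximal :=
    PrincipalIdealRing.isMaximal_of_irreducible hpr.irreducible
  obtain ⟨Q, hQ, hQp⟩ := Ideal.exists_maximal_ideal_liesOver_of_isIntegral (S := 𝓞 L)
    (Ideal.span {(p : ℤ)})
  have hmem : (p : 𝓞 L) ∈ Q := by
    have := (Ideal.liesOver_span_iff (P := Q) hQ.ne_top hpr).1 hQp
    simpa using this
  have hp0 : (p : 𝓞 L) ≠ 0 := Nat.cast_ne_zero.2 hp.out.ne_zero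
  have hne : Q ≠ ⊥ := by
    rintro rfl
    exact hp0 (by simpa using hmem)
  exact ⟨⟨Q, hQ.isPrime, hne⟩, hmem⟩

private theorem fe_integral (p : ℕ) [hp : Fact p.Prime] (L : Type) [Field L] [NumberField L]
    [IsGalois ℚ L] (P : HeightOneSpectrum (𝓞 L)) (hP : (p : 𝓞 L) ∈ P.asIdeal) (x : L)
    (hx : x ≠ 0) (hk : ∃ k : ℕ, IsIntegral ℤ ((p : L) ^ k * x))
    (h : ∀ γ : L ≃ₐ[ℚ] L, 0 ≤ pval P (γ x)) : IsIntegral ℤ x := by
  apply integral_of_pval x hx
  intro Q
  by_cases hQ : (p : 𝓞 L) ∈ Q.asIdeal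
  · obtain ⟨γ, hγ⟩ := exists_gal_prime p Q P hQ hP
    have h1 := pval_gal Q P γ hγ x
    rw [← h1]
    exact h γ
  · obtain ⟨k, hk⟩ := hk
    have hp0 : p ≠ 0 := hp.out.ne_zero
    have hpk : p ^ k ≠ 0 := pow_ne_zero _ hp0
    have hpL : ((p ^ k : ℕ) : L) ≠ 0 := Nat.cast_ne_zero.2 hpk
    have h1 : ((p ^ k : ℕ) : 𝓞 L) ∉ Q.asIdeal := by
      intro hmem
      rw [Nat.cast_pow] at hmem
      exact hQ (Q.isPrime.mem_of_pow_mem k hmem)
    have h2 := pval_natCast_zero Q (p ^ k) hpk h1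
    have h3 : ((p ^ k : ℕ) : L) * x = (p : L) ^ k * x := by rw [Nat.cast_pow]
    have h4 : 0 ≤ pval Q (((p ^ k : ℕ) : L) * x) := by
      apply pval_nonneg Q _ (mul_ne_zero hpL hx)
      rw [h3]
      exact hk
    rw [pval_mul Q _ _ hpL hx, h2, zero_add] at h4
    exact h4

theorem exists_frame (p : ℕ) [Fact p.Prime] (L : IntermediateField ℚ ℂ) [FiniteDimensional ℚ L] [IsGalois ℚ L]
    (ζ : L) (hζ : IsPrimitiveRoot ζ p) : Nonempty (Frame p L ζ) := by
  haveI : NumberField L := ⟨⟩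
  obtain ⟨P, hP⟩ := fe_prime p L
  exact ⟨{
    v := pval P
    v_mul := fun x y hx hy => pval_mul P x y hx hy
    v_add := fun x y hx hy hxy => pval_add P x y hx hy hxy
    v_p := pval_natCast_pos P p (Fact.out : p.Prime).ne_zero hP
    v_int := fun x hx hi => pval_nonneg P x hx hi
    lift := fun a => by
      obtain ⟨δ, h1, h2⟩ := exists_decomp p ζ hζ P hP (a : ZMod p).val
        (ZMod.val_coe_unit_coprime a)
      exact ⟨δ, fun x => pval_gal P P δ h2 x, h1⟩
    integral := fun x hx hk h => fe_integral p L P hP x hx hk h }⟩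

theorem exists_field (S : Finset ℂ) (hS : ∀ z ∈ S, IsIntegral ℚ z) :
    ∃ L : IntermediateField ℚ ℂ, FiniteDimensional ℚ L ∧ IsGalois ℚ L ∧ ∀ z ∈ S, z ∈ L := by
  classical
  let g : Polynomial ℚ := ∏ z ∈ S, minpoly ℚ z
  have hg : g ≠ 0 := Finset.prod_ne_zero_iff.2 fun z hz => minpoly.ne_zero (hS z hz)
  have hsplit : (g.map (algebraMap ℚ ℂ)).Splits := IsAlgClosed.splits _
  haveI hsf : g.IsSplittingField ℚ (IntermediateField.adjoin ℚ (g.rootSet ℂ)) :=
    IntermediateField.adjoin_rootSet_isSplittingField hsplit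
  refine ⟨IntermediateField.adjoin ℚ (g.rootSet ℂ), ?_, ?_, ?_⟩
  · exact Polynomial.IsSplittingField.finiteDimensional _ g
  · haveI : FiniteDimensional ℚ (IntermediateField.adjoin ℚ (g.rootSet ℂ)) :=
      Polynomial.IsSplittingField.finiteDimensional _ g
    haveI : Normal ℚ (IntermediateField.adjoin ℚ (g.rootSet ℂ)) := Normal.of_isSplittingField g
    exact ⟨⟩
  · intro z hz
    apply IntermediateField.subset_adjoin
    rw [Polynomial.mem_rootSet]
    refine ⟨hg, ?_⟩
    have : Polynomial.aeval z g = ∏ w ∈ S, Polynomial.aeval z (minpoly ℚ w) := map_prod _ _ _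
    rw [this]
    exact Finset.prod_eq_zero hz (minpoly.aeval ℚ z)

end Pool.Agent.Helper78.AST
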