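import Pool.Agent.Helper78.AST.Eigen
import Pool.Agent.Helper78.AST.CDefs

/-!
# AST: definitions for the Galois side

`L` is a finite Galois extension of `ℚ` inside `ℂ` which contains the `p`-th root of unity `ζ` and all eigenvalues;
`Frame p L ζ`: the valuation of a prime of `L` over `p`, whose decomposition group maps onto the Galois group of
`ℚ(ζ)`; `Data`: the field, the frame and the eigenvalues; `D.mu x = 2 v(x) - v(q)`; `D.NN`: the group of the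
automorphisms of `L` over `ℚ(ζ)`.
-/

set_option autoImplicit false

open Polynomial

namespace Pool.Agent.Helper78.AST

/-- A prime of `L` over `p`. -/
structure Frame (p : ℕ) (L : IntermediateField ℚ ℂ) (ζ : L) where
  v : L → ℤ
  v_mul : ∀ x y : L, x ≠ 0 → y ≠ 0 → v (x * y) = v x + v y
  v_add : ∀ x y : L, x ≠ 0 → y ≠ 0 → x + y ≠ 0 → min (v x) (v y) ≤ v (x + y)
  v_p : 0 < v (p : L)
  v_int : ∀ x : L, x ≠ 0 → IsIntegral ℤ x → 0 ≤ v x
  lift : ∀ a : (ZMod p)ˣ, ∃ δ : L ≃ₐ[ℚ] L, (∀ x, v (δ x) = v x) ∧ δ ζ = ζ ^ (a : ZMod p).val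
  integral : ∀ x : L, x ≠ 0 → (∃ k : ℕ, IsIntegral ℤ ((p : L) ^ k * x)) →
    (∀ γ : L ≃ₐ[ℚ] L, 0 ≤ v (γ x)) → IsIntegral ℤ x

/-- The data of the proof. -/
structure Data (p : ℕ) [Fact p.Prime] (F : Type) [Field F] [Fintype F] [Algebra (ZMod p) F] {J : Type}
    (n : ℕ) (f : J → F[X]) (L : IntermediateField ℚ ℂ) where
  hp : p ≠ 2
  deg : ∀ j, (f j).natDegree = n + 1
  ndvd : ¬ p ∣ n + 1
  ζ : L
  hζ : (ζ : ℂ) = ZMod.stdAddChar (1 : ZMod p)
  β : (J × (ZMod p)ˣ) × Fin n → L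
  eigen : ∀ (j : J) (c : (ZMod p)ˣ), IsEigen p F (f j) (c : ZMod p) (fun i => (β ((j, c), i) : ℂ))
  fr : Frame p L ζ

section

variable {p : ℕ} [Fact p.Prime] {F : Type} [Field F] [Fintype F] [Algebra (ZMod p) F] {J : Type}
  {n : ℕ} {f : J → F[X]} {L : IntermediateField ℚ ℂ}

/-- `2 v(x) - v(q)`. -/
noncomputable def Data.mu (D : Data p F n f L) (x : L) : ℤ :=
  2 * D.fr.v x - D.fr.v (Fintype.card F : L)

/-- The automorphisms of `L` over `ℚ(ζ)`. -/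
def Data.NN (D : Data p F n f L) : Subgroup (L ≃ₐ[ℚ] L) where
  carrier := {γ | γ D.ζ = D.ζ}
  mul_mem' := by
    intro a b ha hb
    simp only [Set.mem_ofPred_eq, AlgEquiv.mul_apply] at ha hb ⊢
    rw [hb, ha]
  one_mem' := by simp
  inv_mem' := by
    intro a ha
    simp only [Set.mem_ofPred_eq] at ha ⊢
    calc a⁻¹ D.ζ = a⁻¹ (a D.ζ) := by rw [ha]
      _ = (a⁻¹ * a) D.ζ := rfl
      _ = D.ζ := by simp

/-- The function `ν ↦ mu (ν β_x)` on the group `NN`. -/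
noncomputable def Data.φ (D : Data p F n f L) (x : (J × (ZMod p)ˣ) × Fin n) (ν : D.NN) : ℤ :=
  D.mu ((ν : L ≃ₐ[ℚ] L) (D.β x))

end

end Pool.Agent.Helper78.AST
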