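import Pool.Agent.Helper78.AST.GDefs
import Pool.Agent.Helper78.AST.Weil

/-!
# AST-24 GalBlock: the Galois group permutes the blocks

`q = card F`. For `c : ZMod p`, `k`, `j`: `lsum (f j) (psi p F c) k = ∑_e stdAddChar (c t_e)`, `t_e = Algebra.trace (ZMod p) F (phi ..)`, independent of `c`, and
`stdAddChar t = (stdAddChar 1) ^ t.val`. So this is the image in `ℂ` of the element `A_k(c) = ∑_e ζ ^ (c t_e).val` of `L`, and a homomorphism `γ` with
`γ ζ = ζ ^ a.val` maps `A_k(c)` to `∑_e ζ ^ (a.val (c t_e).val) = A_k(a c)` (`ζ ^ p = 1`).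
* `integral`: `β x` is a root of the monic polynomial `∑_{k ≤ n} A_k(c) X ^ (n - k)` (`isEigen_iff`) whose coefficients are integral (sums of roots of unity):
  `IsIntegral` is transitive (`isIntegral_trans`, or `Polynomial`: roots of monic polynomials over the integral closure).
* `gal`: `isEigen_iff` for `c` and for `a c`: in `L[X]`: `∏_i (X - β ((j, c), i)) = ∑ A_k(c) X ^ (n - k)` (the inclusion `L → ℂ` is injective on
  polynomials, `Polynomial.map_injective`). Apply `γ` to the coefficients: `∏_i (X - γ β ((j, c), i)) = ∑ A_k(a c) X ^ (n - k) = ∏_i (X - β ((j, a c), i))`. Equal products of linear factors: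
  the multisets of roots are equal (`Polynomial.roots_multiset_prod_X_sub_C`), so there is a permutation `π`
  (a bijection of `Fin n` matching two families with the same multiset of values: `Multiset.map_univ_eq_iff`-like, `Tuple`/`List.Perm`; compare
  fibres: `Fintype.card {i | u i = z} = Fintype.card {i | w i = z}`).
* `norm`: `weil`. `exists_pow`: `γ ζ` is again a primitive `p`-th root of unity, so a power `ζ ^ a` with `a` a unit (`IsPrimitiveRoot.eq_pow_of_pow_eq_one`;
  `ζ` is primitive of order `p`: `stdAddChar` is injective and `stdAddChar 1 ^ p = 1`).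
-/

set_option autoImplicit false

open Polynomial

namespace Pool.Agent.Helper78.AST

variable {p : ℕ} [Fact p.Prime] {F : Type} [Field F] [Fintype F] [Algebra (ZMod p) F] {J : Type}
  {n : ℕ} {f : J → F[X]} {L : IntermediateField ℚ ℂ}

private theorem std_eq (t : ZMod p) :
    (ZMod.stdAddChar t : ℂ) = (ZMod.stdAddChar (1 : ZMod p)) ^ t.val := by
  rw [← AddChar.map_nsmul_eq_pow]
  congr 1
  rw [nsmul_eq_mul, mul_one, ZMod.natCast_zmod_val]

private theorem std_nat (m : ℕ) :
    (ZMod.stdAddChar (1 : ZMod p) : ℂ) ^ m = ZMod.stdAddChar (m : ZMod p) := by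
  rw [← AddChar.map_nsmul_eq_pow]
  congr 1
  rw [nsmul_eq_mul, mul_one]

theorem isPrimitiveRoot_zeta (L : IntermediateField ℚ ℂ) (ζ : L) (hζ : (ζ : ℂ) = ZMod.stdAddChar (1 : ZMod p)) :
    IsPrimitiveRoot ζ p := by
  have h1 : IsPrimitiveRoot (ζ : ℂ) p := by
    rw [hζ]
    refine ⟨?_, ?_⟩
    · rw [std_nat]
      simp
    · intro l hl
      rw [std_nat, ← AddChar.map_zero_eq_one (ZMod.stdAddChar (N := p))] at hl
      have := ZMod.injective_stdAddChar hl
      rwa [ZMod.natCast_eq_zero_iff] at this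
  exact IsPrimitiveRoot.of_map_of_injective (f := algebraMap L ℂ) h1 (algebraMap L ℂ).injective

/-- the coefficient in `L` -/
private noncomputable def Data.co (D : Data p F n f L) (j : J) (c : ZMod p) (k : ℕ) : L :=
  ∑ e : Fin k → F, D.ζ ^ (c * Algebra.trace (ZMod p) F (phi (f j) k (rs e))).val

private theorem Data.co_coe (D : Data p F n f L) (j : J) (c : ZMod p) (k : ℕ) :
    algebraMap L ℂ (D.co j c k) = lsum (f j) (psi p F c) k := by
  unfold Data.co lsum
  rw [map_sum]
  apply Finset.sum_congr rfl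
  intro e _
  rw [map_pow]
  have : algebraMap L ℂ D.ζ = ZMod.stdAddChar (1 : ZMod p) := D.hζ
  rw [this, ← std_eq]
  rfl

private theorem Data.co_gal (D : Data p F n f L) (γ : L ≃ₐ[ℚ] L) (a : (ZMod p)ˣ)
    (hγ : γ D.ζ = D.ζ ^ (a : ZMod p).val) (j : J) (c : ZMod p) (k : ℕ) :
    γ (D.co j c k) = D.co j ((a : ZMod p) * c) k := by
  unfold Data.co
  rw [map_sum]
  apply Finset.sum_congr rfl
  intro e _
  rw [map_pow, hγ, ← pow_mul]
  apply (algebraMap L ℂ).injective
  have : algebraMap L ℂ D.ζ = ZMod.stdAddChar (1 : ZMod p) := D.hζ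
  rw [map_pow, map_pow, this, std_nat, std_nat]
  congr 1
  push_cast
  simp only [ZMod.natCast_zmod_val]
  ring

private noncomputable def Data.po (D : Data p F n f L) (j : J) (c : ZMod p) : L[X] :=
  ∑ k ∈ Finset.range (n + 1), Polynomial.C (D.co j c k) * Polynomial.X ^ (n - k)

private theorem Data.po_map (D : Data p F n f L) (j : J) (c : ZMod p) :
    (D.po j c).map (algebraMap L ℂ) = lpoly (f j) (psi p F c) n := by
  unfold Data.po lpoly
  rw [Polynomial.map_sum]
  apply Finset.sum_congr rfl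
  intro k _
  rw [Polynomial.map_mul, Polynomial.map_C, Polynomial.map_pow, Polynomial.map_X, D.co_coe]

private theorem Data.po_eq (D : Data p F n f L) (j : J) (c : (ZMod p)ˣ) :
    ∏ i, (Polynomial.X - Polynomial.C (D.β ((j, c), i))) = D.po j (c : ZMod p) := by
  apply Polynomial.map_injective (algebraMap L ℂ) (algebraMap L ℂ).injective
  rw [D.po_map, Polynomial.map_prod]
  rw [← (isEigen_iff p F D.hp (f j) n (D.deg j) D.ndvd c (fun i => (D.β ((j, c), i) : ℂ))).mp
    (D.eigen j c)]
  apply Finset.prod_congr rfl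
  intro i _
  rw [Polynomial.map_sub, Polynomial.map_X, Polynomial.map_C]
  rfl

private theorem Data.po_gal (D : Data p F n f L) (γ : L ≃ₐ[ℚ] L) (a : (ZMod p)ˣ)
    (hγ : γ D.ζ = D.ζ ^ (a : ZMod p).val) (j : J) (c : ZMod p) :
    (D.po j c).map (γ : L →+* L) = D.po j ((a : ZMod p) * c) := by
  unfold Data.po
  rw [Polynomial.map_sum]
  apply Finset.sum_congr rfl
  intro k _
  rw [Polynomial.map_mul, Polynomial.map_C, Polynomial.map_pow, Polynomial.map_X]
  congr 2
  exact D.co_gal γ a hγ j c k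

private theorem perm_of_prod {K : Type} [Field K] {m : ℕ} (u w : Fin m → K)
    (h : ∏ i, (Polynomial.X - Polynomial.C (u i)) = ∏ i, (Polynomial.X - Polynomial.C (w i))) :
    ∃ π : Equiv.Perm (Fin m), ∀ i, u i = w (π i) := by
  classical
  have h1 : (Finset.univ : Finset (Fin m)).val.map u = (Finset.univ : Finset (Fin m)).val.map w := by
    have hu := Polynomial.roots_multiset_prod_X_sub_C ((Finset.univ : Finset (Fin m)).val.map u)
    have hw := Polynomial.roots_multiset_prod_X_sub_C ((Finset.univ : Finset (Fin m)).val.map w)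
    rw [← hu, ← hw, Multiset.map_map, Multiset.map_map]
    exact congrArg Polynomial.roots h
  have h2 : ∀ z : K, Fintype.card {i // u i = z} = Fintype.card {i // w i = z} := by
    intro z
    have h3 := congrArg (Multiset.count z) h1
    rw [Multiset.count_map, Multiset.count_map] at h3
    rw [Fintype.card_subtype, Fintype.card_subtype]
    have e1 : ∀ v : Fin m → K, (Finset.univ.filter (fun i => v i = z)).card =
        (Multiset.filter (fun a => z = v a) (Finset.univ : Finset (Fin m)).val).card := by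
      intro v
      have : (Finset.univ.filter (fun i => v i = z)) = Finset.univ.filter (fun i => z = v i) := by
        ext i; simp [eq_comm]
      rw [this]
      rfl
    rw [e1 u, e1 w]
    exact h3
  refine ⟨Equiv.ofFiberEquiv (f := u) (g := w) (fun z => Fintype.equivOfCardEq (h2 z)), ?_⟩
  intro i
  exact (Equiv.ofFiberEquiv_map (f := u) (g := w) (fun z => Fintype.equivOfCardEq (h2 z)) i).symm

theorem Data.isIntegral (D : Data p F n f L) (x : (J × (ZMod p)ˣ) × Fin n) : IsIntegral ℤ (D.β x) := by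
  classical
  obtain ⟨⟨j, c⟩, i⟩ := x
  have hp0 : 0 < p := (Fact.out : p.Prime).pos
  have hz : IsIntegral ℤ D.ζ := (isPrimitiveRoot_zeta L D.ζ D.hζ).isIntegral hp0
  have hco : ∀ k, IsIntegral ℤ (D.co j (c : ZMod p) k) := by
    intro k
    unfold Data.co
    apply IsIntegral.sum
    intro e _
    exact hz.pow _
  set S := integralClosure ℤ L with hS
  have hinj : Function.Injective (algebraMap S L) := Subtype.val_injective
  let Q : S[X] := ∑ k ∈ Finset.range (n + 1),
    Polynomial.C (⟨D.co j (c : ZMod p) k, hco k⟩ : S) * Polynomial.X ^ (n - k)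
  have hQ : Q.map (algebraMap S L) = D.po j (c : ZMod p) := by
    unfold Data.po
    simp only [Q]
    rw [Polynomial.map_sum]
    apply Finset.sum_congr rfl
    intro k _
    rw [Polynomial.map_mul, Polynomial.map_C, Polynomial.map_pow, Polynomial.map_X]
    rfl
  have hint : IsIntegral S (D.β ((j, c), i)) := by
    refine ⟨Q, ?_, ?_⟩
    · apply Polynomial.monic_of_injective hinj
      rw [hQ, ← D.po_eq]
      exact Polynomial.monic_prod_X_sub_C _ _
    · rw [← Polynomial.eval_map, hQ, ← D.po_eq, Polynomial.eval_prod]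
      apply Finset.prod_eq_zero (Finset.mem_univ i)
      simp
  exact isIntegral_trans (A := S) _ hint

theorem Data.gal (D : Data p F n f L) (γ : L ≃ₐ[ℚ] L) (a : (ZMod p)ˣ) (hγ : γ D.ζ = D.ζ ^ (a : ZMod p).val)
    (j : J) (c : (ZMod p)ˣ) :
    ∃ π : Equiv.Perm (Fin n), ∀ i, γ (D.β ((j, c), i)) = D.β ((j, a * c), π i) := by
  apply perm_of_prod (fun i => γ (D.β ((j, c), i))) (fun i => D.β ((j, a * c), i))
  have h1 := congrArg (Polynomial.map (γ : L →+* L)) (D.po_eq j c)
  rw [D.po_gal γ a hγ, Polynomial.map_prod] at h1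
  have h2 := D.po_eq j (a * c)
  rw [Units.val_mul] at h2
  rw [h2, ← h1]
  apply Finset.prod_congr rfl
  intro i _
  rw [Polynomial.map_sub, Polynomial.map_X, Polynomial.map_C]
  rfl

theorem Data.norm (D : Data p F n f L) (x : (J × (ZMod p)ˣ) × Fin n) :
    ‖(D.β x : ℂ)‖ ^ 2 = (Fintype.card F : ℝ) := by
  obtain ⟨⟨j, c⟩, i⟩ := x
  exact weil p F D.hp (f j) n (D.deg j) D.ndvd c (fun i => (D.β ((j, c), i) : ℂ)) (D.eigen j c) i

theorem Data.exists_pow (D : Data p F n f L) (γ : L ≃ₐ[ℚ] L) :
    ∃ a : (ZMod p)ˣ, γ D.ζ = D.ζ ^ (a : ZMod p).val := by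
  have hz := isPrimitiveRoot_zeta L D.ζ D.hζ
  have hp : p.Prime := Fact.out
  have h1 : (γ D.ζ) ^ p = 1 := by
    rw [← map_pow, hz.pow_eq_one, map_one]
  obtain ⟨i, hi, hi'⟩ := hz.eq_pow_of_pow_eq_one h1
  have hi0 : (i : ZMod p) ≠ 0 := by
    intro h0
    rw [ZMod.natCast_eq_zero_iff] at h0
    have : i = 0 := Nat.eq_zero_of_dvd_of_lt h0 hi
    rw [this, pow_zero] at hi'
    have h2 : D.ζ = 1 := by
      apply γ.injective
      rw [map_one, ← hi']
    exact hz.ne_one hp.one_lt h2
  refine ⟨Units.mk0 (i : ZMod p) hi0, ?_⟩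
  rw [Units.val_mk0, ZMod.val_cast_of_lt hi, hi']

theorem Data.norm_gal (D : Data p F n f L) (γ : L ≃ₐ[ℚ] L) (x : (J × (ZMod p)ˣ) × Fin n) :
    ‖((γ (D.β x) : L) : ℂ)‖ ^ 2 = (Fintype.card F : ℝ) := by
  obtain ⟨⟨j, c⟩, i⟩ := x
  obtain ⟨a, ha⟩ := D.exists_pow γ
  obtain ⟨π, hπ⟩ := D.gal γ a ha j c
  rw [hπ i]
  exact D.norm _

end Pool.Agent.Helper78.AST
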