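import Mathlib

/-!
# AST-11 HasseH: Hasse derivatives of the trace polynomial (Mathlib only)

`L` a finite field with `Q = card L = p ^ r` elements, `g` a polynomial of degree `d ≥ 1`, `hp g r = ∑_{i < r} g ^ (p ^ i)`, so that
`(hp g r).eval x` is the trace of `g x` to `ZMod p`.

* `hp_eval`: `FiniteField.algebraMap_trace_eq_sum_pow` (in `Mathlib/FieldTheory/Finite/Trace.lean`), `finrank (ZMod p) L = r`.
* `natDegree_hasse_hp`: for `k ≥ 1`: `natDegree (hasseDeriv k (hp g r)) ≤ (d - 1) k`. `hasseDeriv` is additive, so it is enough to treat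
  `g ^ (p ^ i)`. In `L[X][T]` (`Polynomial.taylor`, or: `taylor` over the polynomial ring; `hasseDeriv k g` is the coefficient of `T ^ k`
  of `g (X + T)`) one has `(g ^ (p ^ i)) (X + T) = (∑_l (hasseDeriv l g) T ^ l) ^ (p ^ i) = ∑_l (hasseDeriv l g) ^ (p ^ i) T ^ (l p ^ i)` (characteristic
  `p`), so `hasseDeriv k (g ^ (p ^ i))` is `0` if `p ^ i ∤ k` and `(hasseDeriv l g) ^ (p ^ i)` if `k = l p ^ i`.  Its degree is then
  `≤ (d - l) p ^ i ≤ (d - 1) p ^ i ≤ (d - 1) k` (`l ≥ 1`; it is `0` if `l > d`).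
  A proof without `T`: by induction on `i`, `hasseDeriv k (u ^ p) = 0` for `p ∤ k` and `= (hasseDeriv (k / p) u) ^ p` for `p ∣ k`, which follows
  by linearity and Frobenius additivity from monomials: `hasseDeriv_monomial`, `Nat.choose (p n) (p l) ≡ Nat.choose n l`,
  `Nat.choose (p n) k ≡ 0` mod `p` for `p ∤ k` (Lucas: `Choose.choose_modEq_choose_mod_mul_choose_div_nat`).
* `exists_hasse_pow_hp`: for `a : L` and all `i`, `k` there is `H` with `natDegree H ≤ (d - 1) k` and
  `hp - C a ∣ hasseDeriv k (hp ^ i) - H`. Induction on `i`: `i = 0`: `hasseDeriv k 1` is `1` (`k = 0`) or `0`: take it. Step: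
  `hasseDeriv_mul`: `hasseDeriv k (hp * hp ^ i) = ∑_{a' + b' = k} hasseDeriv a' hp * hasseDeriv b' (hp ^ i)`; the term `a' = 0` is
  `hp * hasseDeriv k (hp ^ i) ≡ C a * H_{i, k}`, the others have a first factor of degree `≤ (d - 1) a'`.
-/

set_option autoImplicit false

open Polynomial

namespace Pool.Agent.Helper78.AST

/-- `∑_{i < r} g ^ (p ^ i)`. -/
noncomputable def hp {L : Type} [Field L] (p : ℕ) (g : L[X]) (r : ℕ) : L[X] :=
  ∑ i ∈ Finset.range r, g ^ (p ^ i)

variable {L : Type} [Field L] (p : ℕ) [Fact p.Prime]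

theorem hp_eval [Fintype L] [Algebra (ZMod p) L] (g : L[X]) (x : L) :
    (hp p g (Module.finrank (ZMod p) L)).eval x =
      algebraMap (ZMod p) L (Algebra.trace (ZMod p) L (g.eval x)) := by
  rw [FiniteField.algebraMap_trace_eq_sum_pow, Nat.card_zmod]
  unfold hp
  rw [eval_finsetSum]
  simp only [eval_pow]

private theorem hasse_map_C {R : Type} [CommRing R] (g : R[X]) (k : ℕ) :
    hasseDeriv k (g.map (C : R →+* R[X])) = (hasseDeriv k g).map (C : R →+* R[X]) := by
  ext1 n
  rw [hasseDeriv_coeff, coeff_map, coeff_map, hasseDeriv_coeff, map_mul, map_natCast]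

private theorem hasse_eq_coeff {R : Type} [CommRing R] (g : R[X]) (k : ℕ) :
    hasseDeriv k g = (taylor (X : R[X]) (g.map (C : R →+* R[X]))).coeff k := by
  rw [taylor_coeff, hasse_map_C, eval_map, eval₂_C_X]

private theorem hasse_pow_char [CharP L p] (g : L[X]) (i k : ℕ) :
    hasseDeriv k (g ^ (p ^ i)) =
      if p ^ i ∣ k then (hasseDeriv (k / p ^ i) g) ^ (p ^ i) else 0 := by
  have hpp : p.Prime := Fact.out
  have : ExpChar L[X] p := ExpChar.prime hpp
  rw [hasse_eq_coeff, Polynomial.map_pow, taylor_pow, ← map_iterateFrobenius_expand p, coeff_map,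
    coeff_expand (pow_pos hpp.pos i)]
  split_ifs with h
  · rw [iterateFrobenius_def, ← hasse_eq_coeff]
  · exact map_zero _

theorem natDegree_hasse_hp [CharP L p] (g : L[X]) (hg : 1 ≤ g.natDegree) (r k : ℕ) (hk : 1 ≤ k) :
    (hasseDeriv k (hp p g r)).natDegree ≤ (g.natDegree - 1) * k := by
  have hpp : p.Prime := Fact.out
  unfold hp
  rw [map_sum]
  refine natDegree_sum_le_of_forall_le _ _ fun i _ => ?_
  rw [hasse_pow_char p g i k]
  split_ifs with h
  · obtain ⟨l, rfl⟩ := h
    have hpi : 0 < p ^ i := pow_pos hpp.pos i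
    rw [Nat.mul_div_cancel_left _ hpi]
    have hl : 1 ≤ l := by
      rcases Nat.eq_zero_or_pos l with h0 | h0
      · subst h0; simp at hk
      · exact h0
    refine natDegree_pow_le.trans ?_
    have h1 := natDegree_hasseDeriv_le g l
    calc p ^ i * (hasseDeriv l g).natDegree ≤ p ^ i * (g.natDegree - 1) :=
          Nat.mul_le_mul_left _ (h1.trans (Nat.sub_le_sub_left hl _))
      _ ≤ (g.natDegree - 1) * (p ^ i * l) := by
          rw [mul_comm]
          exact Nat.mul_le_mul_left _ (Nat.le_mul_of_pos_right _ hl)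
  · simp

theorem exists_hasse_pow_hp [CharP L p] (g : L[X]) (hg : 1 ≤ g.natDegree) (r : ℕ) (a : L) (i k : ℕ) :
    ∃ H : L[X], H.natDegree ≤ (g.natDegree - 1) * k ∧
      hp p g r - C a ∣ hasseDeriv k (hp p g r ^ i) - H := by
  induction i generalizing k with
  | zero =>
    rcases Nat.eq_zero_or_pos k with h0 | h0
    · subst h0
      exact ⟨1, by simp, by simp⟩
    · refine ⟨0, by simp, ?_⟩
      rw [pow_zero, hasseDeriv_apply_one k h0, sub_zero]
      exact dvd_zero _
  | succ i ih =>
    choose H hH1 hH2 using ih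
    refine ⟨∑ ij ∈ Finset.HasAntidiagonal.antidiagonal k,
      (if ij.1 = 0 then C a else hasseDeriv ij.1 (hp p g r)) * H ij.2, ?_, ?_⟩
    · refine natDegree_sum_le_of_forall_le _ _ fun ij hij => ?_
      rw [Finset.HasAntidiagonal.mem_antidiagonal] at hij
      refine natDegree_mul_le.trans ?_
      rw [← hij, mul_add]
      refine Nat.add_le_add ?_ (hH1 _)
      split_ifs with h
      · simp
      · exact natDegree_hasse_hp p g hg r ij.1 (Nat.one_le_iff_ne_zero.2 h)
    · rw [pow_succ', hasseDeriv_mul, ← Finset.sum_sub_distrib]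
      refine Finset.dvd_sum fun ij _ => ?_
      have e : hasseDeriv ij.1 (hp p g r) * hasseDeriv ij.2 (hp p g r ^ i) -
          (if ij.1 = 0 then C a else hasseDeriv ij.1 (hp p g r)) * H ij.2 =
          (hasseDeriv ij.1 (hp p g r) - (if ij.1 = 0 then C a else hasseDeriv ij.1 (hp p g r))) *
            hasseDeriv ij.2 (hp p g r ^ i) +
          (if ij.1 = 0 then C a else hasseDeriv ij.1 (hp p g r)) *
            (hasseDeriv ij.2 (hp p g r ^ i) - H ij.2) := by ring
      rw [e]
      refine dvd_add (Dvd.dvd.mul_right ?_ _) (Dvd.dvd.mul_left (hH2 _) _)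
      split_ifs with h
      · rw [h, hasseDeriv_zero']
      · rw [sub_self]
        exact dvd_zero _

end Pool.Agent.Helper78.AST
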