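import Pool.Agent.Helper78.AST.Defs
import Pool.Agent.Helper78.AST.Eigen

/-!
# AST-29 IntEigen: the eigenvalues are algebraic integers
-/

set_option autoImplicit false

open Polynomial

namespace Pool.Agent.Helper78.AST

theorem isIntegral_stdAddChar (p : ℕ) [Fact p.Prime] (t : ZMod p) : IsIntegral ℤ (ZMod.stdAddChar t : ℂ) := by
  have h : (ZMod.stdAddChar t : ℂ) ^ p = 1 := by
    rw [← AddChar.map_nsmul_eq_pow, nsmul_eq_mul]
    simp
  exact IsIntegral.of_pow (n := p) (Fact.out : p.Prime).pos (by rw [h]; exact isIntegral_one)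

theorem isIntegral_eigen (p : ℕ) [Fact p.Prime] (F : Type) [Field F] [Fintype F] [Algebra (ZMod p) F]
    (hp : p ≠ 2) (f : F[X]) (n : ℕ) (hn : f.natDegree = n + 1) (hpd : ¬ p ∣ n + 1)
    (c : (ZMod p)ˣ) (b : Fin n → ℂ) (hb : IsEigen p F f (c : ZMod p) b) (i : Fin n) :
    IsIntegral ℤ (b i) := by
  classical
  have hl := (isEigen_iff p F hp f n hn hpd c b).1 hb
  have hc : ∀ k, IsIntegral ℤ (lsum f (psi p F c) k) := by
    intro k
    refine IsIntegral.sum _ fun e _ => ?_
    exact isIntegral_stdAddChar p _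
  let A := integralClosure ℤ ℂ
  let P : A[X] := ∑ k ∈ Finset.range (n + 1), C (⟨lsum f (psi p F c) k, hc k⟩ : A) * X ^ (n - k)
  have hP : P.map (algebraMap A ℂ) = lpoly f (psi p F c) n := by
    simp only [P, lpoly, Polynomial.map_sum, Polynomial.map_mul, Polynomial.map_C, Polynomial.map_pow,
      Polynomial.map_X]
    rfl
  have hmon : P.Monic := by
    refine Polynomial.monic_of_injective (f := algebraMap A ℂ) Subtype.val_injective ?_
    rw [hP]
    exact (lpoly_monic F f _ n).1
  have hroot : IsIntegral A (b i) := by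
    refine ⟨P, hmon, ?_⟩
    rw [← Polynomial.eval_map, hP, ← hl, Polynomial.eval_prod]
    refine Finset.prod_eq_zero (Finset.mem_univ i) ?_
    simp
  exact isIntegral_trans (A := A) (b i) hroot

end Pool.Agent.Helper78.AST
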