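import Mathlib

/-!
# AST-23 Kron: Kronecker's theorem and the embeddings of a Galois field in `ℂ` (short, Mathlib only)

* `kron`: `NumberField.Embeddings.pow_eq_one_of_norm_eq_one`: every ring homomorphism `φ : L →+* ℂ` is `x ↦ (γ x : ℂ)` for some `γ : L ≃ₐ[ℚ] L` (`L` normal:
  `AlgHom.restrictNormal'`/`Normal.algHomEquivAut`; `φ` is a `ℚ`-algebra homomorphism).
* `conjL`: complex conjugation preserves `L` (`Complex.conjAe` over `ℚ`; `AlgEquiv.restrictNormal`).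
* `restrictL`: the same for every ring automorphism `s` of `ℂ` (a `ℚ`-algebra automorphism).
-/

set_option autoImplicit false

namespace Pool.Agent.Helper78.AST

variable (L : IntermediateField ℚ ℂ) [FiniteDimensional ℚ L] [IsGalois ℚ L]

theorem kron (x : L) (hi : IsIntegral ℤ x) (h : ∀ γ : L ≃ₐ[ℚ] L, ‖((γ x : L) : ℂ)‖ = 1) :
    ∃ k : ℕ, 0 < k ∧ x ^ k = 1 := by
  have : NumberField L := ⟨⟩
  obtain ⟨n, hn, hx⟩ := NumberField.Embeddings.pow_eq_one_of_norm_eq_one (K := L) ℂ hi (fun φ => by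
    have h1 : (Normal.algHomEquivAut ℚ ℂ L).symm (Normal.algHomEquivAut ℚ ℂ L φ.toRatAlgHom) =
        φ.toRatAlgHom := Equiv.symm_apply_apply _ _
    have h2 : φ x = (((Normal.algHomEquivAut ℚ ℂ L φ.toRatAlgHom) x : L) : ℂ) := by
      have h3 := DFunLike.congr_fun h1 x
      exact h3.symm
    rw [h2]
    exact h _)
  exact ⟨n, hn, hx⟩

theorem restrictL (s : ℂ ≃+* ℂ) : ∃ γ : L ≃ₐ[ℚ] L, ∀ x : L, ((γ x : L) : ℂ) = s (x : ℂ) := by
  let t : ℂ ≃ₐ[ℚ] ℂ := AlgEquiv.ofRingEquiv (f := s) (fun r => by simp)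
  exact ⟨t.restrictNormal L, fun x => t.restrictNormal_commutes L x⟩

theorem conjL : ∃ ι : L ≃ₐ[ℚ] L, ∀ x : L, ((ι x : L) : ℂ) = (starRingEnd ℂ) (x : ℂ) := by
  obtain ⟨γ, hγ⟩ := restrictL L (starRingAut : ℂ ≃+* ℂ)
  exact ⟨γ, fun x => by rw [hγ x]; rfl⟩

end Pool.Agent.Helper78.AST
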