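import Mathlib

/-!
# AST: definitions for the L-function of `ψ(f)`

For `e : Fin n → F` put `rs e = 1 + ∑ e_i X ^ (i + 1)` (the reversed polynomial of the monic polynomial
`mon e = X ^ n + ∑ e_i X ^ (n - 1 - i)`), `ps R = - X R' / R` (the generating series of the power sums
of the roots of the monic polynomial) and `phi f n R = n f_0 + ∑_{k ≥ 1} f_k [X ^ k] ps R` (the sum of the
values of `f` at the roots).  `lsum f ψ n` is the `n`-th coefficient of the L-function, `wp f` is the
reversed polynomial of `X f'` and `crit f n` are the coefficients of the reversed polynomial of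
`f' / (d lead f)`, `d = deg f = n + 1`.
-/

set_option autoImplicit false

open Polynomial PowerSeries

namespace Pool.Agent.Helper78.AST

variable {F : Type} [Field F]

/-- `1 + ∑ e_i X ^ (i + 1)`. -/
noncomputable def rs {n : ℕ} (e : Fin n → F) : F⟦X⟧ :=
  1 + ∑ i : Fin n, PowerSeries.C (e i) * (PowerSeries.X : F⟦X⟧) ^ ((i : ℕ) + 1)

/-- The monic polynomial with the reversed polynomial `rs e`. -/
noncomputable def mon {n : ℕ} (e : Fin n → F) : F[X] :=
  Polynomial.X ^ n + ∑ i : Fin n, Polynomial.C (e i) * Polynomial.X ^ (n - 1 - (i : ℕ))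

/-- `- X R' / R`. -/
noncomputable def ps (R : F⟦X⟧) : F⟦X⟧ := -(PowerSeries.X * (PowerSeries.derivative F R) * R⁻¹)

/-- The sum of the values of `f` at the roots of a monic polynomial of degree `n` with reversed polynomial `R`. -/
noncomputable def phi (f : F[X]) (n : ℕ) (R : F⟦X⟧) : F :=
  (n : F) * f.coeff 0 + ∑ k ∈ Finset.Icc 1 f.natDegree, f.coeff k * PowerSeries.coeff k (ps R)

/-- The reversed polynomial of `X f'`: `∑ k f_k X ^ (d - k)`, `d = deg f`. -/
noncomputable def wp (f : F[X]) : F⟦X⟧ :=
  ∑ k ∈ Finset.range (f.natDegree + 1),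
    PowerSeries.C ((k : F) * f.coeff k) * (PowerSeries.X : F⟦X⟧) ^ (f.natDegree - k)

/-- The coefficients of the reversed polynomial of `f' / (d lead f)`. -/
noncomputable def crit (f : F[X]) (n : ℕ) : Fin n → F :=
  fun i => PowerSeries.coeff ((i : ℕ) + 1) (wp f) / ((f.natDegree : F) * f.leadingCoeff)

/-- The `n`-th coefficient of the L-function of `ψ(f)`. -/
noncomputable def lsum [Fintype F] (f : F[X]) (ψ : AddChar F ℂ) (n : ℕ) : ℂ :=
  ∑ e : Fin n → F, ψ (phi f n (rs e))

/-- The sum over the monic polynomials of degree `n` of `χ`. -/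
noncomputable def asum [Fintype F] (χ : F[X] → ℂ) (n : ℕ) : ℂ := ∑ e : Fin n → F, χ (mon e)

open Classical in
/-- `∑ deg π χ(π) ^ (k / deg π)`, the sum over the monic irreducible `π` of degree dividing `k`. -/
noncomputable def ssum [Fintype F] (χ : F[X] → ℂ) (k : ℕ) : ℂ :=
  ∑ d ∈ Nat.divisors k, (d : ℂ) *
    ∑ e ∈ (Finset.univ : Finset (Fin d → F)).filter (fun e => Irreducible (mon e)), χ (mon e) ^ (k / d)

/-- `phi` of a polynomial. -/
noncomputable def phiP (f E : F[X]) : F := phi f E.natDegree ((E.reverse : F[X]) : F⟦X⟧)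

/-- The additive character `a ↦ e(c Tr a / p)` of `F`. -/
noncomputable def psi (p : ℕ) [NeZero p] (F : Type) [Field F] [Algebra (ZMod p) F] (c : ZMod p) :
    AddChar F ℂ where
  toFun a := ZMod.stdAddChar (c * Algebra.trace (ZMod p) F a)
  map_zero_eq_one' := by simp
  map_add_eq_mul' a b := by simp [mul_add, AddChar.map_add_eq_mul]

end Pool.Agent.Helper78.AST
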