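import Pool.Agent.Helper78.AST.IntEigen
import Pool.Agent.Helper78.AST.FrameEx
import Pool.Agent.Helper78.AST.ClosureRel
import Pool.Agent.Helper78.AST.CaseA
import Pool.Agent.Helper78.AST.CaseB

/-!
# AST-38 Main: the relations (assembly; helper78)
-/

set_option autoImplicit false

open Polynomial

namespace Pool.Agent.Helper78.AST

variable (p : ℕ) [Fact p.Prime] (F : Type) [Field F] [Fintype F] [Algebra (ZMod p) F]

theorem exists_data (hp : p ≠ 2) {J : Type} [Fintype J] (n : ℕ) (f : J → F[X]) (hdeg : ∀ j, (f j).natDegree = n + 1)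
    (hpd : ¬ p ∣ n + 1) (b : (J × (ZMod p)ˣ) × Fin n → ℂ)
    (hb : ∀ (j : J) (c : (ZMod p)ˣ), IsEigen p F (f j) (c : ZMod p) (fun i => b ((j, c), i))) :
    ∃ (L : IntermediateField ℚ ℂ) (_ : FiniteDimensional ℚ L) (_ : IsGalois ℚ L) (D : Data p F n f L),
      ∀ x, (D.β x : ℂ) = b x := by
  classical
  have hint : ∀ x, IsIntegral ℤ (b x) := by
    rintro ⟨⟨j, c⟩, i⟩
    exact isIntegral_eigen p F hp (f j) n (hdeg j) hpd c _ (hb j c) i
  obtain ⟨L, h1, h2, h3⟩ := exists_field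
    (insert (ZMod.stdAddChar (1 : ZMod p) : ℂ) (Finset.univ.image b)) (by
      intro z hz
      rw [Finset.mem_insert, Finset.mem_image] at hz
      rcases hz with rfl | ⟨x, _, rfl⟩
      · exact (isIntegral_stdAddChar p 1).tower_top
      · exact (hint x).tower_top)
  have hz : (ZMod.stdAddChar (1 : ZMod p) : ℂ) ∈ L := h3 _ (Finset.mem_insert_self _ _)
  have hbL : ∀ x, b x ∈ L := fun x =>
    h3 _ (Finset.mem_insert_of_mem (Finset.mem_image_of_mem _ (Finset.mem_univ x)))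
  let ζ : L := ⟨_, hz⟩
  obtain ⟨fr⟩ := exists_frame p L ζ (isPrimitiveRoot_zeta L ζ rfl)
  refine ⟨L, h1, h2, ⟨hp, hdeg, hpd, ζ, rfl, fun x => ⟨b x, hbL x⟩, hb, fr⟩, fun x => rfl⟩

theorem isRel_block {J : Type} [Fintype J] [DecidableEq J] {n : ℕ} {f : J → F[X]} {L : IntermediateField ℚ ℂ}
    [FiniteDimensional ℚ L] [IsGalois ℚ L] (D : Data p F n f L) (a : J × (ZMod p)ˣ) (ν : D.NN) :
    ∑ x, (block a : (J × (ZMod p)ˣ) × Fin n → ℤ) x * D.φ x ν = 0 := by
  rw [Fintype.sum_prod_type]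
  rw [Finset.sum_eq_single a]
  · simp only [block, if_true, one_mul]
    obtain ⟨j, c⟩ := a
    exact D.sum_zero j c ν
  · intro b _ hb
    refine Finset.sum_eq_zero fun i _ => ?_
    simp [block, hb]
  · intro h
    exact absurd (Finset.mem_univ a) h

theorem relations (hp : p ≠ 2) {J : Type} [Fintype J] [DecidableEq J] (n : ℕ) (f : J → F[X])
    (hdeg : ∀ j, (f j).natDegree = n + 1) (hpd : ¬ p ∣ n + 1) (b : (J × (ZMod p)ˣ) × Fin n → ℂ)
    (hb : ∀ (j : J) (c : (ZMod p)ˣ), IsEigen p F (f j) (c : ZMod p) (fun i => b ((j, c), i)))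
    (h : (n ≤ 3 ∧ SameSlope p F f) ∨ (TwoTransitive p b ∧ Independent p b))
    (m : (J × (ZMod p)ˣ) × Fin n → ℤ) :
    IsRel (Fintype.card F) b m ↔ m ∈ AddSubgroup.closure (shortRels (Fintype.card F) b) := by
  classical
  obtain ⟨L, h1, h2, D, hD⟩ := exists_data p F hp n f hdeg hpd b hb
  obtain rfl : b = fun x => (D.β x : ℂ) := funext fun x => (hD x).symm
  have : Fintype D.NN := Fintype.ofFinite _
  have hcase : (∀ b b' : J × (ZMod p)ˣ, Equi (fun i => D.φ (b, i)) (fun i => D.φ (b', i)) ∨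
      Orth (fun i => D.φ (b, i)) (fun i => D.φ (b', i))) ∧
    ∀ (b : J × (ZMod p)ˣ) (t : Fin n → ℤ), (∀ ν, ∑ i, t i * D.φ (b, i) ν = 0) →
      t ∈ AddSubgroup.closure (oneGen (fun i => D.φ (b, i))) := by
    rcases h with ⟨h3, hs⟩ | ⟨ht, hi⟩
    · exact D.caseA h3 hs
    · exact D.caseB ht hi
  have hgen : phiGen D.φ = shortRels (Fintype.card F) (fun x => (D.β x : ℂ)) := by
    ext m'
    simp only [phiGen, shortRels, Set.mem_ofPred_eq, D.rel_iff]
  constructor
  · intro hm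
    rw [D.rel_iff] at hm
    rw [← hgen]
    exact closure_rel D.φ hcase.1 hcase.2 m hm
  · intro hm
    rw [D.rel_iff]
    rw [← hgen] at hm
    refine AddSubgroup.closure_induction (p := fun m _ => ∀ ν : D.NN, ∑ x, m x * D.φ x ν = 0) ?_ ?_ ?_ ?_ hm
    · rintro m' (⟨hm', _⟩ | ⟨a, rfl⟩) ν
      · exact hm' ν
      · exact isRel_block p F D a ν
    · intro ν
      simp
    · intro m₁ m₂ _ _ h₁ h₂ ν
      simp only [Pi.add_apply, add_mul, Finset.sum_add_distrib, h₁ ν, h₂ ν, add_zero]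
    · intro m₁ _ h₁ ν
      simp only [Pi.neg_apply, neg_mul, Finset.sum_neg_distrib, h₁ ν, neg_zero]

end Pool.Agent.Helper78.AST
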