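import Pool.Agent.Helper78.AST.LDefs

/-!
# AST-05 Mon: monic polynomials and their reversed polynomials (short)

* `mon_monic`, `mon_natDegree`: `mon e = X ^ n + (terms of degree < n)` (`Polynomial.monic_X_pow_add`, the sum has degree `< n`:
  `Polynomial.degree_sum_fin_lt`-like after reversing, or `Polynomial.degree_sum_le`...; for `n = 0` the sum is empty).
* `mon_injective`, `mon_surjective`: the coefficient of `mon e` at `n - 1 - i` is `e i`; a monic `E` of degree `n` is
  `mon (fun i => E.coeff (n - 1 - i))` (`Polynomial.ext`; `Fin.revPerm`/`Finset.sum_range` if convenient).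
* `reverse_mon`: the coefficient of `(mon e).reverse` at `k` is `(mon e).coeff (n - k)` for `k ≤ n`, `0` for `k > n`
  (`Polynomial.coeff_reverse`, `Polynomial.revAt_le`). Compare with `rs e`: coefficient at `0`: `1`, at `i + 1 ≤ n`: `e i`.
-/

set_option autoImplicit false

open Polynomial PowerSeries

namespace Pool.Agent.Helper78.AST

variable {F : Type} [Field F]

private theorem mon_tail_coeff {n : ℕ} (e : Fin n → F) {k : ℕ} (hk : k < n) :
    (∑ i : Fin n, Polynomial.C (e i) * Polynomial.X ^ (n - 1 - (i : ℕ)) : F[X]).coeff k =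
      e ⟨n - 1 - k, by omega⟩ := by
  rw [Polynomial.finsetSum_coeff, Finset.sum_eq_single (⟨n - 1 - k, by omega⟩ : Fin n)]
  · rw [Polynomial.coeff_C_mul_X_pow, if_pos (by simp only []; omega)]
  · intro i _ hi
    rw [Polynomial.coeff_C_mul_X_pow, if_neg]
    intro h
    apply hi
    apply Fin.ext
    have := i.2
    simp only []
    omega
  · intro h
    exact absurd (Finset.mem_univ _) h

private theorem mon_tail_coeff_ge {n : ℕ} (e : Fin n → F) {k : ℕ} (hk : n ≤ k) :
    (∑ i : Fin n, Polynomial.C (e i) * Polynomial.X ^ (n - 1 - (i : ℕ)) : F[X]).coeff k = 0 := by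
  rw [Polynomial.finsetSum_coeff]
  refine Finset.sum_eq_zero fun i _ => ?_
  rw [Polynomial.coeff_C_mul_X_pow, if_neg]
  have := i.2
  omega

private theorem mon_tail_degree {n : ℕ} (e : Fin n → F) :
    (∑ i : Fin n, Polynomial.C (e i) * Polynomial.X ^ (n - 1 - (i : ℕ)) : F[X]).degree < n :=
  (Polynomial.degree_lt_iff_coeff_zero _ _).2 fun _ hm => mon_tail_coeff_ge e hm

private theorem mon_coeff_lt {n : ℕ} (e : Fin n → F) {k : ℕ} (hk : k < n) :
    (mon e).coeff k = e ⟨n - 1 - k, by omega⟩ := by
  rw [mon, Polynomial.coeff_add, Polynomial.coeff_X_pow, if_neg (by omega), zero_add,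
    mon_tail_coeff e hk]

private theorem mon_coeff_self {n : ℕ} (e : Fin n → F) : (mon e).coeff n = 1 := by
  rw [mon, Polynomial.coeff_add, Polynomial.coeff_X_pow, if_pos rfl, mon_tail_coeff_ge e le_rfl,
    add_zero]

private theorem mon_coeff_gt {n : ℕ} (e : Fin n → F) {k : ℕ} (hk : n < k) : (mon e).coeff k = 0 := by
  rw [mon, Polynomial.coeff_add, Polynomial.coeff_X_pow, if_neg (by omega), zero_add,
    mon_tail_coeff_ge e hk.le]

theorem mon_monic {n : ℕ} (e : Fin n → F) : (mon e).Monic :=
  Polynomial.monic_X_pow_add (mon_tail_degree e)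

theorem mon_natDegree {n : ℕ} (e : Fin n → F) : (mon e).natDegree = n := by
  refine Polynomial.natDegree_eq_of_le_of_coeff_ne_zero ?_ ?_
  · exact Polynomial.natDegree_le_iff_coeff_eq_zero.2 fun k hk => mon_coeff_gt e hk
  · rw [mon_coeff_self]
    exact one_ne_zero

theorem mon_injective {n : ℕ} : Function.Injective (mon : (Fin n → F) → F[X]) := by
  intro e e' h
  funext i
  have hi := i.2
  have h1 : (mon e).coeff (n - 1 - (i : ℕ)) = (mon e').coeff (n - 1 - (i : ℕ)) := by rw [h]
  rw [mon_coeff_lt e (by omega), mon_coeff_lt e' (by omega)] at h1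
  have h2 : (⟨n - 1 - (n - 1 - (i : ℕ)), by omega⟩ : Fin n) = i := by
    apply Fin.ext
    simp only []
    omega
  rwa [h2] at h1

theorem mon_surjective (E : F[X]) (hE : E.Monic) : ∃ e : Fin E.natDegree → F, mon e = E := by
  refine ⟨fun i => E.coeff (E.natDegree - 1 - (i : ℕ)), Polynomial.ext fun k => ?_⟩
  rcases lt_trichotomy k E.natDegree with hk | hk | hk
  · rw [mon_coeff_lt _ hk]
    congr 1
    simp only []
    omega
  · rw [hk, mon_coeff_self]
    exact hE.coeff_natDegree.symm
  · rw [mon_coeff_gt _ hk]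
    exact (Polynomial.coeff_eq_zero_of_natDegree_lt hk).symm

theorem reverse_mon {n : ℕ} (e : Fin n → F) : (((mon e).reverse : F[X]) : F⟦X⟧) = rs e := by
  ext k
  rw [Polynomial.coeff_coe, Polynomial.coeff_reverse, mon_natDegree]
  have hrs : (PowerSeries.coeff k) (rs e) = (if k = 0 then (1 : F) else 0) +
      ∑ i : Fin n, e i * (if k = (i : ℕ) + 1 then 1 else 0) := by
    rw [rs, map_add, map_sum, PowerSeries.coeff_one]
    congr 1
    refine Finset.sum_congr rfl fun i _ => ?_
    rw [PowerSeries.coeff_C_mul, PowerSeries.coeff_X_pow]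
  rw [hrs]
  rcases Nat.eq_zero_or_pos k with hk | hk
  · subst hk
    rw [Polynomial.revAt_le (Nat.zero_le n), Nat.sub_zero, mon_coeff_self, if_pos rfl]
    have h0 : ∑ i : Fin n, e i * (if 0 = (i : ℕ) + 1 then (1 : F) else 0) = 0 := by
      refine Finset.sum_eq_zero fun i _ => ?_
      rw [if_neg (by omega), mul_zero]
    rw [h0, add_zero]
  · rw [if_neg (by omega), zero_add]
    by_cases hkn : k ≤ n
    · rw [Polynomial.revAt_le hkn, mon_coeff_lt e (by omega)]
      rw [Finset.sum_eq_single (⟨n - 1 - (n - k), by omega⟩ : Fin n)]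
      · rw [if_pos (by simp only []; omega), mul_one]
      · intro i _ hi
        rw [if_neg, mul_zero]
        intro h
        apply hi
        apply Fin.ext
        have := i.2
        simp only []
        omega
      · intro h
        exact absurd (Finset.mem_univ _) h
    · push Not at hkn
      rw [Polynomial.revAt_eq_self_of_lt hkn, mon_coeff_gt e hkn]
      symm
      refine Finset.sum_eq_zero fun i _ => ?_
      have := i.2
      rw [if_neg (by omega), mul_zero]

end Pool.Agent.Helper78.AST
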