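import Pool.Agent.Helper78.AST.LDefs

/-!
# AST-01 Perturb: the change of `phi` when the reversed polynomial changes (short)

Write `d = f.natDegree`, `R⁻¹` for the inverse power series (`constantCoeff R = 1`), `g = h * R⁻¹`, so `X ^ (m + 1) ∣ g` and
`R + h = R * (1 + g)`.

1. `ps (A * B) = ps A + ps B` if `constantCoeff A = constantCoeff B = 1` (`Derivation.leibniz`, `PowerSeries.mul_inv_cancel`).
   Hence `ps (R + h) = ps R + ps (1 + g)`, `ps (1 + g) = - X g' (1 + g)⁻¹`.
2. `(1 + g)⁻¹ = 1 - g + g ^ 2 (1 + g)⁻¹`. So `ps (1 + g) = - X g' + X g g' - X g' g ^ 2 (1 + g)⁻¹`, and the last term is divisible by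
   `X * X ^ m * X ^ (2 m + 2) = X ^ (3 m + 3)` (`X ^ m ∣ g'`: write `g = X ^ (m + 1) u`); its coefficients at `k ≤ d ≤ 2 m + 2` vanish.
3. `coeff k (X g') = k coeff k g`; `X g g' = X (C (1/2) g ^ 2)'`, so `coeff k (X g g') = k coeff k (C (1/2) * g ^ 2)` (`(2 : F) ≠ 0`).
   Hence for `k ≤ d`: `coeff k (ps (R + h)) = coeff k (ps R) + k coeff k (- g + C (1/2) * g ^ 2)`.
4. For every `u`: `coeff d (wp f * u) = ∑_{k = 0}^{d} k f_k coeff k u` (`coeff_X_pow_mul'`); the term `k = 0` is `0`.
   So `phi f n (R + h) - phi f n R = coeff d (wp f * (- g + C (1/2) g ^ 2))`.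
5. `X ^ (2 m + 2) ∣ g ^ 2`: if `d < 2 m + 2`, `coeff d (wp f * (C (1/2) g ^ 2)) = 0`. If `d = 2 m + 2` it is
   `coeff 0 (wp f) * (1/2) * coeff (2 m + 2) (g ^ 2) = d f_d / 2 * (coeff (m + 1) g) ^ 2` and `coeff (m + 1) g = coeff (m + 1) h`
   since `constantCoeff R⁻¹ = 1` (write `h = X ^ (m + 1) h'`, so all these are constant coefficients).
-/

set_option autoImplicit false

open Polynomial PowerSeries

namespace Pool.Agent.Helper78.AST

variable {F : Type} [Field F]

theorem ps_mul (A B : F⟦X⟧) (hA : PowerSeries.constantCoeff A = 1) (hB : PowerSeries.constantCoeff B = 1) :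
    ps (A * B) = ps A + ps B := by
  have hA0 : PowerSeries.constantCoeff A ≠ 0 := by rw [hA]; exact one_ne_zero
  have hB0 : PowerSeries.constantCoeff B ≠ 0 := by rw [hB]; exact one_ne_zero
  have h1 : A * A⁻¹ = 1 := PowerSeries.mul_inv_cancel A hA0
  have h2 : B * B⁻¹ = 1 := PowerSeries.mul_inv_cancel B hB0
  unfold ps
  rw [Derivation.leibniz, PowerSeries.mul_inv_rev, smul_eq_mul, smul_eq_mul]
  linear_combination (-(PowerSeries.X * (PowerSeries.derivative F B) * B⁻¹)) * h1 -
    (PowerSeries.X * (PowerSeries.derivative F A) * A⁻¹) * h2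

theorem coeff_wp_mul (f : F[X]) (u : F⟦X⟧) :
    PowerSeries.coeff f.natDegree (wp f * u) =
      ∑ k ∈ Finset.Icc 1 f.natDegree, (k : F) * f.coeff k * PowerSeries.coeff k u := by
  unfold wp
  rw [Finset.sum_mul, map_sum]
  have h1 : ∀ k ∈ Finset.range (f.natDegree + 1),
      PowerSeries.coeff f.natDegree (PowerSeries.C ((k : F) * f.coeff k) *
        (PowerSeries.X : F⟦X⟧) ^ (f.natDegree - k) * u) =
        (k : F) * f.coeff k * PowerSeries.coeff k u := by
    intro k hk
    have hk' : k ≤ f.natDegree := Nat.lt_succ_iff.mp (Finset.mem_range.mp hk)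
    rw [mul_assoc, PowerSeries.coeff_C_mul, PowerSeries.coeff_X_pow_mul',
      if_pos (Nat.sub_le _ _), Nat.sub_sub_self hk']
  rw [Finset.sum_congr rfl h1]
  symm
  apply Finset.sum_subset
  · intro k hk
    rw [Finset.mem_Icc] at hk
    rw [Finset.mem_range]
    omega
  · intro k hk hk'
    rw [Finset.mem_range] at hk
    rw [Finset.mem_Icc] at hk'
    have : k = 0 := by omega
    subst this
    simp

private theorem coeff_X_deriv (v : F⟦X⟧) (k : ℕ) :
    PowerSeries.coeff k (PowerSeries.X * PowerSeries.derivative F v) =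
      (k : F) * PowerSeries.coeff k v := by
  cases k with
  | zero => simp
  | succ k =>
    rw [PowerSeries.coeff_succ_X_mul, PowerSeries.coeff_derivative]
    push_cast
    ring

private theorem coeff_ps_one_add (g u : F⟦X⟧) (m k : ℕ) (hk : k ≤ 2 * m + 2) (h2 : (2 : F) ≠ 0)
    (hg : g = PowerSeries.X ^ (m + 1) * u) :
    PowerSeries.coeff k (ps (1 + g)) =
      (k : F) * PowerSeries.coeff k (-g + PowerSeries.C (1 / 2 : F) * g ^ 2) := by
  have hc : PowerSeries.constantCoeff g = 0 := by
    rw [hg, map_mul, map_pow, PowerSeries.constantCoeff_X]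
    simp
  have hc1 : PowerSeries.constantCoeff (1 + g) ≠ 0 := by
    rw [map_add, hc, map_one, add_zero]; exact one_ne_zero
  have h1 : (1 + g) * (1 + g)⁻¹ = 1 := PowerSeries.mul_inv_cancel _ hc1
  have hd1 : PowerSeries.derivative F (1 + g) = PowerSeries.derivative F g := by
    rw [map_add, Derivation.map_one_eq_zero, zero_add]
  have hC : PowerSeries.C (1 / 2 : F) * (2 : F⟦X⟧) = 1 := by
    have : (2 : F⟦X⟧) = PowerSeries.C (2 : F) := (map_ofNat (PowerSeries.C (R := F)) 2).symm
    rw [this, ← map_mul, one_div, inv_mul_cancel₀ h2, map_one]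
  have hdC : PowerSeries.derivative F (PowerSeries.C (1 / 2 : F)) = 0 :=
    PowerSeries.derivative_C
  have hd2 : PowerSeries.derivative F (-g + PowerSeries.C (1 / 2 : F) * g ^ 2) =
      - PowerSeries.derivative F g + g * PowerSeries.derivative F g := by
    rw [map_add, map_neg, Derivation.leibniz, hdC, Derivation.leibniz_pow]
    simp only [smul_eq_mul, nsmul_eq_mul, mul_zero, add_zero]
    norm_num only [pow_one]
    linear_combination (g * PowerSeries.derivative F g) * hC
  have hdg : PowerSeries.derivative F g = PowerSeries.X ^ m *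
      (((m + 1 : ℕ) : F⟦X⟧) * u + PowerSeries.X * PowerSeries.derivative F u) := by
    rw [hg, Derivation.leibniz, Derivation.leibniz_pow, PowerSeries.derivative_X]
    simp only [smul_eq_mul, nsmul_eq_mul, Nat.add_sub_cancel]
    ring
  have hps : ps (1 + g) =
      PowerSeries.X * PowerSeries.derivative F (-g + PowerSeries.C (1 / 2 : F) * g ^ 2) -
      PowerSeries.X ^ (3 * m + 3) * ((((m + 1 : ℕ) : F⟦X⟧) * u +
        PowerSeries.X * PowerSeries.derivative F u) * u ^ 2 * (1 + g)⁻¹) := by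
    have e1 : PowerSeries.X * PowerSeries.derivative F g * g ^ 2 * (1 + g)⁻¹ =
        PowerSeries.X ^ (3 * m + 3) * ((((m + 1 : ℕ) : F⟦X⟧) * u +
        PowerSeries.X * PowerSeries.derivative F u) * u ^ 2 * (1 + g)⁻¹) := by
      rw [hdg]
      nth_rewrite 1 [hg]
      ring
    rw [← e1, hd2]
    unfold ps
    rw [hd1]
    linear_combination (-(PowerSeries.X * PowerSeries.derivative F g * (1 - g))) * h1
  rw [hps, map_sub, coeff_X_deriv, PowerSeries.coeff_X_pow_mul', if_neg (by omega), sub_zero]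

theorem phi_add (f : F[X]) (m n : ℕ) (hm : f.natDegree ≤ 2 * m + 2) (h2 : (2 : F) ≠ 0) (R h : F⟦X⟧)
    (hR : PowerSeries.constantCoeff R = 1) (hh : (PowerSeries.X : F⟦X⟧) ^ (m + 1) ∣ h) :
    phi f n (R + h) = phi f n R - PowerSeries.coeff f.natDegree (wp f * (h * R⁻¹)) +
      (if f.natDegree = 2 * m + 2 then
        (f.natDegree : F) * f.leadingCoeff / 2 * (PowerSeries.coeff (m + 1) h) ^ 2 else 0) := by
  obtain ⟨h', hh'⟩ := hh
  have hR0 : PowerSeries.constantCoeff R ≠ 0 := by rw [hR]; exact one_ne_zero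
  have hRR : R * R⁻¹ = 1 := PowerSeries.mul_inv_cancel R hR0
  have hg : h * R⁻¹ = PowerSeries.X ^ (m + 1) * (h' * R⁻¹) := by rw [hh']; ring
  have hsplit : R + h = R * (1 + h * R⁻¹) := by
    linear_combination (-h) * hRR
  have hc : PowerSeries.constantCoeff (1 + h * R⁻¹) = 1 := by
    rw [map_add, hg, map_mul, map_pow, PowerSeries.constantCoeff_X]
    simp
  have hps : ps (R + h) = ps R + ps (1 + h * R⁻¹) := by
    rw [hsplit, ps_mul R _ hR hc]
  have hcoeff : PowerSeries.coeff (m + 1) h = PowerSeries.constantCoeff (h' * R⁻¹) := by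
    rw [map_mul, PowerSeries.constantCoeff_inv, hR, inv_one, mul_one, hh',
      PowerSeries.coeff_X_pow_mul', if_pos le_rfl, Nat.sub_self,
      PowerSeries.coeff_zero_eq_constantCoeff_apply]
  have hmain : phi f n (R + h) = phi f n R +
      PowerSeries.coeff f.natDegree (wp f * (-(h * R⁻¹) +
        PowerSeries.C (1 / 2 : F) * (h * R⁻¹) ^ 2)) := by
    rw [coeff_wp_mul]
    unfold phi
    rw [add_assoc, ← Finset.sum_add_distrib]
    congr 1
    apply Finset.sum_congr rfl
    intro k hk
    rw [Finset.mem_Icc] at hk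
    rw [hps, map_add, coeff_ps_one_add _ _ m k (by omega) h2 hg]
    ring
  have hsq : PowerSeries.coeff f.natDegree (wp f * (PowerSeries.C (1 / 2 : F) * (h * R⁻¹) ^ 2)) =
      (if f.natDegree = 2 * m + 2 then
        (f.natDegree : F) * f.leadingCoeff / 2 * (PowerSeries.coeff (m + 1) h) ^ 2 else 0) := by
    have hsq1 : (h * R⁻¹) ^ 2 = PowerSeries.X ^ (2 * m + 2) * (h' * R⁻¹) ^ 2 := by
      rw [hg]; ring
    have hlow : ∀ k : ℕ, k < 2 * m + 2 →
        PowerSeries.coeff k (PowerSeries.C (1 / 2 : F) * (h * R⁻¹) ^ 2) = 0 := by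
      intro k hk
      rw [PowerSeries.coeff_C_mul, hsq1, PowerSeries.coeff_X_pow_mul', if_neg (by omega), mul_zero]
    rw [coeff_wp_mul]
    split_ifs with hd
    · rw [Finset.sum_eq_single (2 * m + 2)]
      · rw [PowerSeries.coeff_C_mul, hsq1, PowerSeries.coeff_X_pow_mul', if_pos le_rfl,
          Nat.sub_self, PowerSeries.coeff_zero_eq_constantCoeff_apply, map_pow, ← hcoeff, hd,
          Polynomial.leadingCoeff, hd]
        ring
      · intro k hk hk'
        rw [Finset.mem_Icc] at hk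
        rw [hlow k (by omega), mul_zero]
      · intro hk
        exact absurd (Finset.mem_Icc.mpr ⟨by omega, by omega⟩) hk
    · apply Finset.sum_eq_zero
      intro k hk
      rw [Finset.mem_Icc] at hk
      rw [hlow k (by omega), mul_zero]
  rw [hmain, mul_add, map_add, hsq, mul_neg, map_neg]
  ring

end Pool.Agent.Helper78.AST
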