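import Pool.Agent.Helper78.AST.Perturb
import Pool.Agent.Helper78.AST.Mon

/-!
# AST-06 PhiP: the sum of the values of `f` at the roots

* `phiP_mon`: `phiP f (mon e) = phi f n (rs e)` (`mon_natDegree`, `reverse_mon`).
* `phiP_mul`: for monic `E`, `E'`: `natDegree (E E') = natDegree E + natDegree E'`, `reverse (E E') = reverse E * reverse E'`
  (`Polynomial.reverse_mul_of_domain`), the constant coefficients of the reversed polynomials are the leading coefficients `1`
  (`Polynomial.coeff_zero_reverse`), so `ps_mul` gives the result.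
* `phiP_X_sub_C`: `reverse (X - C a) = 1 - C a * X` (directly, or `X - C a = mon (fun _ : Fin 1 => - a)` and `reverse_mon`),
  `(1 - C a X)⁻¹ = ∑ a ^ k X ^ k` (`PowerSeries.mk`), so `ps = a X ∑ a ^ k X ^ k`, `coeff k = a ^ k` for `k ≥ 1`, and
  `phiP f (X - C a) = f_0 + ∑_{k = 1}^d f_k a ^ k = f.eval a` (`Polynomial.eval_eq_sum_range`).
* `phiP_prod`: induction on the multiset (`phiP f 1 = 0`).
* `phiP_map`: `reverse` and `ps` commute with `map i` (`Polynomial.reverse_map`? else coefficientwise through `coeff_reverse`;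
  `PowerSeries.map` is a ring homomorphism commuting with the derivative, and with the inverse:
  `map i R * map i R⁻¹ = 1`), `natDegree_map` for fields.
-/

set_option autoImplicit false

open Polynomial PowerSeries

namespace Pool.Agent.Helper78.AST

variable {F : Type} [Field F]

private theorem ph_cc (E : F[X]) (hE : E.Monic) :
    PowerSeries.constantCoeff ((E.reverse : F[X]) : F⟦X⟧) = 1 := by
  rw [← PowerSeries.coeff_zero_eq_constantCoeff_apply, Polynomial.coeff_coe,
    Polynomial.coeff_zero_reverse]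
  exact hE

theorem phiP_mon {n : ℕ} (f : F[X]) (e : Fin n → F) : phiP f (mon e) = phi f n (rs e) := by
  rw [phiP, mon_natDegree, reverse_mon]

theorem phiP_one (f : F[X]) : phiP f 1 = 0 := by
  have h1 : (1 : F[X]).reverse = 1 := by
    rw [← Polynomial.C_1, Polynomial.reverse_C]
  have h2 : ps (1 : F⟦X⟧) = 0 := by
    unfold ps
    rw [Derivation.map_one_eq_zero, mul_zero, zero_mul, neg_zero]
  rw [phiP, h1, Polynomial.coe_one, Polynomial.natDegree_one, phi, h2]
  simp

theorem phiP_mul (f E E' : F[X]) (hE : E.Monic) (hE' : E'.Monic) :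
    phiP f (E * E') = phiP f E + phiP f E' := by
  rw [phiP, phiP, phiP, hE.natDegree_mul hE', Polynomial.reverse_mul_of_domain,
    Polynomial.coe_mul, phi, phi, phi, ps_mul _ _ (ph_cc E hE) (ph_cc E' hE')]
  simp only [map_add, mul_add, Finset.sum_add_distrib, Nat.cast_add]
  ring

private theorem ph_rev (a : F) : (((Polynomial.X - Polynomial.C a : F[X]).reverse : F[X]) : F⟦X⟧) =
    1 - PowerSeries.C a * PowerSeries.X := by
  have h1 : (Polynomial.X - Polynomial.C a : F[X]) = mon (fun _ : Fin 1 => -a) := by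
    rw [mon]
    simp [sub_eq_add_neg]
  rw [h1, reverse_mon, rs]
  simp [sub_eq_add_neg]

private theorem ph_ps (a : F) (k : ℕ) (hk : 1 ≤ k) :
    PowerSeries.coeff k (ps (1 - PowerSeries.C a * PowerSeries.X : F⟦X⟧)) = a ^ k := by
  have hc : PowerSeries.constantCoeff (1 - PowerSeries.C a * PowerSeries.X : F⟦X⟧) ≠ 0 := by
    rw [map_sub, map_one, map_mul, PowerSeries.constantCoeff_X, mul_zero, sub_zero]
    exact one_ne_zero
  have h1 : PowerSeries.mk (fun k => a ^ k) * (1 - PowerSeries.C a * PowerSeries.X : F⟦X⟧) = 1 := by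
    ext n
    rw [mul_sub, mul_one, map_sub, mul_left_comm, PowerSeries.coeff_C_mul, PowerSeries.coeff_mk,
      PowerSeries.coeff_one]
    cases n with
    | zero =>
      rw [PowerSeries.coeff_zero_mul_X]
      simp
    | succ n =>
      rw [PowerSeries.coeff_succ_mul_X, PowerSeries.coeff_mk, if_neg (Nat.succ_ne_zero n)]
      ring
  have h2 : (1 - PowerSeries.C a * PowerSeries.X : F⟦X⟧)⁻¹ = PowerSeries.mk (fun k => a ^ k) :=
    ((PowerSeries.eq_inv_iff_mul_eq_one hc).2 h1).symm
  have h3 : PowerSeries.derivative F (1 - PowerSeries.C a * PowerSeries.X : F⟦X⟧) =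
      - PowerSeries.C a := by
    rw [map_sub, Derivation.map_one_eq_zero, Derivation.leibniz, PowerSeries.derivative_C,
      PowerSeries.derivative_X]
    simp
  have h4 : ps (1 - PowerSeries.C a * PowerSeries.X : F⟦X⟧) =
      PowerSeries.X * (PowerSeries.C a * PowerSeries.mk (fun k => a ^ k)) := by
    unfold ps
    rw [h2, h3]
    ring
  obtain ⟨j, rfl⟩ : ∃ j, k = j + 1 := ⟨k - 1, by omega⟩
  rw [h4, PowerSeries.coeff_succ_X_mul, PowerSeries.coeff_C_mul, PowerSeries.coeff_mk]
  ring

theorem phiP_X_sub_C (f : F[X]) (a : F) : phiP f (Polynomial.X - Polynomial.C a) = f.eval a := by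
  rw [phiP, Polynomial.natDegree_X_sub_C, ph_rev, phi, Polynomial.eval_eq_sum_range,
    Finset.sum_range_succ', Nat.cast_one, one_mul, pow_zero, mul_one, add_comm]
  congr 1
  have h1 : Finset.Icc 1 f.natDegree = Finset.Ico 1 (f.natDegree + 1) := by
    ext k
    rw [Finset.mem_Icc, Finset.mem_Ico, Nat.lt_succ_iff]
  rw [h1, Finset.sum_Ico_eq_sum_range, Nat.add_sub_cancel]
  refine Finset.sum_congr rfl fun k _ => ?_
  rw [add_comm 1 k, ph_ps a _ (by omega)]

theorem phiP_prod (f : F[X]) (s : Multiset F) :
    phiP f (s.map fun a => Polynomial.X - Polynomial.C a).prod = (s.map fun a => f.eval a).sum := by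
  induction s using Multiset.induction_on with
  | empty => simp [phiP_one]
  | cons a s ih =>
    rw [Multiset.map_cons, Multiset.prod_cons, Multiset.map_cons, Multiset.sum_cons,
      phiP_mul f _ _ (Polynomial.monic_X_sub_C a)
        (Polynomial.monic_multiset_prod_of_monic s _ fun b _ => Polynomial.monic_X_sub_C b),
      phiP_X_sub_C, ih]

private theorem ph_ps_map {Ω : Type} [Field Ω] (i : F →+* Ω) (R : F⟦X⟧)
    (hR : PowerSeries.constantCoeff R ≠ 0) : ps (PowerSeries.map i R) = PowerSeries.map i (ps R) := by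
  have h1 : PowerSeries.constantCoeff (PowerSeries.map i R) ≠ 0 := by
    rw [← PowerSeries.coeff_zero_eq_constantCoeff_apply, PowerSeries.coeff_map,
      PowerSeries.coeff_zero_eq_constantCoeff_apply]
    exact (map_ne_zero i).2 hR
  have h2 : (PowerSeries.map i R)⁻¹ = PowerSeries.map i R⁻¹ := by
    refine ((PowerSeries.eq_inv_iff_mul_eq_one h1).2 ?_).symm
    rw [← map_mul, PowerSeries.inv_mul_cancel R hR, map_one]
  have h3 : PowerSeries.derivative Ω (PowerSeries.map i R) =
      PowerSeries.map i (PowerSeries.derivative F R) := by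
    ext n
    rw [PowerSeries.coeff_derivative, PowerSeries.coeff_map, PowerSeries.coeff_map,
      PowerSeries.coeff_derivative, map_mul, map_add, map_natCast, map_one]
  unfold ps
  rw [h2, h3, map_neg, map_mul, map_mul, PowerSeries.map_X]

theorem phiP_map {Ω : Type} [Field Ω] (i : F →+* Ω) (f E : F[X]) (hE : E.Monic) :
    phiP (f.map i) (E.map i) = i (phiP f E) := by
  have h1 : (((E.map i).reverse : Polynomial Ω) : PowerSeries Ω) =
      PowerSeries.map i ((E.reverse : F[X]) : F⟦X⟧) := by
    ext n
    rw [PowerSeries.coeff_map, Polynomial.coeff_coe, Polynomial.coeff_coe, Polynomial.coeff_reverse,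
      Polynomial.coeff_reverse, Polynomial.coeff_map, Polynomial.natDegree_map]
  have h2 : PowerSeries.constantCoeff ((E.reverse : F[X]) : F⟦X⟧) ≠ 0 := by
    rw [ph_cc E hE]
    exact one_ne_zero
  rw [phiP, phiP, h1, phi, phi, ph_ps_map i _ h2, Polynomial.natDegree_map, Polynomial.natDegree_map,
    map_add, map_mul, map_natCast, map_sum, Polynomial.coeff_map]
  congr 1
  refine Finset.sum_congr rfl fun k _ => ?_
  rw [map_mul, Polynomial.coeff_map, PowerSeries.coeff_map]

end Pool.Agent.Helper78.AST
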