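import Pool.Agent.Helper78.AST.RelCrit

/-!
# AST-26 SlopeB: the slopes of the blocks (short)

`v = D.fr.v`, `V = v q`, `mu x = 2 v x - V`, `ι` = complex conjugation on `L` (`conjL`).

* `mu_conj`: if `‖x‖ ^ 2 = q` (in `ℂ`) then `x * ι x = q`, so `v (ι x) = V - v x` and `mu (ι x) = - mu x`.
* `same`: `lift a` with `a c = c'` (`a = c' c⁻¹`): `δ` with `v ∘ δ = v` and `δ ζ = ζ ^ a`; `gal`: `δ β ((j, c), i) = β ((j, c'), π i)`.
* `sym`: `ι ζ = ζ⁻¹ = ζ ^ (-1 : ZMod p).val` (`‖ζ‖ = 1`, `ζ ^ p = 1`), `gal` with `a = - 1`: `ι β ((j, c), i) = β ((j, - c), π i)`, so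
  `mu (β ((j, - c), π i)) = - mu (β ((j, c), i))`; combine with `same` between `- c` and `c`.
* `conjBlock`: for `ν ∈ NN`: `β ((j, -c), π i) = ι β ((j, c), i) = q / β ((j, c), i)`, so `ν β ((j, -c), π i) = q / ν β ((j, c), i)` and
  `mu = 2 (V - v (ν β)) - V = - mu (ν β)`. (Use `π⁻¹`.)
* `tau`: `δ` from `lift (-1)`, `τ = δ ι`: `τ ζ = δ (ζ⁻¹) = ζ`. For `ν ∈ NN`, `x`: `y = ν β_x` has `‖y‖ ^ 2 = q` (`norm_gal`), so
  `mu (τ y) = mu (δ (ι y)) = mu (ι y) = - mu y`.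
* `sum_zero`: `ν β ((j, c), i) = β ((j, c), π i)` (`gal` with `a = 1`), so `∑_i φ ((j, c), i) ν = ∑_i mu (β ((j, c), i))`, and this is equal to its negative by `sym`.
* `val`: if `ν β ((j, c), i)`... : for `ν ∈ NN` there is `π` with `φ ((j, c), i) ν = φ ((j, c), π i) 1` for all `i`.
-/

set_option autoImplicit false

open Polynomial

namespace Pool.Agent.Helper78.AST

variable {p : ℕ} [Fact p.Prime] {F : Type} [Field F] [Fintype F] [Algebra (ZMod p) F] {J : Type}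
  {n : ℕ} {f : J → F[X]} {L : IntermediateField ℚ ℂ} [FiniteDimensional ℚ L] [IsGalois ℚ L]

private theorem stdAddChar_val (a : ZMod p) :
    (ZMod.stdAddChar a : ℂ) = (ZMod.stdAddChar (1 : ZMod p) : ℂ) ^ a.val := by
  rw [← AddChar.map_nsmul_eq_pow, nsmul_eq_mul, mul_one, ZMod.natCast_zmod_val]

private theorem mu_of_mul (D : Data p F n f L) (x y : L) (h : x * y = (Fintype.card F : L)) :
    D.mu y = -D.mu x := by
  have hq : ((Fintype.card F : ℕ) : L) ≠ 0 := by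
    exact_mod_cast Fintype.card_ne_zero
  have hx : x ≠ 0 := by
    rintro rfl
    rw [zero_mul] at h
    exact hq h.symm
  have hy : y ≠ 0 := by
    rintro rfl
    rw [mul_zero] at h
    exact hq h.symm
  have h1 := D.fr.v_mul x y hx hy
  rw [h] at h1
  unfold Data.mu
  linarith

private theorem mul_conj_eq (ι : L ≃ₐ[ℚ] L) (hι : ∀ x : L, ((ι x : L) : ℂ) = (starRingEnd ℂ) (x : ℂ))
    (x : L) (q : ℕ) (hx : ‖(x : ℂ)‖ ^ 2 = (q : ℝ)) : x * ι x = (q : L) := by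
  apply Subtype.val_injective
  change ((x * ι x : L) : ℂ) = ((q : L) : ℂ)
  have h1 : ((x * ι x : L) : ℂ) = (x : ℂ) * ((ι x : L) : ℂ) := rfl
  rw [h1, hι, Complex.mul_conj, Complex.normSq_eq_norm_sq, hx]
  simp

private theorem conj_zeta (D : Data p F n f L) (ι : L ≃ₐ[ℚ] L)
    (hι : ∀ x : L, ((ι x : L) : ℂ) = (starRingEnd ℂ) (x : ℂ)) :
    ι D.ζ = D.ζ ^ (((-1 : (ZMod p)ˣ) : ZMod p)).val := by
  apply Subtype.val_injective
  change ((ι D.ζ : L) : ℂ) = ((D.ζ ^ (((-1 : (ZMod p)ˣ) : ZMod p)).val : L) : ℂ)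
  have h1 : ((D.ζ ^ (((-1 : (ZMod p)ˣ) : ZMod p)).val : L) : ℂ) =
      (D.ζ : ℂ) ^ (((-1 : (ZMod p)ˣ) : ZMod p)).val := rfl
  rw [h1, hι, D.hζ, ← stdAddChar_val, Units.val_neg, Units.val_one, AddChar.map_neg_eq_conj]

private theorem mul_conj_zeta (D : Data p F n f L) (ι : L ≃ₐ[ℚ] L)
    (hι : ∀ x : L, ((ι x : L) : ℂ) = (starRingEnd ℂ) (x : ℂ)) : D.ζ * ι D.ζ = 1 := by
  have h := mul_conj_eq ι hι D.ζ 1 (by
    rw [D.hζ, AddChar.norm_apply]; simp)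
  rw [h, Nat.cast_one]

theorem Data.same (D : Data p F n f L) (j : J) (c c' : (ZMod p)ˣ) :
    ∃ π : Equiv.Perm (Fin n), ∀ i, D.mu (D.β ((j, c), i)) = D.mu (D.β ((j, c'), π i)) := by
  obtain ⟨δ, hv, hδ⟩ := D.fr.lift (c' * c⁻¹)
  obtain ⟨π, hπ⟩ := D.gal δ (c' * c⁻¹) hδ j c
  rw [inv_mul_cancel_right] at hπ
  refine ⟨π, fun i => ?_⟩
  rw [← hπ i]
  unfold Data.mu
  rw [hv]

theorem Data.sym (D : Data p F n f L) (j : J) (c : (ZMod p)ˣ) :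
    ∃ π : Equiv.Perm (Fin n), ∀ i, D.mu (D.β ((j, c), π i)) = -D.mu (D.β ((j, c), i)) := by
  obtain ⟨ι, hι⟩ := conjL L
  obtain ⟨π, hπ⟩ := D.gal ι (-1) (conj_zeta D ι hι) j c
  obtain ⟨π', hπ'⟩ := D.same j (-1 * c) c
  refine ⟨π.trans π', fun i => ?_⟩
  rw [Equiv.trans_apply, ← hπ', ← hπ]
  exact mu_of_mul D _ _ (mul_conj_eq ι hι _ _ (D.norm _))

theorem Data.conjBlock (D : Data p F n f L) (j : J) (c : (ZMod p)ˣ) :
    ∃ π : Equiv.Perm (Fin n), ∀ i ν, D.φ ((j, -c), i) ν = -D.φ ((j, c), π i) ν := by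
  obtain ⟨ι, hι⟩ := conjL L
  obtain ⟨π, hπ⟩ := D.gal ι (-1) (conj_zeta D ι hι) j c
  refine ⟨π.symm, fun i ν => ?_⟩
  have h1 := hπ (π.symm i)
  rw [Equiv.apply_symm_apply, neg_one_mul] at h1
  unfold Data.φ
  rw [← h1]
  apply mu_of_mul
  rw [← map_mul, mul_conj_eq ι hι _ _ (D.norm _), map_natCast]

theorem Data.tau (D : Data p F n f L) : ∃ τ : D.NN, ∀ x ν, D.φ x (τ * ν) = -D.φ x ν := by
  obtain ⟨ι, hι⟩ := conjL L
  obtain ⟨δ, hv, hδ⟩ := D.fr.lift (-1)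
  have h1 := conj_zeta D ι hι
  have h2 := mul_conj_zeta D ι hι
  have h3 : δ (ι D.ζ) = D.ζ := by
    have h4 : δ (D.ζ * ι D.ζ) = 1 := by rw [h2, map_one]
    rw [map_mul, hδ, ← h1] at h4
    have h5 : ι D.ζ ≠ 0 := by
      intro h
      rw [h, mul_zero] at h2
      exact zero_ne_one h2
    apply mul_left_cancel₀ h5
    rw [h4, mul_comm, h2]
  refine ⟨⟨δ * ι, ?_⟩, fun x ν => ?_⟩
  · change (δ * ι) D.ζ = D.ζ
    rw [AlgEquiv.mul_apply, h3]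
  · unfold Data.φ
    change D.mu (δ (ι ((ν : L ≃ₐ[ℚ] L) (D.β x)))) = _
    have h6 : D.mu (δ (ι ((ν : L ≃ₐ[ℚ] L) (D.β x)))) = D.mu (ι ((ν : L ≃ₐ[ℚ] L) (D.β x))) := by
      unfold Data.mu
      rw [hv]
    rw [h6]
    exact mu_of_mul D _ _ (mul_conj_eq ι hι _ _ (D.norm_gal _ _))

private theorem gal_one (D : Data p F n f L) (j : J) (c : (ZMod p)ˣ) (ν : D.NN) :
    ∃ π : Equiv.Perm (Fin n), ∀ i, (ν : L ≃ₐ[ℚ] L) (D.β ((j, c), i)) = D.β ((j, c), π i) := by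
  have h1 : (ν : L ≃ₐ[ℚ] L) D.ζ = D.ζ ^ (((1 : (ZMod p)ˣ) : ZMod p)).val := by
    have hp1 : Fact (1 < p) := ⟨(Fact.out : p.Prime).one_lt⟩
    rw [Units.val_one, ZMod.val_one, pow_one]
    exact ν.2
  obtain ⟨π, hπ⟩ := D.gal (ν : L ≃ₐ[ℚ] L) 1 h1 j c
  rw [one_mul] at hπ
  exact ⟨π, hπ⟩

theorem Data.sum_zero (D : Data p F n f L) (j : J) (c : (ZMod p)ˣ) (ν : D.NN) :
    ∑ i, D.φ ((j, c), i) ν = 0 := by
  obtain ⟨π, hπ⟩ := gal_one D j c ν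
  obtain ⟨π', hπ'⟩ := D.sym j c
  have h1 : ∑ i, D.φ ((j, c), i) ν = ∑ i, D.mu (D.β ((j, c), i)) := by
    rw [← Equiv.sum_comp π (fun i => D.mu (D.β ((j, c), i)))]
    apply Finset.sum_congr rfl
    intro i _
    unfold Data.φ
    rw [hπ]
  have h2 : ∑ i, D.mu (D.β ((j, c), i)) = -∑ i, D.mu (D.β ((j, c), i)) := by
    rw [← Finset.sum_neg_distrib, ← Equiv.sum_comp π' (fun i => D.mu (D.β ((j, c), i)))]
    apply Finset.sum_congr rfl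
    intro i _
    exact hπ' i
  rw [h1]
  linarith

theorem Data.val (D : Data p F n f L) (j : J) (c : (ZMod p)ˣ) (ν : D.NN) :
    ∃ π : Equiv.Perm (Fin n), ∀ i, D.φ ((j, c), i) ν = D.φ ((j, c), π i) 1 := by
  obtain ⟨π, hπ⟩ := gal_one D j c ν
  refine ⟨π, fun i => ?_⟩
  unfold Data.φ
  rw [hπ]
  rfl

end Pool.Agent.Helper78.AST
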