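import Pool.Agent.Helper78.AST.StepEx

/-!
# AST-14 StepCount: the number of `x` with `Tr g(x) = a` (short, elementary inequalities)

`d = g.natDegree` prime to `p`, `c = d p ^ 2`, `Q = card L = p ^ (s + 1)` (`FiniteField.card`), `D = Q / p = p ^ s`, `N` the number of
`x : L` with `(hp p g (s + 1)).eval x = a`. Claim: `N ≤ Q / p + 8 d p ^ 2 √Q`.

Let `J = ⌊√Q⌋` (`Nat.sqrt Q`).
* If `J < 2 c`: `N ≤ Q`, `√Q < J + 1 ≤ 2 c`, so `Q = √Q √Q ≤ 2 c √Q`.
* If `J ≥ 2 c`: put `M = p (J - c)`. `M ≤ p J ≤ Q`: `J ≥ 2 c ≥ p`, so `p J ≤ J ^ 2 ≤ Q`. Dimension condition: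
  `∑_{k < M} (J + D + (d - 1) k) ≤ M (J + D) + (d - 1) M ^ 2 / 2` (multiply by 2), `M D = p J D - c Q`, `M J ≤ p J ^ 2 ≤ p Q`,
  `(d - 1) M ^ 2 ≤ (d - 1) p ^ 2 J ^ 2 ≤ (d - 1) p ^ 2 Q`, and `2 p + (d - 1) p ^ 2 ≤ d p ^ 2 + p^2 < 2 d p ^ 2 + ...`: precisely
  `2 M J + (d - 1) M ^ 2 ≤ (2 p + (d - 1) p ^ 2) Q ≤ d p ^ 2 Q < 2 c Q` (`2 p ≤ p ^ 2`).
  `exists_aux`: `∏_{x} (X - x) ^ M ∣ R` over the `N` elements (pairwise coprime), so `N M ≤ Q (J + d)`.
  `M ≥ p J / 2`, `N ≤ Q (J + d) / (p (J - c))= (Q / p) (1 + (c + d) / (J - c)) ≤ Q / p + (Q / p) 2 (c + d) / J`, and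
  `Q / J ≤ 2 √Q` (`J ≥ √Q - 1 ≥ √Q / 2`), so the last term is `≤ 4 (c + d) / p √Q ≤ 8 c √Q` (`d ≤ c`).
-/

set_option autoImplicit false

open Polynomial

namespace Pool.Agent.Helper78.AST

variable {L : Type} [Field L] [Fintype L] (p : ℕ) [Fact p.Prime] [CharP L p]

/-- A nonzero polynomial divisible by the `M`-th powers of `X - x`, `x` in `S`, has degree at least `M * card S`. -/
private theorem ast14_deg {L : Type} [Field L] (S : Finset L) (M : ℕ) (R : L[X]) (hR : R ≠ 0)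
    (h : ∀ x ∈ S, (X - C x) ^ M ∣ R) : S.card * M ≤ R.natDegree := by
  have h1 : (∏ x ∈ S, (X - C x) ^ M) ∣ R := by
    apply Finset.prod_dvd_of_coprime
    · intro x _ y _ hxy
      exact (isCoprime_X_sub_C_of_isUnit_sub (sub_ne_zero.2 hxy).isUnit).pow
    · exact h
  have h2 := natDegree_le_of_dvd h1 hR
  rw [natDegree_prod_of_monic _ _ fun x _ => (monic_X_sub_C x).pow M] at h2
  simpa [natDegree_pow] using h2

/-- The dimension condition. -/
private theorem ast14_dim (p d s J c : ℕ) (hp : 2 ≤ p) (hd : 1 ≤ d) (hc : c = d * p ^ 2)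
    (hJ : 2 * c ≤ J) (hJQ : J * J ≤ p ^ (s + 1)) :
    ∑ k ∈ Finset.range (p * (J - c)), (J + p ^ s + (d - 1) * k) < p * J * p ^ s := by
  obtain ⟨e, rfl⟩ : ∃ e, d = e + 1 := ⟨d - 1, by omega⟩
  obtain ⟨T, hT⟩ : ∃ T, J = T + c := ⟨J - c, by omega⟩
  have hcpos : 0 < c := by rw [hc]; positivity
  obtain ⟨D, hD⟩ : ∃ D, D = p ^ s := ⟨_, rfl⟩
  have hDpos : 0 < D := by rw [hD]; positivity
  have hQ : p ^ (s + 1) = D * p := by rw [hD, pow_succ]
  rw [hQ] at hJQ
  rw [← hD, Nat.add_sub_cancel, show J - c = T by omega]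
  have hsum : ∀ M : ℕ, 2 * ∑ k ∈ Finset.range M, (J + D + e * k) ≤ 2 * M * (J + D) + e * M ^ 2 := by
    intro M
    induction M with
    | zero => simp
    | succ M ih =>
      rw [Finset.sum_range_succ, mul_add]
      nlinarith
  have h1 := hsum (p * T)
  -- the main inequality
  have h2 : 2 * (p * T) * J + e * (p * T) ^ 2 < 2 * (c * (D * p)) := by
    have hTJ : T ≤ J := by omega
    have h3 : p * T * J ≤ p * (D * p) := by
      rw [mul_assoc]
      exact Nat.mul_le_mul_left _ ((Nat.mul_le_mul_right _ hTJ).trans hJQ)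
    have h4 : (p * T) ^ 2 ≤ p ^ 2 * (D * p) := by
      rw [mul_pow]
      apply Nat.mul_le_mul_left
      rw [sq]
      exact (Nat.mul_le_mul hTJ hTJ).trans hJQ
    have h5 : e * (p * T) ^ 2 ≤ e * (p ^ 2 * (D * p)) := Nat.mul_le_mul_left _ h4
    have h6 : 2 * p ≤ p ^ 2 := by rw [sq]; exact Nat.mul_le_mul_right _ hp
    have h7 : 2 * (p * (D * p)) ≤ p ^ 2 * (D * p) := by
      calc 2 * (p * (D * p)) = (2 * p) * (D * p) := by ring
        _ ≤ p ^ 2 * (D * p) := Nat.mul_le_mul_right _ h6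
    have h8 : p ^ 2 * (D * p) + e * (p ^ 2 * (D * p)) = c * (D * p) := by rw [hc]; ring
    have h9 : 0 < c * (D * p) := by positivity
    calc 2 * (p * T) * J + e * (p * T) ^ 2 = 2 * (p * T * J) + e * (p * T) ^ 2 := by ring
      _ ≤ 2 * (p * (D * p)) + e * (p ^ 2 * (D * p)) := by omega
      _ ≤ p ^ 2 * (D * p) + e * (p ^ 2 * (D * p)) := by omega
      _ = c * (D * p) := h8
      _ < 2 * (c * (D * p)) := by omega
  have h10 : 2 * (p * J * D) = 2 * (p * T) * D + 2 * (c * (D * p)) := by rw [hT]; ring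
  have h11 : 2 * (p * T) * (J + D) = 2 * (p * T) * J + 2 * (p * T) * D := by ring
  omega

open Classical in
theorem step_count (g : L[X]) (hd : ¬ p ∣ g.natDegree) (s : ℕ) (hcard : Fintype.card L = p ^ (s + 1)) (a : L) :
    (((Finset.univ : Finset L).filter fun x => (hp p g (s + 1)).eval x = a).card : ℝ) ≤
      (Fintype.card L : ℝ) / p + 8 * g.natDegree * p ^ 2 * Real.sqrt (Fintype.card L) := by
  obtain ⟨S, hS⟩ : ∃ S : Finset L, S = (Finset.univ : Finset L).filter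
    fun x => (hp p g (s + 1)).eval x = a := ⟨_, rfl⟩
  rw [← hS]
  obtain ⟨d, hdd⟩ : ∃ d, d = g.natDegree := ⟨_, rfl⟩
  have hp2 : 2 ≤ p := (Fact.out : p.Prime).two_le
  have hd1 : 1 ≤ d := by
    rw [Nat.one_le_iff_ne_zero]
    rintro rfl
    exact hd (hdd ▸ dvd_zero p)
  obtain ⟨c, hc⟩ : ∃ c, c = d * p ^ 2 := ⟨_, rfl⟩
  obtain ⟨Q, hQ⟩ : ∃ Q, Q = Fintype.card L := ⟨_, rfl⟩
  obtain ⟨J, hJ⟩ : ∃ J, J = Nat.sqrt Q := ⟨_, rfl⟩
  have hJ1 : J * J ≤ Q := by rw [hJ]; exact Nat.sqrt_le Q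
  have hJ2 : Q < (J + 1) * (J + 1) := by rw [hJ]; exact Nat.lt_succ_sqrt Q
  have hp2' : (2 : ℝ) ≤ p := by exact_mod_cast hp2
  have hp0 : (0 : ℝ) < p := by linarith
  rw [← hdd, ← hQ]
  obtain ⟨r, hr⟩ : ∃ r, r = Real.sqrt (Q : ℝ) := ⟨_, rfl⟩
  have hr0 : 0 ≤ r := by rw [hr]; exact Real.sqrt_nonneg _
  have hrr : r * r = Q := by rw [hr]; exact Real.mul_self_sqrt (Nat.cast_nonneg _)
  rw [← hr]
  have hc' : (c : ℝ) = d * p ^ 2 := by rw [hc]; push_cast; ring
  have hc0 : (0 : ℝ) ≤ c := Nat.cast_nonneg _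
  have hrJ : r ≤ J + 1 := by
    have h1 : r * r < ((J : ℝ) + 1) * ((J : ℝ) + 1) := by
      rw [hrr]
      exact_mod_cast hJ2
    by_contra hcon
    push Not at hcon
    have h2 : (0 : ℝ) ≤ (J : ℝ) + 1 := by positivity
    nlinarith
  have hgoal : (8 : ℝ) * d * p ^ 2 * r = 8 * c * r := by rw [hc']; ring
  rw [hgoal]
  by_cases hJc : J < 2 * c
  · have h1 : (S.card : ℝ) ≤ Q := by
      rw [hQ]
      exact_mod_cast Finset.card_le_univ S
    have h2 : r ≤ 2 * c := by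
      have : (J : ℝ) + 1 ≤ 2 * c := by exact_mod_cast hJc
      linarith
    have h3 : (Q : ℝ) ≤ 2 * c * r := by
      rw [← hrr]
      exact mul_le_mul_of_nonneg_right h2 hr0
    have h4 : (0 : ℝ) ≤ (Q : ℝ) / p := by positivity
    have h5 : 0 ≤ (c : ℝ) * r := mul_nonneg hc0 hr0
    nlinarith
  · push Not at hJc
    have hcpos : 0 < c := by rw [hc]; positivity
    have hpc : p ≤ c := by
      rw [hc, sq, ← mul_assoc]
      exact Nat.le_mul_of_pos_left _ (by positivity)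
    have hM : p * (J - c) ≤ p ^ (s + 1) := by
      rw [← hcard, ← hQ]
      calc p * (J - c) ≤ J * J := Nat.mul_le_mul (by omega) (by omega)
        _ ≤ Q := hJ1
    have hdim := ast14_dim p d s J c hp2 hd1 hc hJc (by rw [← hcard, ← hQ]; exact hJ1)
    rw [hdd] at hdim
    obtain ⟨R, hR0, hRd, hRx⟩ := exists_aux p g hd s J (p * (J - c)) hcard hM a hdim
    have h1 : S.card * (p * (J - c)) ≤ R.natDegree := by
      apply ast14_deg S _ R hR0
      intro x hx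
      rw [hS, Finset.mem_filter] at hx
      exact hRx x hx.2
    have h2 : S.card * (p * (J - c)) ≤ Q * (J + d) := by
      rw [hQ, hcard, hdd]
      exact h1.trans hRd
    have h3 : (S.card : ℝ) * (p * ((J : ℝ) - c)) ≤ r * r * (J + d) := by
      have h4 : ((S.card * (p * (J - c)) : ℕ) : ℝ) ≤ ((Q * (J + d) : ℕ) : ℝ) := by exact_mod_cast h2
      rw [Nat.cast_mul, Nat.cast_mul, Nat.cast_sub (by omega)] at h4
      rw [hrr]
      push_cast at h4
      exact h4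
    have hJc' : (2 : ℝ) * c ≤ J := by exact_mod_cast hJc
    have hc1 : (1 : ℝ) ≤ c := by exact_mod_cast hcpos
    have hdc : (d : ℝ) ≤ c := by
      rw [hc']
      have : (1 : ℝ) ≤ (p : ℝ) ^ 2 := by nlinarith
      have hd0 : (0 : ℝ) ≤ d := Nat.cast_nonneg _
      nlinarith
    have hpos : 0 < (p : ℝ) * ((J : ℝ) - c) := mul_pos hp0 (by linarith)
    -- the inequality after multiplication
    have h5 : r * (c + d) ≤ 8 * c * p * ((J : ℝ) - c) := by
      have h6 : r * (c + d) ≤ (2 * J) * (2 * c) := by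
        apply mul_le_mul _ _ (by positivity) (by linarith)
        · linarith
        · linarith
      have h7 : (2 * (J : ℝ)) * (2 * c) ≤ 8 * c * 2 * ((J : ℝ) - c) := by nlinarith
      have h8 : 8 * (c : ℝ) * 2 * ((J : ℝ) - c) ≤ 8 * c * p * ((J : ℝ) - c) := by
        apply mul_le_mul_of_nonneg_right _ (by linarith)
        nlinarith
      linarith
    have h9 : r * r * (J + d) ≤ ((Q : ℝ) / p + 8 * c * r) * (p * ((J : ℝ) - c)) := by
      have h10 : ((Q : ℝ) / p + 8 * c * r) * (p * ((J : ℝ) - c)) =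
          r * r * (J - c) + r * (8 * c * p * ((J : ℝ) - c)) := by
        rw [← hrr]
        field_simp
      rw [h10]
      have h11 := mul_le_mul_of_nonneg_left h5 hr0
      nlinarith
    exact le_of_mul_le_mul_right (h3.trans h9) hpos

end Pool.Agent.Helper78.AST
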