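import Pool.Agent.Helper78.AST.StepNon
import Pool.Agent.Helper31.AR.StepExist

/-!
# AST-13 StepEx: existence of the auxiliary polynomial (Stepanov's method)

`L` a finite field with `Q = p ^ (s + 1)` elements, `D = p ^ s`, `d = g.natDegree` prime to `p`, `a : L`, `M ≤ Q`,
`∑_{k < M} (J + D + (d - 1) k) < p J D`.

Let `V` be the space of the families `r : Fin p → Fin J → degreeLT L D`, of dimension `p J D`. Choose `H i k` from
`exists_hasse_pow_hp`. For `k < M` let `G_k r = ∑_{i, j} X ^ j ∑_{(u, v) ∈ antidiagonal k} hasseDeriv u (r i j) * H i v`, linear in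
`r`, of degree `< J + D + (d - 1) k` (`j ≤ J - 1`, `D - 1`, `(d - 1) v`): a linear map `V → degreeLT L (J + D + (d - 1) k)`. All together:
a linear map from `V` to a space of dimension `∑_{k < M} (J + D + (d - 1) k) < dim V`, so it has a nonzero kernel element `r`
(`LinearMap.ker_ne_bot_of_finrank_lt`). Put `R = ∑ r_ij hp ^ i X ^ (j Q)`; `R ≠ 0` by `step_nonzero`, degree by `step_degree`.

Let `x : L` with `(hp p g (s + 1)).eval x = a` and `k < M ≤ Q`. `hasseDeriv k (w X ^ (j Q)) = (hasseDeriv k w) X ^ (j Q)` for `k < Q`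
(`Helper31.AR.se_hasse_X_pow_card` in `Pool/Agent/Helper31/AR/StepExist.lean` proves `hasseDeriv i (X ^ (j Q)) = 0` for `0 < i < Q`; it may be imported), so
`(hasseDeriv k R).eval x = ∑ x ^ (j Q) (hasseDeriv k (r_ij hp ^ i)).eval x`, `x ^ (j Q) = x ^ j`, and
`hasseDeriv k (r_ij hp ^ i) = ∑ hasseDeriv u r_ij * hasseDeriv v (hp ^ i)`, whose value at `x` is that of `∑ hasseDeriv u r_ij * H i v`
(`hp - C a` vanishes at `x`). So `(hasseDeriv k R).eval x = (G_k r).eval x = 0` for all `k < M`, i.e. `(X - C x) ^ M ∣ R`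
(`Polynomial.X_sub_C_pow_dvd_iff`, `taylor_coeff`; see the end of `Pool/Agent/Helper31/AR/StepExist.lean`, the analogous proof for `y ^ 2 = f x`).
-/

set_option autoImplicit false

open Polynomial

namespace Pool.Agent.Helper78.AST

/-- The map `G_k`. -/
private noncomputable def axG {L : Type} [Field L] (p J D : ℕ) (H : ℕ → ℕ → L[X]) (k : ℕ) :
    (Fin p → Fin J → degreeLT L D) →ₗ[L] L[X] where
  toFun v := ∑ i : Fin p, ∑ j : Fin J, X ^ (j : ℕ) *
    ∑ w ∈ Finset.HasAntidiagonal.antidiagonal k, hasseDeriv w.1 (v i j : L[X]) * H i w.2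
  map_add' v w := by
    rw [← Finset.sum_add_distrib]
    refine Finset.sum_congr rfl fun i _ => ?_
    rw [← Finset.sum_add_distrib]
    refine Finset.sum_congr rfl fun j _ => ?_
    rw [← mul_add, ← Finset.sum_add_distrib]
    congr 1
    refine Finset.sum_congr rfl fun t _ => ?_
    simp only [Pi.add_apply, Submodule.coe_add, map_add]
    ring
  map_smul' a v := by
    simp only [RingHom.id_apply]
    rw [Finset.smul_sum]
    refine Finset.sum_congr rfl fun i _ => ?_
    rw [Finset.smul_sum]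
    refine Finset.sum_congr rfl fun j _ => ?_
    rw [← mul_smul_comm, Finset.smul_sum]
    congr 1
    refine Finset.sum_congr rfl fun t _ => ?_
    simp only [Pi.smul_apply, Submodule.coe_smul, map_smul]
    rw [smul_mul_assoc]

private theorem ax_G_mem {L : Type} [Field L] {p J D : ℕ} (hD : 0 < D) (H : ℕ → ℕ → L[X]) (e : ℕ)
    (hH : ∀ i k, (H i k).natDegree ≤ e * k) (k : ℕ) (v : Fin p → Fin J → degreeLT L D) :
    axG p J D H k v ∈ degreeLT L (J + D + e * k) := by
  rw [mem_degreeLT]
  rcases Nat.eq_zero_or_pos J with hJ | hJ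
  · subst hJ
    simp [axG]
    exact WithBot.bot_lt_coe _
  have h : (axG p J D H k v).natDegree ≤ (J - 1) + (D - 1) + e * k := by
    change (∑ i : Fin p, ∑ j : Fin J, X ^ (j : ℕ) *
      ∑ w ∈ Finset.HasAntidiagonal.antidiagonal k, hasseDeriv w.1 (v i j : L[X]) * H i w.2).natDegree ≤ _
    refine natDegree_sum_le_of_forall_le _ _ fun i _ => ?_
    refine natDegree_sum_le_of_forall_le _ _ fun j _ => ?_
    have hj := j.2
    have h1 : (X ^ (j : ℕ) : L[X]).natDegree ≤ J - 1 := by
      rw [natDegree_X_pow]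
      omega
    have h2 : (∑ w ∈ Finset.HasAntidiagonal.antidiagonal k,
        hasseDeriv w.1 (v i j : L[X]) * H i w.2).natDegree ≤ (D - 1) + e * k := by
      refine natDegree_sum_le_of_forall_le _ _ fun w hw => ?_
      rw [Finset.HasAntidiagonal.mem_antidiagonal] at hw
      have h3 := natDegree_hasseDeriv_le (v i j : L[X]) w.1
      have h4 := Helper31.AR.se_natDegree_lt hD (v i j).2
      have h5 := hH i w.2
      have h6 : e * w.2 ≤ e * k := Nat.mul_le_mul_left _ (by omega)
      have h7 := natDegree_mul_le (p := hasseDeriv w.1 (v i j : L[X])) (q := H i w.2)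
      omega
    have h3 := natDegree_mul_le (p := (X ^ (j : ℕ) : L[X]))
      (q := ∑ w ∈ Finset.HasAntidiagonal.antidiagonal k, hasseDeriv w.1 (v i j : L[X]) * H i w.2)
    omega
  refine lt_of_le_of_lt degree_le_natDegree ?_
  have : (axG p J D H k v).natDegree < J + D + e * k := by omega
  exact_mod_cast this

private theorem ax_kernel {L : Type} [Field L] {p J D M : ℕ} (hD : 0 < D) (H : ℕ → ℕ → L[X]) (e : ℕ)
    (hH : ∀ i k, (H i k).natDegree ≤ e * k)
    (hdim : ∑ k ∈ Finset.range M, (J + D + e * k) < p * J * D) :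
    ∃ v : Fin p → Fin J → degreeLT L D, v ≠ 0 ∧ ∀ k < M, axG p J D H k v = 0 := by
  have hfd : ∀ n : ℕ, Module.Finite L (degreeLT L n) := fun n =>
    Module.Finite.equiv (degreeLTEquiv L n).symm
  set Φ : (Fin p → Fin J → degreeLT L D) →ₗ[L] (∀ k : Fin M, degreeLT L (J + D + e * (k : ℕ))) :=
    LinearMap.pi fun k => LinearMap.codRestrict _ (axG p J D H k)
      (fun v => ax_G_mem hD H e hH k v) with hΦ
  have h1 : Module.finrank L (∀ k : Fin M, degreeLT L (J + D + e * (k : ℕ))) <
      Module.finrank L (Fin p → Fin J → degreeLT L D) := by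
    rw [Module.finrank_pi_fintype, Module.finrank_pi_fintype]
    simp only [Module.finrank_pi_fintype, Helper31.AR.se_finrank]
    rw [Fin.sum_univ_eq_sum_range (fun k => J + D + e * k) M]
    simp only [Finset.sum_const, Finset.card_univ, Fintype.card_fin, smul_eq_mul]
    calc _ < p * J * D := hdim
      _ = p * (J * D) := by ring
  have h2 := LinearMap.ker_ne_bot_of_finrank_lt (f := Φ) h1
  obtain ⟨v, hv, hv0⟩ := Submodule.exists_mem_ne_zero_of_ne_bot h2
  refine ⟨v, hv0, fun k hk => ?_⟩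
  rw [LinearMap.mem_ker] at hv
  have h3 := congrFun hv ⟨k, hk⟩
  have h4 := congrArg Subtype.val h3
  simpa [hΦ] using h4

variable {L : Type} [Field L] [Fintype L] (p : ℕ) [Fact p.Prime] [CharP L p]

theorem exists_aux (g : L[X]) (hd : ¬ p ∣ g.natDegree) (s J M : ℕ) (hcard : Fintype.card L = p ^ (s + 1))
    (hM : M ≤ p ^ (s + 1)) (a : L)
    (hdim : ∑ k ∈ Finset.range M, (J + p ^ s + (g.natDegree - 1) * k) < p * J * p ^ s) :
    ∃ R : L[X], R ≠ 0 ∧ R.natDegree ≤ p ^ (s + 1) * (J + g.natDegree) ∧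
      ∀ x : L, (hp p g (s + 1)).eval x = a → (X - C x) ^ M ∣ R := by
  classical
  have hg : 1 ≤ g.natDegree := by
    rcases Nat.eq_zero_or_pos g.natDegree with h | h
    · rw [h] at hd
      exact absurd (dvd_zero p) hd
    · exact h
  have hD : 0 < p ^ s := pow_pos (Fact.out : p.Prime).pos s
  choose H hH1 hH2 using fun i k => exists_hasse_pow_hp p g hg (s + 1) a i k
  obtain ⟨v, hv0, hv⟩ := ax_kernel (p := p) (J := J) (M := M) hD H (g.natDegree - 1) hH1 hdim
  have hr : ∀ (i : Fin p) (j : Fin J), ((v i j : degreeLT L (p ^ s)) : L[X]).degree < (p ^ s : ℕ) :=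
    fun i j => mem_degreeLT.1 (v i j).2
  refine ⟨∑ i : Fin p, ∑ j : Fin J,
    (v i j : L[X]) * hp p g (s + 1) ^ (i : ℕ) * X ^ ((j : ℕ) * p ^ (s + 1)), ?_, ?_, ?_⟩
  · intro h0
    have h1 := step_nonzero p g hd s J (fun i j => (v i j : L[X])) hr h0
    apply hv0
    funext i j
    exact Subtype.ext (h1 i j)
  · exact step_degree p g hd s J (fun i j => (v i j : L[X])) hr
  · intro x hx
    rw [X_sub_C_pow_dvd_iff, ← taylor_apply, X_pow_dvd_iff]
    intro k hk
    rw [taylor_coeff]
    have hkQ : k < Fintype.card L := by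
      rw [hcard]
      omega
    have h1 : (hasseDeriv k) (∑ i : Fin p, ∑ j : Fin J,
        (v i j : L[X]) * hp p g (s + 1) ^ (i : ℕ) * X ^ ((j : ℕ) * p ^ (s + 1))) =
        ∑ i : Fin p, ∑ j : Fin J,
          hasseDeriv k ((v i j : L[X]) * hp p g (s + 1) ^ (i : ℕ)) * X ^ ((j : ℕ) * p ^ (s + 1)) := by
      rw [map_sum]
      refine Finset.sum_congr rfl fun i _ => ?_
      rw [map_sum]
      refine Finset.sum_congr rfl fun j _ => ?_
      rw [← hcard]
      exact Helper31.AR.se_hasse_mul _ _ _ hkQ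
    have hval : ∀ i w, eval x (hasseDeriv w (hp p g (s + 1) ^ i)) = eval x (H i w) := by
      intro i w
      obtain ⟨c, hc⟩ := hH2 i w
      have h2 := congrArg (eval x) hc
      rw [eval_sub, eval_mul, eval_sub, eval_C, hx, sub_self, zero_mul] at h2
      exact sub_eq_zero.1 h2
    have h2 := congrArg (eval x) (hv k hk)
    rw [h1]
    rw [eval_zero] at h2
    rw [← h2]
    change _ = eval x (∑ i : Fin p, ∑ j : Fin J, X ^ (j : ℕ) *
      ∑ w ∈ Finset.HasAntidiagonal.antidiagonal k, hasseDeriv w.1 (v i j : L[X]) * H i w.2)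
    simp only [eval_finsetSum, eval_mul, eval_pow, eval_X]
    refine Finset.sum_congr rfl fun i _ => ?_
    refine Finset.sum_congr rfl fun j _ => ?_
    rw [← hcard, pow_mul, FiniteField.pow_card, mul_comm]
    congr 1
    rw [hasseDeriv_mul, eval_finsetSum]
    refine Finset.sum_congr rfl fun w _ => ?_
    rw [eval_mul, hval]

end Pool.Agent.Helper78.AST
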