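import Pool.Agent.Helper78.AST.HasseH

/-!
# AST-12 StepNon: the auxiliary polynomial is not zero (short)

`d = g.natDegree` is prime to `p`, `D = p ^ s`, `r = s + 1`, `Q = p ^ (s + 1) = p D`.

`natDegree_hp`: `natDegree (hp p g (s + 1)) = d p ^ s`: the term `i = s` has degree `d p ^ s`, the others less
(`Finset.sum_range_succ`, `natDegree_add_eq_right_of_natDegree_lt`, `natDegree_sum_lt`-like; `d ≥ 1`).

`step_nonzero`: if all `r i j` (`i < p`, `j < J`) have degree `< D` and not all are zero then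
`R = ∑_{i, j} r_ij hp ^ i X ^ (j Q)` is not zero, and its degree is `< Q (J + d)`.
The term `(i, j)`, if not zero, has degree `deg r_ij + i d D + j p D`. The integers `d i + p j` (`i < p`) are pairwise different
(`p ∣ d (i - i')` implies `i = i'`), so for two different pairs the numbers `D (d i + p j)` differ by at least `D`, hence the degrees of
two different nonzero terms are different and ordered as `d i + p j`. Let `(i₀, j₀)` be the pair with `r i₀ j₀ ≠ 0` and
`d i₀ + p j₀` maximal: the coefficient of `R` at the degree of its term is its leading coefficient, not zero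
(the others have smaller degree). Degree bound: `≤ (D - 1) + (p - 1) d D + (J - 1) p D < p D (J + d)`
(`natDegree_sum_le_of_forall_le`; `d ≥ 1`).
-/

set_option autoImplicit false

open Polynomial

namespace Pool.Agent.Helper78.AST

variable {L : Type} [Field L] (p : ℕ) [Fact p.Prime]

theorem natDegree_hp (g : L[X]) (hg : 1 ≤ g.natDegree) (s : ℕ) :
    (hp p g (s + 1)).natDegree = g.natDegree * p ^ s := by
  have hp1 : 1 < p := (Fact.out : p.Prime).one_lt
  have hpos : 0 < g.natDegree * p ^ s := Nat.mul_pos hg (pow_pos (by omega) s)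
  have h1 : (g ^ p ^ s).natDegree = g.natDegree * p ^ s := by
    rw [natDegree_pow, mul_comm]
  have h2 : (∑ i ∈ Finset.range s, g ^ p ^ i).natDegree ≤ g.natDegree * p ^ s - 1 := by
    refine natDegree_sum_le_of_forall_le _ _ fun i hi => ?_
    rw [natDegree_pow, mul_comm]
    have h3 : p ^ i < p ^ s := Nat.pow_lt_pow_right hp1 (Finset.mem_range.1 hi)
    have h4 : g.natDegree * p ^ i < g.natDegree * p ^ s := Nat.mul_lt_mul_of_pos_left h3 hg
    omega
  unfold hp
  rw [Finset.sum_range_succ, natDegree_add_eq_right_of_natDegree_lt, h1]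
  rw [h1]
  omega

private theorem sn_inj {d : ℕ} (hd : ¬ p ∣ d) {i i' j j' : ℕ} (hi : i < p) (hi' : i' < p)
    (h : d * i + p * j = d * i' + p * j') : i = i' ∧ j = j' := by
  have hpp : p.Prime := Fact.out
  have h1 : d * i ≡ d * i' [MOD p] := by
    have h2 : d * i + p * j ≡ d * i' + p * j' [MOD p] := by rw [h]
    have h3 : p * j ≡ 0 [MOD p] := (Nat.modEq_zero_iff_dvd).2 (dvd_mul_right p j)
    have h4 : p * j' ≡ 0 [MOD p] := (Nat.modEq_zero_iff_dvd).2 (dvd_mul_right p j')
    exact Nat.ModEq.add_right_cancel (h3.trans h4.symm) h2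
  have hc : Nat.gcd p d = 1 := (Nat.Prime.coprime_iff_not_dvd hpp).2 hd
  have h2 : i ≡ i' [MOD p] := Nat.ModEq.cancel_left_of_coprime hc h1
  have h3 : i = i' := by
    have h4 : i % p = i' % p := h2
    rwa [Nat.mod_eq_of_lt hi, Nat.mod_eq_of_lt hi'] at h4
  subst h3
  have h5 : p * j = p * j' := by omega
  exact ⟨rfl, Nat.eq_of_mul_eq_mul_left hpp.pos h5⟩

private theorem sn_lt {q : L[X]} {D : ℕ} (hD : 0 < D) (h : q.degree < (D : ℕ)) :
    q.natDegree < D := by
  by_cases hq : q = 0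
  · rw [hq, natDegree_zero]
    exact hD
  · exact (natDegree_lt_iff_degree_lt hq).2 h

theorem step_nonzero (g : L[X]) (hd : ¬ p ∣ g.natDegree) (s J : ℕ)
    (r : Fin p → Fin J → L[X]) (hr : ∀ i j, (r i j).degree < (p ^ s : ℕ))
    (h : ∑ i : Fin p, ∑ j : Fin J, r i j * hp p g (s + 1) ^ (i : ℕ) * X ^ ((j : ℕ) * p ^ (s + 1)) = 0) :
    ∀ i j, r i j = 0 := by
  classical
  have hpp : p.Prime := Fact.out
  have hd1 : 1 ≤ g.natDegree := by
    rcases Nat.eq_zero_or_pos g.natDegree with h0 | h0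
    · rw [h0] at hd
      exact absurd (dvd_zero p) hd
    · exact h0
  have hD : 0 < p ^ s := pow_pos hpp.pos s
  have hhp := natDegree_hp p g hd1 s
  have hhp0 : hp p g (s + 1) ≠ 0 := by
    intro h0
    rw [h0, natDegree_zero] at hhp
    have := Nat.mul_pos hd1 hD
    omega
  set w : Fin p × Fin J → ℕ := fun x => g.natDegree * (x.1 : ℕ) + p * (x.2 : ℕ) with hw
  set t : Fin p × Fin J → L[X] := fun x =>
    r x.1 x.2 * hp p g (s + 1) ^ (x.1 : ℕ) * X ^ ((x.2 : ℕ) * p ^ (s + 1)) with ht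
  have hdeg : ∀ x : Fin p × Fin J, r x.1 x.2 ≠ 0 →
      (t x).natDegree = (r x.1 x.2).natDegree + p ^ s * w x := by
    intro x hx
    have h1 : r x.1 x.2 * hp p g (s + 1) ^ (x.1 : ℕ) ≠ 0 := mul_ne_zero hx (pow_ne_zero _ hhp0)
    rw [ht]
    simp only
    rw [natDegree_mul h1 (pow_ne_zero _ X_ne_zero), natDegree_mul hx (pow_ne_zero _ hhp0),
      natDegree_pow, hhp, natDegree_pow, natDegree_X, hw, pow_succ]
    ring
  by_contra hcon
  push Not at hcon
  obtain ⟨i₁, j₁, hij⟩ := hcon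
  set S : Finset (Fin p × Fin J) := Finset.univ.filter fun x => r x.1 x.2 ≠ 0 with hS
  have hSne : S.Nonempty := ⟨(i₁, j₁), by rw [hS, Finset.mem_filter]; exact ⟨Finset.mem_univ _, hij⟩⟩
  obtain ⟨x₀, hx₀, hmax⟩ := Finset.exists_max_image S w hSne
  have hx₀r : r x₀.1 x₀.2 ≠ 0 := by
    rw [hS, Finset.mem_filter] at hx₀
    exact hx₀.2
  have hsum : ∑ x : Fin p × Fin J, t x = 0 := by
    rw [Fintype.sum_prod_type]
    exact h
  have hco : ∑ x : Fin p × Fin J, (t x).coeff (t x₀).natDegree = 0 := by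
    rw [← finsetSum_coeff, hsum, coeff_zero]
  have hsingle : ∑ x : Fin p × Fin J, (t x).coeff (t x₀).natDegree = (t x₀).coeff (t x₀).natDegree := by
    refine Finset.sum_eq_single x₀ (fun x _ hne => ?_) (fun hn => absurd (Finset.mem_univ _) hn)
    by_cases hx : r x.1 x.2 = 0
    · have h1 : t x = 0 := by
        rw [ht]
        simp only
        rw [hx, zero_mul, zero_mul]
      rw [h1, coeff_zero]
    · apply coeff_eq_zero_of_natDegree_lt
      rw [hdeg x hx, hdeg x₀ hx₀r]
      have h1 : w x ≤ w x₀ := hmax x (by rw [hS, Finset.mem_filter]; exact ⟨Finset.mem_univ _, hx⟩)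
      have h2 : w x ≠ w x₀ := by
        intro h3
        have h4 := sn_inj p hd x.1.2 x₀.1.2 h3
        exact hne (Prod.ext (Fin.ext h4.1) (Fin.ext h4.2))
      have h3 : w x + 1 ≤ w x₀ := by omega
      have h4 := sn_lt hD (hr x.1 x.2)
      have h5 : p ^ s * (w x + 1) ≤ p ^ s * w x₀ := Nat.mul_le_mul_left _ h3
      rw [Nat.mul_add, mul_one] at h5
      omega
  rw [hsingle, coeff_natDegree, leadingCoeff_eq_zero] at hco
  have h1 : t x₀ ≠ 0 := mul_ne_zero (mul_ne_zero hx₀r (pow_ne_zero _ hhp0))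
    (pow_ne_zero _ X_ne_zero)
  exact h1 hco

theorem step_degree (g : L[X]) (hd : ¬ p ∣ g.natDegree) (s J : ℕ)
    (r : Fin p → Fin J → L[X]) (hr : ∀ i j, (r i j).degree < (p ^ s : ℕ)) :
    (∑ i : Fin p, ∑ j : Fin J, r i j * hp p g (s + 1) ^ (i : ℕ) * X ^ ((j : ℕ) * p ^ (s + 1))).natDegree ≤
      p ^ (s + 1) * (J + g.natDegree) := by
  have hpp : p.Prime := Fact.out
  have hd1 : 1 ≤ g.natDegree := by
    rcases Nat.eq_zero_or_pos g.natDegree with h0 | h0
    · rw [h0] at hd
      exact absurd (dvd_zero p) hd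
    · exact h0
  have hD : 0 < p ^ s := pow_pos hpp.pos s
  have hhp := natDegree_hp p g hd1 s
  refine natDegree_sum_le_of_forall_le _ _ fun i _ => natDegree_sum_le_of_forall_le _ _ fun j _ => ?_
  have h1 : (r i j).natDegree ≤ p ^ s := (sn_lt hD (hr i j)).le
  have h2 : (hp p g (s + 1) ^ (i : ℕ)).natDegree ≤ (i : ℕ) * (g.natDegree * p ^ s) := by
    rw [← hhp]
    exact natDegree_pow_le
  have h3 : ((X : L[X]) ^ ((j : ℕ) * p ^ (s + 1))).natDegree ≤ (j : ℕ) * p ^ (s + 1) :=
    natDegree_X_pow_le _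
  refine (natDegree_mul_le_of_le (natDegree_mul_le_of_le h1 h2) h3).trans ?_
  have hi : (i : ℕ) + 1 ≤ p := i.2
  have hj : (j : ℕ) + 1 ≤ J := j.2
  have h4 : 1 + (i : ℕ) * g.natDegree + (j : ℕ) * p ≤ p * (J + g.natDegree) := by
    have h5 : (i : ℕ) * g.natDegree + g.natDegree ≤ p * g.natDegree := by
      have := Nat.mul_le_mul_right g.natDegree hi
      rwa [Nat.add_mul, one_mul] at this
    have h6 : (j : ℕ) * p + p ≤ J * p := by
      have := Nat.mul_le_mul_right p hj
      rwa [Nat.add_mul, one_mul] at this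
    have h7 : p * (J + g.natDegree) = J * p + p * g.natDegree := by ring
    omega
  calc p ^ s + (i : ℕ) * (g.natDegree * p ^ s) + (j : ℕ) * p ^ (s + 1)
      = p ^ s * (1 + (i : ℕ) * g.natDegree + (j : ℕ) * p) := by rw [pow_succ]; ring
    _ ≤ p ^ s * (p * (J + g.natDegree)) := Nat.mul_le_mul_left _ h4
    _ = p ^ (s + 1) * (J + g.natDegree) := by rw [pow_succ]; ring

end Pool.Agent.Helper78.AST
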