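import Pool.Agent.Helper78.AST.Perturb

/-!
# AST-02 Vanish: the L-function is a polynomial of degree `≤ d - 1` (short)

`d = f.natDegree ≥ 1`, `(d : F) ≠ 0`, `d ≤ n`. Let `i₀ : Fin n` be the index `d - 1`. For `t : F` let `e' = e + Pi.single i₀ t`;
`rs e' = rs e + C t * X ^ d`. Apply `phi_add` with `m = d - 1` (`d ≤ 2 (d - 1) + 2`, and `d = 2 (d - 1) + 2` is impossible for
`d ≥ 1`): `phi f n (rs e') = phi f n (rs e) - coeff d (wp f * (C t * X ^ d * (rs e)⁻¹)) = phi f n (rs e) - t * (d * lead f)`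
(the coefficient of `X ^ d` in `X ^ d * u` is the constant coefficient of `u`; `constantCoeff (wp f) = d * lead f`,
`constantCoeff (rs e)⁻¹ = 1`). Reindexing the sum by `e ↦ e'` (`Equiv.addRight (Pi.single i₀ t)`):
`lsum f ψ n = ψ (- (t * (d * lead f))) * lsum f ψ n` for every `t`. As `ψ ≠ 1` there is `a` with `ψ a ≠ 1`; take `t` with
`- t * (d * lead f) = a`.
-/

set_option autoImplicit false

open Polynomial PowerSeries

namespace Pool.Agent.Helper78.AST

variable {F : Type} [Field F]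

theorem constantCoeff_rs {n : ℕ} (e : Fin n → F) : PowerSeries.constantCoeff (rs e) = 1 := by
  unfold rs
  rw [map_add, map_one, map_sum, Finset.sum_eq_zero, add_zero]
  intro i _
  rw [map_mul, map_pow, PowerSeries.constantCoeff_X, pow_succ, mul_zero, mul_zero]

theorem constantCoeff_wp (f : F[X]) :
    PowerSeries.constantCoeff (wp f) = (f.natDegree : F) * f.leadingCoeff := by
  unfold wp
  rw [map_sum, Finset.sum_range_succ, Finset.sum_eq_zero, zero_add]
  · rw [Nat.sub_self, pow_zero, mul_one, PowerSeries.constantCoeff_C]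
    rfl
  · intro k hk
    have h1 := Finset.mem_range.1 hk
    rw [map_mul, map_pow, PowerSeries.constantCoeff_X, zero_pow (by omega), mul_zero]

theorem rs_add_single {n : ℕ} (e : Fin n → F) (i : Fin n) (t : F) :
    rs (e + Pi.single i t) = rs e + PowerSeries.C t * (PowerSeries.X : F⟦X⟧) ^ ((i : ℕ) + 1) := by
  unfold rs
  rw [add_assoc, add_right_inj]
  have h1 : ∀ j : Fin n, PowerSeries.C ((e + Pi.single i t : Fin n → F) j) * (PowerSeries.X : F⟦X⟧) ^ ((j : ℕ) + 1) =
      PowerSeries.C (e j) * (PowerSeries.X : F⟦X⟧) ^ ((j : ℕ) + 1) +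
        PowerSeries.C ((Pi.single i t : Fin n → F) j) * (PowerSeries.X : F⟦X⟧) ^ ((j : ℕ) + 1) := by
    intro j
    rw [Pi.add_apply, map_add, add_mul]
  rw [Finset.sum_congr rfl (fun j _ => h1 j), Finset.sum_add_distrib, add_right_inj,
    Finset.sum_eq_single i]
  · rw [Pi.single_eq_same]
  · intro j _ hj
    rw [Pi.single_eq_of_ne hj, map_zero, zero_mul]
  · intro h2
    exact absurd (Finset.mem_univ i) h2

theorem lsum_eq_zero [Fintype F] (f : F[X]) (ψ : AddChar F ℂ) (hψ : ψ ≠ 1) (h2 : (2 : F) ≠ 0)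
    (hd : 1 ≤ f.natDegree) (hdF : (f.natDegree : F) ≠ 0) (n : ℕ) (hn : f.natDegree ≤ n) :
    lsum f ψ n = 0 := by
  obtain ⟨a, ha⟩ := AddChar.ne_one_iff.1 hψ
  have hf0 : f ≠ 0 := by
    intro h0
    rw [h0, Polynomial.natDegree_zero] at hd
    omega
  have hD : (f.natDegree : F) * f.leadingCoeff ≠ 0 :=
    mul_ne_zero hdF (Polynomial.leadingCoeff_ne_zero.2 hf0)
  let i₀ : Fin n := ⟨f.natDegree - 1, by omega⟩
  let t : F := -a / ((f.natDegree : F) * f.leadingCoeff)
  have hi : (i₀ : ℕ) + 1 = f.natDegree := by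
    simp only [i₀]
    omega
  have hphi : ∀ e : Fin n → F, phi f n (rs (e + Pi.single i₀ t)) = phi f n (rs e) + a := by
    intro e
    rw [rs_add_single, hi]
    have hR := constantCoeff_rs e
    have h1 := phi_add f (f.natDegree - 1) n (by omega) h2 (rs e)
      (PowerSeries.C t * (PowerSeries.X : F⟦X⟧) ^ f.natDegree) hR
      (by
        rw [Nat.sub_add_cancel hd]
        exact Dvd.intro_left _ rfl)
    rw [h1, if_neg (by omega), add_zero]
    have h3 : wp f * (PowerSeries.C t * (PowerSeries.X : F⟦X⟧) ^ f.natDegree * (rs e)⁻¹) =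
        (PowerSeries.X : F⟦X⟧) ^ f.natDegree * (PowerSeries.C t * wp f * (rs e)⁻¹) := by
      ring
    have h4 : PowerSeries.coeff f.natDegree
        ((PowerSeries.X : F⟦X⟧) ^ f.natDegree * (PowerSeries.C t * wp f * (rs e)⁻¹)) =
        PowerSeries.coeff 0 (PowerSeries.C t * wp f * (rs e)⁻¹) := by
      have h5 := PowerSeries.coeff_X_pow_mul (PowerSeries.C t * wp f * (rs e)⁻¹) f.natDegree 0
      rw [Nat.zero_add] at h5
      exact h5
    rw [h3, h4, PowerSeries.coeff_zero_eq_constantCoeff_apply, map_mul, map_mul,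
      PowerSeries.constantCoeff_C, constantCoeff_wp, PowerSeries.constantCoeff_inv, hR, inv_one,
      mul_one]
    simp only [t]
    rw [div_mul_cancel₀ _ hD]
    ring
  have hsum : lsum f ψ n = ψ a * lsum f ψ n := by
    unfold lsum
    rw [Finset.mul_sum, ← Equiv.sum_comp (Equiv.addRight (Pi.single i₀ t : Fin n → F))]
    refine Finset.sum_congr rfl ?_
    intro e _
    rw [Equiv.coe_addRight, hphi, AddChar.map_add_eq_mul, mul_comm]
  have h6 : (1 - ψ a) * lsum f ψ n = 0 := by
    rw [sub_mul, one_mul, ← hsum, sub_self]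
  rcases mul_eq_zero.1 h6 with h7 | h7
  · exact absurd (sub_eq_zero.1 h7).symm ha
  · exact h7

end Pool.Agent.Helper78.AST
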